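import Pool.Agent.H51.TB.Defs

/-!
# Module D8 (TB): all size classes occur on all levels

For `j + μ ≤ d` the cell `(j, μ - t)`: the rank of `j` is `ρ = μ - t`, and for a window
`[gy, d - gx] ∋ j` not containing all of `j + 1, …, j + ρ` one has `wr = d - gx - j`,
`gx + gy + wr ≥ d - j ≥ μ`, so `g ∉ Lam`; otherwise `wr = ρ`.  So `g ∈ Lam` iff `gy ≤ j`,
`gx + j ≤ d` and `|g| < t`, at least for `g = (t - 1, 0)` (`t - 1 + j + ρ ≤ d`), and `g ∈ Lam` implies
`|g| < t`.

For `d < j + μ` (hence `μ ≤ j`) the cell `(j - ρ, 0)`, `ρ = μ - t`: the levels `j - ρ, …, j - 1` (those of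
them in the window) are the ones before `j`; if `gy ≤ j - ρ` then `wr = ρ`, and if `gy > j - ρ` then
`wr = j - gy` and `gx + gy + wr ≥ j ≥ μ`, so `g ∉ Lam`.  The bidegree `g = (0, t - 1)` is in `Lam`:
`t - 1 ≤ j - ρ`.
-/

namespace Pool.Agent.H51.TB

open Finset Pool.Agent.H18.Ex Pool.Agent.H21.NX Pool.Agent.H18.Ta

private theorem Cell_mem {d m j : ℕ} {c g : ℕ × ℕ} : g ∈ Lam d m c j ↔
    g.2 ≤ j ∧ j + g.1 ≤ d ∧ g.1 + g.2 + wr d c g j < m := by
  unfold Lam
  rw [mem_filter, mem_product, mem_range, mem_range]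
  constructor
  · exact fun h => h.2
  · exact fun h => ⟨⟨by omega, by omega⟩, h⟩

/-- the class is determined by an upper bound and an element -/
private theorem Cell_cls {d m j t : ℕ} {c : ℕ × ℕ} (h1 : ∀ g ∈ Lam d m c j, g.1 + g.2 + 1 ≤ t)
    (h2 : ∃ g ∈ Lam d m c j, g.1 + g.2 + 1 = t) : cls d m c j = t := by
  unfold cls
  apply le_antisymm
  · exact Finset.sup_le h1
  · obtain ⟨g, hg, he⟩ := h2
    rw [← he]
    exact Finset.le_sup (f := fun g : ℕ × ℕ => g.1 + g.2 + 1) hg

private theorem Cell_A {d μ j t : ℕ} (ht : 1 ≤ t) (htμ : t ≤ μ) (hA : j + μ ≤ d) :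
    cls d μ (j, μ - t) j = t := by
  have hrk : rk (d + 1) j (μ - t) j = μ - t := by
    unfold rk
    rw [if_neg (lt_irrefl j), if_pos rfl]
  apply Cell_cls
  · intro g hg
    rw [Cell_mem] at hg
    obtain ⟨g1, g2, g3⟩ := hg
    have hwr : min (μ - t) (d - g.1 - j) ≤ wr d (j, μ - t) g j := by
      have hsub : Finset.Ioc j (j + min (μ - t) (d - g.1 - j)) ⊆
          (range (d + 1)).filter fun i => g.2 ≤ i ∧ i + g.1 ≤ d ∧
            rk (d + 1) j (μ - t) i < rk (d + 1) j (μ - t) j := by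
        intro i hi
        rw [Finset.mem_Ioc] at hi
        rw [mem_filter, mem_range, hrk]
        refine ⟨by omega, by omega, by omega, ?_⟩
        unfold rk
        split_ifs <;> omega
      have hc := card_le_card hsub
      rw [Nat.card_Ioc] at hc
      exact le_trans (by omega) hc
    omega
  · refine ⟨(t - 1, 0), ?_, by simp only; omega⟩
    rw [Cell_mem]
    have hwr : wr d (j, μ - t) (t - 1, 0) j ≤ μ - t := by
      have hsub : ((range (d + 1)).filter fun i => 0 ≤ i ∧ i + (t - 1) ≤ d ∧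
            rk (d + 1) j (μ - t) i < rk (d + 1) j (μ - t) j) ⊆ Finset.Ioc j (j + (μ - t)) := by
        intro i hi
        rw [mem_filter, mem_range, hrk] at hi
        obtain ⟨h1, _, _, h4⟩ := hi
        rw [Finset.mem_Ioc]
        unfold rk at h4
        split_ifs at h4 <;> omega
      have hc := card_le_card hsub
      rw [Nat.card_Ioc] at hc
      exact le_trans hc (by omega)
    simp only
    omega

private theorem Cell_B {d μ j t : ℕ} (h2 : 2 * μ ≤ d) (hj : j ≤ d) (ht : 1 ≤ t) (htμ : t ≤ μ)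
    (hB : d < j + μ) : cls d μ (j - (μ - t), 0) j = t := by
  have hrk : rk (d + 1) (j - (μ - t)) 0 j = μ - t := by
    unfold rk
    split_ifs <;> omega
  apply Cell_cls
  · intro g hg
    rw [Cell_mem] at hg
    obtain ⟨g1, g2, g3⟩ := hg
    have hwr : min (μ - t) (j - g.2) ≤ wr d (j - (μ - t), 0) g j := by
      have hsub : Finset.Ico (j - min (μ - t) (j - g.2)) j ⊆
          (range (d + 1)).filter fun i => g.2 ≤ i ∧ i + g.1 ≤ d ∧
            rk (d + 1) (j - (μ - t)) 0 i < rk (d + 1) (j - (μ - t)) 0 j := by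
        intro i hi
        rw [Finset.mem_Ico] at hi
        rw [mem_filter, mem_range, hrk]
        refine ⟨by omega, by omega, by omega, ?_⟩
        unfold rk
        split_ifs <;> omega
      have hc := card_le_card hsub
      rw [Nat.card_Ico] at hc
      exact le_trans (by omega) hc
    omega
  · refine ⟨(0, t - 1), ?_, by simp only; omega⟩
    rw [Cell_mem]
    have hwr : wr d (j - (μ - t), 0) (0, t - 1) j ≤ μ - t := by
      have hsub : ((range (d + 1)).filter fun i => t - 1 ≤ i ∧ i + 0 ≤ d ∧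
            rk (d + 1) (j - (μ - t)) 0 i < rk (d + 1) (j - (μ - t)) 0 j) ⊆
            Finset.Ico (j - (μ - t)) j := by
        intro i hi
        rw [mem_filter, mem_range, hrk] at hi
        obtain ⟨h1, _, _, h4⟩ := hi
        rw [Finset.mem_Ico]
        unfold rk at h4
        split_ifs at h4 <;> omega
      have hc := card_le_card hsub
      rw [Nat.card_Ico] at hc
      exact le_trans hc (by omega)
    simp only
    omega

theorem cell {d μ j t : ℕ} (h2 : 2 * μ ≤ d) (hj : j ≤ d) (ht : 1 ≤ t) (htμ : t ≤ μ) :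
    ∃ c ∈ KK d, c.2 ≤ μ ∧ cls d μ c j = t := by
  by_cases hA : j + μ ≤ d
  · refine ⟨(j, μ - t), ?_, by simp only; omega, Cell_A ht htμ hA⟩
    rw [mem_KK]
    simp only
    omega
  · refine ⟨(j - (μ - t), 0), ?_, Nat.zero_le _, Cell_B h2 hj ht htμ (by omega)⟩
    rw [mem_KK]
    simp only
    omega

theorem cls_le {d m j : ℕ} (c : ℕ × ℕ) : cls d m c j ≤ m := by
  unfold cls
  apply Finset.sup_le
  intro g hg
  rw [Cell_mem] at hg
  omega

/-- A class is attained. -/
theorem cls_attained {d m j : ℕ} (c : ℕ × ℕ) (h : 1 ≤ cls d m c j) :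
    ∃ g ∈ Lam d m c j, g.1 + g.2 + 1 = cls d m c j := by
  have hne : (Lam d m c j).Nonempty := by
    rw [Finset.nonempty_iff_ne_empty]
    intro h0
    unfold cls at h
    rw [h0, Finset.sup_empty] at h
    exact absurd h (by decide)
  obtain ⟨g, hg, he⟩ := Finset.exists_mem_eq_sup (Lam d m c j) hne
    (fun g : ℕ × ℕ => g.1 + g.2 + 1)
  exact ⟨g, hg, he.symm⟩

end Pool.Agent.H51.TB
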