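import Pool.Agent.H51.TB.Gn

/-!
# Module A2 (TB): the general dimension, first facts

As in `Pool/Agent/H21/NX/GenB.lean` and `SwapX.fat_elim`, `SwapX.finrank_sup` in
`Pool/Agent/H21/NX/Swap.lean`.  For `gn_gd`: the matrix of all conditions (rows `Σ i, S.R (m i)`,
columns `E`, entries `rename (fun v => (i, v)) (S.co (m i) r e)`) and `exists_poly_rank`
(`Pool/Agent/H18/FatToric.lean`): the rank at general positions is at least the rank at a
position where the minimum `gd m` is attained; `finrank ker + finrank range = card E`.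
-/

namespace Pool.Agent.H51.TB

open Finset MvPolynomial

variable {E ν T : Type} [Fintype E] (S : Sys E ν T) {κ κ' : Type}

/-- The values of the conditions as polynomials in the position. -/
private noncomputable def GdX.lam {E ν : Type} [Fintype E] (c : E → MvPolynomial ν ℂ) :
    (E → ℂ) →ₗ[ℂ] MvPolynomial ν ℂ where
  toFun w := ∑ e, w e • c e
  map_add' := fun w w' => by
    simp only [Pi.add_apply, add_smul, sum_add_distrib]
  map_smul' := fun a w => by
    simp only [Pi.smul_apply, smul_eq_mul, mul_smul, smul_sum, RingHom.id_apply]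

private theorem GdX.eval_lam {E ν : Type} [Fintype E] (c : E → MvPolynomial ν ℂ) (q : ν → ℂ)
    (w : E → ℂ) : eval q (GdX.lam c w) = ∑ e, eval q (c e) * w e := by
  unfold GdX.lam
  simp only [LinearMap.coe_mk, AddHom.coe_mk]
  rw [map_sum]
  refine sum_congr rfl fun e _ => ?_
  rw [smul_eval, mul_comm]

private theorem GdX.mem_V_lam (m : κ → T) (p : κ → ν → ℂ) (f : E → ℂ) :
    f ∈ S.V m p ↔ ∀ i (r : S.R (m i)), eval (p i) (GdX.lam (S.co (m i) r) f) = 0 := by
  rw [S.mem_V]
  constructor
  · intro h i r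
    rw [GdX.eval_lam]
    exact h i r
  · intro h i r
    have := h i r
    rwa [GdX.eval_lam] at this

/-- Points of a family with independent values. -/
private theorem GdX.exists_det_ne_zero {ι X : Type} [Fintype ι] [DecidableEq ι] (v : X → ι → ℂ)
    (h : ∀ c : ι → ℂ, (∀ x, ∑ τ, c τ * v x τ = 0) → c = 0) :
    ∃ x : ι → X, (Matrix.of fun τ τ' => v (x τ) τ').det ≠ 0 := by
  classical
  have hspan : Submodule.span ℂ (Set.range v) = ⊤ := by
    by_contra hne
    obtain ⟨f, hf0, hf⟩ := Submodule.exists_le_ker_of_lt_top _ (lt_top_iff_ne_top.mpr hne)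
    have hfe : ∀ w : ι → ℂ, f w = ∑ τ, f (Pi.single τ 1) * w τ := by
      intro w
      conv_lhs => rw [← Finset.univ_sum_single w]
      rw [map_sum]
      refine Finset.sum_congr rfl fun τ _ => ?_
      have : (Pi.single τ (w τ) : ι → ℂ) = w τ • Pi.single τ 1 := by
        rw [← Pi.single_smul, smul_eq_mul, mul_one]
      rw [this, map_smul, smul_eq_mul, mul_comm]
    have hc := h (fun τ => f (Pi.single τ 1)) (fun x => by
      rw [← hfe]
      exact LinearMap.mem_ker.mp (hf (Submodule.subset_span ⟨x, rfl⟩)))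
    apply hf0
    ext w
    have := congrFun hc w
    simpa using this
  obtain ⟨b, hb, hbs, hbl⟩ := exists_linearIndependent ℂ (Set.range v)
  rw [hspan] at hbs
  let B : Module.Basis b ℂ (ι → ℂ) := Module.Basis.mk hbl (by
    rw [Subtype.range_coe_subtype, Set.ofPred_mem_eq, hbs])
  have hfin : Finite b := Module.Finite.finite_basis B
  let _ : Fintype b := Fintype.ofFinite b
  have hcard : Fintype.card ι = Fintype.card b := by
    rw [← Module.finrank_eq_card_basis B, Module.finrank_fintype_fun_eq_card]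
  let e : ι ≃ b := Fintype.equivOfCardEq hcard
  have hx : ∀ τ : ι, ∃ x : X, v x = (e τ : ι → ℂ) := fun τ => hb (e τ).2
  choose x hx using hx
  refine ⟨x, ?_⟩
  have hli : LinearIndependent ℂ (Matrix.of fun τ τ' => v (x τ) τ').row := by
    have : (Matrix.of fun τ τ' => v (x τ) τ').row = fun τ => (e τ : ι → ℂ) := by
      funext τ
      exact hx τ
    rw [this]
    exact hbl.comp e e.injective
  rw [Matrix.linearIndependent_rows_iff_isUnit, Matrix.isUnit_iff_isUnit_det] at hli
  exact hli.ne_zero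

/-- Semicontinuity. -/
private theorem GdX.gn_finrank_le (m : κ → T) (p₀ : κ → ν → ℂ) :
    Gn κ ν fun p => Module.finrank ℂ (S.V m p) ≤ Module.finrank ℂ (S.V m p₀) := by
  classical
  obtain ⟨W', hW'⟩ := Submodule.exists_isCompl (S.V m p₀)
  let b := Module.finBasis ℂ W'
  let v : (Σ a, S.R (m a)) → Fin (Module.finrank ℂ W') → ℂ := fun x τ =>
    eval (p₀ x.1) (GdX.lam (S.co (m x.1) x.2) (b τ : E → ℂ))
  obtain ⟨x, hx⟩ := GdX.exists_det_ne_zero v (by
    intro c hc
    have h1 : ((∑ τ, c τ • b τ : W') : E → ℂ) ∈ S.V m p₀ := by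
      rw [GdX.mem_V_lam]
      intro a s
      have h2 := hc ⟨a, s⟩
      rw [Submodule.coe_sum, map_sum, map_sum, ← h2]
      refine Finset.sum_congr rfl fun τ _ => ?_
      rw [Submodule.coe_smul, map_smul, smul_eval]
    have h3 : ((∑ τ, c τ • b τ : W') : E → ℂ) = 0 := by
      have := Submodule.disjoint_def.mp hW'.disjoint _ h1 (∑ τ, c τ • b τ : W').2
      exact this
    have h4 : (∑ τ, c τ • b τ : W') = 0 := Subtype.ext h3
    have h5 := Fintype.linearIndependent_iff.mp b.linearIndependent c h4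
    exact funext h5)
  let M : Matrix (Fin (Module.finrank ℂ W')) (Fin (Module.finrank ℂ W')) (MvPolynomial (κ × ν) ℂ) :=
    Matrix.of fun τ τ' => rename (fun j => ((x τ).1, j))
      (GdX.lam (S.co (m (x τ).1) (x τ).2) (b τ' : E → ℂ))
  have hM : ∀ p : κ → ν → ℂ, eval (fun x => p x.1 x.2) M.det =
      (Matrix.of fun τ τ' => eval (p (x τ).1)
        (GdX.lam (S.co (m (x τ).1) (x τ).2) (b τ' : E → ℂ))).det := by
    intro p
    rw [RingHom.map_det]
    congr 1
    ext τ τ'
    rw [RingHom.mapMatrix_apply, Matrix.map_apply]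
    simp only [M, Matrix.of_apply]
    rw [eval_rename]
    rfl
  refine ⟨M.det, ?_, fun p hp => ?_⟩
  · intro h0
    apply hx
    have := hM p₀
    rw [h0, map_zero] at this
    exact this.symm
  · rw [hM] at hp
    let Φ : (E → ℂ) →ₗ[ℂ] (Fin (Module.finrank ℂ W') → ℂ) :=
      LinearMap.pi fun τ => (aeval (p (x τ).1)).toLinearMap ∘ₗ GdX.lam (S.co (m (x τ).1) (x τ).2)
    have hΦ : ∀ w τ, Φ w τ = eval (p (x τ).1) (GdX.lam (S.co (m (x τ).1) (x τ).2) w) := by
      intro w τ
      simp only [Φ, LinearMap.pi_apply, LinearMap.comp_apply, AlgHom.toLinearMap_apply]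
      rw [aeval_eq_eval]
    have hle : S.V m p ≤ LinearMap.ker Φ := by
      intro w hw
      rw [LinearMap.mem_ker]
      funext τ
      rw [hΦ]
      exact (GdX.mem_V_lam S m p w).mp hw (x τ).1 (x τ).2
    have hsurj : LinearMap.range Φ = ⊤ := by
      rw [LinearMap.range_eq_top]
      intro y
      rw [← isUnit_iff_ne_zero, ← Matrix.isUnit_iff_isUnit_det] at hp
      obtain ⟨c, hc⟩ := (Matrix.mulVec_surjective_iff_isUnit.mpr hp) y
      refine ⟨∑ τ', c τ' • (b τ' : E → ℂ), ?_⟩
      rw [← hc]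
      funext τ
      rw [hΦ, map_sum, map_sum, Matrix.mulVec, dotProduct]
      refine Finset.sum_congr rfl fun τ' _ => ?_
      rw [map_smul, smul_eval, Matrix.of_apply, mul_comm]
    have h1 := LinearMap.finrank_range_add_finrank_ker Φ
    rw [hsurj, finrank_top, Module.finrank_fintype_fun_eq_card, Fintype.card_fin] at h1
    have h2 := Submodule.finrank_add_eq_of_isCompl hW'
    have h3 := Submodule.finrank_mono hle
    omega

/-- The conditions of two families of points. -/
theorem V_elim (m : κ → T) (n : κ' → T) (p : κ → ν → ℂ) (q : κ' → ν → ℂ) :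
    S.V (Sum.elim m n) (Sum.elim p q) = S.V m p ⊓ S.V n q := by
  ext f
  rw [Submodule.mem_inf, S.mem_V, S.mem_V, S.mem_V]
  constructor
  · intro h
    exact ⟨fun i => h (Sum.inl i), fun i => h (Sum.inr i)⟩
  · rintro ⟨h1, h2⟩ (i | i)
    · exact h1 i
    · exact h2 i

theorem finrank_V_sup (m : κ → T) (n : κ' → T) (p : κ → ν → ℂ) (q : κ' → ν → ℂ) :
    Module.finrank ℂ (S.V m p ⊔ S.V n q : Submodule ℂ (E → ℂ)) +
      Module.finrank ℂ (S.V (Sum.elim m n) (Sum.elim p q)) =
      Module.finrank ℂ (S.V m p) + Module.finrank ℂ (S.V n q) := by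
  rw [V_elim]
  exact Submodule.finrank_sup_add_finrank_inf_eq _ _

theorem gd_le (m : κ → T) (p : κ → ν → ℂ) : S.gd m ≤ Module.finrank ℂ (S.V m p) := by
  exact Nat.sInf_le ⟨p, rfl⟩

theorem gd_attained (m : κ → T) : ∃ p : κ → ν → ℂ, Module.finrank ℂ (S.V m p) = S.gd m := by
  obtain ⟨p, hp⟩ := Nat.sInf_mem (Set.range_nonempty
    fun p : κ → ν → ℂ => Module.finrank ℂ (S.V m p))
  exact ⟨p, hp⟩

theorem gd_le_card (m : κ → T) : S.gd m ≤ Fintype.card E := by
  obtain ⟨p, hp⟩ := gd_attained S m
  rw [← hp]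
  have := Submodule.finrank_le (S.V m p)
  rwa [Module.finrank_fintype_fun_eq_card] at this

/-- The minimal dimension is attained at general positions. -/
theorem gn_gd [Fintype κ] (m : κ → T) :
    Gn κ ν fun p => Module.finrank ℂ (S.V m p) = S.gd m := by
  obtain ⟨p₀, hp₀⟩ := gd_attained S m
  refine (GdX.gn_finrank_le S m p₀).mono fun p hp => ?_
  rw [hp₀] at hp
  exact le_antisymm hp (gd_le S m p)

theorem gd_comp_equiv (e : κ' ≃ κ) (m : κ → T) : S.gd (fun i => m (e i)) = S.gd m := by
  have key : ∀ p : κ → ν → ℂ, S.V (fun i => m (e i)) (fun i => p (e i)) = S.V m p := by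
    intro p
    ext f
    rw [S.mem_V, S.mem_V]
    constructor
    · intro h i
      obtain ⟨j, rfl⟩ := e.surjective i
      exact h j
    · intro h i
      exact h (e i)
  apply le_antisymm
  · obtain ⟨p₀, hp₀⟩ := gd_attained S m
    rw [← hp₀, ← key p₀]
    exact gd_le S _ _
  · obtain ⟨p₀, hp₀⟩ := gd_attained S (fun i => m (e i))
    have h1 := key fun j => p₀ (e.symm j)
    simp only [Equiv.symm_apply_apply] at h1
    rw [← hp₀, h1]
    exact gd_le S _ _

/-- Fewer points: the dimension is larger. -/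
theorem gd_elim_le [Fintype κ] [Fintype κ'] (m : κ → T) (n : κ' → T) :
    S.gd (Sum.elim m n) ≤ S.gd m := by
  obtain ⟨p₀, hp₀⟩ := gd_attained S m
  rw [← hp₀]
  refine (gd_le S (Sum.elim m n) (Sum.elim p₀ 0)).trans (Submodule.finrank_mono ?_)
  rw [V_elim]
  exact inf_le_left

theorem gd_empty [IsEmpty κ] (m : κ → T) : S.gd m = Fintype.card E := by
  obtain ⟨p₀, hp₀⟩ := gd_attained S m
  have h : S.V m p₀ = ⊤ := by
    rw [eq_top_iff]
    intro f _
    rw [S.mem_V]
    exact fun i => isEmptyElim i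
  rw [← hp₀, h, finrank_top, Module.finrank_fintype_fun_eq_card]

theorem gd_unit (t : T) : S.gd (fun _ : Unit => t) + S.size t = Fintype.card E := by
  have h1 := gd_le_card S fun _ : Unit => t
  unfold Sys.size
  omega

end Pool.Agent.H51.TB
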