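import Pool.Agent.H51.TB.LBas
import Pool.Agent.H51.TB.Gd

/-!
# Module B2 (TB): the size of a type on a level

Lower bound: at the position `q` with `q = 1` at the first `X`-variable and at the first
`Y`-variable and `q = 0` at the others, consider the conditions `β` which vanish at these two
variables and have bidegree `g ∈ Λ`; there are `multichoose (a-1) gx * multichoose (b-1) gy` of them for
each `g`.  `tcr q α β` is `1` if `α = β` off the two special variables and `0` otherwise, and for `α` on
the level `j` this determines `α` (first `X`-coordinate `d - j - gx`, first `Y`-coordinate `j - gy`).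
So these conditions say that the coefficients of different exponents vanish.

Upper bound: the number of conditions is at most the number of multi-indices `β : Z a b → ℕ` of degree
less than `t`, which is `ell (a + b) t`.
-/

namespace Pool.Agent.H51.TB

open Finset MvPolynomial Pool.Agent.H18.Ex Pool.Agent.H21.NX Pool.Agent.H18.Ta

private theorem LRank_card_Sx {ι : Type} [Fintype ι] [DecidableEq ι] (n : ℕ) :
    (Sx ι n).card = Nat.multichoose (Fintype.card ι) n := by
  rw [← card_univ, ← card_finsuppAntidiag_nat_eq_multichoose]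
  symm
  apply card_bij (fun (α : ι →₀ ℕ) _ => (⇑α : ι → ℕ))
  · intro α hα
    rw [mem_finsuppAntidiag] at hα
    exact mem_Sx.2 hα.1
  · intro α _ β _ h
    exact DFunLike.coe_injective h
  · intro f hf
    refine ⟨Finsupp.equivFunOnFinite.symm f, ?_, rfl⟩
    rw [mem_finsuppAntidiag]
    exact ⟨mem_Sx.1 hf, subset_univ _⟩

/-- the special variables -/
private def LRank_sp {a b : ℕ} : Z (a + 1) (b + 1) → Prop
  | Sum.inl i => i = 0
  | Sum.inr i => i = 0

private instance {a b : ℕ} : DecidablePred (LRank_sp (a := a) (b := b)) := fun z => by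
  rcases z with i | i <;> unfold LRank_sp <;> infer_instance

/-- the special position -/
private noncomputable def LRank_q (a b : ℕ) (z : Z (a + 1) (b + 1)) : ℂ := if LRank_sp z then 1 else 0

/-- `α` with the special coordinates removed -/
private def LRank_red {a b : ℕ} (α : Z (a + 1) (b + 1) → ℕ) (z : Z (a + 1) (b + 1)) : ℕ :=
  if LRank_sp z then 0 else α z

private theorem LRank_sp_inl {a b : ℕ} : LRank_sp (Sum.inl 0 : Z (a + 1) (b + 1)) := rfl

private theorem LRank_sp_inr {a b : ℕ} : LRank_sp (Sum.inr 0 : Z (a + 1) (b + 1)) := rfl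

private theorem LRank_nsp_inl {a b : ℕ} (i : Fin a) : ¬ LRank_sp (Sum.inl i.succ : Z (a + 1) (b + 1)) :=
  fun h => Fin.succ_ne_zero i h

private theorem LRank_nsp_inr {a b : ℕ} (i : Fin b) : ¬ LRank_sp (Sum.inr i.succ : Z (a + 1) (b + 1)) :=
  fun h => Fin.succ_ne_zero i h

private theorem LRank_xd {a b : ℕ} (α : Z (a + 1) (b + 1) → ℕ) :
    xd α = α (Sum.inl 0) + xd (LRank_red α) := by
  unfold xd
  rw [Fin.sum_univ_succ, Fin.sum_univ_succ (fun i => LRank_red α (Sum.inl i))]
  have h0 : LRank_red α (Sum.inl 0) = 0 := by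
    unfold LRank_red
    rw [if_pos LRank_sp_inl]
  have h1 : ∀ i : Fin a, LRank_red α (Sum.inl i.succ) = α (Sum.inl i.succ) := by
    intro i
    unfold LRank_red
    rw [if_neg (LRank_nsp_inl i)]
  rw [h0, Nat.zero_add]
  rw [sum_congr rfl fun i _ => h1 i]

private theorem LRank_yd {a b : ℕ} (α : Z (a + 1) (b + 1) → ℕ) :
    yd α = α (Sum.inr 0) + yd (LRank_red α) := by
  unfold yd
  rw [Fin.sum_univ_succ, Fin.sum_univ_succ (fun i => LRank_red α (Sum.inr i))]
  have h0 : LRank_red α (Sum.inr 0) = 0 := by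
    unfold LRank_red
    rw [if_pos LRank_sp_inr]
  have h1 : ∀ i : Fin b, LRank_red α (Sum.inr i.succ) = α (Sum.inr i.succ) := by
    intro i
    unfold LRank_red
    rw [if_neg (LRank_nsp_inr i)]
  rw [h0, Nat.zero_add]
  rw [sum_congr rfl fun i _ => h1 i]

private theorem LRank_eq {a b d j : ℕ} {α α' : Z (a + 1) (b + 1) → ℕ} (h : α ∈ Bx (a + 1) (b + 1) d j)
    (h' : α' ∈ Bx (a + 1) (b + 1) d j) (hr : LRank_red α = LRank_red α') : α = α' := by
  rw [mem_Bx] at h h'
  have hx := LRank_xd α
  have hx' := LRank_xd α'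
  have hy := LRank_yd α
  have hy' := LRank_yd α'
  rw [hr] at hx hy
  funext z
  by_cases hz : LRank_sp z
  · rcases z with i | i
    · have : i = 0 := hz
      subst this
      omega
    · have : i = 0 := hz
      subst this
      omega
  · have := congrFun hr z
    unfold LRank_red at this
    rwa [if_neg hz, if_neg hz] at this

private theorem LRank_tcr {a b : ℕ} (α β : Z (a + 1) (b + 1) → ℕ) :
    tcr (LRank_q a b) α (LRank_red β) = if LRank_red α = LRank_red β then 1 else 0 := by
  unfold tcr
  split_ifs with h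
  · apply prod_eq_one
    intro z _
    have h1 := congrFun h z
    unfold LRank_q
    by_cases hz : LRank_sp z
    · have h2 : LRank_red β z = 0 := by
        unfold LRank_red
        rw [if_pos hz]
      rw [if_pos hz, h2]
      simp
    · have h2 : LRank_red α z = α z := by
        unfold LRank_red
        rw [if_neg hz]
      rw [if_neg hz, ← h1, h2]
      simp
  · have h1 : ∃ z, LRank_red α z ≠ LRank_red β z := by
      by_contra hc
      push Not at hc
      exact h (funext hc)
    obtain ⟨z, hz⟩ := h1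
    apply prod_eq_zero (mem_univ z)
    have hsp : ¬ LRank_sp z := by
      intro hs
      apply hz
      unfold LRank_red
      rw [if_pos hs, if_pos hs]
    have h2 : LRank_red α z = α z := by
      unfold LRank_red
      rw [if_neg hsp]
    rw [h2] at hz
    unfold LRank_q
    rw [if_neg hsp]
    rcases Nat.lt_or_gt_of_ne hz with h3 | h3
    · rw [Nat.choose_eq_zero_of_lt h3]
      simp
    · rw [zero_pow (by omega), mul_zero]

/-- the exponents whose coefficients vanish -/
private def LRank_T (a b d j : ℕ) (Λ : Finset (ℕ × ℕ)) : Finset (Z (a + 1) (b + 1) → ℕ) :=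
  (Bx (a + 1) (b + 1) d j).filter fun α => (xd (LRank_red α), yd (LRank_red α)) ∈ Λ

private theorem LRank_card_fib {a b d j : ℕ} (hj : j ≤ d) (g : ℕ × ℕ) (hg : j + g.1 ≤ d ∧ g.2 ≤ j) :
    ((Bx (a + 1) (b + 1) d j).filter fun α => (xd (LRank_red α), yd (LRank_red α)) = g).card =
      Nat.multichoose a g.1 * Nat.multichoose b g.2 := by
  have h1 := LRank_card_Sx (ι := Fin a) g.1
  have h2 := LRank_card_Sx (ι := Fin b) g.2
  rw [Fintype.card_fin] at h1 h2
  rw [← h1, ← h2, ← card_product]
  symm
  have hext : ∀ (u : Fin a → ℕ) (v : Fin b → ℕ), xd (LRank_red (Sum.elim (Fin.cons (d - j - g.1) u : Fin (a + 1) → ℕ)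
      (Fin.cons (j - g.2) v : Fin (b + 1) → ℕ))) = ∑ i, u i := by
    intro u v
    unfold xd
    rw [Fin.sum_univ_succ]
    have h0 : LRank_red (Sum.elim (Fin.cons (d - j - g.1) u : Fin (a + 1) → ℕ) (Fin.cons (j - g.2) v : Fin (b + 1) → ℕ))
        (Sum.inl 0) = 0 := by
      unfold LRank_red
      rw [if_pos LRank_sp_inl]
    rw [h0, Nat.zero_add]
    refine sum_congr rfl fun i _ => ?_
    unfold LRank_red
    rw [if_neg (LRank_nsp_inl i)]
    simp
  have hext' : ∀ (u : Fin a → ℕ) (v : Fin b → ℕ), yd (LRank_red (Sum.elim (Fin.cons (d - j - g.1) u : Fin (a + 1) → ℕ)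
      (Fin.cons (j - g.2) v : Fin (b + 1) → ℕ))) = ∑ i, v i := by
    intro u v
    unfold yd
    rw [Fin.sum_univ_succ]
    have h0 : LRank_red (Sum.elim (Fin.cons (d - j - g.1) u : Fin (a + 1) → ℕ) (Fin.cons (j - g.2) v : Fin (b + 1) → ℕ))
        (Sum.inr 0) = 0 := by
      unfold LRank_red
      rw [if_pos LRank_sp_inr]
    rw [h0, Nat.zero_add]
    refine sum_congr rfl fun i _ => ?_
    unfold LRank_red
    rw [if_neg (LRank_nsp_inr i)]
    simp
  apply card_bij (fun (w : (Fin a → ℕ) × (Fin b → ℕ)) _ =>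
    (Sum.elim (Fin.cons (d - j - g.1) w.1 : Fin (a + 1) → ℕ) (Fin.cons (j - g.2) w.2 : Fin (b + 1) → ℕ) : Z (a + 1) (b + 1) → ℕ))
  · intro w hw
    rw [mem_product, mem_Sx, mem_Sx] at hw
    rw [mem_filter, mem_Bx]
    have hx := LRank_xd (Sum.elim (Fin.cons (d - j - g.1) w.1 : Fin (a + 1) → ℕ) (Fin.cons (j - g.2) w.2 : Fin (b + 1) → ℕ))
    have hy := LRank_yd (Sum.elim (Fin.cons (d - j - g.1) w.1 : Fin (a + 1) → ℕ) (Fin.cons (j - g.2) w.2 : Fin (b + 1) → ℕ))
    rw [hext, hw.1] at hx
    rw [hext', hw.2] at hy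
    simp only [Sum.elim_inl, Sum.elim_inr, Fin.cons_zero] at hx hy
    refine ⟨⟨by omega, by omega⟩, ?_⟩
    rw [hext, hext', hw.1, hw.2]
  · intro w _ w' _ h
    ext i
    · have := congrFun h (Sum.inl i.succ)
      simpa using this
    · have := congrFun h (Sum.inr i.succ)
      simpa using this
  · intro α hα
    rw [mem_filter, mem_Bx] at hα
    obtain ⟨⟨h3, h4⟩, h5⟩ := hα
    have hx := LRank_xd α
    have hy := LRank_yd α
    have h6 : xd (LRank_red α) = g.1 := by rw [← h5]
    have h7 : yd (LRank_red α) = g.2 := by rw [← h5]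
    have h8 : xd α = α (Sum.inl 0) + ∑ i : Fin a, α (Sum.inl i.succ) := by
      unfold xd
      exact Fin.sum_univ_succ _
    have h9 : yd α = α (Sum.inr 0) + ∑ i : Fin b, α (Sum.inr i.succ) := by
      unfold yd
      exact Fin.sum_univ_succ _
    refine ⟨(fun i => α (Sum.inl i.succ), fun i => α (Sum.inr i.succ)), ?_, ?_⟩
    · rw [mem_product, mem_Sx, mem_Sx]
      constructor
      · change ∑ i : Fin a, α (Sum.inl i.succ) = g.1
        omega
      · change ∑ i : Fin b, α (Sum.inr i.succ) = g.2
        omega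
    · funext z
      rcases z with i | i
      · refine Fin.cases ?_ (fun i => ?_) i
        · change d - j - g.1 = α (Sum.inl 0)
          omega
        · rfl
      · refine Fin.cases ?_ (fun i => ?_) i
        · change j - g.2 = α (Sum.inr 0)
          omega
        · rfl

private theorem LRank_card_T {a b d j : ℕ} (hj : j ≤ d) (Λ : Finset (ℕ × ℕ))
    (hΛ : ∀ g ∈ Λ, j + g.1 ≤ d ∧ g.2 ≤ j) :
    (LRank_T a b d j Λ).card = ∑ g ∈ Λ, Eg (a + 1) (b + 1) g := by
  have h1 : (LRank_T a b d j Λ).card =
      ∑ g ∈ Λ, ((LRank_T a b d j Λ).filter fun α => (xd (LRank_red α), yd (LRank_red α)) = g).card := by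
    apply card_eq_sum_card_fiberwise
    intro α hα
    unfold LRank_T at hα
    rw [Finset.mem_coe, mem_filter] at hα
    exact hα.2
  rw [h1]
  refine sum_congr rfl fun g hg => ?_
  rw [show Eg (a + 1) (b + 1) g = Nat.multichoose a g.1 * Nat.multichoose b g.2 from rfl,
    ← LRank_card_fib hj g (hΛ g hg)]
  congr 1
  unfold LRank_T
  rw [filter_filter]
  apply filter_congr
  intro α _
  constructor
  · exact fun h => h.2
  · intro h
    exact ⟨by rw [h]; exact hg, h⟩

theorem le_size {a b d j : ℕ} (ha : 1 ≤ a) (hb : 1 ≤ b) (hj : j ≤ d) (Λ : Finset (ℕ × ℕ))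
    (hΛ : ∀ g ∈ Λ, j + g.1 ≤ d ∧ g.2 ≤ j) : ∑ g ∈ Λ, Eg a b g ≤ (LSys a b d j).size Λ := by
  obtain ⟨a, rfl⟩ : ∃ a', a = a' + 1 := ⟨a - 1, by omega⟩
  obtain ⟨b, rfl⟩ : ∃ b', b = b' + 1 := ⟨b - 1, by omega⟩
  rw [← LRank_card_T hj Λ hΛ]
  let T : Finset {α // α ∈ Bx (a + 1) (b + 1) d j} := univ.filter fun α => α.1 ∈ LRank_T a b d j Λ
  have hT : T.card = (LRank_T a b d j Λ).card := by
    apply card_bij (fun (α : {α // α ∈ Bx (a + 1) (b + 1) d j}) _ => α.1)
    · intro α hα
      exact (mem_filter.1 hα).2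
    · intro α _ β _ h
      exact Subtype.ext h
    · intro α hα
      have h1 : α ∈ Bx (a + 1) (b + 1) d j := by
        unfold LRank_T at hα
        exact (mem_filter.1 hα).1
      exact ⟨⟨α, h1⟩, mem_filter.2 ⟨mem_univ _, hα⟩, rfl⟩
  -- the solutions vanish on `T`
  have hvan : ∀ f ∈ (LSys (a + 1) (b + 1) d j).V (fun _ : Unit => Λ) (fun _ => LRank_q a b), ∀ α ∈ T, f α = 0 := by
    intro f hf α hα
    rw [mem_LV] at hf
    have hα' : (xd (LRank_red α.1), yd (LRank_red α.1)) ∈ Λ := by
      have := (mem_filter.1 hα).2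
      unfold LRank_T at this
      exact (mem_filter.1 this).2
    have h1 := hf () (LRank_red α.1) hα'
    rw [sum_eq_single α] at h1
    · rw [LRank_tcr, if_pos rfl, one_mul] at h1
      exact h1
    · intro β _ hβ
      rw [LRank_tcr, if_neg, zero_mul]
      intro h
      exact hβ (Subtype.ext (LRank_eq β.2 α.2 h))
    · intro h
      exact absurd (mem_univ α) h
  have hfin : Module.finrank ℂ ((LSys (a + 1) (b + 1) d j).V (fun _ : Unit => Λ) (fun _ => LRank_q a b)) ≤
      Fintype.card {α // α ∈ Bx (a + 1) (b + 1) d j} - T.card := by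
    let φ : (LSys (a + 1) (b + 1) d j).V (fun _ : Unit => Λ) (fun _ => LRank_q a b) →ₗ[ℂ] ({α // α ∉ T} → ℂ) :=
      (LinearMap.funLeft ℂ ℂ (fun α : {α // α ∉ T} => α.1)).comp (Submodule.subtype _)
    have hφ : Function.Injective φ := by
      rw [← LinearMap.ker_eq_bot, LinearMap.ker_eq_bot']
      intro f hf
      apply Subtype.ext
      funext α
      by_cases hα : α ∈ T
      · exact hvan f.1 f.2 α hα
      · exact congrFun hf ⟨α, hα⟩
    have h1 := LinearMap.finrank_le_finrank_of_injective hφ
    rw [Module.finrank_fintype_fun_eq_card] at h1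
    have h2 : Fintype.card {α // α ∉ T} = Fintype.card {α // α ∈ Bx (a + 1) (b + 1) d j} - T.card := by
      rw [Fintype.card_subtype_compl, Fintype.card_coe, Fintype.card_coe]
    rw [h2] at h1
    exact h1
  have hgd := gd_le (LSys (a + 1) (b + 1) d j) (fun _ : Unit => Λ) (fun _ => LRank_q a b)
  have hc : T.card ≤ Fintype.card {α // α ∈ Bx (a + 1) (b + 1) d j} := card_le_univ T
  unfold Sys.size
  omega

theorem size_le {a b d j : ℕ} (ha : 1 ≤ a) (Λ : Finset (ℕ × ℕ)) (t : ℕ)
    (hΛ : ∀ g ∈ Λ, g.1 + g.2 < t) : (LSys a b d j).size Λ ≤ ell (a + b) t := by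
  obtain ⟨p, hp⟩ := gd_attained (LSys a b d j) (fun _ : Unit => Λ)
  have : Finite {β : Z a b → ℕ // (xd β, yd β) ∈ Λ} := finite_idx a b Λ
  letI : Fintype {β : Z a b → ℕ // (xd β, yd β) ∈ Λ} := Fintype.ofFinite _
  -- the number of conditions
  have hcard : Fintype.card {β : Z a b → ℕ // (xd β, yd β) ∈ Λ} ≤ ell (a + b) t := by
    rcases Nat.eq_zero_or_pos t with rfl | ht
    · have : IsEmpty {β : Z a b → ℕ // (xd β, yd β) ∈ Λ} := ⟨fun β => by
        have := hΛ _ β.2
        omega⟩
      rw [Fintype.card_eq_zero]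
      exact Nat.zero_le _
    · have hsum : ∀ β : Z a b → ℕ, ∑ z, β z = xd β + yd β := fun β => Fintype.sum_sum_type β
      let ψ : {β : Z a b → ℕ // (xd β, yd β) ∈ Λ} → {x // x ∈ Sx (Option (Z a b)) (t - 1)} := fun β =>
        ⟨fun o => o.elim (t - 1 - ∑ z, β.1 z) β.1, by
          rw [mem_Sx, Fintype.sum_option]
          have h1 := hΛ _ β.2
          have h2 := hsum β.1
          simp only [Option.elim_none, Option.elim_some]
          omega⟩
      have hψ : Function.Injective ψ := by
        intro β γ h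
        apply Subtype.ext
        funext z
        have h1 := congrArg Subtype.val h
        exact congrFun h1 (some z)
      have h1 := Fintype.card_le_of_injective ψ hψ
      rw [Fintype.card_coe, LRank_card_Sx, Fintype.card_option, Fintype.card_sum, Fintype.card_fin, Fintype.card_fin,
        Nat.multichoose_eq] at h1
      refine h1.trans (le_of_eq ?_)
      unfold ell
      have h2 : a + b + 1 + (t - 1) - 1 = (a + b) + (t - 1) := by omega
      have h3 : t + (a + b) - 1 = (a + b) + (t - 1) := by omega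
      rw [h2, h3]
      exact (Nat.choose_symm_add (a := a + b) (b := t - 1)).symm
  -- the linear map
  let L : ({α // α ∈ Bx a b d j} → ℂ) →ₗ[ℂ] ({β : Z a b → ℕ // (xd β, yd β) ∈ Λ} → ℂ) :=
    { toFun := fun f β => ∑ α : {α // α ∈ Bx a b d j}, tcr (p ()) α.1 β.1 * f α
      map_add' := by
        intro f g
        funext β
        simp only [Pi.add_apply, mul_add, sum_add_distrib]
      map_smul' := by
        intro c f
        funext β
        simp only [Pi.smul_apply, smul_eq_mul, RingHom.id_apply, mul_sum]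
        exact sum_congr rfl fun α _ => by ring }
  have hker : LinearMap.ker L = (LSys a b d j).V (fun _ : Unit => Λ) p := by
    ext f
    rw [LinearMap.mem_ker, mem_LV]
    constructor
    · intro h i β hβ
      exact congrFun h ⟨β, hβ⟩
    · intro h
      funext β
      exact h () β.1 β.2
  have hrn := LinearMap.finrank_range_add_finrank_ker L
  rw [hker, hp, Module.finrank_fintype_fun_eq_card] at hrn
  have hr : Module.finrank ℂ (LinearMap.range L) ≤ Fintype.card {β : Z a b → ℕ // (xd β, yd β) ∈ Λ} := by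
    have := Submodule.finrank_le (LinearMap.range L)
    rwa [Module.finrank_fintype_fun_eq_card] at this
  unfold Sys.size
  omega

end Pool.Agent.H51.TB
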