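import Pool.Agent.H51.TB.Eul
import Pool.Agent.H51.TB.LBas
import Pool.Agent.H51.TB.Gd
import Pool.Agent.H18.Ta.Key
import Pool.Agent.H18.Ex.OnePar

/-!
# Module C2 (TB): the limit lemma

Compare `Pool/Agent/H18/Ta/Core.lean` (the same argument for two variables).

Proof.  By `gn_gd` and `Gn.all` there are positions `p i` such that `V (Lam ... j) p = ⊥` for all
levels `j ≤ d`.  Let `e i = ex (d+1) u ρ`, `c i = (u, ρ)`, `kap = kap (d+1)` and
`key i j = e i * j + kap j`; by `key_lt` (with `ℓ = d + 1`) the keys are ordered as the ranks, and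
the ranks are different (`rk_inj`).  We claim that for some `t` the positions
`p_t i = (x_i, t^(e i) y_i)` prove `GI`.  Otherwise for all `t` there is a nonzero `f` (on
`Sx (Z a b) d`) with `∑_α f_α tcr (p_t i) α β = 0` for all `i`, `|β| < m i`; write
`f_α = t^(kap (yd α)) g_α` and multiply by `t^(e i * yd β)` (`tcr_scale`):
`∑_j t^(key i j) T_j = 0`, `T_j = ∑_{α on level j} g_α tcr (p i) α β` (as in Core, an additional factor
`X` takes care of `t = 0`).  By `exists_poly_solution` there are polynomials `g_α(t)`, not all zero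
at `t = 0`, which satisfy these identities as polynomials in `t`.

Fix `i`, a level `j` and `β` with `(xd β, yd β) ∈ Lam d (m i) (c i) j`.  Let `S` be the set of the levels
of the window `[yd β, d - xd β]` of rank smaller than that of `j`; `S.card = wr d (c i) (xd β, yd β) j`,
so `|β| + S.card < m i` and `weighted` gives `∑_{j'} ∏_{u ∈ S} (j' - u) t^(key i j') T_{j'} = 0`.  Take
the coefficient of `t^(key i j)`: the levels `j'` outside of the window have `T_{j'} = 0` (`tcr_zero`),
those of smaller rank are in `S`, those of larger rank have a larger key.  So `T_j(0) = 0` (the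
product over `S` is nonzero at `j`).  Hence the values `g_α(0)` on the level `j` are in
`V (Lam ... j) p = ⊥` for all `j`, a contradiction.
-/

namespace Pool.Agent.H51.TB

open Finset Pool.Agent.H18.Ex Pool.Agent.H21.NX Pool.Agent.H18.Ta

/-- The positions at the parameter `t`. -/
private def Lim_pos {a b : ℕ} (q : Z a b → ℂ) (s : ℂ) : Z a b → ℂ :=
  Sum.elim (fun v => q (Sum.inl v)) fun v => s * q (Sum.inr v)

private theorem Lim_scale {a b : ℕ} (q : Z a b → ℂ) (s : ℂ) (α β : Z a b → ℕ) :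
    s ^ yd β * tcr (Lim_pos q s) α β = s ^ yd α * tcr q α β := by
  have h1 := tcr_scale (fun v => q (Sum.inl v)) (fun v => q (Sum.inr v)) s α β
  have h2 : (Sum.elim (fun v => q (Sum.inl v)) fun v => q (Sum.inr v) : Z a b → ℂ) = q := by
    funext v
    cases v <;> rfl
  rw [h2] at h1
  exact h1

private theorem Lim_fiber {a b d : ℕ} {M : Type*} [AddCommMonoid M] (f : (Z a b → ℕ) → M) :
    ∑ α ∈ Sx (Z a b) d, f α = ∑ j ∈ range (d + 1), ∑ α ∈ Bx a b d j, f α := by
  symm
  unfold Bx
  refine sum_fiberwise_of_maps_to (g := fun α : Z a b → ℕ => yd α) ?_ f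
  intro α hα
  rw [mem_Sx, Fintype.sum_sum_type] at hα
  rw [mem_range]
  show yd α < d + 1
  unfold yd
  omega

/-- The positions at which all levels are killed. -/
private theorem Lim_gen {a b d : ℕ} {κ : Type} [Fintype κ] (m : κ → ℕ) (c : κ → ℕ × ℕ)
    (h : ∀ j ≤ d, (LSys a b d j).gd (fun i => Lam d (m i) (c i) j) = 0) :
    ∃ p : κ → Z a b → ℂ, ∀ j ≤ d, ∀ f ∈ (LSys a b d j).V (fun i => Lam d (m i) (c i) j) p,
      f = 0 := by
  have h1 : Gn κ (Z a b) fun p => ∀ j ∈ range (d + 1),
      Module.finrank ℂ ((LSys a b d j).V (fun i => Lam d (m i) (c i) j) p) =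
        (LSys a b d j).gd (fun i => Lam d (m i) (c i) j) :=
    Gn.all (range (d + 1)) fun j _ => gn_gd (LSys a b d j) _
  obtain ⟨p, hp⟩ := h1.exists
  refine ⟨p, fun j hj f hf => ?_⟩
  have h2 := hp j (mem_range.2 (by omega))
  rw [h j hj, Submodule.finrank_eq_zero] at h2
  rw [h2] at hf
  exact (Submodule.mem_bot ℂ).1 hf

theorem limit {a b d : ℕ} {κ : Type} [Fintype κ] (m : κ → ℕ) (c : κ → ℕ × ℕ)
    (hc : ∀ i, (c i).1 + (c i).2 ≤ d)
    (h : ∀ j ≤ d, (LSys a b d j).gd (fun i => Lam d (m i) (c i) j) = 0) :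
    GI (Sx (Z a b) d) fun i => Kind.free (m i) := by
  classical
  obtain ⟨p, hp⟩ := Lim_gen m c h
  by_contra hcon
  unfold GI InjAt at hcon
  push Not at hcon
  let e : κ → ℕ := fun i => ex (d + 1) (c i).1 (c i).2
  let key : κ → ℕ → ℕ := fun i j => e i * j + kap (d + 1) j
  let A : Finset (Z a b → ℕ) := Sx (Z a b) d
  let ρ : Type := (i : κ) × {β // β ∈ (Kind.free (m i) : Kind (Z a b)).idxs}
  let Mx : ρ → (Z a b → ℕ) → Polynomial ℂ := fun r α =>
    Polynomial.C (tcr (p r.1) α r.2.1) * (Polynomial.X ^ key r.1 (yd α) * Polynomial.X)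
  have hsol : ∀ t : ℂ, ∃ f : (Z a b → ℕ) → ℂ,
      (∀ r, ∑ α ∈ A, f α * (Mx r α).eval t = 0) ∧ ∃ α ∈ A, f α ≠ 0 := by
    intro t
    obtain ⟨f, hf, α₁, hα₁, hne⟩ := hcon fun i => Lim_pos (p i) (t ^ e i)
    by_cases ht : t = 0
    · refine ⟨fun _ => 1, fun r => sum_eq_zero fun α _ => ?_, α₁, hα₁, one_ne_zero⟩
      subst ht
      simp only [Mx]
      simp
    · refine ⟨fun α => f α * (t ^ kap (d + 1) (yd α))⁻¹, fun r => ?_, α₁, hα₁, ?_⟩
      · have h1 : ∑ α ∈ Sx (Z a b) d, f α * tcr (Lim_pos (p r.1) (t ^ e r.1)) α r.2.1 = 0 :=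
          hf r.1 r.2.1 (Kind.mem_idxs.1 r.2.2)
        have h2 : ∑ α ∈ A, f α * (t ^ kap (d + 1) (yd α))⁻¹ * (Mx r α).eval t =
            (t * (t ^ e r.1) ^ yd r.2.1) *
              ∑ α ∈ Sx (Z a b) d, f α * tcr (Lim_pos (p r.1) (t ^ e r.1)) α r.2.1 := by
          rw [mul_sum]
          refine sum_congr rfl fun α _ => ?_
          simp only [Mx, key]
          simp only [Polynomial.eval_mul, Polynomial.eval_C, Polynomial.eval_pow, Polynomial.eval_X]
          have h3 := Lim_scale (p r.1) (t ^ e r.1) α r.2.1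
          have h5 : t ^ kap (d + 1) (yd α) ≠ 0 := pow_ne_zero _ ht
          calc f α * (t ^ kap (d + 1) (yd α))⁻¹ * (tcr (p r.1) α r.2.1 *
                (t ^ (e r.1 * yd α + kap (d + 1) (yd α)) * t))
              = t * f α * ((t ^ e r.1) ^ yd α * tcr (p r.1) α r.2.1) *
                ((t ^ kap (d + 1) (yd α))⁻¹ * t ^ kap (d + 1) (yd α)) := by
                rw [pow_add, pow_mul]
                ring
            _ = t * f α * ((t ^ e r.1) ^ yd r.2.1 *
                tcr (Lim_pos (p r.1) (t ^ e r.1)) α r.2.1) := by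
                rw [inv_mul_cancel₀ h5, mul_one, h3]
            _ = _ := by ring
        rw [h2, h1, mul_zero]
      · exact mul_ne_zero hne (inv_ne_zero (pow_ne_zero _ ht))
  obtain ⟨F, hF, α₀, hα₀, hne⟩ := Pool.Agent.H18.Ex.exists_poly_solution A Mx hsol
  -- the equations without the factor `X`
  have heq : ∀ i (β : Z a b → ℕ), xd β + yd β < m i → ∑ j ∈ range (d + 1),
      (Polynomial.X : Polynomial ℂ) ^ key i j *
        ∑ α ∈ Bx a b d j, F α * tcr (fun v => Polynomial.C (p i v)) α β = 0 := by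
    intro i β hβ
    have hmem : β ∈ (Kind.free (m i) : Kind (Z a b)).idxs := by
      rw [Kind.mem_idxs]
      show ∑ v, β v < m i
      rw [Fintype.sum_sum_type]
      exact hβ
    have h1 := hF ⟨i, ⟨β, hmem⟩⟩
    have h2 : Polynomial.X * ∑ j ∈ range (d + 1),
        (Polynomial.X : Polynomial ℂ) ^ key i j *
          ∑ α ∈ Bx a b d j, F α * tcr (fun v => Polynomial.C (p i v)) α β = 0 := by
      rw [← h1]
      show _ = ∑ α ∈ Sx (Z a b) d, _
      rw [Lim_fiber, mul_sum]
      refine sum_congr rfl fun j _ => ?_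
      rw [mul_sum, mul_sum]
      refine sum_congr rfl fun α hα => ?_
      have h3 : yd α = j := (mem_Bx.1 hα).2
      simp only [Mx]
      rw [h3, tcr_map Polynomial.C (p i) α β]
      ring
    exact (mul_eq_zero.1 h2).resolve_left Polynomial.X_ne_zero
  -- the vanishing at zero
  have hkeyv : ∀ i, ∀ j₀ ≤ d, ∀ β : Z a b → ℕ, (xd β, yd β) ∈ Lam d (m i) (c i) j₀ →
      ∑ α ∈ Bx a b d j₀, tcr (p i) α β * (F α).eval 0 = 0 := by
    intro i j₀ hj₀ β hβ
    unfold Lam at hβ
    rw [mem_filter] at hβ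
    obtain ⟨_, hy, hx, hw⟩ := hβ
    simp only at hy hx hw
    have hci : (c i).1 + (c i).2 < d + 1 := by
      have := hc i
      omega
    set S : Finset ℕ := (range (d + 1)).filter fun k => yd β ≤ k ∧ k + xd β ≤ d ∧
      rk (d + 1) (c i).1 (c i).2 k < rk (d + 1) (c i).1 (c i).2 j₀ with hS
    have hScard : S.card = wr d (c i) (xd β, yd β) j₀ := rfl
    have h2 := weighted (m := m i) (fun v => Polynomial.C (p i v)) F
      (fun j => (Polynomial.X : Polynomial ℂ) ^ key i j) (fun β' hβ' => heq i β' hβ') S β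
      (by rw [hScard]; exact hw)
    have h3 := congrArg (fun q => Polynomial.coeff q (key i j₀)) h2
    simp only [Polynomial.finsetSum_coeff, Polynomial.coeff_zero] at h3
    rw [sum_eq_single j₀] at h3
    · -- the main term
      have h4 : (∏ u ∈ S, (((j₀ : ℕ) : Polynomial ℂ) - ((u : ℕ) : Polynomial ℂ))) =
          Polynomial.C (∏ u ∈ S, ((j₀ : ℂ) - (u : ℂ))) := by
        rw [map_prod]
        refine prod_congr rfl fun u _ => ?_
        rw [map_sub]
        simp
      rw [h4, Polynomial.coeff_C_mul, Polynomial.coeff_X_pow_mul', if_pos le_rfl,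
        Nat.sub_self] at h3
      have h5 : (∏ u ∈ S, ((j₀ : ℂ) - (u : ℂ))) ≠ 0 := by
        rw [prod_ne_zero_iff]
        intro u hu
        rw [sub_ne_zero]
        intro h6
        have h7 : j₀ = u := by exact_mod_cast h6
        have h8 := (mem_filter.1 hu).2.2.2
        rw [← h7] at h8
        exact lt_irrefl _ h8
      have h6 := (mul_eq_zero.1 h3).resolve_left h5
      rw [Polynomial.coeff_zero_eq_eval_zero, Polynomial.eval_finsetSum] at h6
      refine Eq.trans (sum_congr rfl fun α _ => ?_) h6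
      rw [← tcr_map Polynomial.C (p i) α β, Polynomial.eval_mul, Polynomial.eval_C, mul_comm]
    · -- the other terms
      intro j hj hne
      rw [mem_range] at hj
      by_cases hwin : yd β ≤ j ∧ j + xd β ≤ d
      · by_cases hjS : j ∈ S
        · rw [prod_eq_zero hjS (sub_self _), zero_mul, Polynomial.coeff_zero]
        · have h4 : rk (d + 1) (c i).1 (c i).2 j₀ ≤ rk (d + 1) (c i).1 (c i).2 j := by
            by_contra h5
            exact hjS (mem_filter.2 ⟨mem_range.2 hj, hwin.1, hwin.2, by omega⟩)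
          have h5 : rk (d + 1) (c i).1 (c i).2 j₀ < rk (d + 1) (c i).1 (c i).2 j := by
            refine lt_of_le_of_ne h4 fun h6 => hne ?_
            exact (rk_inj hci (by omega) hj h6).symm
          have h6 : key i j₀ < key i j := key_lt hci (by omega) hj h5
          rw [mul_left_comm, Polynomial.coeff_X_pow_mul', if_neg (by omega)]
      · have h4 : ∑ α ∈ Bx a b d j, F α * tcr (fun v => Polynomial.C (p i v)) α β = 0 := by
          refine sum_eq_zero fun α hα => ?_
          rw [tcr_zero _ α β hα hwin, mul_zero]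
        rw [h4, mul_zero, mul_zero, Polynomial.coeff_zero]
    · intro hj
      exact absurd (mem_range.2 (by omega)) hj
  -- conclusion
  have hα₀' : yd α₀ ≤ d ∧ α₀ ∈ Bx a b d (yd α₀) := by
    have h1 : α₀ ∈ Sx (Z a b) d := hα₀
    have h2 : α₀ ∈ Bx a b d (yd α₀) := by
      unfold Bx
      exact mem_filter.2 ⟨h1, rfl⟩
    refine ⟨?_, h2⟩
    have h3 := (mem_Bx.1 h2).1
    omega
  apply hne
  have h1 := hp (yd α₀) hα₀'.1 (fun α => (F α.1).eval 0) (by
    rw [mem_LV]
    intro i β hβ
    rw [sum_coe_sort (Bx a b d (yd α₀)) fun α => tcr (p i) α β * (F α).eval 0]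
    exact hkeyv i (yd α₀) hα₀'.1 β hβ)
  exact congrFun h1 ⟨α₀, hα₀'.2⟩

end Pool.Agent.H51.TB
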