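import Pool.Agent.H51.TB.Lev
import Pool.Agent.H51.TB.LRank
import Pool.Agent.H51.TB.LSpan
import Pool.Agent.H51.TB.Lim
import Pool.Agent.H51.TB.Cell

/-!
# Module E1 (TB): from the numbers of points in the cells to `GM`

Index type `κ = Unit ⊕ Σ y : {y : ℕ × (ℕ × ℕ) // y ∈ range (d + 1) ×ˢ KK d}, Fin (c y.1.1 y.1.2)`;
multiplicity `m₀` and cell `(0, 0)` for `Sum.inl ()`, multiplicity `y.1.1` and cell `y.1.2` for the
others.  The multiset of multiplicities of this family is
`m₀ ::ₘ ∑ m ∈ range (d + 1), replicate (A m) m`, so by `GM_iff`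
(`Pool/Agent/H18/Ex/Multi.lean`) it suffices to prove `GI` for this family, and by `limit` that
`gd = 0` on each level `j ≤ d`.  Use `level` with `hS = span_L`, the dominating type
`b = {g : |g| < M}` (`dom_of_subset`; the multiplicities are `≤ M`), `i₀ = Sum.inl ()`,
`cls i = cls d (mult i) (cell i) j`, `W t = ell n t * ell n M` for `t ≥ 2`, `W 0 = W 1 = 0`,
`Wb = ell n (d + 1 - M) * ell n M`, `n = a + b`.  Sizes: `size_le` (with `t = cls`; `ell n 1 = 1`, so
`size - 1 = 0` if `cls ≤ 1`; `cls ≤ mult ≤ d + 1 - M` for `i ≠ i₀` with `cls_le`), `le_size` (the sums of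
`size` are at least the sums of `wt`), `card_Bx`.
-/

namespace Pool.Agent.H51.TB

open Finset Pool.Agent.H18.Ex Pool.Agent.H21.NX Pool.Agent.H18.Ta

private abbrev Cnt_I (d : ℕ) (c : ℕ → ℕ × ℕ → ℕ) : Type :=
  Σ y : {y : ℕ × (ℕ × ℕ) // y ∈ range (d + 1) ×ˢ KK d}, Fin (c y.1.1 y.1.2)

private theorem Cnt_sum {M : Type} [AddCommMonoid M] (d : ℕ) (c : ℕ → ℕ × ℕ → ℕ) (F : ℕ → ℕ × ℕ → M) :
    ∑ s : Cnt_I d c, F s.1.1.1 s.1.1.2 = ∑ m ∈ range (d + 1), ∑ x ∈ KK d, c m x • F m x := by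
  rw [Fintype.sum_sigma]
  have h1 : ∀ y : {y : ℕ × (ℕ × ℕ) // y ∈ range (d + 1) ×ˢ KK d},
      ∑ _t : Fin (c y.1.1 y.1.2), F y.1.1 y.1.2 = (fun z : ℕ × (ℕ × ℕ) => c z.1 z.2 • F z.1 z.2) y.1 := by
    intro y
    rw [sum_const, card_univ, Fintype.card_fin]
  rw [sum_congr rfl fun y _ => h1 y]
  rw [← Finset.sum_product']
  exact Finset.sum_coe_sort (range (d + 1) ×ˢ KK d) fun z : ℕ × (ℕ × ℕ) => c z.1 z.2 • F z.1 z.2

private theorem Cnt_univ_map {κ X : Type} [Fintype κ] (f : κ → X) :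
    (univ : Finset κ).val.map f = ∑ i, ({f i} : Multiset X) := by
  show _ = ((univ : Finset κ).val.map fun i => ({f i} : Multiset X)).sum
  have h := Multiset.sum_map_singleton ((univ : Finset κ).val.map f)
  rw [Multiset.map_map] at h
  exact h.symm

theorem GM_of_counts {a b d M μ m₀ : ℕ} (ha : 2 ≤ a) (hb : 2 ≤ b) (hμ : 1 ≤ μ) (hμM : μ ≤ M)
    (hM : μ + M ≤ d) (hm₀ : m₀ ≤ M) (A : ℕ → ℕ)
    (hA : ∀ m, A m ≠ 0 → 1 ≤ m ∧ m ≤ M ∧ m + M ≤ d + 1) (c : ℕ → ℕ × ℕ → ℕ)
    (hc : ∀ m ∈ range (d + 1), ∑ x ∈ KK d, c m x = A m)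
    (h1 : ∀ j ≤ d, bet a b d j ≤ wt a b d m₀ (0, 0) j +
      ∑ m ∈ range (d + 1), ∑ x ∈ KK d, c m x * wt a b d m x j)
    (h2 : ∀ j ≤ d, ∀ t, 1 ≤ t → t < μ → ell (a + b) (t + 1) * ell (a + b) M ≤
      ∑ m ∈ range (d + 1), ∑ x ∈ KK d, if cls d m x j = t then c m x * wt a b d m x j else 0)
    (h3 : ∀ j ≤ d, ell (a + b) (d + 1 - M) * ell (a + b) M ≤
      ∑ m ∈ range (d + 1), ∑ x ∈ KK d,
        if cls d m x j = μ then c m x * wt a b d m x j else 0) :
    GM (Sx (Z a b) d) ((m₀ ::ₘ ∑ m ∈ range (d + 1), Multiset.replicate (A m) m).map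
      Kind.free) := by
  classical
  have hn1 : 1 ≤ a + b := by omega
  let mult : Unit ⊕ Cnt_I d c → ℕ := Sum.elim (fun _ => m₀) fun s => s.1.1.1
  let cell : Unit ⊕ Cnt_I d c → ℕ × ℕ := Sum.elim (fun _ => (0, 0)) fun s => s.1.1.2
  have hmul : (univ : Finset (Unit ⊕ Cnt_I d c)).val.map mult =
      m₀ ::ₘ ∑ m ∈ range (d + 1), Multiset.replicate (A m) m := by
    rw [Cnt_univ_map, Fintype.sum_sum_type]
    have h4 : ∑ s : Cnt_I d c, ({mult (Sum.inr s)} : Multiset ℕ) =
        ∑ m ∈ range (d + 1), Multiset.replicate (A m) m := by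
      refine (Cnt_sum d c (fun m _ => ({m} : Multiset ℕ))).trans ?_
      refine sum_congr rfl fun m hm => ?_
      rw [← Finset.sum_smul, hc m hm, Multiset.nsmul_singleton]
    rw [h4]
    simp [mult]
  rw [← hmul, Multiset.map_map, GM_iff]
  -- the range of the multiplicities
  have hi : ∀ s : Cnt_I d c, A s.1.1.1 ≠ 0 := by
    intro s
    have h5 := s.1.2
    rw [mem_product] at h5
    rw [← hc _ h5.1]
    have h6 : 0 < c s.1.1.1 s.1.1.2 := lt_of_le_of_lt (Nat.zero_le _) s.2.2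
    have h7 : c s.1.1.1 s.1.1.2 ≤ ∑ x ∈ KK d, c s.1.1.1 x :=
      single_le_sum (fun x _ => Nat.zero_le (c s.1.1.1 x)) h5.2
    omega
  have hcell : ∀ i, (cell i).1 + (cell i).2 ≤ d := by
    rintro (i | s)
    · exact Nat.zero_le d
    · have h5 := s.1.2
      rw [mem_product] at h5
      exact mem_KK.1 h5.2
  have hmM : ∀ i, mult i ≤ M := by
    rintro (i | s)
    · exact hm₀
    · exact (hA _ (hi s)).2.1
  refine limit mult cell hcell fun j hj => ?_
  -- sizes
  have hle : ∀ i, wt a b d (mult i) (cell i) j ≤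
      (LSys a b d j).size (Lam d (mult i) (cell i) j) := by
    intro i
    refine le_size (by omega) (by omega) hj _ fun g hg => ?_
    unfold Lam at hg
    rw [mem_filter] at hg
    exact ⟨hg.2.2.1, hg.2.1⟩
  have hcls : ∀ i, ∀ g ∈ Lam d (mult i) (cell i) j, g.1 + g.2 + 1 ≤ cls d (mult i) (cell i) j := by
    intro i g hg
    exact le_sup (f := fun g : ℕ × ℕ => g.1 + g.2 + 1) hg
  have hsz : ∀ i t, cls d (mult i) (cell i) j ≤ t →
      (LSys a b d j).size (Lam d (mult i) (cell i) j) ≤ ell (a + b) t := by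
    intro i t ht
    refine size_le (by omega) _ t fun g hg => ?_
    have := hcls i g hg
    omega
  let B : Finset (ℕ × ℕ) := (range M ×ˢ range M).filter fun g => g.1 + g.2 < M
  have hB : (LSys a b d j).size B ≤ ell (a + b) M := by
    refine size_le (by omega) _ M fun g hg => ?_
    exact (mem_filter.1 hg).2
  have hdom : ∀ i, (LSys a b d j).Dom B (Lam d (mult i) (cell i) j) := by
    intro i
    refine dom_of_subset fun g hg => ?_
    have h5 := hmM i
    unfold Lam at hg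
    rw [mem_filter] at hg
    rw [mem_filter, mem_product, mem_range, mem_range]
    omega
  -- sums
  have hsumF : ∀ F : ℕ → ℕ × ℕ → ℕ, (∑ s : Cnt_I d c, F (mult (Sum.inr s)) (cell (Sum.inr s))) =
      ∑ m ∈ range (d + 1), ∑ x ∈ KK d, c m x * F m x := by
    intro F
    exact Cnt_sum d c F
  have hsumt : ∀ t, (∑ m ∈ range (d + 1), ∑ x ∈ KK d,
      if cls d m x j = t then c m x * wt a b d m x j else 0) ≤
      ∑ i ∈ univ.filter (fun i : Unit ⊕ Cnt_I d c => i ≠ Sum.inl () ∧ cls d (mult i) (cell i) j = t),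
        (LSys a b d j).size (Lam d (mult i) (cell i) j) := by
    intro t
    rw [sum_filter, Fintype.sum_sum_type]
    have h5 := hsumF fun m x => if cls d m x j = t then wt a b d m x j else 0
    have h6 : (∑ m ∈ range (d + 1), ∑ x ∈ KK d,
        if cls d m x j = t then c m x * wt a b d m x j else 0) =
        ∑ m ∈ range (d + 1), ∑ x ∈ KK d, c m x * if cls d m x j = t then wt a b d m x j else 0 := by
      refine sum_congr rfl fun m _ => sum_congr rfl fun x _ => ?_
      split_ifs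
      · rfl
      · rw [mul_zero]
    rw [h6, ← h5]
    refine le_trans (sum_le_sum fun s _ => ?_) (Nat.le_add_left _ _)
    by_cases h7 : cls d (mult (Sum.inr s)) (cell (Sum.inr s)) j = t
    · rw [if_pos h7, if_pos ⟨Sum.inr_ne_inl, h7⟩]
      exact hle (Sum.inr s)
    · rw [if_neg h7]
      exact Nat.zero_le _
  refine level (LSys a b d j) (span_L (by omega) (by omega) hj)
    (fun i => Lam d (mult i) (cell i) j) B hdom (Sum.inl ())
    (fun i => cls d (mult i) (cell i) j) μ hμ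
    (fun t => if t ≤ 1 then 0 else ell (a + b) t * ell (a + b) M)
    (ell (a + b) (d + 1 - M) * ell (a + b) M) (if_pos (by omega)) (if_pos (by omega))
    ?_ ?_ ?_ ?_ ?_
  · intro i _ _
    show ((LSys a b d j).size (Lam d (mult i) (cell i) j) - 1) * (LSys a b d j).size B ≤
      if cls d (mult i) (cell i) j ≤ 1 then 0
        else ell (a + b) (cls d (mult i) (cell i) j) * ell (a + b) M
    split_ifs with h5
    · have h6 := hsz i 1 h5
      rw [ell_one] at h6
      have h7 : (LSys a b d j).size (Lam d (mult i) (cell i) j) - 1 = 0 := by omega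
      rw [h7, zero_mul]
    · exact Nat.mul_le_mul ((Nat.sub_le _ _).trans (hsz i _ le_rfl)) hB
  · rintro (i | s) hne _
    · exact absurd rfl hne
    · have h5 := (hA _ (hi s)).2.2
      have h6 : cls d (mult (Sum.inr s)) (cell (Sum.inr s)) j ≤ d + 1 - M := by
        refine (cls_le _).trans ?_
        show s.1.1.1 ≤ d + 1 - M
        omega
      exact Nat.mul_le_mul ((Nat.sub_le _ _).trans (hsz _ _ h6)) hB
  · intro t ht1 htμ
    show (if t + 1 ≤ 1 then 0 else ell (a + b) (t + 1) * ell (a + b) M) ≤ _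
    rw [if_neg (by omega)]
    exact (h2 j hj t ht1 htμ).trans (hsumt t)
  · exact (h3 j hj).trans (hsumt μ)
  · rw [Fintype.card_coe, card_Bx hj, Fintype.sum_sum_type]
    refine (h1 j hj).trans (Nat.add_le_add ?_ ?_)
    · refine le_trans (hle (Sum.inl ())) ?_
      rw [Fintype.sum_unique]
    · rw [← hsumF fun m x => wt a b d m x j]
      exact sum_le_sum fun s _ => hle (Sum.inr s)

end Pool.Agent.H51.TB
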