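import Pool.Agent.H51.TB.Defs

/-!
# Module E2 (TB): renaming the variables

An equivalence `e : ι ≃ ι'` of the variables (here `finSumFinEquiv : Fin a ⊕ Fin b ≃ Fin (a + b)`)
transports exponents, positions and conditions.
-/

namespace Pool.Agent.H51.TB

open Finset Pool.Agent.H18.Ex Pool.Agent.H21.NX

private theorem Ridx_mem {ι ι' : Type} [Fintype ι] [DecidableEq ι] [Fintype ι'] [DecidableEq ι']
    (e : ι ≃ ι') (d : ℕ) (a : ι → ℕ) : (fun j => a (e.symm j)) ∈ Sx ι' d ↔ a ∈ Sx ι d := by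
  rw [mem_Sx, mem_Sx, Equiv.sum_comp e.symm a]

private theorem Ridx_mem' {ι ι' : Type} [Fintype ι] [DecidableEq ι] [Fintype ι'] [DecidableEq ι']
    (e : ι ≃ ι') (d : ℕ) (a : ι' → ℕ) : (fun i => a (e i)) ∈ Sx ι d ↔ a ∈ Sx ι' d := by
  rw [mem_Sx, mem_Sx, Equiv.sum_comp e a]

private theorem Ridx_tcr {ι ι' : Type} [Fintype ι] [Fintype ι'] (e : ι ≃ ι') (q : ι → ℂ)
    (a b : ι → ℕ) :
    tcr (fun j => q (e.symm j)) (fun j => a (e.symm j)) (fun j => b (e.symm j)) = tcr q a b := by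
  unfold tcr
  exact Equiv.prod_comp e.symm fun i => (((a i).choose (b i) : ℕ) : ℂ) * q i ^ (a i - b i)

theorem GM_equiv {ι ι' : Type} [Fintype ι] [DecidableEq ι] [Fintype ι'] [DecidableEq ι']
    (e : ι ≃ ι') (d : ℕ) (S : Multiset ℕ) (h : GM (Sx ι d) (S.map Kind.free)) :
    GM (Sx ι' d) (S.map Kind.free) := by
  obtain ⟨m, t, rfl⟩ := multi_exists_fin S
  rw [Multiset.map_map, GM_iff] at h ⊢
  obtain ⟨pos, hpos⟩ := h
  refine ⟨fun i j => pos i (e.symm j), fun f' hf' a' ha' => ?_⟩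
  have key : ∀ a ∈ Sx ι d, (fun a : ι → ℕ => f' fun j => a (e.symm j)) a = 0 := by
    refine hpos (fun a => f' fun j => a (e.symm j)) fun i b hb => ?_
    have hb' : ∑ i, b i < t i := hb
    have h1 : ∑ a ∈ Sx ι' d, f' a * tcr (fun j => pos i (e.symm j)) a (fun j => b (e.symm j)) = 0 := by
      refine hf' i (fun j => b (e.symm j)) ?_
      show ∑ j, b (e.symm j) < t i
      rw [Equiv.sum_comp e.symm b]
      exact hb'
    rw [← h1]
    show ∑ a ∈ Sx ι d, (f' fun j => a (e.symm j)) * tcr (pos i) a b = _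
    refine Finset.sum_bij (fun a _ => fun j => a (e.symm j)) (fun a ha => (Ridx_mem e d a).2 ha)
      (fun a _ b _ hab => ?_) (fun a ha => ⟨fun i => a (e i), (Ridx_mem' e d a).2 ha, ?_⟩)
      (fun a _ => ?_)
    · funext i
      have h2 := congrFun hab (e i)
      simpa using h2
    · funext j
      show a (e (e.symm j)) = a j
      rw [e.apply_symm_apply]
    · rw [Ridx_tcr]
  have h3 := key (fun i => a' (e i)) ((Ridx_mem' e d a').2 ha')
  have h4 : (fun j => a' (e (e.symm j))) = a' := by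
    funext j
    rw [e.apply_symm_apply]
  have h5 : f' (fun j => a' (e (e.symm j))) = 0 := h3
  rw [h4] at h5
  exact h5

end Pool.Agent.H51.TB
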