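import Pool.Agent.H51.TB.Defs

/-!
# Module E3 (TB): choosing a part of the points

`greedy`: induction on `S`.

`choose_part`: let `q = S.count μ`, `S = replicate q μ + R`.  If `e₀ + q * w μ ≥ N` take the smallest
`q' ≤ q` with `e₀ + q' * w μ ≥ N` (`greedy`), so `q' * w μ ≥ N - e₀ ≥ N / 2`.  Otherwise take all `q` of them
and a part of `R` (`greedy` with `N - e₀ - q * w μ`).
-/

namespace Pool.Agent.H51.TB

open Finset

theorem greedy (w : ℕ → ℕ) (B X : ℕ) (S : Multiset ℕ) (hB : ∀ m ∈ S, w m ≤ B)
    (hX : X ≤ (S.map w).sum) : ∃ T ≤ S, X ≤ (T.map w).sum ∧ (T.map w).sum ≤ X + B := by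
  induction S using Multiset.induction_on with
  | empty =>
    refine ⟨0, le_rfl, ?_, ?_⟩
    · simpa using hX
    · simp
  | cons a S ih =>
    by_cases h : X ≤ (S.map w).sum
    · obtain ⟨T, hT, h1, h2⟩ := ih (fun m hm => hB m (Multiset.mem_cons_of_mem hm)) h
      exact ⟨T, hT.trans (Multiset.le_cons_self S a), h1, h2⟩
    · refine ⟨a ::ₘ S, le_rfl, hX, ?_⟩
      have h3 := hB a (Multiset.mem_cons_self a S)
      rw [Multiset.map_cons, Multiset.sum_cons]
      omega

theorem choose_part (w : ℕ → ℕ) (B N e₀ μ : ℕ) (S : Multiset ℕ) (hB : ∀ m ∈ S, w m ≤ B)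
    (he : 2 * e₀ ≤ N) (hN : N ≤ e₀ + (S.map w).sum) :
    ∃ T ≤ S, N ≤ e₀ + (T.map w).sum ∧ e₀ + (T.map w).sum ≤ N + B ∧
      (T.count μ = S.count μ ∨ N ≤ 2 * (T.count μ * w μ)) := by
  set q := S.count μ with hq
  set R := S.filter (fun x => ¬ x = μ) with hR
  have hS : Multiset.replicate q μ + R = S := by
    rw [hq, ← Multiset.filter_eq', hR]
    exact Multiset.filter_add_not _ S
  have hsum : (S.map w).sum = q * w μ + (R.map w).sum := by
    rw [← hS, Multiset.map_add, Multiset.sum_add, Multiset.map_replicate, Multiset.sum_replicate,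
      smul_eq_mul]
  by_cases h : N ≤ e₀ + q * w μ
  · have h1 : N - e₀ ≤ ((Multiset.replicate q μ).map w).sum := by
      rw [Multiset.map_replicate, Multiset.sum_replicate, smul_eq_mul]
      omega
    obtain ⟨T, hT, h2, h3⟩ := greedy w B (N - e₀) (Multiset.replicate q μ)
      (fun m hm => hB m (by rw [← hS]; exact Multiset.mem_add.2 (Or.inl hm))) h1
    obtain ⟨k, hk, rfl⟩ := Multiset.le_replicate_iff.1 hT
    rw [Multiset.map_replicate, Multiset.sum_replicate, smul_eq_mul] at h2 h3
    refine ⟨Multiset.replicate k μ, ?_, ?_, ?_, Or.inr ?_⟩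
    · refine hT.trans ?_
      conv_rhs => rw [← hS]
      exact Multiset.le_add_right _ _
    · rw [Multiset.map_replicate, Multiset.sum_replicate, smul_eq_mul]
      omega
    · rw [Multiset.map_replicate, Multiset.sum_replicate, smul_eq_mul]
      omega
    · rw [Multiset.count_replicate_self]
      omega
  · have h1 : N - e₀ - q * w μ ≤ (R.map w).sum := by omega
    obtain ⟨T, hT, h2, h3⟩ := greedy w B (N - e₀ - q * w μ) R
      (fun m hm => hB m (by rw [← hS]; exact Multiset.mem_add.2 (Or.inr hm))) h1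
    have hcT : T.count μ = 0 := by
      rw [Multiset.count_eq_zero]
      intro hm
      have h4 := Multiset.mem_of_le hT hm
      rw [hR, Multiset.mem_filter] at h4
      exact h4.2 rfl
    have hsT : ((Multiset.replicate q μ + T).map w).sum = q * w μ + (T.map w).sum := by
      rw [Multiset.map_add, Multiset.sum_add, Multiset.map_replicate, Multiset.sum_replicate,
        smul_eq_mul]
    refine ⟨Multiset.replicate q μ + T, ?_, ?_, ?_, Or.inl ?_⟩
    · conv_rhs => rw [← hS]
      exact Multiset.add_le_add_left hT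
    · rw [hsT]
      omega
    · rw [hsT]
      omega
    · rw [Multiset.count_add, Multiset.count_replicate_self, hcT, add_zero]

end Pool.Agent.H51.TB
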