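import Pool.Agent.H51.TB.Num
import Pool.Agent.H51.TB.Cnt
import Pool.Agent.H51.TB.Ridx
import Pool.Agent.H51.TB.Sub

/-!
# Module E4 (TB): the core theorem

Let `n = r + 1`, `N = ell r (d + 1)`.  By `choose_part` (`w = ell r`, `B = ell r d`, `e₀ = ell r m₀`, which is
`≤ N / 2` by `grow_one`) there is `T ≤ S` with `N ≤ ell r m₀ + tot r T ≤ N + ell r d` and
`T.count μ * ell r μ ≥ min η (1/2) * N`; `A m = T.count m`.  `num` (with `min η (1/2)`) and `GM_of_counts`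
give `GM (Sx (Z a b) d)` for `m₀ ::ₘ T = m₀ ::ₘ ∑ m ∈ range (d + 1), replicate (A m) m`;
`GM_equiv finSumFinEquiv` (`a + b = r + 1`) and `GM.mono` finish the proof.
-/

namespace Pool.Agent.H51.TB

open Finset Pool.Agent.H18.Ex Pool.Agent.H21.NX

private theorem Core_ell_up (r c : ℕ) (hr : 1 ≤ r) : ell (r - 1) (c + 1) ≤ ell r (c + 1) := by
  obtain ⟨k, rfl⟩ : ∃ k, r = k + 1 := ⟨r - 1, by omega⟩
  rw [Nat.add_sub_cancel, ell_succ k c]
  exact Nat.le_add_left _ _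

private theorem Core_sum_replicate (d : ℕ) (T : Multiset ℕ) (hT : ∀ m ∈ T, m ≤ d) :
    ∑ m ∈ range (d + 1), Multiset.replicate (T.count m) m = T := by
  ext x
  rw [Multiset.count_sum']
  simp only [Multiset.count_replicate]
  by_cases hx : x ∈ T
  · have h1 : x ∈ range (d + 1) := mem_range.2 (Nat.lt_succ_of_le (hT x hx))
    rw [Finset.sum_ite_eq' (range (d + 1)) x (fun m => T.count m), if_pos h1]
  · rw [Multiset.count_eq_zero_of_notMem hx]
    apply Finset.sum_eq_zero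
    intro m _
    split_ifs with h
    · rw [h]
      exact Multiset.count_eq_zero_of_notMem hx
    · rfl

private theorem Core_sum_tot (r d : ℕ) (T : Multiset ℕ) (hT : ∀ m ∈ T, m ≤ d) :
    ∑ m ∈ range (d + 1), T.count m * ell r m = (T.map (ell r)).sum := by
  rw [Finset.sum_multiset_map_count]
  symm
  have h1 : T.toFinset ⊆ range (d + 1) := by
    intro x hx
    exact mem_range.2 (Nat.lt_succ_of_le (hT x (Multiset.mem_toFinset.1 hx)))
  refine (Finset.sum_subset h1 ?_).trans ?_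
  · intro x _ hx
    rw [Multiset.mem_toFinset] at hx
    rw [Multiset.count_eq_zero_of_notMem hx, zero_smul]
  · exact Finset.sum_congr rfl fun m _ => smul_eq_mul _ _

theorem core (d : ℕ) (η : ℝ) (hη : 0 < η) : ∃ r₀ : ℕ, ∀ r : ℕ, r₀ ≤ r → ∀ (M μ m₀ : ℕ)
    (S : Multiset ℕ), 1 ≤ μ → μ ≤ M → μ + M ≤ d → m₀ ≤ M →
    (∀ m ∈ S, 1 ≤ m ∧ m ≤ M ∧ m + M ≤ d + 1) → ell r (d + 1) ≤ ell r m₀ + tot r S →
    η * (ell r (d + 1) : ℝ) ≤ ((S.count μ * ell r μ : ℕ) : ℝ) →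
    GM (Sx (Fin (r + 1)) d) ((m₀ ::ₘ S).map Kind.free) := by
  obtain ⟨n₁, h₁⟩ := num d (min η (1 / 2)) (lt_min hη (by norm_num))
  obtain ⟨n₂, h₂⟩ := grow_one d 2
  refine ⟨max n₁ (max n₂ 1), fun r hr M μ m₀ S hμ hμM hM hm₀ hS hN hη' => ?_⟩
  have hr1 : n₁ ≤ r + 1 := ((le_max_left _ _).trans hr).trans (Nat.le_succ r)
  have hr2 : n₂ ≤ r := ((le_max_left _ _).trans (le_max_right _ _)).trans hr
  have hr3 : 1 ≤ r := ((le_max_right _ _).trans (le_max_right _ _)).trans hr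
  have he : 2 * ell r m₀ ≤ ell r (d + 1) := by
    have h3 := h₂ r hr2 m₀ (by omega)
    have h4 : 2 * ell r m₀ ≤ ell (r - 1) (d + 1) := by exact_mod_cast h3
    exact h4.trans (Core_ell_up r d hr3)
  obtain ⟨T, hTS, hT1, hT2, hT3⟩ := choose_part (ell r) (ell r d) (ell r (d + 1)) (ell r m₀) μ S
    (fun m hm => ell_mono r (by have := hS m hm; omega)) he hN
  have hTm : ∀ m ∈ T, 1 ≤ m ∧ m ≤ M ∧ m + M ≤ d + 1 := fun m hm => hS m (Multiset.mem_of_le hTS hm)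
  have hTd : ∀ m ∈ T, m ≤ d := fun m hm => by have := hTm m hm; omega
  have hsum := Core_sum_tot r d T hTd
  obtain ⟨a, b, ha, hb, hab, hnum⟩ := h₁ (r + 1) hr1
  have habr : a + b - 1 = r := by omega
  rw [habr] at hnum
  have hA : ∀ m, T.count m ≠ 0 → 1 ≤ m ∧ m ≤ M ∧ m + M ≤ d + 1 := fun m hm =>
    hTm m (Multiset.count_ne_zero.1 hm)
  have hdom : min η (1 / 2) * (ell r (d + 1) : ℝ) ≤ ((T.count μ * ell r μ : ℕ) : ℝ) := by
    have h0 : (0 : ℝ) ≤ (ell r (d + 1) : ℝ) := Nat.cast_nonneg _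
    rcases hT3 with h | h
    · rw [h]
      exact (mul_le_mul_of_nonneg_right (min_le_left _ _) h0).trans hη'
    · have h5 : (ell r (d + 1) : ℝ) ≤ 2 * ((T.count μ * ell r μ : ℕ) : ℝ) := by exact_mod_cast h
      have h6 := mul_le_mul_of_nonneg_right (min_le_right η (1 / 2)) h0
      linarith
  obtain ⟨c, hc, k1, k2, k3⟩ := hnum M μ m₀ (fun m => T.count m) hμ hμM hM (by omega) hA
    (by rw [hsum]; exact hT1) (by rw [hsum]; exact hT2) hdom
  have hGM := GM_of_counts ha hb hμ hμM hM hm₀ (fun m => T.count m) hA c hc k1 k2 k3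
  rw [Core_sum_replicate d T hTd] at hGM
  have hGM2 := GM_equiv (finSumFinEquiv.trans (finCongr hab)) d (m₀ ::ₘ T) hGM
  exact GM.mono (Multiset.map_le_map ((Multiset.cons_le_cons_iff m₀).2 hTS)) hGM2

end Pool.Agent.H51.TB
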