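import Pool.Agent.H51.TB.Defs
import Pool.Agent.H51.TB.LBas

/-!
# Module U7 (TB2): a point at a coordinate point; the number of exponents

`GM_cons`: the position of the new point is the coordinate point `q` (`q o = 1`, `q = 0` at the other
variables).  For `α` with `α o + M > d` and `β = α` with `β o = 0` (so `|β| = d - α o < M`), the condition
`β` at `q` is `f α = 0`: `tcr q α' β ≠ 0` only if `α' = β` off `o`, that is `α' = α`.  So `f` is supported on
the exponents with `α o + M ≤ d`, and satisfies the conditions `S` there.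

`card_Bu_add`: `wr d (0, 0) g j = j - g.2` for `g.2 ≤ j ≤ d - g.1` (`rk (d + 1) 0 0 i = i`), so
`Lam d M (0, 0) j = {g : g.2 ≤ j, g.1 + j < M}` and `wt a b d M (0, 0) j` is
`multichoose a (M - j - 1) * multichoose b j` for `j < M` and `0` for `j ≥ M`
(`∑_{k ≤ n} multichoose (a - 1) k = multichoose a n`), which is the number of the exponents of the level `j`
with `α_o ≥ d - M + 1`.  (`card_Bx` in `LBas.lean` has the proof of the product formula.)
-/

namespace Pool.Agent.H51.TB

open Finset Pool.Agent.H18.Ex Pool.Agent.H21.NX Pool.Agent.H18.Ta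

private theorem UPt_tcr_eq {ι : Type} [Fintype ι] [DecidableEq ι] (o : ι) (a : ι → ℕ) :
    tcr (fun i => if i = o then (1 : ℂ) else 0) a (Function.update a o 0) = 1 := by
  unfold tcr
  refine prod_eq_one fun i _ => ?_
  beta_reduce
  by_cases hi : i = o
  · subst hi
    rw [Function.update_self, if_pos rfl, Nat.choose_zero_right, one_pow, Nat.cast_one, one_mul]
  · rw [Function.update_of_ne hi, if_neg hi, Nat.choose_self, Nat.sub_self, pow_zero, Nat.cast_one,
      one_mul]

private theorem UPt_tcr_zero {ι : Type} [Fintype ι] [DecidableEq ι] (o : ι) (a c : ι → ℕ)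
    (h : ∑ i, a i = ∑ i, c i) (hne : c ≠ a) :
    tcr (fun i => if i = o then (1 : ℂ) else 0) c (Function.update a o 0) = 0 := by
  by_contra h00
  apply hne
  unfold tcr at h00
  have h0 := prod_ne_zero_iff.1 h00
  have h1 : ∀ i, i ≠ o → c i = a i := by
    intro i hi
    have h2 := h0 i (mem_univ i)
    beta_reduce at h2
    rw [Function.update_of_ne hi, if_neg hi] at h2
    have h3 : ((c i).choose (a i) : ℂ) ≠ 0 := left_ne_zero_of_mul h2
    have h4 : (0 : ℂ) ^ (c i - a i) ≠ 0 := right_ne_zero_of_mul h2
    have h5 : a i ≤ c i := by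
      by_contra h6
      apply h3
      rw [Nat.choose_eq_zero_of_lt (by omega), Nat.cast_zero]
    have h7 : c i - a i = 0 := by
      by_contra h8
      exact h4 (zero_pow h8)
    omega
  have h9 : c o = a o := by
    have e1 := Finset.add_sum_erase univ a (mem_univ o)
    have e2 := Finset.add_sum_erase univ c (mem_univ o)
    have e3 : ∑ i ∈ univ.erase o, c i = ∑ i ∈ univ.erase o, a i :=
      sum_congr rfl fun i hi => h1 i (ne_of_mem_erase hi)
    omega
  funext i
  by_cases hi : i = o
  · rw [hi]; exact h9
  · exact h1 i hi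

theorem GM_cons {ι : Type} [Fintype ι] [DecidableEq ι] (o : ι) (d M : ℕ) (S : Multiset (Kind ι))
    (h : GM ((Sx ι d).filter fun α => α o + M ≤ d) S) : GM (Sx ι d) (Kind.free M ::ₘ S) := by
  obtain ⟨n, k, rfl, pos, hpos⟩ := h
  refine ⟨n + 1, Fin.cons (Kind.free M) k, ?_,
    Fin.cons (fun i => if i = o then (1 : ℂ) else 0) pos, ?_⟩
  · rw [Fin.univ_val_map, Fin.univ_val_map, List.ofFn_cons]
    rfl
  · intro f hf
    have hz : ∀ a ∈ Sx ι d, d < a o + M → f a = 0 := by
      intro a ha hao
      have h1 := hf 0 (Function.update a o 0)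
      rw [Fin.cons_zero, Fin.cons_zero] at h1
      have ha' := mem_Sx.1 ha
      have h2 : ∑ i, Function.update a o 0 i < M := by
        have e1 := Finset.add_sum_erase univ a (mem_univ o)
        have e2 := Finset.add_sum_erase univ (Function.update a o 0) (mem_univ o)
        have e3 : ∑ i ∈ univ.erase o, Function.update a o 0 i = ∑ i ∈ univ.erase o, a i :=
          sum_congr rfl fun i hi => Function.update_of_ne (ne_of_mem_erase hi) _ _
        rw [Function.update_self] at e2
        omega
      have h3 := h1 h2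
      rw [sum_eq_single a] at h3
      · have h4 : (Kind.free M : Kind ι).pt (fun i => if i = o then (1 : ℂ) else 0) =
            fun i => if i = o then (1 : ℂ) else 0 := rfl
        rw [h4, UPt_tcr_eq, mul_one] at h3
        exact h3
      · intro c hc hca
        have h4 : (Kind.free M : Kind ι).pt (fun i => if i = o then (1 : ℂ) else 0) =
            fun i => if i = o then (1 : ℂ) else 0 := rfl
        rw [h4, UPt_tcr_zero o a c (by rw [ha', mem_Sx.1 hc]) hca, mul_zero]
      · intro hn
        exact absurd ha hn
    have hA : ∀ a ∈ (Sx ι d).filter fun α => α o + M ≤ d, f a = 0 := by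
      refine hpos f fun j b hb => ?_
      have h1 := hf j.succ b
      rw [Fin.cons_succ, Fin.cons_succ] at h1
      rw [← h1 hb]
      refine sum_subset (filter_subset _ _) fun a ha hna => ?_
      rw [mem_filter, not_and] at hna
      rw [hz a ha (by have := hna ha; omega), zero_mul]
    intro a ha
    by_cases hao : a o + M ≤ d
    · exact hA a (mem_filter.2 ⟨ha, hao⟩)
    · exact hz a ha (by omega)

private theorem UPt_mc {n : ℕ} (hn : 1 ≤ n) (k : ℕ) :
    ∑ i ∈ range (k + 1), Nat.multichoose (n - 1) i = Nat.multichoose n k := by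
  obtain ⟨m, rfl⟩ : ∃ m, n = m + 1 := ⟨n - 1, by omega⟩
  rw [Nat.sum_range_multichoose, Nat.multichoose_eq]
  have h1 : m + 1 + k - 1 = m + k := by omega
  have h2 : k + (m + 1 - 1) = m + k := by omega
  have h3 : m + 1 - 1 = m := by omega
  rw [h1, h2, h3]
  exact Nat.choose_symm_add

private theorem UPt_rk (l i : ℕ) : rk l 0 0 i = i := by
  unfold rk
  split_ifs <;> omega

private theorem UPt_wr {d j : ℕ} {g : ℕ × ℕ} (h1 : g.2 ≤ j) (h2 : j + g.1 ≤ d) :
    wr d (0, 0) g j = j - g.2 := by
  unfold wr
  have h3 : ((range (d + 1)).filter fun i => g.2 ≤ i ∧ i + g.1 ≤ d ∧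
      rk (d + 1) (0, 0).1 (0, 0).2 i < rk (d + 1) (0, 0).1 (0, 0).2 j) = Finset.Ico g.2 j := by
    ext i
    rw [mem_filter, mem_range, mem_Ico, UPt_rk, UPt_rk]
    omega
  rw [h3, Nat.card_Ico]

private theorem UPt_Lam {d j M : ℕ} (hM : M ≤ d) :
    Lam d M (0, 0) j = range (M - j) ×ˢ range (j + 1) := by
  ext g
  unfold Lam
  rw [mem_filter, mem_product, mem_product, mem_range, mem_range, mem_range, mem_range]
  constructor
  · rintro ⟨⟨h1, h2⟩, h3, h4, h5⟩
    rw [UPt_wr h3 h4] at h5
    omega
  · rintro ⟨h1, h2⟩
    refine ⟨⟨by omega, by omega⟩, by omega, by omega, ?_⟩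
    rw [UPt_wr (by omega) (by omega)]
    omega

private theorem UPt_wt {a b d j M : ℕ} (hM : M ≤ d) (ha : 1 ≤ a) (hb : 1 ≤ b) :
    wt a b d M (0, 0) j = if j < M then bet a b (M - 1) j else 0 := by
  unfold wt
  rw [UPt_Lam hM, sum_product]
  split_ifs with h
  · have h1 : M - j = (M - 1 - j) + 1 := by omega
    unfold Eg bet
    rw [h1, ← UPt_mc ha (M - 1 - j), ← UPt_mc hb j, sum_mul_sum]
  · have h1 : M - j = 0 := by omega
    rw [h1, range_zero, sum_empty]

private theorem UPt_hi {a b d j M : ℕ} (hj : j ≤ d) (hM : M ≤ d) (o : Fin a) :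
    ((Bx a b d j).filter fun α => ¬ α (Sum.inl o) ≤ d - M).card =
      if j < M then bet a b (M - 1) j else 0 := by
  have hxd : ∀ α : Z a b → ℕ, α (Sum.inl o) ≤ xd α := by
    intro α
    unfold xd
    exact single_le_sum (f := fun i => α (Sum.inl i)) (fun i _ => Nat.zero_le _) (mem_univ o)
  split_ifs with h
  · rw [← card_Bx (a := a) (b := b) (d := M - 1) (j := j) (by omega)]
    symm
    have hup : ∀ (α : Z a b → ℕ) (v : ℕ),
        xd (Function.update α (Sum.inl o) v) + α (Sum.inl o) = xd α + v ∧
          yd (Function.update α (Sum.inl o) v) = yd α := by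
      intro α v
      constructor
      · unfold xd
        have e1 := Finset.add_sum_erase univ (fun i => α (Sum.inl i)) (mem_univ o)
        have e2 := Finset.add_sum_erase univ
          (fun i => Function.update α (Sum.inl o) v (Sum.inl i)) (mem_univ o)
        have e3 : ∑ i ∈ univ.erase o, Function.update α (Sum.inl o) v (Sum.inl i) =
            ∑ i ∈ univ.erase o, α (Sum.inl i) :=
          sum_congr rfl fun i hi => Function.update_of_ne
            (fun hh => ne_of_mem_erase hi (Sum.inl_injective hh)) _ _
        simp only [Function.update_self] at e2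
        beta_reduce at e1 e2
        omega
      · unfold yd
        exact sum_congr rfl fun i _ => Function.update_of_ne (by exact Sum.inr_ne_inl) _ _
    refine card_bij' (fun α _ => Function.update α (Sum.inl o) (α (Sum.inl o) + (d - M + 1)))
      (fun α _ => Function.update α (Sum.inl o) (α (Sum.inl o) - (d - M + 1))) ?_ ?_ ?_ ?_
    · intro α hα
      rw [mem_Bx] at hα
      have h1 := hup α (α (Sum.inl o) + (d - M + 1))
      rw [mem_filter, mem_Bx, Function.update_self]
      omega
    · intro α hα
      rw [mem_filter, mem_Bx] at hα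
      have h1 := hup α (α (Sum.inl o) - (d - M + 1))
      rw [mem_Bx]
      omega
    · intro α _
      rw [Function.update_self, Function.update_idem]
      have h1 : α (Sum.inl o) + (d - M + 1) - (d - M + 1) = α (Sum.inl o) := by omega
      rw [h1, Function.update_eq_self]
    · intro α hα
      rw [mem_filter] at hα
      rw [Function.update_self, Function.update_idem]
      have h1 : α (Sum.inl o) - (d - M + 1) + (d - M + 1) = α (Sum.inl o) := by omega
      rw [h1, Function.update_eq_self]
  · rw [card_eq_zero, filter_eq_empty_iff]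
    intro α hα
    rw [mem_Bx] at hα
    have h1 := hxd α
    omega

theorem card_Bu_add {a b d j M : ℕ} (hb : 1 ≤ b) (hj : j ≤ d) (hM : M ≤ d) (o : Fin a) :
    ((Bx a b d j).filter fun α => α (Sum.inl o) ≤ d - M).card + wt a b d M (0, 0) j =
      bet a b d j := by
  have ha : 1 ≤ a := by
    have := o.isLt
    omega
  rw [UPt_wt hM ha hb, ← UPt_hi hj hM o, ← card_Bx (a := a) (b := b) hj]
  exact card_filter_add_card_filter_not _

end Pool.Agent.H51.TB
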