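import Pool.Agent.H51.TB.LBas
import Pool.Agent.H51.TB.Gd

/-!
# Project TB, second stage: definitions

`ASys A`: all conditions on the forms with exponents in `A` (`LSys a b d j = ASys (Bx a b d j)`).
`Bu a b d j o e`: the exponents of the level `j` with exponent at most `e` at the `X`-variable `o`.  These
are the exponents of the forms vanishing to order `d - e` at the coordinate point `o`.
-/

namespace Pool.Agent.H51.TB

open Finset MvPolynomial Pool.Agent.H18.Ex Pool.Agent.H21.NX Pool.Agent.H18.Ta

/-- The system of all conditions on the forms with exponents in `A`. -/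
noncomputable def ASys {a b : ℕ} (A : Finset (Z a b → ℕ)) :
    Sys {α // α ∈ A} (Z a b) (Finset (ℕ × ℕ)) where
  R := fun Λ => {β : Z a b → ℕ // (xd β, yd β) ∈ Λ}
  fin := finite_idx a b
  co := fun _ β α => tcr (fun i => (X i : MvPolynomial (Z a b) ℂ)) α.1 β.1

theorem ASys_Bx (a b d j : ℕ) : ASys (Bx a b d j) = LSys a b d j := rfl

/-- The exponents of the level `j` with exponent at most `e` at the variable `o`. -/
def Bu (a b d j : ℕ) (o : Fin a) (e : ℕ) : Finset (Z a b → ℕ) :=
  (Bx a b d j).filter fun α => α (Sum.inl o) ≤ e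

/-- Sections: forms whose coefficients are polynomials in the positions of the points and which
satisfy the conditions identically. -/
def Sec {a b : ℕ} {κ : Type} (A : Finset (Z a b → ℕ)) (m : κ → Finset (ℕ × ℕ))
    (F : (Z a b → ℕ) → MvPolynomial (κ × Z a b) ℂ) : Prop :=
  ∀ i (β : Z a b → ℕ), (xd β, yd β) ∈ m i → ∑ α ∈ A, F α * tcr (fun v => X (i, v)) α β = 0

/-- The exponent `α + e_c - e_o`. -/
def sh {a b : ℕ} (o c : Fin a) (α : Z a b → ℕ) : Z a b → ℕ :=
  Function.update (Function.update α (Sum.inl o) (α (Sum.inl o) - 1)) (Sum.inl c)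
    (α (Sum.inl c) + 1)

/-- The Lie derivative along the vector field `x_o ∂/∂x_c` (on the positions and on the forms). -/
noncomputable def Lie {a b : ℕ} {κ : Type} [Fintype κ] (o c : Fin a)
    (F : (Z a b → ℕ) → MvPolynomial (κ × Z a b) ℂ) :
    (Z a b → ℕ) → MvPolynomial (κ × Z a b) ℂ := fun α =>
  (∑ i : κ, X (i, Sum.inl o) * pderiv (i, Sum.inl c) (F α)) +
    if 1 ≤ α (Sum.inl o) then ((α (Sum.inl c) + 1 : ℕ) : MvPolynomial (κ × Z a b) ℂ) * F (sh o c α)
    else 0

end Pool.Agent.H51.TB
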