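import Pool.Agent.H51.TB.Eul
import Pool.Agent.H51.TB.UDefs
import Pool.Agent.H18.Ta.Key
import Pool.Agent.H18.Ex.OnePar

/-!
# Module U6 (TB2): the limit lemma for a set of exponents

The same as `limit` in `Pool/Agent/H51/TB/Lim.lean` (proof there; helper59), with `Sx (Z a b) d` replaced
by a subset `A` and the level `Bx a b d j` by `A.filter fun α => yd α = j`.  `weighted` (module Eul) is needed
for arbitrary subsets of the levels: extend `g` by `0`.
-/

namespace Pool.Agent.H51.TB

open Finset Pool.Agent.H18.Ex Pool.Agent.H21.NX Pool.Agent.H18.Ta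

private theorem ULim_map {ι : Type} [Fintype ι] [DecidableEq ι] {R R' : Type*} [CommRing R]
    [CommRing R'] (φ : R →+* R') (q : ι → R) (α β : ι → ℕ) :
    tcr (fun i => φ (q i)) α β = φ (tcr q α β) := by
  unfold tcr
  rw [map_prod]
  refine prod_congr rfl fun i _ => ?_
  rw [map_mul, map_natCast, map_pow]

private theorem ULim_eval {a b : ℕ} (q : Z a b → ℂ) (α β : Z a b → ℕ) :
    MvPolynomial.eval q (tcr (fun i => (MvPolynomial.X i : MvPolynomial (Z a b) ℂ)) α β) =
      tcr q α β := by
  rw [← ULim_map (MvPolynomial.eval q)]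
  simp only [MvPolynomial.eval_X]

private theorem ULim_mem {a b : ℕ} (A : Finset (Z a b → ℕ)) {κ : Type} (m : κ → Finset (ℕ × ℕ))
    (p : κ → Z a b → ℂ) (f : {α // α ∈ A} → ℂ) :
    f ∈ (ASys A).V m p ↔ ∀ i (β : Z a b → ℕ), (xd β, yd β) ∈ m i →
      ∑ α : {α // α ∈ A}, tcr (p i) α.1 β * f α = 0 := by
  rw [Sys.mem_V]
  constructor
  · intro h i β hβ
    have h1 := h i ⟨β, hβ⟩
    refine Eq.trans (sum_congr rfl fun α _ => ?_) h1
    rw [← ULim_eval (p i) α.1 β]
    rfl
  · intro h i r
    have h1 := h i r.1 r.2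
    refine Eq.trans (sum_congr rfl fun α _ => ?_) h1
    rw [← ULim_eval (p i) α.1 r.1]
    rfl

/-- The positions at the time `t`. -/
private noncomputable def ULim_pos {a b : ℕ} (q : Z a b → ℂ) (s : ℂ) : Z a b → ℂ :=
  Sum.elim (fun k => q (Sum.inl k)) fun k => s * q (Sum.inr k)

private theorem ULim_scale {a b : ℕ} (q : Z a b → ℂ) (s : ℂ) (α β : Z a b → ℕ) :
    s ^ yd β * tcr (ULim_pos q s) α β = s ^ yd α * tcr q α β := by
  have h := tcr_scale (fun k => q (Sum.inl k)) (fun k => q (Sum.inr k)) s α β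
  have h1 : Sum.elim (fun k => q (Sum.inl k)) (fun k => q (Sum.inr k)) = q := by
    funext k
    rcases k with k | k <;> rfl
  rw [h1] at h
  exact h

private theorem ULim_sum {a b : ℕ} (β : Z a b → ℕ) : ∑ k, β k = xd β + yd β := by
  unfold xd yd
  exact Fintype.sum_sum_type β

/-- The polynomial solution. -/
private theorem ULim_poly {a b : ℕ} (A : Finset (Z a b → ℕ)) {κ : Type} [Fintype κ]
    (m : κ → ℕ) (e : κ → ℕ) (kp : ℕ → ℕ) (p : κ → Z a b → ℂ)
    (hcon : ¬ GI A fun i => Kind.free (m i)) :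
    ∃ F : (Z a b → ℕ) → Polynomial ℂ,
      (∀ i (β : Z a b → ℕ), xd β + yd β < m i →
        ∑ α ∈ A, Polynomial.X ^ (e i * yd α + kp (yd α)) *
          (F α * Polynomial.C (tcr (p i) α β)) = 0) ∧ ∃ α ∈ A, (F α).eval 0 ≠ 0 := by
  classical
  let ρ : Type := (i : κ) × (Z a b → Fin (m i))
  let Mx : ρ → (Z a b → ℕ) → Polynomial ℂ := fun r α =>
    if xd (fun k => (r.2 k : ℕ)) + yd (fun k => (r.2 k : ℕ)) < m r.1 then
      Polynomial.C (tcr (p r.1) α fun k => (r.2 k : ℕ)) *
        (Polynomial.X ^ (e r.1 * yd α + kp (yd α)) * Polynomial.X)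
    else 0
  have hsol : ∀ t : ℂ, ∃ f : (Z a b → ℕ) → ℂ,
      (∀ r, ∑ α ∈ A, f α * (Mx r α).eval t = 0) ∧ ∃ α ∈ A, f α ≠ 0 := by
    intro t
    have h1 : ¬ InjAt A (fun i => Kind.free (m i)) fun i => ULim_pos (p i) (t ^ e i) := fun h2 =>
      hcon ⟨_, h2⟩
    unfold InjAt at h1
    push Not at h1
    obtain ⟨f, hf, α₁, hα₁, hne⟩ := h1
    by_cases ht : t = 0
    · refine ⟨fun _ => 1, fun r => sum_eq_zero fun α _ => ?_, α₁, hα₁, one_ne_zero⟩
      subst ht
      simp only [Mx]
      split_ifs
      · simp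
      · simp
    · refine ⟨fun α => f α * (t ^ kp (yd α))⁻¹, fun r => ?_, α₁, hα₁, ?_⟩
      · set β : Z a b → ℕ := fun k => (r.2 k : ℕ) with hβ
        by_cases hr : xd β + yd β < m r.1
        · have h1 := hf r.1 β (by
            show ∑ k, β k < m r.1
            rw [ULim_sum]
            exact hr)
          have h2 : ∑ α ∈ A, f α * (t ^ kp (yd α))⁻¹ * (Mx r α).eval t =
              ((t ^ e r.1) ^ yd β * t) * ∑ α ∈ A, f α *
                tcr ((Kind.free (m r.1) : Kind (Z a b)).pt (ULim_pos (p r.1) (t ^ e r.1))) α β := by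
            rw [mul_sum]
            refine sum_congr rfl fun α _ => ?_
            simp only [Mx]
            rw [if_pos hr]
            simp only [Polynomial.eval_mul, Polynomial.eval_C, Polynomial.eval_pow,
              Polynomial.eval_X]
            have h3 := ULim_scale (p r.1) (t ^ e r.1) α β
            have h4 : (Kind.free (m r.1) : Kind (Z a b)).pt (ULim_pos (p r.1) (t ^ e r.1)) =
                ULim_pos (p r.1) (t ^ e r.1) := rfl
            rw [h4]
            have h5 : t ^ kp (yd α) ≠ 0 := pow_ne_zero _ ht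
            have h6 : t ^ (e r.1 * yd α + kp (yd α)) = (t ^ e r.1) ^ yd α * t ^ kp (yd α) := by
              rw [← pow_mul, ← pow_add]
            rw [h6]
            calc f α * (t ^ kp (yd α))⁻¹ * (tcr (p r.1) α β *
                  ((t ^ e r.1) ^ yd α * t ^ kp (yd α) * t)) =
                f α * t * ((t ^ kp (yd α))⁻¹ * t ^ kp (yd α)) *
                  ((t ^ e r.1) ^ yd α * tcr (p r.1) α β) := by ring
              _ = _ := by
                rw [inv_mul_cancel₀ h5, ← h3]
                ring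
          rw [h2, h1, mul_zero]
        · refine sum_eq_zero fun α _ => ?_
          simp only [Mx]
          rw [if_neg hr, Polynomial.eval_zero, mul_zero]
      · exact mul_ne_zero hne (inv_ne_zero (pow_ne_zero _ ht))
  obtain ⟨F, hF, hne⟩ := exists_poly_solution A Mx hsol
  refine ⟨F, fun i β hβ => ?_, hne⟩
  have hβk : ∀ k, β k < m i := by
    intro k
    have h1 : β k ≤ ∑ k, β k := single_le_sum (fun j _ => Nat.zero_le (β j)) (mem_univ k)
    rw [ULim_sum] at h1
    omega
  have h1 := hF ⟨i, fun k => ⟨β k, hβk k⟩⟩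
  have h2 : Polynomial.X * ∑ α ∈ A, Polynomial.X ^ (e i * yd α + kp (yd α)) *
      (F α * Polynomial.C (tcr (p i) α β)) = 0 := by
    rw [← h1, mul_sum]
    refine sum_congr rfl fun α _ => ?_
    simp only [Mx]
    rw [if_pos hβ]
    ring
  exact (mul_eq_zero.1 h2).resolve_left Polynomial.X_ne_zero

theorem limit_A {a b d : ℕ} (A : Finset (Z a b → ℕ)) (hA : A ⊆ Sx (Z a b) d) {κ : Type}
    [Fintype κ] (m : κ → ℕ) (c : κ → ℕ × ℕ) (hc : ∀ i, (c i).1 + (c i).2 ≤ d)
    (h : ∀ j ≤ d, (ASys (A.filter fun α => yd α = j)).gd (fun i => Lam d (m i) (c i) j) = 0) :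
    GI A fun i => Kind.free (m i) := by
  classical
  obtain ⟨p, hp⟩ := (Gn.all (range (d + 1)) fun j _ =>
    gn_gd (ASys (A.filter fun α => yd α = j)) fun i => Lam d (m i) (c i) j).exists
  have hbot : ∀ j ≤ d, (ASys (A.filter fun α => yd α = j)).V
      (fun i => Lam d (m i) (c i) j) p = ⊥ := by
    intro j hj
    have h1 := hp j (mem_range.2 (by omega))
    rw [h j hj] at h1
    exact Submodule.finrank_eq_zero.1 h1
  by_contra hcon
  obtain ⟨F, hF, α₀, hα₀, hne⟩ := ULim_poly A m (fun i => ex (d + 1) (c i).1 (c i).2)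
    (kap (d + 1)) p hcon
  set K : κ → ℕ → ℕ := fun i j => ex (d + 1) (c i).1 (c i).2 * j + kap (d + 1) j with hK
  set g : (Z a b → ℕ) → Polynomial ℂ := fun α => if α ∈ A then F α else 0 with hg
  -- the equations level by level
  have heq : ∀ i (β : Z a b → ℕ), xd β + yd β < m i →
      ∑ j ∈ range (d + 1), Polynomial.X ^ K i j *
        ∑ α ∈ Bx a b d j, g α * tcr (fun k => Polynomial.C (p i k)) α β = 0 := by
    intro i β hβ
    rw [← hF i β hβ]
    have h1 : ∀ j ∈ range (d + 1), Polynomial.X ^ K i j *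
        ∑ α ∈ Bx a b d j, g α * tcr (fun k => Polynomial.C (p i k)) α β =
        ∑ α ∈ (Sx (Z a b) d).filter (fun α => yd α = j), Polynomial.X ^ K i (yd α) *
          (g α * Polynomial.C (tcr (p i) α β)) := by
      intro j _
      rw [mul_sum]
      refine sum_congr rfl fun α hα => ?_
      rw [(mem_filter.1 hα).2, ULim_map (Polynomial.C : ℂ →+* Polynomial ℂ)]
    rw [sum_congr rfl h1]
    have h2 := sum_fiberwise_of_maps_to (s := Sx (Z a b) d) (t := range (d + 1))
      (g := fun α : Z a b → ℕ => yd α) (by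
        intro α hα
        rw [mem_Sx, ULim_sum] at hα
        rw [mem_range]
        omega)
      (fun α => Polynomial.X ^ K i (yd α) * (g α * Polynomial.C (tcr (p i) α β)))
    rw [h2, ← sum_subset hA]
    · refine sum_congr rfl fun α hα => ?_
      rw [hg]
      simp only
      rw [if_pos hα]
    · intro α _ hα
      rw [hg]
      simp only
      rw [if_neg hα, zero_mul, mul_zero]
  set j₀ := yd α₀ with hj₀
  have hj₀d : j₀ ≤ d := by
    have h1 := mem_Sx.1 (hA hα₀)
    rw [ULim_sum] at h1
    omega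
  -- the values at zero
  have hmem : (fun α : {α // α ∈ A.filter fun α => yd α = j₀} => (F α.1).eval 0) ∈
      (ASys (A.filter fun α => yd α = j₀)).V (fun i => Lam d (m i) (c i) j₀) p := by
    rw [ULim_mem]
    intro i β hβ
    obtain ⟨hβ1, hβ2, hβ3, hβ4⟩ := mem_filter.1 hβ
    simp only at hβ2 hβ3 hβ4
    set S : Finset ℕ := (range (d + 1)).filter fun j => yd β ≤ j ∧ j + xd β ≤ d ∧
      rk (d + 1) (c i).1 (c i).2 j < rk (d + 1) (c i).1 (c i).2 j₀ with hS
    have hcard : S.card = wr d (c i) (xd β, yd β) j₀ := rfl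
    have h2 := weighted (d := d) (m := m i) (fun k => Polynomial.C (p i k)) g
      (fun j => Polynomial.X ^ K i j) (heq i) S β (by rw [hcard]; exact hβ4)
    have h3 := congrArg (fun q => Polynomial.coeff q (K i j₀)) h2
    simp only [Polynomial.finsetSum_coeff, Polynomial.coeff_zero] at h3
    rw [sum_eq_single j₀] at h3
    · have h4 : (∏ u ∈ S, (((j₀ : ℕ) : Polynomial ℂ) - ((u : ℕ) : Polynomial ℂ))) =
          Polynomial.C (∏ u ∈ S, ((j₀ : ℂ) - (u : ℂ))) := by
        rw [map_prod]
        refine prod_congr rfl fun u _ => ?_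
        rw [map_sub]
        simp
      rw [h4, Polynomial.coeff_C_mul, Polynomial.coeff_X_pow_mul', if_pos le_rfl,
        Nat.sub_self] at h3
      have h5 : (∏ u ∈ S, ((j₀ : ℂ) - (u : ℂ))) ≠ 0 := by
        rw [prod_ne_zero_iff]
        intro u hu
        rw [sub_ne_zero]
        intro h6
        have h7 : j₀ = u := by exact_mod_cast h6
        have h8 := (mem_filter.1 hu).2.2.2
        rw [h7] at h8
        exact lt_irrefl _ h8
      have h6 := (mul_eq_zero.1 h3).resolve_left h5
      rw [Polynomial.coeff_zero_eq_eval_zero, Polynomial.eval_finsetSum] at h6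
      refine Eq.trans (sum_coe_sort (A.filter fun α => yd α = j₀)
        (fun α => tcr (p i) α β * (F α).eval 0)) (Eq.trans ?_ h6)
      have h7 : A.filter (fun α => yd α = j₀) ⊆ Bx a b d j₀ := by
        intro α hα
        obtain ⟨h8, h9⟩ := mem_filter.1 hα
        exact mem_filter.2 ⟨hA h8, h9⟩
      rw [← sum_subset h7]
      · refine sum_congr rfl fun α hα => ?_
        rw [hg]
        simp only
        rw [if_pos (mem_filter.1 hα).1, ULim_map (Polynomial.C : ℂ →+* Polynomial ℂ),
          Polynomial.eval_mul, Polynomial.eval_C, mul_comm]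
      · intro α hα hα'
        have h8 : α ∉ A := by
          intro h9
          exact hα' (mem_filter.2 ⟨h9, (mem_filter.1 hα).2⟩)
        rw [hg]
        simp only
        rw [if_neg h8, zero_mul, Polynomial.eval_zero]
    · intro j hj hne'
      rw [mem_range] at hj
      by_cases hw : yd β ≤ j ∧ j + xd β ≤ d
      · by_cases hjS : j ∈ S
        · rw [prod_eq_zero hjS (sub_self _), zero_mul, Polynomial.coeff_zero]
        · have h4 : rk (d + 1) (c i).1 (c i).2 j₀ ≤ rk (d + 1) (c i).1 (c i).2 j := by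
            by_contra h5
            exact hjS (mem_filter.2 ⟨mem_range.2 hj, hw.1, hw.2, by omega⟩)
          have h5 : rk (d + 1) (c i).1 (c i).2 j₀ < rk (d + 1) (c i).1 (c i).2 j := by
            refine lt_of_le_of_ne h4 fun h6 => hne' ?_
            exact (rk_inj (show (c i).1 + (c i).2 < d + 1 by have := hc i; omega)
              (show j₀ < d + 1 by omega) hj h6).symm
          have h6 := key_lt (show (c i).1 + (c i).2 < d + 1 by have := hc i; omega)
            (show j₀ < d + 1 by omega) hj h5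
          rw [mul_left_comm, Polynomial.coeff_X_pow_mul', if_neg (by
            have h7 : K i j₀ < K i j := h6
            omega)]
      · have h4 : ∑ α ∈ Bx a b d j, g α * tcr (fun k => Polynomial.C (p i k)) α β = 0 := by
          refine sum_eq_zero fun α hα => ?_
          rw [tcr_zero _ α β hα hw, mul_zero]
        rw [h4, mul_zero, mul_zero, Polynomial.coeff_zero]
    · intro hj
      exact absurd (mem_range.2 (by omega)) hj
  rw [hbot j₀ hj₀d, Submodule.mem_bot] at hmem
  exact hne (congrFun hmem ⟨α₀, mem_filter.2 ⟨hα₀, rfl⟩⟩)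

end Pool.Agent.H51.TB
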