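import Pool.Agent.H51.TB.Defs

/-!
# Module D4 (TB): growth of `ell`

`ell n (k + 1) = binom (n + k, k)`; `n^k ≤ k! * ell n (k + 1)`, `ell n (k + 1) ≤ (2 n)^k` for
`k ≤ n`.
-/

namespace Pool.Agent.H51.TB

open Finset Pool.Agent.H18.Ex Pool.Agent.H21.NX Pool.Agent.H18.Ta

private theorem Grow_eq (n k : ℕ) : ell n (k + 1) = (n + k).choose k := by
  unfold ell
  have h : k + 1 + n - 1 = n + k := by omega
  rw [h]
  have h2 := Nat.choose_symm_add (a := n) (b := k)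
  exact h2

/-- the lower bound -/
private theorem Grow_lo (n k : ℕ) : (n : ℝ) ^ k ≤ (k.factorial : ℝ) * (ell n (k + 1) : ℝ) := by
  rw [Grow_eq]
  have h1 : n ^ k ≤ k.factorial * (n + k).choose k := by
    rw [← Nat.ascFactorial_eq_factorial_mul_choose]
    exact (Nat.pow_le_pow_left (Nat.le_succ n) k).trans (Nat.pow_succ_le_ascFactorial (n + 1) k)
  exact_mod_cast h1

/-- the upper bound -/
private theorem Grow_hi {n c : ℕ} (hc : 1 ≤ c) (h : c ≤ n + 1) :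
    (ell n c : ℝ) ≤ (2 * (n : ℝ)) ^ (c - 1) := by
  obtain ⟨k, rfl⟩ : ∃ k, c = k + 1 := ⟨c - 1, by omega⟩
  rw [Grow_eq, Nat.add_sub_cancel]
  have h1 : (n + k).choose k ≤ (2 * n) ^ k :=
    (Nat.choose_le_pow (n + k) k).trans (Nat.pow_le_pow_left (by omega) k)
  exact_mod_cast h1

private theorem Grow_hi' {n c : ℕ} (hc : 1 ≤ c) (h : c ≤ n) :
    (ell (n - 1) c : ℝ) ≤ (2 * (n : ℝ)) ^ (c - 1) := by
  refine (Grow_hi hc (by omega)).trans ?_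
  apply pow_le_pow_left₀ (by positivity)
  have h1 : ((n - 1 : ℕ) : ℝ) ≤ (n : ℝ) := by
    exact_mod_cast Nat.sub_le n 1
  linarith

/-- the common estimate -/
private theorem Grow_key (d : ℕ) (K : ℝ) : ∃ n₀ : ℕ, ∀ n : ℕ, n₀ ≤ n → d + 2 ≤ n ∧
    ∀ e : ℕ, e ≤ 2 * d → |K| * ((d.factorial : ℝ) ^ 2 * (2 * (n : ℝ)) ^ e) ≤
      ((n - 1 : ℕ) : ℝ) ^ (e + 1) := by
  obtain ⟨N, hN⟩ := exists_nat_ge (|K| * ((d.factorial : ℝ) ^ 2 * (4 : ℝ) ^ (2 * d)))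
  refine ⟨N + d + 2, fun n hn => ⟨by omega, fun e he => ?_⟩⟩
  have h1 : (1 : ℝ) ≤ ((n - 1 : ℕ) : ℝ) := by
    exact_mod_cast (by omega : 1 ≤ n - 1)
  have h2 : 2 * (n : ℝ) ≤ 4 * ((n - 1 : ℕ) : ℝ) := by
    have : 2 * n ≤ 4 * (n - 1) := by omega
    exact_mod_cast this
  have h3 : (2 * (n : ℝ)) ^ e ≤ (4 : ℝ) ^ (2 * d) * ((n - 1 : ℕ) : ℝ) ^ e := by
    calc (2 * (n : ℝ)) ^ e ≤ (4 * ((n - 1 : ℕ) : ℝ)) ^ e :=
          pow_le_pow_left₀ (by positivity) h2 e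
      _ = (4 : ℝ) ^ e * ((n - 1 : ℕ) : ℝ) ^ e := mul_pow _ _ _
      _ ≤ (4 : ℝ) ^ (2 * d) * ((n - 1 : ℕ) : ℝ) ^ e := by
          apply mul_le_mul_of_nonneg_right _ (by positivity)
          exact pow_le_pow_right₀ (by norm_num) he
  have h4 : (N : ℝ) ≤ ((n - 1 : ℕ) : ℝ) := by
    exact_mod_cast (by omega : N ≤ n - 1)
  have h5 : 0 ≤ |K| := abs_nonneg K
  calc |K| * ((d.factorial : ℝ) ^ 2 * (2 * (n : ℝ)) ^ e)
      ≤ |K| * ((d.factorial : ℝ) ^ 2 * ((4 : ℝ) ^ (2 * d) * ((n - 1 : ℕ) : ℝ) ^ e)) := by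
        apply mul_le_mul_of_nonneg_left _ h5
        apply mul_le_mul_of_nonneg_left h3 (by positivity)
    _ = (|K| * ((d.factorial : ℝ) ^ 2 * (4 : ℝ) ^ (2 * d))) * ((n - 1 : ℕ) : ℝ) ^ e := by ring
    _ ≤ ((n - 1 : ℕ) : ℝ) * ((n - 1 : ℕ) : ℝ) ^ e := by
        apply mul_le_mul_of_nonneg_right (hN.trans h4) (by positivity)
    _ = ((n - 1 : ℕ) : ℝ) ^ (e + 1) := by ring

/-- the form used for a product on the left and one factor on the right -/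
private theorem Grow_fin {d n : ℕ} {K P : ℝ} (hd : 1 ≤ d) (hn : d + 2 ≤ n) (hP0 : 0 ≤ P)
    (hP : P ≤ (2 * (n : ℝ)) ^ (d - 1))
    (hk : ∀ e : ℕ, e ≤ 2 * d → |K| * ((d.factorial : ℝ) ^ 2 * (2 * (n : ℝ)) ^ e) ≤
      ((n - 1 : ℕ) : ℝ) ^ (e + 1)) : K * P ≤ (ell (n - 1) (d + 1) : ℝ) := by
  have h1 := hk (d - 1) (by omega)
  rw [show d - 1 + 1 = d by omega] at h1
  have h2 := Grow_lo (n - 1) d
  have hf : (1 : ℝ) ≤ (d.factorial : ℝ) := by exact_mod_cast Nat.one_le_iff_ne_zero.mpr (Nat.factorial_ne_zero d)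
  have h3 : (d.factorial : ℝ) * (K * P) ≤ (d.factorial : ℝ) * (ell (n - 1) (d + 1) : ℝ) := by
    calc (d.factorial : ℝ) * (K * P) ≤ (d.factorial : ℝ) * (|K| * P) := by
          apply mul_le_mul_of_nonneg_left _ (by positivity)
          exact mul_le_mul_of_nonneg_right (le_abs_self K) hP0
      _ ≤ (d.factorial : ℝ) * (|K| * (2 * (n : ℝ)) ^ (d - 1)) := by
          apply mul_le_mul_of_nonneg_left _ (by positivity)
          exact mul_le_mul_of_nonneg_left hP (abs_nonneg K)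
      _ ≤ (d.factorial : ℝ) ^ 2 * (|K| * (2 * (n : ℝ)) ^ (d - 1)) := by
          apply mul_le_mul_of_nonneg_right _ (by positivity)
          nlinarith
      _ = |K| * ((d.factorial : ℝ) ^ 2 * (2 * (n : ℝ)) ^ (d - 1)) := by ring
      _ ≤ _ := h1.trans h2
  exact le_of_mul_le_mul_left h3 (by linarith)

/-- Three factors against two, the exponent is larger by one (`t + M + μ ≤ t + d`). -/
theorem grow_three (d : ℕ) (K : ℝ) : ∃ n₀ : ℕ, ∀ n : ℕ, n₀ ≤ n → ∀ t M μ : ℕ, 1 ≤ t → 1 ≤ M →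
    1 ≤ μ → t ≤ d → M + μ ≤ d →
    K * ((ell n (t + 1) : ℝ) * ell n M * ell (n - 1) μ) ≤
      (ell (n - 1) t : ℝ) * ell (n - 1) (d + 1) := by
  obtain ⟨n₀, h⟩ := Grow_key d K
  refine ⟨n₀, fun n hn t M μ ht hM hμ htd hMμ => ?_⟩
  obtain ⟨hnd, hk⟩ := h n hn
  have a1 := Grow_hi (n := n) (c := t + 1) (by omega) (by omega)
  have a2 := Grow_hi (n := n) (c := M) hM (by omega)
  have a3 := Grow_hi' (n := n) (c := μ) hμ (by omega)
  rw [Nat.add_sub_cancel] at a1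
  have b1 := Grow_lo (n - 1) (t - 1)
  have b2 := Grow_lo (n - 1) d
  rw [show t - 1 + 1 = t by omega] at b1
  have hn1 : (1 : ℝ) ≤ 2 * (n : ℝ) := by
    exact_mod_cast (by omega : 1 ≤ 2 * n)
  have c1 : (ell n (t + 1) : ℝ) * ell n M * ell (n - 1) μ ≤ (2 * (n : ℝ)) ^ (t + d - 2) := by
    calc (ell n (t + 1) : ℝ) * ell n M * ell (n - 1) μ
        ≤ (2 * (n : ℝ)) ^ t * (2 * (n : ℝ)) ^ (M - 1) * (2 * (n : ℝ)) ^ (μ - 1) := by
          gcongr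
      _ = (2 * (n : ℝ)) ^ (t + (M - 1) + (μ - 1)) := by rw [pow_add, pow_add]
      _ ≤ (2 * (n : ℝ)) ^ (t + d - 2) := pow_le_pow_right₀ hn1 (by omega)
  have c2 := hk (t + d - 2) (by omega)
  rw [show t + d - 2 + 1 = t - 1 + d by omega, pow_add] at c2
  have hf1 : (1 : ℝ) ≤ ((t - 1).factorial : ℝ) := by
    exact_mod_cast Nat.one_le_iff_ne_zero.mpr (Nat.factorial_ne_zero _)
  have hf2 : ((t - 1).factorial : ℝ) ≤ (d.factorial : ℝ) := by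
    exact_mod_cast Nat.factorial_le (by omega : t - 1 ≤ d)
  set x : ℝ := (ell (n - 1) t : ℝ) with hx
  set y : ℝ := (ell (n - 1) (d + 1) : ℝ) with hy
  have hx0 : 0 ≤ x := Nat.cast_nonneg _
  have hy0 : 0 ≤ y := Nat.cast_nonneg _
  have h3 : (d.factorial : ℝ) ^ 2 * (K * ((ell n (t + 1) : ℝ) * ell n M * ell (n - 1) μ)) ≤
      (d.factorial : ℝ) ^ 2 * (x * y) := by
    calc (d.factorial : ℝ) ^ 2 * (K * ((ell n (t + 1) : ℝ) * ell n M * ell (n - 1) μ))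
        ≤ (d.factorial : ℝ) ^ 2 * (|K| * (2 * (n : ℝ)) ^ (t + d - 2)) := by
          apply mul_le_mul_of_nonneg_left _ (by positivity)
          exact mul_le_mul (le_abs_self K) c1 (by positivity) (abs_nonneg K)
      _ = |K| * ((d.factorial : ℝ) ^ 2 * (2 * (n : ℝ)) ^ (t + d - 2)) := by ring
      _ ≤ ((n - 1 : ℕ) : ℝ) ^ (t - 1) * ((n - 1 : ℕ) : ℝ) ^ d := c2
      _ ≤ (((t - 1).factorial : ℝ) * x) * ((d.factorial : ℝ) * y) := by
          gcongr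
      _ ≤ ((d.factorial : ℝ) * x) * ((d.factorial : ℝ) * y) := by
          gcongr
      _ = (d.factorial : ℝ) ^ 2 * (x * y) := by ring
  have hpos : (0 : ℝ) < (d.factorial : ℝ) ^ 2 := by positivity
  exact le_of_mul_le_mul_left h3 hpos

/-- For the dominating class. -/
theorem grow_big (d : ℕ) (K : ℝ) : ∃ n₀ : ℕ, ∀ n : ℕ, n₀ ≤ n → ∀ M : ℕ, 1 ≤ M → M ≤ d →
    K * ((ell n (d + 1 - M) : ℝ) * ell n M) ≤ (ell (n - 1) (d + 1) : ℝ) := by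
  obtain ⟨n₀, h⟩ := Grow_key d K
  refine ⟨n₀, fun n hn M hM hMd => ?_⟩
  obtain ⟨hnd, hk⟩ := h n hn
  refine Grow_fin (by omega) hnd (by positivity) ?_ hk
  have a1 := Grow_hi (n := n) (c := d + 1 - M) (by omega) (by omega)
  have a2 := Grow_hi (n := n) (c := M) hM (by omega)
  calc (ell n (d + 1 - M) : ℝ) * ell n M
      ≤ (2 * (n : ℝ)) ^ (d + 1 - M - 1) * (2 * (n : ℝ)) ^ (M - 1) := by gcongr
    _ = (2 * (n : ℝ)) ^ (d - 1) := by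
        rw [← pow_add]
        congr 1
        omega

/-- `K * n * ell n μ * ell (n - 1) μ ≤ ell (n - 1) (d + 1)` if `2 μ ≤ d`. -/
theorem grow_sq (d : ℕ) (K : ℝ) : ∃ n₀ : ℕ, ∀ n : ℕ, n₀ ≤ n → ∀ μ : ℕ, 1 ≤ μ → 2 * μ ≤ d →
    K * ((n : ℝ) * ell n μ * ell (n - 1) μ) ≤ (ell (n - 1) (d + 1) : ℝ) := by
  obtain ⟨n₀, h⟩ := Grow_key d K
  refine ⟨n₀, fun n hn μ hμ hμd => ?_⟩
  obtain ⟨hnd, hk⟩ := h n hn
  refine Grow_fin (by omega) hnd (by positivity) ?_ hk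
  have a1 := Grow_hi (n := n) (c := μ) hμ (by omega)
  have a2 := Grow_hi' (n := n) (c := μ) hμ (by omega)
  have hn0 : (0 : ℝ) ≤ (n : ℝ) := Nat.cast_nonneg n
  have hn1 : (1 : ℝ) ≤ 2 * (n : ℝ) := by
    exact_mod_cast (by omega : 1 ≤ 2 * n)
  have hn2 : (n : ℝ) ≤ 2 * (n : ℝ) := by linarith
  calc (n : ℝ) * ell n μ * ell (n - 1) μ
      ≤ (2 * (n : ℝ)) * (2 * (n : ℝ)) ^ (μ - 1) * (2 * (n : ℝ)) ^ (μ - 1) := by gcongr
    _ = (2 * (n : ℝ)) ^ (1 + (μ - 1) + (μ - 1)) := by rw [pow_add, pow_add, pow_one]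
    _ ≤ (2 * (n : ℝ)) ^ (d - 1) := pow_le_pow_right₀ hn1 (by omega)

/-- The length of a point is small. -/
theorem grow_one (d : ℕ) (K : ℝ) : ∃ n₀ : ℕ, ∀ n : ℕ, n₀ ≤ n → ∀ m : ℕ, m ≤ d →
    K * (ell n m : ℝ) ≤ (ell (n - 1) (d + 1) : ℝ) := by
  obtain ⟨n₀, h⟩ := Grow_key d K
  refine ⟨n₀, fun n hn m hm => ?_⟩
  obtain ⟨hnd, hk⟩ := h n hn
  rcases Nat.eq_zero_or_pos m with rfl | hm0
  · have h0 : ell n 0 = 0 := by
      unfold ell
      exact Nat.choose_eq_zero_of_lt (by omega)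
    rw [h0, Nat.cast_zero, mul_zero]
    exact Nat.cast_nonneg _
  · refine Grow_fin (by omega) hnd (by positivity) ?_ hk
    have a1 := Grow_hi (n := n) (c := m) hm0 (by omega)
    have hn1 : (1 : ℝ) ≤ 2 * (n : ℝ) := by
      exact_mod_cast (by omega : 1 ≤ 2 * n)
    exact a1.trans (pow_le_pow_right₀ hn1 (by omega))

end Pool.Agent.H51.TB
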