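import Pool.Agent.H51.TB.Defs

/-!
# Module D1 (TB): the total number of conditions

`∑_{j ≤ d} wt j = ∑_{g} Eg g * #{j ≤ d : g ∈ Lam d m c j}`.  For `|g| = k < m ≤ d + 1` the levels `j` of
the window `[gy, d - gx]` (`d - k + 1` of them) have the different window ranks `wr = 0, …, d - k`
(`rk` is injective on the levels), so `#{j : g ∈ Lam j} = min (m - k) (d - k + 1) = m - k`.  And
`∑_{|g| = k} Eg g = multichoose (a + b - 2) k` (Vandermonde: `multichoose` counts multisets; or
`PowerSeries`/generating functions; or induction), `∑_{k < m} (m - k) multichoose (a + b - 2) k =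
ell (a + b - 1) m` (`m = 1`: both `1`; induction on `m` with
`∑_{k ≤ m} multichoose (v) k = multichoose (v + 1) m`, twice).
-/

namespace Pool.Agent.H51.TB

open Finset Pool.Agent.H18.Ex Pool.Agent.H21.NX Pool.Agent.H18.Ta

/-- Vandermonde. -/
theorem sum_multichoose (v w k : ℕ) :
    ∑ g ∈ antidiagonal k, Nat.multichoose v g.1 * Nat.multichoose w g.2 =
      Nat.multichoose (v + w) k := by
  induction v generalizing k with
  | zero =>
    rw [Nat.zero_add]
    cases k with
    | zero =>
      rw [Finset.Nat.antidiagonal_zero, Finset.sum_singleton, Nat.multichoose_zero_right,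
        Nat.multichoose_zero_right]
    | succ k =>
      rw [Finset.Nat.sum_antidiagonal_succ, Nat.multichoose_zero_right, Nat.one_mul]
      rw [Finset.sum_eq_zero (fun p _ => by rw [Nat.multichoose_zero_succ, Nat.zero_mul]), Nat.add_zero]
  | succ v ihv =>
    induction k with
    | zero =>
      rw [Finset.Nat.antidiagonal_zero, Finset.sum_singleton, Nat.multichoose_zero_right,
        Nat.multichoose_zero_right, Nat.multichoose_zero_right]
    | succ k ihk =>
      have e1 := ihv (k + 1)
      rw [Finset.Nat.sum_antidiagonal_succ, Nat.multichoose_zero_right] at e1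
      rw [Finset.Nat.sum_antidiagonal_succ, Nat.multichoose_zero_right]
      have e2 : ∑ p ∈ antidiagonal k, Nat.multichoose (v + 1) (p.1 + 1) * Nat.multichoose w p.2 =
          ∑ p ∈ antidiagonal k, Nat.multichoose v (p.1 + 1) * Nat.multichoose w p.2 +
            ∑ p ∈ antidiagonal k, Nat.multichoose (v + 1) p.1 * Nat.multichoose w p.2 := by
        rw [← Finset.sum_add_distrib]
        refine Finset.sum_congr rfl (fun p _ => ?_)
        rw [Nat.multichoose_succ_succ, Nat.add_mul]
      rw [e2, ihk, ← Nat.add_assoc, e1, show v + 1 + w = (v + w) + 1 by omega,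
        Nat.multichoose_succ_succ]

private theorem Tot_rank (W : Finset ℕ) (f : ℕ → ℕ) (hf : ∀ i ∈ W, ∀ j ∈ W, f i = f j → i = j) (n : ℕ)
    (hn : n ≤ W.card) :
    (W.filter fun j => (W.filter fun i => f i < f j).card < n).card = n := by
  classical
  set r : ℕ → ℕ := fun j => (W.filter fun i => f i < f j).card with hr
  have hmono : ∀ i ∈ W, ∀ j ∈ W, f i < f j → r i < r j := by
    intro i hi j _ h
    refine Finset.card_lt_card ?_
    refine (Finset.ssubset_iff_of_subset ?_).2 ⟨i, Finset.mem_filter.2 ⟨hi, h⟩, ?_⟩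
    · intro t ht
      rw [Finset.mem_filter] at ht ⊢
      exact ⟨ht.1, ht.2.trans h⟩
    · intro h'
      exact absurd (Finset.mem_filter.1 h').2 (lt_irrefl _)
  have hinj : Set.InjOn r (W : Set ℕ) := by
    intro i hi j hj h
    have hi' := Finset.mem_coe.1 hi
    have hj' := Finset.mem_coe.1 hj
    rcases lt_trichotomy (f i) (f j) with h1 | h1 | h1
    · exact absurd h (hmono i hi' j hj' h1).ne
    · exact hf i hi' j hj' h1
    · exact absurd h (hmono j hj' i hi' h1).ne'
  have himg : W.image r = range W.card := by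
    refine Finset.eq_of_subset_of_card_le ?_ ?_
    · intro k hk
      obtain ⟨j, hj, rfl⟩ := Finset.mem_image.1 hk
      rw [Finset.mem_range]
      refine Finset.card_lt_card ?_
      refine (Finset.ssubset_iff_of_subset (Finset.filter_subset _ _)).2 ⟨j, hj, ?_⟩
      intro h'
      exact absurd (Finset.mem_filter.1 h').2 (lt_irrefl _)
    · rw [Finset.card_image_of_injOn hinj, Finset.card_range]
  have h1 : (W.filter fun j => r j < n).image r = range n := by
    ext k
    rw [Finset.mem_image, Finset.mem_range]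
    constructor
    · rintro ⟨j, hj, rfl⟩
      exact (Finset.mem_filter.1 hj).2
    · intro hk
      have hk' : k ∈ W.image r := by
        rw [himg, Finset.mem_range]
        omega
      obtain ⟨j, hj, rfl⟩ := Finset.mem_image.1 hk'
      exact ⟨j, Finset.mem_filter.2 ⟨hj, hk⟩, rfl⟩
  have h2 : ((W.filter fun j => r j < n).image r).card = (W.filter fun j => r j < n).card :=
    Finset.card_image_of_injOn (hinj.mono (by
      intro j hj
      exact Finset.mem_coe.2 (Finset.mem_filter.1 (Finset.mem_coe.1 hj)).1))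
  rw [h1, Finset.card_range] at h2
  exact h2.symm

/-- Each bidegree `g`, `|g| < m`, is used on exactly `m - |g|` levels. -/
theorem card_levels {d m : ℕ} (hm : m ≤ d + 1) {c : ℕ × ℕ} (hc : c.1 + c.2 ≤ d) (g : ℕ × ℕ)
    (hg : g.1 + g.2 < m) :
    ((range (d + 1)).filter fun j => g ∈ Lam d m c j).card = m - (g.1 + g.2) := by
  classical
  set W : Finset ℕ := (range (d + 1)).filter fun i => g.2 ≤ i ∧ i + g.1 ≤ d with hW
  have hWc : W.card = d + 1 - (g.1 + g.2) := by
    have e : W = Finset.Icc g.2 (d - g.1) := by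
      ext i
      rw [hW, Finset.mem_filter, Finset.mem_range, Finset.mem_Icc]
      omega
    rw [e, Nat.card_Icc]
    omega
  have hwr : ∀ j, wr d c g j =
      (W.filter fun i => rk (d + 1) c.1 c.2 i < rk (d + 1) c.1 c.2 j).card := by
    intro j
    unfold wr
    rw [hW, Finset.filter_filter]
    congr 1
    refine Finset.filter_congr (fun i _ => ?_)
    tauto
  have key := Tot_rank W (rk (d + 1) c.1 c.2) (by
    intro i hi j hj h
    rw [hW, Finset.mem_filter, Finset.mem_range] at hi hj
    exact rk_inj (by omega) hi.1 hj.1 h) (m - (g.1 + g.2)) (by omega)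
  rw [← key]
  congr 1
  ext j
  rw [Finset.mem_filter, Finset.mem_filter, ← hwr j]
  unfold Lam
  rw [hW, Finset.mem_filter, Finset.mem_filter, Finset.mem_product, Finset.mem_range, Finset.mem_range,
    Finset.mem_range]
  constructor
  · rintro ⟨h1, -, h2, h3, h4⟩
    exact ⟨⟨h1, h2, h3⟩, by omega⟩
  · rintro ⟨⟨h1, h2, h3⟩, h4⟩
    exact ⟨h1, ⟨by omega, by omega⟩, h2, h3, by omega⟩

private theorem Tot_sum1 (v : ℕ) : ∀ m : ℕ, ∑ k ∈ range (m + 1), Nat.multichoose v k =
    Nat.multichoose (v + 1) m := by
  intro m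
  induction m with
  | zero => rw [Finset.sum_range_one, Nat.multichoose_zero_right, Nat.multichoose_zero_right]
  | succ m ih =>
    rw [Finset.sum_range_succ, ih, Nat.multichoose_succ_succ, Nat.add_comm]

private theorem Tot_sum2 (v : ℕ) : ∀ m : ℕ, ∑ k ∈ range m, (m - k) * Nat.multichoose v k =
    (v + m).choose (v + 1) := by
  intro m
  induction m with
  | zero =>
    rw [Finset.sum_range_zero, Nat.add_zero, Nat.choose_eq_zero_of_lt (Nat.lt_succ_self v)]
  | succ m ih =>
    have e1 : ∑ k ∈ range (m + 1), (m + 1 - k) * Nat.multichoose v k =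
        ∑ k ∈ range (m + 1), (m - k) * Nat.multichoose v k + ∑ k ∈ range (m + 1), Nat.multichoose v k := by
      rw [← Finset.sum_add_distrib]
      refine Finset.sum_congr rfl (fun k hk => ?_)
      rw [Finset.mem_range] at hk
      rw [show m + 1 - k = (m - k) + 1 by omega, Nat.add_mul, Nat.one_mul]
    have e2 : ∑ k ∈ range (m + 1), (m - k) * Nat.multichoose v k = (v + m).choose (v + 1) := by
      rw [Finset.sum_range_succ, Nat.sub_self, Nat.zero_mul, Nat.add_zero, ih]
    rw [e1, e2, Tot_sum1, Nat.multichoose_eq, show v + 1 + m - 1 = v + m by omega,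
      show v + (m + 1) = (v + m) + 1 by omega, Nat.choose_succ_succ,
      ← Nat.choose_symm_of_eq_add (show v + m = m + v by omega), Nat.add_comm]

theorem sum_wt {a b d m : ℕ} (ha : 1 ≤ a) (hb : 1 ≤ b) (hm : m ≤ d + 1) {c : ℕ × ℕ}
    (hc : c.1 + c.2 ≤ d) : ∑ j ∈ range (d + 1), wt a b d m c j = ell (a + b - 1) m := by
  classical
  have hLam : ∀ j, Lam d m c j ⊆ range m ×ˢ range m := fun j => Finset.filter_subset _ _
  have e1 : ∀ j, wt a b d m c j = ∑ g ∈ range m ×ˢ range m, if g ∈ Lam d m c j then Eg a b g else 0 := by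
    intro j
    unfold wt
    rw [← Finset.sum_filter]
    refine Finset.sum_congr ?_ (fun _ _ => rfl)
    ext g
    rw [Finset.mem_filter]
    exact ⟨fun h => ⟨hLam j h, h⟩, fun h => h.2⟩
  have e2 : ∑ j ∈ range (d + 1), wt a b d m c j =
      ∑ g ∈ range m ×ˢ range m, (m - (g.1 + g.2)) * Eg a b g := by
    rw [Finset.sum_congr rfl (fun j _ => e1 j), Finset.sum_comm]
    refine Finset.sum_congr rfl (fun g _ => ?_)
    rw [← Finset.sum_filter, Finset.sum_const, smul_eq_mul]
    by_cases hg : g.1 + g.2 < m
    · rw [card_levels hm hc g hg]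
    · have e3 : (range (d + 1)).filter (fun j => g ∈ Lam d m c j) = ∅ := by
        refine Finset.filter_eq_empty_iff.2 ?_
        intro j _ h
        unfold Lam at h
        rw [Finset.mem_filter] at h
        omega
      rw [e3, Finset.card_empty, Nat.zero_mul, show m - (g.1 + g.2) = 0 by omega, Nat.zero_mul]
  have e4 : ∑ g ∈ range m ×ˢ range m, (m - (g.1 + g.2)) * Eg a b g =
      ∑ k ∈ range m, ∑ g ∈ antidiagonal k, (m - k) * Eg a b g := by
    have hfib := Finset.sum_fiberwise_of_maps_to (s := (range m ×ˢ range m).filter (fun g => g.1 + g.2 < m))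
      (t := range m) (g := fun g : ℕ × ℕ => g.1 + g.2) (by
        intro g hg
        exact Finset.mem_range.2 (Finset.mem_filter.1 hg).2) (fun g => (m - (g.1 + g.2)) * Eg a b g)
    have h1 : ∑ g ∈ (range m ×ˢ range m).filter (fun g => g.1 + g.2 < m), (m - (g.1 + g.2)) * Eg a b g =
        ∑ g ∈ range m ×ˢ range m, (m - (g.1 + g.2)) * Eg a b g := by
      refine Finset.sum_filter_of_ne ?_
      intro g _ h
      by_contra h'
      exact h (by rw [show m - (g.1 + g.2) = 0 by omega, Nat.zero_mul])
    rw [← h1, ← hfib]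
    refine Finset.sum_congr rfl (fun k hk => ?_)
    rw [Finset.mem_range] at hk
    have h2 : ((range m ×ˢ range m).filter (fun g : ℕ × ℕ => g.1 + g.2 < m)).filter (fun g => g.1 + g.2 = k) =
        antidiagonal k := by
      ext g
      rw [Finset.mem_filter, Finset.mem_filter, Finset.mem_product, Finset.mem_range, Finset.mem_range,
        Finset.HasAntidiagonal.mem_antidiagonal]
      omega
    rw [h2]
    refine Finset.sum_congr rfl (fun g hg => ?_)
    rw [Finset.HasAntidiagonal.mem_antidiagonal.1 hg]
  rw [e2, e4]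
  have e5 : ∀ k ∈ range m, ∑ g ∈ antidiagonal k, (m - k) * Eg a b g =
      (m - k) * Nat.multichoose (a + b - 2) k := by
    intro k _
    rw [← Finset.mul_sum]
    unfold Eg
    rw [sum_multichoose, show a - 1 + (b - 1) = a + b - 2 by omega]
  rw [Finset.sum_congr rfl e5, Tot_sum2]
  unfold ell
  rw [show a + b - 2 + 1 = a + b - 1 by omega, show a + b - 2 + m = m + (a + b - 1) - 1 by omega]

end Pool.Agent.H51.TB
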