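import Pool.Agent.H51.TB.Defs

/-!
# Module D3 (TB): asymptotics

`multichoose v p = v (v + 1) ⋯ (v + p - 1) / p!`, `ell (n - 1) (k + 1) = binom (n - 1 + k, k) =
multichoose n k`.
-/

namespace Pool.Agent.H51.TB

open Finset Pool.Agent.H18.Ex Pool.Agent.H21.NX Pool.Agent.H18.Ta

private theorem Asy_fac (v p : ℕ) :
    (p.factorial : ℝ) * (Nat.multichoose v p : ℝ) = ∏ i ∈ range p, ((v : ℝ) + i) := by
  have h : p.factorial * Nat.multichoose v p = v.ascFactorial p := by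
    rw [Nat.multichoose_eq, Nat.ascFactorial_eq_factorial_mul_choose']
  have h2 := Nat.ascFactorial_eq_prod_range v p
  rw [← h] at h2
  exact_mod_cast h2

private theorem Asy_ell (n k : ℕ) (hn : 1 ≤ n) : ell (n - 1) (k + 1) = Nat.multichoose n k := by
  rw [Nat.multichoose_eq]
  unfold ell
  rw [show k + 1 + (n - 1) - 1 = (n - 1) + k by omega, show n + k - 1 = (n - 1) + k by omega,
    Nat.choose_symm_add]

/-- the ratio as a function of `r = (a - b) / n` and `t = 1 / n` -/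
private noncomputable def Asy_Phi (s p q : ℕ) (x : ℝ × ℝ) : ℝ :=
  ((p + q).choose q : ℝ) * ((∏ i ∈ range p, (1 / 2 + x.1 / 2 + ((i : ℝ) - s) * x.2)) *
    ∏ j ∈ range q, (1 / 2 - x.1 / 2 + ((j : ℝ) - s) * x.2)) /
    ∏ i ∈ range (p + q), (1 + (i : ℝ) * x.2)

private theorem Asy_cont (s p q : ℕ) : ContinuousAt (Asy_Phi s p q) (0, 0) := by
  unfold Asy_Phi
  refine ContinuousAt.div ?_ ?_ ?_
  · fun_prop
  · fun_prop
  · simp

private theorem Asy_zero (s p q : ℕ) :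
    Asy_Phi s p q (0, 0) = ((p + q).choose q : ℝ) / 2 ^ (p + q) := by
  unfold Asy_Phi
  simp only [zero_div, add_zero, mul_zero, sub_zero, prod_const, card_range, one_pow, div_one]
  rw [← pow_add, one_div, inv_pow, div_eq_mul_inv]

private theorem Asy_id (s p q a b : ℕ) (ha : s ≤ a) (hb : s ≤ b) (hn : 1 ≤ a + b) :
    ((Nat.multichoose (a - s) p * Nat.multichoose (b - s) q : ℕ) : ℝ) =
      Asy_Phi s p q (((a : ℝ) - b) / ((a + b : ℕ) : ℝ), 1 / ((a + b : ℕ) : ℝ)) *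
        (Nat.multichoose (a + b) (p + q) : ℝ) := by
  have hn0 : (0 : ℝ) < ((a + b : ℕ) : ℝ) := by exact_mod_cast hn
  set n : ℝ := ((a + b : ℕ) : ℝ) with hnd
  have hab : n = (a : ℝ) + b := by rw [hnd]; push_cast; ring
  set PA : ℝ := ∏ i ∈ range p, (1 / 2 + ((a : ℝ) - b) / n / 2 + ((i : ℝ) - s) * (1 / n)) with hPA
  set PB : ℝ := ∏ j ∈ range q, (1 / 2 - ((a : ℝ) - b) / n / 2 + ((j : ℝ) - s) * (1 / n)) with hPB
  set PN : ℝ := ∏ i ∈ range (p + q), (1 + (i : ℝ) * (1 / n)) with hPN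
  have hPN0 : 0 < PN := prod_pos fun i _ => by positivity
  have hA : (p.factorial : ℝ) * (Nat.multichoose (a - s) p : ℝ) = n ^ p * PA := by
    rw [Asy_fac, hPA, ← card_range p, ← prod_const, card_range, ← prod_mul_distrib]
    refine prod_congr rfl fun i _ => ?_
    rw [Nat.cast_sub ha, hab]
    have : (a : ℝ) + b ≠ 0 := by rw [← hab]; exact hn0.ne'
    field_simp
    ring
  have hB : (q.factorial : ℝ) * (Nat.multichoose (b - s) q : ℝ) = n ^ q * PB := by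
    rw [Asy_fac, hPB, ← card_range q, ← prod_const, card_range, ← prod_mul_distrib]
    refine prod_congr rfl fun i _ => ?_
    rw [Nat.cast_sub hb, hab]
    have : (a : ℝ) + b ≠ 0 := by rw [← hab]; exact hn0.ne'
    field_simp
    ring
  have hN : ((p + q).factorial : ℝ) * (Nat.multichoose (a + b) (p + q) : ℝ) =
      n ^ (p + q) * PN := by
    rw [Asy_fac, hPN, ← card_range (p + q), ← prod_const, card_range, ← prod_mul_distrib]
    refine prod_congr rfl fun i _ => ?_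
    rw [← hnd]
    field_simp
  have hC : ((p + q).choose q : ℝ) * p.factorial * q.factorial = ((p + q).factorial : ℝ) := by
    have := Nat.add_choose_mul_factorial_mul_factorial p q
    exact_mod_cast this
  have hΦ : Asy_Phi s p q (((a : ℝ) - b) / n, 1 / n) =
      ((p + q).choose q : ℝ) * (PA * PB) / PN := rfl
  rw [hΦ]
  have hp0 : (0 : ℝ) < p.factorial := by exact_mod_cast p.factorial_pos
  have hq0 : (0 : ℝ) < q.factorial := by exact_mod_cast q.factorial_pos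
  have hpq0 : (0 : ℝ) < (p + q).factorial := by exact_mod_cast (p + q).factorial_pos
  have hpq : (0 : ℝ) < p.factorial * q.factorial * (p + q).factorial := by positivity
  push_cast
  refine mul_left_cancel₀ hpq.ne' ?_
  have e1 : (p.factorial : ℝ) * q.factorial * (p + q).factorial *
      ((Nat.multichoose (a - s) p : ℝ) * (Nat.multichoose (b - s) q : ℝ)) =
      (p + q).factorial * ((p.factorial * (Nat.multichoose (a - s) p : ℝ)) *
        (q.factorial * (Nat.multichoose (b - s) q : ℝ))) := by ring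
  have e2 : (p.factorial : ℝ) * q.factorial * (p + q).factorial *
      (((p + q).choose q : ℝ) * (PA * PB) / PN * (Nat.multichoose (a + b) (p + q) : ℝ)) =
      (((p + q).choose q : ℝ) * p.factorial * q.factorial) * (PA * PB) / PN *
        ((p + q).factorial * (Nat.multichoose (a + b) (p + q) : ℝ)) := by ring
  rw [e1, e2, hA, hB, hN, hC, pow_add]
  field_simp

private theorem Asy_gen (s p q : ℕ) (δ : ℝ) (hδ : 0 < δ) : ∃ ε : ℝ, 0 < ε ∧ ∃ n₀ : ℕ,
    ∀ a b : ℕ, s ≤ a → s ≤ b → 1 ≤ a → n₀ ≤ a + b → |(a : ℝ) - b| ≤ ε * (a + b : ℕ) →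
    |((Nat.multichoose (a - s) p * Nat.multichoose (b - s) q : ℕ) : ℝ) -
      ((p + q).choose q : ℝ) / 2 ^ (p + q) * (ell (a + b - 1) (p + q + 1) : ℝ)| ≤
      δ * (ell (a + b - 1) (p + q + 1) : ℝ) := by
  obtain ⟨η, hη, h⟩ := Metric.continuousAt_iff.1 (Asy_cont s p q) δ hδ
  refine ⟨η / 2, by linarith, ⌊1 / η⌋₊ + 1, ?_⟩
  intro a b ha hb ha1 hn hab
  have hn1 : 1 ≤ a + b := by omega
  have hn0 : (0 : ℝ) < ((a + b : ℕ) : ℝ) := by exact_mod_cast hn1
  have ht : 1 / ((a + b : ℕ) : ℝ) < η := by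
    have h1 : 1 / η < ((a + b : ℕ) : ℝ) := by
      have h2 := Nat.lt_floor_add_one (1 / η)
      have h3 : ((⌊1 / η⌋₊ + 1 : ℕ) : ℝ) ≤ ((a + b : ℕ) : ℝ) := by exact_mod_cast hn
      push_cast at h3 ⊢
      linarith
    rw [div_lt_iff₀ hη] at h1
    rw [div_lt_iff₀ hn0]
    linarith
  have hr : |((a : ℝ) - b) / ((a + b : ℕ) : ℝ)| < η := by
    rw [abs_div, abs_of_pos hn0, div_lt_iff₀ hn0]
    have : 0 < η * ((a + b : ℕ) : ℝ) := by positivity
    linarith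
  have h1 := @h (((a : ℝ) - b) / ((a + b : ℕ) : ℝ), 1 / ((a + b : ℕ) : ℝ)) (by
    rw [Prod.dist_eq, Real.dist_eq, Real.dist_eq, max_lt_iff]
    simp only [sub_zero]
    refine ⟨hr, ?_⟩
    rw [abs_of_pos (by positivity)]
    exact ht)
  rw [Real.dist_eq, Asy_zero] at h1
  rw [Asy_id s p q a b ha hb hn1, Asy_ell (a + b) (p + q) hn1, ← sub_mul, abs_mul,
    abs_of_nonneg (Nat.cast_nonneg (α := ℝ) (Nat.multichoose (a + b) (p + q)))]
  exact mul_le_mul_of_nonneg_right h1.le (Nat.cast_nonneg _)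

theorem asy (p q : ℕ) (δ : ℝ) (hδ : 0 < δ) : ∃ ε : ℝ, 0 < ε ∧ ∃ n₀ : ℕ, ∀ a b : ℕ, 1 ≤ a → 1 ≤ b →
    n₀ ≤ a + b → |(a : ℝ) - b| ≤ ε * (a + b : ℕ) →
    |((Nat.multichoose (a - 1) p * Nat.multichoose (b - 1) q : ℕ) : ℝ) -
      ((p + q).choose q : ℝ) / 2 ^ (p + q) * (ell (a + b - 1) (p + q + 1) : ℝ)| ≤
      δ * (ell (a + b - 1) (p + q + 1) : ℝ) := by
  obtain ⟨ε, hε, n₀, h⟩ := Asy_gen 1 p q δ hδ
  exact ⟨ε, hε, n₀, fun a b ha hb hn hab => h a b ha hb ha hn hab⟩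

theorem asy' (p q : ℕ) (δ : ℝ) (hδ : 0 < δ) : ∃ ε : ℝ, 0 < ε ∧ ∃ n₀ : ℕ, ∀ a b : ℕ, 1 ≤ a → 1 ≤ b →
    n₀ ≤ a + b → |(a : ℝ) - b| ≤ ε * (a + b : ℕ) →
    |((Nat.multichoose a p * Nat.multichoose b q : ℕ) : ℝ) -
      ((p + q).choose q : ℝ) / 2 ^ (p + q) * (ell (a + b - 1) (p + q + 1) : ℝ)| ≤
      δ * (ell (a + b - 1) (p + q + 1) : ℝ) := by
  obtain ⟨ε, hε, n₀, h⟩ := Asy_gen 0 p q δ hδ
  exact ⟨ε, hε, n₀, fun a b ha hb hn hab => h a b (Nat.zero_le _) (Nat.zero_le _) ha hn hab⟩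

end Pool.Agent.H51.TB
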