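import Pool.Agent.H51.TB.UPair
import Pool.Agent.H21.NX.VFin
import Pool.Agent.H21.HD.Main

/-!
# Project TB: final theorems
-/

namespace Pool.Agent.H51.TB

open Finset MvPolynomial Pool.Agent.H18.Fat Pool.Agent.H18.Ex Pool.Agent.H21.NX

/-- Pair sums at most `d + 1`. -/
theorem fixed_one (d : ℕ) (η : ℝ) (hη : 0 < η) : ∃ r₀ K : ℕ, ∀ r : ℕ, r₀ ≤ r → ∀ (k : ℕ)
    (m : Fin k → ℕ), (∀ i, 1 ≤ m i) → (∀ i j, i ≠ j → m i + m j ≤ d + 1) →
    (((∑ i ∈ univ.filter (fun i => 2 * m i = d + 1), ell r (m i) : ℕ) : ℝ) ≤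
      (1 - η) * ((d + r).choose r : ℝ) ∨
      ∃ μ, 1 ≤ μ ∧ 4 * μ ≤ d + 1 ∧ K * r ^ (d - μ) ≤ (univ.filter fun i => m i = μ).card) →
    ForGeneralPoints r k fun p => ImposesMaximalConditions r d p m := by
  obtain ⟨r₁, h₁⟩ := pairs_all d (min η 1) (lt_min hη one_pos)
  obtain ⟨K, r₂, h₂⟩ := exact_many d
  refine ⟨r₁ + r₂, K, fun r hr k m hm hp hcase => ?_⟩
  have hN : (0 : ℝ) ≤ ((d + r).choose r : ℝ) := Nat.cast_nonneg _
  rcases hcase with h | ⟨μ, hμ1, hμ4, hμ⟩
  · refine h₁ r (by omega) k m hm hp (h.trans ?_)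
    have : min η 1 ≤ η := min_le_left _ _
    nlinarith
  · by_cases hbig : ∃ i, d + 2 ≤ 2 * m i
    · obtain ⟨i₀, hi₀⟩ := hbig
      refine h₁ r (by omega) k m hm hp ?_
      have hempty : (univ.filter fun i => 2 * m i = d + 1) = ∅ := by
        rw [filter_eq_empty_iff]
        intro i _ hi
        by_cases hii : i = i₀
        · subst hii
          omega
        · have := hp i i₀ hii
          omega
      rw [hempty, sum_empty, Nat.cast_zero]
      have : min η 1 ≤ 1 := min_le_right _ _
      nlinarith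
    · push Not at hbig
      refine h₂ r (by omega) μ ((d + 1) / 2) hμ1 (by omega) (by omega) (by omega) k m
        (fun i => by have := hbig i; omega) hμ

/-- Pair sums at least `d + 2`. -/
theorem fixed_two (r d k : ℕ) (hr : 1 ≤ r) (m : Fin k → ℕ) (hm : ∀ i, 1 ≤ m i)
    (hp : ∃ i j, i ≠ j ∧ d + 2 ≤ m i + m j) :
    ForGeneralPoints r k fun p => (¬ ImposesMaximalConditions r d p m ↔
      0 < Module.finrank ℂ (fatForms r d p m)) := by
  refine (ForGeneralPoints.coord_ne_zero r k).mono fun p hp0 => ?_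
  have hge := finrank_fatForms_ge (d := d) hr (fun i => hp0 i 0) m
  constructor
  · intro h
    by_contra h0
    have h1 : Module.finrank ℂ (fatForms r d p m) = 0 := by omega
    apply h
    unfold ImposesMaximalConditions
    rw [h1] at hge ⊢
    omega
  · intro h
    by_cases hbig : ∃ i, d < m i
    · obtain ⟨i, hi⟩ := hbig
      have := Pool.Agent.H21.HD.MainX.big_mult p m i hi
      omega
    · push Not at hbig
      obtain ⟨i, j, hij, hd⟩ := hp
      exact Pool.Agent.H21.HD.not_maximal_of_pair hr d p (fun i => hp0 i 0) m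
        (fun i => ⟨hm i, hbig i⟩) i j hij hd h

/-- Bounded multiplicities. -/
theorem bounded (η : ℝ) (hη : 0 < η) : ∃ C : ℝ, 0 < C ∧ ∃ r₀ K : ℕ → ℕ, ∀ r M d k : ℕ, 1 ≤ r →
    1 ≤ M → ∀ m : Fin k → ℕ, (∀ i, 1 ≤ m i ∧ m i ≤ M) →
    (C * M * (1 + (M : ℝ) / r) ^ 3 * (M : ℝ) ^ (22 / (r : ℝ)) ≤ d ∨
      (r₀ M ≤ r ∧ 2 * M ≤ d) ∨
      (r₀ M ≤ r ∧ 2 * M ≤ d + 1 ∧
        (((univ.filter fun i => m i = M).card * (M + r - 1).choose r : ℕ) : ℝ) ≤
          (1 - η) * ((d + r).choose r : ℝ)) ∨
      (r₀ M ≤ r ∧ 2 * M ≤ d + 1 ∧ ∃ μ, 1 ≤ μ ∧ 2 * μ + M ≤ d + 1 ∧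
        K M * r ^ (d - μ) ≤ (univ.filter fun i => m i = μ).card)) →
    ForGeneralPoints r k fun p => ImposesMaximalConditions r d p m := by
  obtain ⟨C, hC, h1⟩ := Pool.Agent.H21.NX.region_real
  choose r₁ K h2 using Pool.Agent.H21.NX.exact_high
  choose R hR using fun d => pairs_all d (min η 1) (lt_min hη one_pos)
  have key : ∀ M r d k : ℕ, r₁ M + (range (3 * M)).sup R ≤ r → 2 * M ≤ d + 1 →
      ∀ m : Fin k → ℕ, (∀ i, 1 ≤ m i ∧ m i ≤ M) →
      (2 * M ≤ d ∨ (((univ.filter fun i => m i = M).card * (M + r - 1).choose r : ℕ) : ℝ) ≤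
          (1 - η) * ((d + r).choose r : ℝ)) →
      ForGeneralPoints r k fun p => ImposesMaximalConditions r d p m := by
    intro M r d k hr hd m hm hcase
    by_cases h3 : 3 * M ≤ d + 1
    · exact h2 M r d (by omega) hd k m (fun i => (hm i).2) (Or.inl h3)
    · have hRd : R d ≤ (range (3 * M)).sup R := le_sup (f := R) (mem_range.2 (by omega))
      refine hR d r (by omega) k m (fun i => (hm i).1) (fun i j _ => ?_) ?_
      · have := (hm i).2
        have := (hm j).2
        omega
      · have hN : (0 : ℝ) ≤ ((d + r).choose r : ℝ) := Nat.cast_nonneg _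
        have e1 : min η 1 ≤ η := min_le_left _ _
        have e2 : min η 1 ≤ 1 := min_le_right _ _
        by_cases h4 : 2 * M ≤ d
        · have hempty : (univ.filter fun i => 2 * m i = d + 1) = ∅ := by
            rw [filter_eq_empty_iff]
            intro i _ hi
            have := (hm i).2
            omega
          rw [hempty, sum_empty, Nat.cast_zero]
          nlinarith
        · rcases hcase with h5 | h5
          · exact absurd h5 h4
          · have hf : (univ.filter fun i => 2 * m i = d + 1) = univ.filter fun i => m i = M := by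
              refine filter_congr fun i _ => ?_
              constructor <;> intro h <;> omega
            have hs : ∑ i ∈ univ.filter (fun i => 2 * m i = d + 1), ell r (m i) =
                (univ.filter fun i => m i = M).card * (M + r - 1).choose r := by
              rw [hf]
              rw [sum_congr rfl (g := fun _ => (M + r - 1).choose r)]
              · rw [sum_const, smul_eq_mul]
              · intro i hi
                rw [(mem_filter.1 hi).2]
                rfl
            rw [hs]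
            refine h5.trans ?_
            nlinarith
  refine ⟨C, hC, fun M => r₁ M + (range (3 * M)).sup R, K, fun r M d k hr hM m hm hcase => ?_⟩
  rcases hcase with h | ⟨h3, h4⟩ | ⟨h3, h4, h5⟩ | ⟨h3, h4, h5⟩
  · exact h1 r M hr hM d h k m (fun i => (hm i).2)
  · exact key M r d k h3 (by omega) m hm (Or.inl h4)
  · exact key M r d k h3 h4 m hm (Or.inr h5)
  · have h6 : r₁ M + (range (3 * M)).sup R ≤ r := h3
    exact h2 M r d (by omega) h4 k m (fun i => (hm i).2) (Or.inr h5)

end Pool.Agent.H51.TB
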