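import Pool.Agent.H51.TB.UDefs

/-!
# Module U5 (TB2): membership, domination and sizes for `ASys`

As `LBas.mem_LV`, `LBas.dom_of_subset` and `LRank` (delivered, complete; the proofs can be copied).  For
`le_size_U` use the position `q` with `q = 1` at an `X`-variable `≠ o` and at the first
`Y`-variable: the exponent determined by `β` (zero at these two variables, bidegree `g ∈ Λ`) has
`α_o = β_o ≤ g.1 ≤ e`, so it is in `Bu a b d j o e`.
-/

namespace Pool.Agent.H51.TB

open Finset MvPolynomial Pool.Agent.H18.Ex Pool.Agent.H21.NX Pool.Agent.H18.Ta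

private theorem URank_eval {a b : ℕ} (q : Z a b → ℂ) (α β : Z a b → ℕ) :
    eval q (tcr (fun i => (X i : MvPolynomial (Z a b) ℂ)) α β) = tcr q α β := by
  unfold tcr
  rw [map_prod]
  refine prod_congr rfl fun i _ => ?_
  rw [map_mul, map_natCast, map_pow, eval_X]

theorem mem_AV {a b : ℕ} (A : Finset (Z a b → ℕ)) {κ : Type} (m : κ → Finset (ℕ × ℕ))
    (p : κ → Z a b → ℂ) (f : {α // α ∈ A} → ℂ) :
    f ∈ (ASys A).V m p ↔ ∀ i (β : Z a b → ℕ), (xd β, yd β) ∈ m i →
      ∑ α : {α // α ∈ A}, tcr (p i) α.1 β * f α = 0 := by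
  rw [Sys.mem_V]
  constructor
  · intro h i β hβ
    have h1 := h i ⟨β, hβ⟩
    refine Eq.trans (sum_congr rfl fun α _ => ?_) h1
    rw [← URank_eval (p i) α.1 β]
    rfl
  · intro h i r
    have h1 := h i r.1 r.2
    refine Eq.trans (sum_congr rfl fun α _ => ?_) h1
    rw [← URank_eval (p i) α.1 r.1]
    rfl

theorem dom_A {a b : ℕ} (A : Finset (Z a b → ℕ)) {Λ Λ' : Finset (ℕ × ℕ)} (h : Λ ⊆ Λ') :
    (ASys A).Dom Λ' Λ := by
  intro q f hf
  rw [mem_AV] at hf ⊢
  exact fun i β hβ => hf i β (h hβ)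

private theorem URank_card_Sx {ι : Type} [Fintype ι] [DecidableEq ι] (n : ℕ) :
    (Sx ι n).card = Nat.multichoose (Fintype.card ι) n := by
  rw [← card_univ, ← card_finsuppAntidiag_nat_eq_multichoose]
  symm
  apply card_bij (fun (α : ι →₀ ℕ) _ => (⇑α : ι → ℕ))
  · intro α hα
    rw [mem_finsuppAntidiag] at hα
    exact mem_Sx.2 hα.1
  · intro α _ β _ h
    exact DFunLike.coe_injective h
  · intro f hf
    refine ⟨Finsupp.equivFunOnFinite.symm f, ?_, rfl⟩
    rw [mem_finsuppAntidiag]
    exact ⟨mem_Sx.1 hf, subset_univ _⟩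

theorem size_le_A {a b : ℕ} (ha : 1 ≤ a) (A : Finset (Z a b → ℕ)) (Λ : Finset (ℕ × ℕ)) (t : ℕ)
    (hΛ : ∀ g ∈ Λ, g.1 + g.2 < t) : (ASys A).size Λ ≤ ell (a + b) t := by
  obtain ⟨p, hp⟩ := gd_attained (ASys A) (fun _ : Unit => Λ)
  have : Finite {β : Z a b → ℕ // (xd β, yd β) ∈ Λ} := finite_idx a b Λ
  letI : Fintype {β : Z a b → ℕ // (xd β, yd β) ∈ Λ} := Fintype.ofFinite _
  -- the number of conditions
  have hcard : Fintype.card {β : Z a b → ℕ // (xd β, yd β) ∈ Λ} ≤ ell (a + b) t := by
    rcases Nat.eq_zero_or_pos t with rfl | ht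
    · have : IsEmpty {β : Z a b → ℕ // (xd β, yd β) ∈ Λ} := ⟨fun β => by
        have := hΛ _ β.2
        omega⟩
      rw [Fintype.card_eq_zero]
      exact Nat.zero_le _
    · have hsum : ∀ β : Z a b → ℕ, ∑ z, β z = xd β + yd β := fun β => Fintype.sum_sum_type β
      let ψ : {β : Z a b → ℕ // (xd β, yd β) ∈ Λ} → {x // x ∈ Sx (Option (Z a b)) (t - 1)} := fun β =>
        ⟨fun o => o.elim (t - 1 - ∑ z, β.1 z) β.1, by
          rw [mem_Sx, Fintype.sum_option]
          have h1 := hΛ _ β.2
          have h2 := hsum β.1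
          simp only [Option.elim_none, Option.elim_some]
          omega⟩
      have hψ : Function.Injective ψ := by
        intro β γ h
        apply Subtype.ext
        funext z
        have h1 := congrArg Subtype.val h
        exact congrFun h1 (some z)
      have h1 := Fintype.card_le_of_injective ψ hψ
      rw [Fintype.card_coe, URank_card_Sx, Fintype.card_option, Fintype.card_sum, Fintype.card_fin, Fintype.card_fin,
        Nat.multichoose_eq] at h1
      refine h1.trans (le_of_eq ?_)
      unfold ell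
      have h2 : a + b + 1 + (t - 1) - 1 = (a + b) + (t - 1) := by omega
      have h3 : t + (a + b) - 1 = (a + b) + (t - 1) := by omega
      rw [h2, h3]
      exact (Nat.choose_symm_add (a := a + b) (b := t - 1)).symm
  -- the linear map
  let L : ({α // α ∈ A} → ℂ) →ₗ[ℂ] ({β : Z a b → ℕ // (xd β, yd β) ∈ Λ} → ℂ) :=
    { toFun := fun f β => ∑ α : {α // α ∈ A}, tcr (p ()) α.1 β.1 * f α
      map_add' := by
        intro f g
        funext β
        simp only [Pi.add_apply, mul_add, sum_add_distrib]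
      map_smul' := by
        intro c f
        funext β
        simp only [Pi.smul_apply, smul_eq_mul, RingHom.id_apply, mul_sum]
        exact sum_congr rfl fun α _ => by ring }
  have hker : LinearMap.ker L = (ASys A).V (fun _ : Unit => Λ) p := by
    ext f
    rw [LinearMap.mem_ker, mem_AV]
    constructor
    · intro h i β hβ
      exact congrFun h ⟨β, hβ⟩
    · intro h
      funext β
      exact h () β.1 β.2
  have hrn := LinearMap.finrank_range_add_finrank_ker L
  rw [hker, hp, Module.finrank_fintype_fun_eq_card] at hrn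
  have hr : Module.finrank ℂ (LinearMap.range L) ≤ Fintype.card {β : Z a b → ℕ // (xd β, yd β) ∈ Λ} := by
    have := Submodule.finrank_le (LinearMap.range L)
    rwa [Module.finrank_fintype_fun_eq_card] at this
  unfold Sys.size
  omega

/-- the special variables -/
private def URank_sp {a b : ℕ} (c : Fin a) (c' : Fin b) : Z a b → Prop
  | Sum.inl i => i = c
  | Sum.inr i => i = c'

private instance {a b : ℕ} (c : Fin a) (c' : Fin b) : DecidablePred (URank_sp c c') := fun z => by
  rcases z with i | i <;> unfold URank_sp <;> infer_instance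

/-- the special position -/
private noncomputable def URank_q {a b : ℕ} (c : Fin a) (c' : Fin b) (z : Z a b) : ℂ :=
  if URank_sp c c' z then 1 else 0

/-- `α` with the special coordinates removed -/
private def URank_red {a b : ℕ} (c : Fin a) (c' : Fin b) (α : Z a b → ℕ) (z : Z a b) : ℕ :=
  if URank_sp c c' z then 0 else α z

private theorem URank_sp_inl {a b : ℕ} (c : Fin a) (c' : Fin b) : URank_sp c c' (Sum.inl c) := rfl

private theorem URank_sp_inr {a b : ℕ} (c : Fin a) (c' : Fin b) : URank_sp c c' (Sum.inr c') := rfl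

private theorem URank_nsp_inl {a b : ℕ} (c : Fin a) (c' : Fin b) {i : Fin a} (h : i ≠ c) :
    ¬ URank_sp c c' (Sum.inl i) := h

private theorem URank_nsp_inr {a b : ℕ} (c : Fin a) (c' : Fin b) {i : Fin b} (h : i ≠ c') :
    ¬ URank_sp c c' (Sum.inr i) := h

private theorem URank_xd' {a b : ℕ} (c : Fin a) (α : Z a b → ℕ) :
    xd α = α (Sum.inl c) + ∑ i : {i // i ≠ c}, α (Sum.inl i.1) := by
  unfold xd
  exact Fintype.sum_eq_add_sum_subtype_ne (fun i => α (Sum.inl i)) c

private theorem URank_yd' {a b : ℕ} (c' : Fin b) (α : Z a b → ℕ) :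
    yd α = α (Sum.inr c') + ∑ i : {i // i ≠ c'}, α (Sum.inr i.1) := by
  unfold yd
  exact Fintype.sum_eq_add_sum_subtype_ne (fun i => α (Sum.inr i)) c'

private theorem URank_xd_red {a b : ℕ} (c : Fin a) (c' : Fin b) (α : Z a b → ℕ) :
    xd (URank_red c c' α) = ∑ i : {i // i ≠ c}, α (Sum.inl i.1) := by
  rw [URank_xd' c]
  have h0 : URank_red c c' α (Sum.inl c) = 0 := by
    unfold URank_red
    rw [if_pos (URank_sp_inl c c')]
  rw [h0, Nat.zero_add]
  refine sum_congr rfl fun i _ => ?_
  unfold URank_red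
  rw [if_neg (URank_nsp_inl c c' i.2)]

private theorem URank_yd_red {a b : ℕ} (c : Fin a) (c' : Fin b) (α : Z a b → ℕ) :
    yd (URank_red c c' α) = ∑ i : {i // i ≠ c'}, α (Sum.inr i.1) := by
  rw [URank_yd' c']
  have h0 : URank_red c c' α (Sum.inr c') = 0 := by
    unfold URank_red
    rw [if_pos (URank_sp_inr c c')]
  rw [h0, Nat.zero_add]
  refine sum_congr rfl fun i _ => ?_
  unfold URank_red
  rw [if_neg (URank_nsp_inr c c' i.2)]

private theorem URank_xd {a b : ℕ} (c : Fin a) (c' : Fin b) (α : Z a b → ℕ) :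
    xd α = α (Sum.inl c) + xd (URank_red c c' α) := by
  rw [URank_xd_red, URank_xd' c]

private theorem URank_yd {a b : ℕ} (c : Fin a) (c' : Fin b) (α : Z a b → ℕ) :
    yd α = α (Sum.inr c') + yd (URank_red c c' α) := by
  rw [URank_yd_red, URank_yd' c']

private theorem URank_eq {a b d j : ℕ} (c : Fin a) (c' : Fin b) {α α' : Z a b → ℕ}
    (h : α ∈ Bx a b d j) (h' : α' ∈ Bx a b d j) (hr : URank_red c c' α = URank_red c c' α') :
    α = α' := by
  rw [mem_Bx] at h h'
  have hx := URank_xd c c' α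
  have hx' := URank_xd c c' α'
  have hy := URank_yd c c' α
  have hy' := URank_yd c c' α'
  rw [hr] at hx hy
  funext z
  by_cases hz : URank_sp c c' z
  · rcases z with i | i
    · have : i = c := hz
      subst this
      omega
    · have : i = c' := hz
      subst this
      omega
  · have := congrFun hr z
    unfold URank_red at this
    rwa [if_neg hz, if_neg hz] at this

private theorem URank_tcr {a b : ℕ} (c : Fin a) (c' : Fin b) (α β : Z a b → ℕ) :
    tcr (URank_q c c') α (URank_red c c' β) =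
      if URank_red c c' α = URank_red c c' β then 1 else 0 := by
  unfold tcr
  split_ifs with h
  · apply prod_eq_one
    intro z _
    have h1 := congrFun h z
    unfold URank_q
    by_cases hz : URank_sp c c' z
    · have h2 : URank_red c c' β z = 0 := by
        unfold URank_red
        rw [if_pos hz]
      rw [if_pos hz, h2]
      simp
    · have h2 : URank_red c c' α z = α z := by
        unfold URank_red
        rw [if_neg hz]
      rw [if_neg hz, ← h1, h2]
      simp
  · have h1 : ∃ z, URank_red c c' α z ≠ URank_red c c' β z := by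
      by_contra hc
      push Not at hc
      exact h (funext hc)
    obtain ⟨z, hz⟩ := h1
    apply prod_eq_zero (mem_univ z)
    have hsp : ¬ URank_sp c c' z := by
      intro hs
      apply hz
      unfold URank_red
      rw [if_pos hs, if_pos hs]
    have h2 : URank_red c c' α z = α z := by
      unfold URank_red
      rw [if_neg hsp]
    rw [h2] at hz
    unfold URank_q
    rw [if_neg hsp]
    rcases Nat.lt_or_gt_of_ne hz with h3 | h3
    · rw [Nat.choose_eq_zero_of_lt h3]
      simp
    · rw [zero_pow (by omega), mul_zero]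

/-- the exponents whose coefficients vanish -/
private def URank_T {a b : ℕ} (d j : ℕ) (o : Fin a) (e : ℕ) (c : Fin a) (c' : Fin b)
    (Λ : Finset (ℕ × ℕ)) : Finset (Z a b → ℕ) :=
  (Bu a b d j o e).filter fun α => (xd (URank_red c c' α), yd (URank_red c c' α)) ∈ Λ

/-- the exponent with given coordinates off the special variables -/
private def URank_ext {a b : ℕ} (c : Fin a) (c' : Fin b) (s s' : ℕ)
    (w : ({i : Fin a // i ≠ c} → ℕ) × ({i : Fin b // i ≠ c'} → ℕ)) : Z a b → ℕ
  | Sum.inl i => if h : i = c then s else w.1 ⟨i, h⟩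
  | Sum.inr i => if h : i = c' then s' else w.2 ⟨i, h⟩

private theorem URank_ext_inl {a b : ℕ} (c : Fin a) (c' : Fin b) (s s' : ℕ)
    (w : ({i : Fin a // i ≠ c} → ℕ) × ({i : Fin b // i ≠ c'} → ℕ)) (i : {i : Fin a // i ≠ c}) :
    URank_ext c c' s s' w (Sum.inl i.1) = w.1 i := by
  unfold URank_ext
  simp only
  rw [dif_neg i.2]

private theorem URank_ext_inr {a b : ℕ} (c : Fin a) (c' : Fin b) (s s' : ℕ)
    (w : ({i : Fin a // i ≠ c} → ℕ) × ({i : Fin b // i ≠ c'} → ℕ)) (i : {i : Fin b // i ≠ c'}) :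
    URank_ext c c' s s' w (Sum.inr i.1) = w.2 i := by
  unfold URank_ext
  simp only
  rw [dif_neg i.2]

private theorem URank_card_fib {a b d j : ℕ} (hj : j ≤ d) (o : Fin a) (e : ℕ) (c : Fin a)
    (c' : Fin b) (hoc : o ≠ c) (g : ℕ × ℕ) (hg : j + g.1 ≤ d ∧ g.2 ≤ j ∧ g.1 ≤ e) :
    Eg a b g ≤ ((Bu a b d j o e).filter fun α =>
      (xd (URank_red c c' α), yd (URank_red c c' α)) = g).card := by
  have h1 := URank_card_Sx (ι := {i : Fin a // i ≠ c}) g.1
  have h2 := URank_card_Sx (ι := {i : Fin b // i ≠ c'}) g.2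
  have h3 : Fintype.card {i : Fin a // i ≠ c} = a - 1 := by
    rw [Fintype.card_subtype_compl, Fintype.card_fin, Fintype.card_unique]
  have h4 : Fintype.card {i : Fin b // i ≠ c'} = b - 1 := by
    rw [Fintype.card_subtype_compl, Fintype.card_fin, Fintype.card_unique]
  rw [h3] at h1
  rw [h4] at h2
  unfold Eg
  rw [← h1, ← h2, ← card_product]
  apply card_le_card_of_injOn (URank_ext c c' (d - j - g.1) (j - g.2))
  · intro w hw
    rw [Finset.mem_coe, mem_product, mem_Sx, mem_Sx] at hw
    rw [Finset.mem_coe, mem_filter]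
    have e1 : xd (URank_red c c' (URank_ext c c' (d - j - g.1) (j - g.2) w)) = g.1 := by
      rw [URank_xd_red, ← hw.1]
      exact sum_congr rfl fun i _ => URank_ext_inl c c' _ _ w i
    have e2 : yd (URank_red c c' (URank_ext c c' (d - j - g.1) (j - g.2) w)) = g.2 := by
      rw [URank_yd_red, ← hw.2]
      exact sum_congr rfl fun i _ => URank_ext_inr c c' _ _ w i
    have e3 : URank_ext c c' (d - j - g.1) (j - g.2) w (Sum.inl c) = d - j - g.1 := by
      unfold URank_ext
      simp
    have e4 : URank_ext c c' (d - j - g.1) (j - g.2) w (Sum.inr c') = j - g.2 := by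
      unfold URank_ext
      simp
    have e5 : URank_ext c c' (d - j - g.1) (j - g.2) w (Sum.inl o) ≤ g.1 := by
      rw [URank_ext_inl c c' _ _ w ⟨o, hoc⟩, ← hw.1]
      exact single_le_sum (f := w.1) (fun i _ => Nat.zero_le _) (mem_univ _)
    have hx := URank_xd c c' (URank_ext c c' (d - j - g.1) (j - g.2) w)
    have hy := URank_yd c c' (URank_ext c c' (d - j - g.1) (j - g.2) w)
    rw [e1, e3] at hx
    rw [e2, e4] at hy
    refine ⟨?_, by rw [e1, e2]⟩
    unfold Bu
    rw [mem_filter, mem_Bx]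
    exact ⟨⟨by omega, by omega⟩, by omega⟩
  · intro w _ w' _ h
    ext i
    · have := congrFun h (Sum.inl i.1)
      rwa [URank_ext_inl, URank_ext_inl] at this
    · have := congrFun h (Sum.inr i.1)
      rwa [URank_ext_inr, URank_ext_inr] at this

private theorem URank_card_T {a b d j : ℕ} (hj : j ≤ d) (o : Fin a) (e : ℕ) (c : Fin a)
    (c' : Fin b) (hoc : o ≠ c) (Λ : Finset (ℕ × ℕ))
    (hΛ : ∀ g ∈ Λ, j + g.1 ≤ d ∧ g.2 ≤ j ∧ g.1 ≤ e) :
    ∑ g ∈ Λ, Eg a b g ≤ (URank_T d j o e c c' Λ).card := by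
  have h1 : (URank_T d j o e c c' Λ).card =
      ∑ g ∈ Λ, ((URank_T d j o e c c' Λ).filter fun α =>
        (xd (URank_red c c' α), yd (URank_red c c' α)) = g).card := by
    apply card_eq_sum_card_fiberwise
    intro α hα
    unfold URank_T at hα
    rw [Finset.mem_coe, mem_filter] at hα
    exact hα.2
  rw [h1]
  refine sum_le_sum fun g hg => ?_
  refine (URank_card_fib hj o e c c' hoc g (hΛ g hg)).trans (card_le_card ?_)
  intro α hα
  rw [mem_filter] at hα
  unfold URank_T
  rw [mem_filter, mem_filter]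
  exact ⟨⟨hα.1, by rw [hα.2]; exact hg⟩, hα.2⟩

theorem le_size_U {a b d j : ℕ} (ha : 2 ≤ a) (hb : 1 ≤ b) (hj : j ≤ d) (o : Fin a) (e : ℕ)
    (Λ : Finset (ℕ × ℕ)) (hΛ : ∀ g ∈ Λ, j + g.1 ≤ d ∧ g.2 ≤ j ∧ g.1 ≤ e) :
    ∑ g ∈ Λ, Eg a b g ≤ (ASys (Bu a b d j o e)).size Λ := by
  obtain ⟨c, hoc⟩ : ∃ c : Fin a, o ≠ c := by
    haveI : Nontrivial (Fin a) := Fin.nontrivial_iff_two_le.mpr ha
    obtain ⟨c, hc⟩ := exists_ne o
    exact ⟨c, hc.symm⟩
  let c' : Fin b := ⟨0, by omega⟩
  refine (URank_card_T hj o e c c' hoc Λ hΛ).trans ?_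
  let T : Finset {α // α ∈ Bu a b d j o e} := univ.filter fun α => α.1 ∈ URank_T d j o e c c' Λ
  have hT : T.card = (URank_T d j o e c c' Λ).card := by
    apply card_bij (fun (α : {α // α ∈ Bu a b d j o e}) _ => α.1)
    · intro α hα
      exact (mem_filter.1 hα).2
    · intro α _ β _ h
      exact Subtype.ext h
    · intro α hα
      have h1 : α ∈ Bu a b d j o e := by
        unfold URank_T at hα
        exact (mem_filter.1 hα).1
      exact ⟨⟨α, h1⟩, mem_filter.2 ⟨mem_univ _, hα⟩, rfl⟩
  have hBx : ∀ α : {α // α ∈ Bu a b d j o e}, α.1 ∈ Bx a b d j := by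
    intro α
    have h1 := α.2
    unfold Bu at h1
    exact (mem_filter.1 h1).1
  -- the solutions vanish on `T`
  have hvan : ∀ f ∈ (ASys (Bu a b d j o e)).V (fun _ : Unit => Λ) (fun _ => URank_q c c'),
      ∀ α ∈ T, f α = 0 := by
    intro f hf α hα
    rw [mem_AV] at hf
    have hα' : (xd (URank_red c c' α.1), yd (URank_red c c' α.1)) ∈ Λ := by
      have := (mem_filter.1 hα).2
      unfold URank_T at this
      exact (mem_filter.1 this).2
    have h1 := hf () (URank_red c c' α.1) hα'
    rw [sum_eq_single α] at h1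
    · rw [URank_tcr, if_pos rfl, one_mul] at h1
      exact h1
    · intro β _ hβ
      rw [URank_tcr, if_neg, zero_mul]
      intro h
      exact hβ (Subtype.ext (URank_eq c c' (hBx β) (hBx α) h))
    · intro h
      exact absurd (mem_univ α) h
  have hfin : Module.finrank ℂ ((ASys (Bu a b d j o e)).V (fun _ : Unit => Λ)
      (fun _ => URank_q c c')) ≤ Fintype.card {α // α ∈ Bu a b d j o e} - T.card := by
    let φ : (ASys (Bu a b d j o e)).V (fun _ : Unit => Λ) (fun _ => URank_q c c') →ₗ[ℂ]
        ({α // α ∉ T} → ℂ) :=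
      (LinearMap.funLeft ℂ ℂ (fun α : {α // α ∉ T} => α.1)).comp (Submodule.subtype _)
    have hφ : Function.Injective φ := by
      rw [← LinearMap.ker_eq_bot, LinearMap.ker_eq_bot']
      intro f hf
      apply Subtype.ext
      funext α
      by_cases hα : α ∈ T
      · exact hvan f.1 f.2 α hα
      · exact congrFun hf ⟨α, hα⟩
    have h1 := LinearMap.finrank_le_finrank_of_injective hφ
    rw [Module.finrank_fintype_fun_eq_card] at h1
    have h2 : Fintype.card {α // α ∉ T} = Fintype.card {α // α ∈ Bu a b d j o e} - T.card := by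
      rw [Fintype.card_subtype_compl, Fintype.card_coe, Fintype.card_coe]
    rw [h2] at h1
    exact h1
  have hgd := gd_le (ASys (Bu a b d j o e)) (fun _ : Unit => Λ) (fun _ => URank_q c c')
  have hc : T.card ≤ Fintype.card {α // α ∈ Bu a b d j o e} := card_le_univ T
  unfold Sys.size
  omega

end Pool.Agent.H51.TB
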