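import Pool.Agent.H51.TB.UDefs
import Pool.Agent.H51.TB.LSpan

/-!
# Module U3 (TB2): the parabolic argument

Compare `Pool/Agent/H51/TB/LSpan.lean` (delivered, complete): its private lemmas can be copied (rename them
`Para_...`; replace `Bx a b d j` by `Bu a b d j o e` where needed).

Let `f ∈ V m p₀`, `F = ∑ f_α z^α`, a polynomial of degree at most `e` in `x_o`.  For `A` with
`A k o = 0` for `k ≠ o` (the substitution `x_o → λ x_o + ℓ(x')`, `x_k → A'(x')_k`), and any `B`, the
polynomial `F_{A,B}` is again of degree `≤ e` in `x_o`, and if `det A ≠ 0`, `det B ≠ 0` its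
coefficients are in `V m p` for `p_i = (adj(A) x_i, adj(B) y_i)`.  So
`φ(F_{A,B}) * det A * det B * G(p) = 0` for all such `A`, `B` (polynomials in the entries of such `A`
and of `B`); the last three factors are not the zero polynomial, hence `φ(F_{A,B}) = 0` for all such
`A`, `B`.  Use the substitutions `x_o → λ x_o + μ v(x')`, `x_k → c_k v(x')` (`k ≠ o`,
`v(x') = ∑_{k ≠ o} v_k x_k`), `y_k → c'_k w(y)`.  With `F = ∑_{i ≤ e} x_o^i F_i(x', y)`,
`F_{A,B} = ∑_i (λ x_o + μ v)^i v^(d-j-i) w^j F_i(c, c')`, so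
`∑_k λ^k φ(x_o^k v^(d-j-k) w^j) ∑_{i ≥ k} binom (i, k) μ^(i-k) F_i(c, c') = 0`; the coefficient of
`λ^k μ^(e-k)` is `binom (e, k) F_e(c, c') φ(x_o^k v^(d-j-k) w^j) = 0` for all `k ≤ e`.  If `F_e ≠ 0`
choose `(c, c')` with `F_e(c, c') ≠ 0`; then `φ(x_o^k v^(d-j-k) w^j) = 0` for all `k ≤ e`, `v`, `w`; as
a polynomial in `v`, `w` this vanishes identically, so `φ(e_α) = 0` for all `α` in `Bu a b d j o e`
(characteristic 0), contradicting `φ ≠ 0`.
-/

namespace Pool.Agent.H51.TB

open Finset MvPolynomial Pool.Agent.H18.Ex Pool.Agent.H21.NX Pool.Agent.H18.Ta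

private lemma Para_mem_Bu {a b d j e : ℕ} {o : Fin a} {α : Z a b → ℕ} :
    α ∈ Bu a b d j o e ↔ (xd α + yd α = d ∧ yd α = j) ∧ α (Sum.inl o) ≤ e := by
  unfold Bu
  rw [mem_filter, mem_Bx]

private theorem Para_eval {a b : ℕ} (q : Z a b → ℂ) (α β : Z a b → ℕ) :
    eval q (tcr (fun i => (X i : MvPolynomial (Z a b) ℂ)) α β) = tcr q α β := by
  unfold tcr
  rw [map_prod]
  refine prod_congr rfl fun i _ => ?_
  rw [map_mul, map_natCast, map_pow, eval_X]

private theorem Para_mem_AV {a b : ℕ} {A : Finset (Z a b → ℕ)} {κ : Type}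
    (m : κ → Finset (ℕ × ℕ)) (p : κ → Z a b → ℂ) (f : {α // α ∈ A} → ℂ) :
    f ∈ (ASys A).V m p ↔ ∀ i (β : Z a b → ℕ), (xd β, yd β) ∈ m i →
      ∑ α : {α // α ∈ A}, tcr (p i) α.1 β * f α = 0 := by
  rw [Sys.mem_V]
  constructor
  · intro h i β hβ
    have h1 := h i ⟨β, hβ⟩
    refine Eq.trans (sum_congr rfl fun α _ => ?_) h1
    rw [← Para_eval (p i) α.1 β]
    rfl
  · intro h i r
    have h1 := h i r.1 r.2
    refine Eq.trans (sum_congr rfl fun α _ => ?_) h1
    rw [← Para_eval (p i) α.1 r.1]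
    rfl

/-- The weights of the variables. -/
private def Para_w (a b : ℕ) : Z a b → ℕ × ℕ := Sum.elim (fun _ => (1, 0)) fun _ => (0, 1)

private lemma Para_weight {a b : ℕ} (α : Z a b →₀ ℕ) :
    Finsupp.weight (Para_w a b) α = (xd α, yd α) := by
  rw [Finsupp.weight_apply, Finsupp.sum_fintype _ _ (by intro i; simp),
    Fintype.sum_sum_type]
  unfold xd yd Para_w
  ext <;> simp [Prod.fst_sum, Prod.snd_sum]

/-- The finitely supported function of a function. -/
private noncomputable def Para_sf {a b : ℕ} (α : Z a b → ℕ) : Z a b →₀ ℕ :=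
  Finsupp.equivFunOnFinite.symm α

private lemma Para_sf_coe {a b : ℕ} (α : Z a b → ℕ) : ⇑(Para_sf α) = α := rfl

private lemma Para_sf_eta {a b : ℕ} (α : Z a b →₀ ℕ) : Para_sf ⇑α = α := by
  ext i
  rfl

private lemma Para_sf_inj {a b : ℕ} {α β : Z a b → ℕ} : Para_sf α = Para_sf β ↔ α = β :=
  Finsupp.equivFunOnFinite.symm.injective.eq_iff

/-- The Taylor coefficients of a monomial. -/
private lemma Para_shift_monomial {a b : ℕ} (q : Z a b → ℂ) (α β : Z a b → ℕ) (c : ℂ) :
    coeff (Para_sf β) (aeval (fun i => X i + C (q i)) (monomial (Para_sf α) c) :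
      MvPolynomial (Z a b) ℂ) = c * tcr q α β := by
  classical
  rw [aeval_monomial, algebraMap_eq, coeff_C_mul, Finsupp.prod_fintype _ _ (by intro i; simp)]
  congr 1
  have h1 : ∀ j : Z a b, (X j + C (q j) : MvPolynomial (Z a b) ℂ) ^ (Para_sf α j) =
      ∑ b ∈ range (α j + 1), monomial (Finsupp.single j b)
        (((α j).choose b : ℂ) * q j ^ (α j - b)) := by
    intro j
    rw [Para_sf_coe, add_pow]
    refine sum_congr rfl fun b _ => ?_
    rw [X_pow_eq_monomial, ← C_pow, mul_assoc, mul_comm (C (q j ^ (α j - b)))]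
    rw [← C_eq_coe_nat, ← C_mul, mul_comm, C_mul_monomial, mul_one]
  simp_rw [h1]
  rw [prod_univ_sum, coeff_sum]
  have h2 : ∀ x ∈ Fintype.piFinset fun j => range (α j + 1),
      coeff (Para_sf β) (∏ j, monomial (Finsupp.single j (x j))
        (((α j).choose (x j) : ℂ) * q j ^ (α j - x j)) : MvPolynomial (Z a b) ℂ) =
      if x = β then tcr q α β else 0 := by
    intro x _
    rw [← monomial_sum_prod, coeff_monomial]
    have h4 : (∑ j, Finsupp.single j (x j)) = Para_sf x := by
      unfold Para_sf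
      rw [Finsupp.equivFunOnFinite_symm_eq_sum]
    rw [h4]
    by_cases hx : x = β
    · subst hx
      simp [tcr]
    · rw [if_neg, if_neg hx]
      intro h5
      exact hx (Para_sf_inj.1 h5)
  rw [sum_congr rfl h2, sum_ite_eq']
  split_ifs with h
  · rfl
  · rw [Fintype.mem_piFinset] at h
    push Not at h
    obtain ⟨j, hj⟩ := h
    rw [mem_range] at hj
    symm
    unfold tcr
    apply prod_eq_zero (mem_univ j)
    rw [Nat.choose_eq_zero_of_lt (by omega)]
    simp

/-- The polynomial of a coefficient vector. -/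
private noncomputable def Para_P {a b d j e : ℕ} {o : Fin a} (f : {α // α ∈ Bu a b d j o e} → ℂ) :
    MvPolynomial (Z a b) ℂ := ∑ α : {α // α ∈ Bu a b d j o e}, monomial (Para_sf α.1) (f α)

private lemma Para_coeff_P {a b d j e : ℕ} {o : Fin a} (f : {α // α ∈ Bu a b d j o e} → ℂ)
    (α : {α // α ∈ Bu a b d j o e}) : coeff (Para_sf α.1) (Para_P f) = f α := by
  classical
  unfold Para_P
  rw [coeff_sum]
  simp only [coeff_monomial, Para_sf_inj, Subtype.coe_inj]
  simp

private lemma Para_coeff_P_zero {a b d j e : ℕ} {o : Fin a} (f : {α // α ∈ Bu a b d j o e} → ℂ)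
    (α : Z a b → ℕ) (hα : α ∉ Bu a b d j o e) : coeff (Para_sf α) (Para_P f) = 0 := by
  classical
  unfold Para_P
  rw [coeff_sum]
  refine sum_eq_zero fun β _ => ?_
  rw [coeff_monomial, if_neg]
  intro h
  rw [Para_sf_inj] at h
  exact hα (h ▸ β.2)

private lemma Para_shift_P {a b d j e : ℕ} {o : Fin a} (q : Z a b → ℂ) (f : {α // α ∈ Bu a b d j o e} → ℂ)
    (β : Z a b → ℕ) :
    coeff (Para_sf β) (aeval (fun i => X i + C (q i)) (Para_P f) : MvPolynomial (Z a b) ℂ) =
      ∑ α : {α // α ∈ Bu a b d j o e}, tcr q α.1 β * f α := by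
  unfold Para_P
  rw [map_sum, coeff_sum]
  refine sum_congr rfl fun α _ => ?_
  rw [Para_shift_monomial, mul_comm]

/-- Substitutions respecting the weights. -/
private lemma Para_mono_hom {a b : ℕ} {g : Z a b → MvPolynomial (Z a b) ℂ}
    (hg : ∀ i, IsWeightedHomogeneous (Para_w a b) (g i) (Para_w a b i)) (α : Z a b →₀ ℕ)
    (c : ℂ) : IsWeightedHomogeneous (Para_w a b) (aeval g (monomial α c)) (xd α, yd α) := by
  rw [aeval_monomial, algebraMap_eq, Finsupp.prod_fintype _ _ (by intro i; simp)]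
  have h1 : IsWeightedHomogeneous (Para_w a b) (∏ i, g i ^ α i) (xd α, yd α) := by
    rw [← Para_weight, Finsupp.weight_apply, Finsupp.sum_fintype _ _ (by intro i; simp)]
    exact IsWeightedHomogeneous.prod _ _ _ fun i _ => (hg i).pow (α i)
  exact h1.C_mul c

private lemma Para_pres {a b : ℕ} {g : Z a b → MvPolynomial (Z a b) ℂ}
    (hg : ∀ i, IsWeightedHomogeneous (Para_w a b) (g i) (Para_w a b i)) (n : ℕ × ℕ)
    {H : MvPolynomial (Z a b) ℂ} (hH : ∀ β : Z a b →₀ ℕ, (xd β, yd β) = n → coeff β H = 0)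
    (β : Z a b →₀ ℕ) (hβ : (xd β, yd β) = n) : coeff β (aeval g H) = 0 := by
  classical
  rw [H.as_sum, map_sum, coeff_sum]
  refine sum_eq_zero fun α hα => ?_
  by_cases h : (xd α, yd α) = n
  · exact absurd (hH α h) (mem_support_iff.1 hα)
  · refine (Para_mono_hom hg α _).coeff_eq_zero β ?_
    rw [Para_weight, hβ]
    exact Ne.symm h

/-- The block substitution. -/
private noncomputable def Para_g {a b : ℕ} (A : Matrix (Fin a) (Fin a) ℂ)
    (B : Matrix (Fin b) (Fin b) ℂ) : Z a b → MvPolynomial (Z a b) ℂ :=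
  Sum.elim (fun i => ∑ k, C (A i k) * X (Sum.inl k)) fun i => ∑ k, C (B i k) * X (Sum.inr k)

private lemma Para_g_hom {a b : ℕ} (A : Matrix (Fin a) (Fin a) ℂ)
    (B : Matrix (Fin b) (Fin b) ℂ) (i : Z a b) :
    IsWeightedHomogeneous (Para_w a b) (Para_g A B i) (Para_w a b i) := by
  rcases i with i | i
  · show IsWeightedHomogeneous (Para_w a b) (∑ k, C (A i k) * X (Sum.inl k)) (1, 0)
    exact IsWeightedHomogeneous.sum _ _ _ fun k _ =>
      (isWeightedHomogeneous_X ℂ (Para_w a b) (Sum.inl k)).C_mul _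
  · show IsWeightedHomogeneous (Para_w a b) (∑ k, C (B i k) * X (Sum.inr k)) (0, 1)
    exact IsWeightedHomogeneous.sum _ _ _ fun k _ =>
      (isWeightedHomogeneous_X ℂ (Para_w a b) (Sum.inr k)).C_mul _

/-- The point `(A x, B y)`. -/
private def Para_mv {a b : ℕ} (A : Matrix (Fin a) (Fin a) ℂ)
    (B : Matrix (Fin b) (Fin b) ℂ) (q : Z a b → ℂ) : Z a b → ℂ :=
  Sum.elim (A.mulVec fun k => q (Sum.inl k)) (B.mulVec fun k => q (Sum.inr k))

private lemma Para_shift_comm {a b : ℕ} (A : Matrix (Fin a) (Fin a) ℂ)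
    (B : Matrix (Fin b) (Fin b) ℂ) (q : Z a b → ℂ) (F : MvPolynomial (Z a b) ℂ) :
    aeval (fun i => X i + C (q i)) (aeval (Para_g A B) F) =
      aeval (Para_g A B) (aeval (fun i => X i + C (Para_mv A B q i)) F) := by
  have h : (aeval (fun j => X j + C (q j)) :
      MvPolynomial (Z a b) ℂ →ₐ[ℂ] MvPolynomial (Z a b) ℂ).comp (aeval (Para_g A B)) =
      (aeval (Para_g A B)).comp (aeval (fun j => X j + C (Para_mv A B q j))) := by
    apply algHom_ext
    rintro (i | i)
    · simp only [Para_g, Para_mv, AlgHom.comp_apply, aeval_X, map_sum, map_mul, aeval_C,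
        algebraMap_eq, map_add, mul_add, sum_add_distrib, Matrix.mulVec, dotProduct, Sum.elim_inl]
    · simp only [Para_g, Para_mv, AlgHom.comp_apply, aeval_X, map_sum, map_mul, aeval_C,
        algebraMap_eq, map_add, mul_add, sum_add_distrib, Matrix.mulVec, dotProduct, Sum.elim_inr]
  exact DFunLike.congr_fun h F

/-- Scalar multiples of the two blocks. -/
private lemma Para_tcr_smul {a b : ℕ} (l m : ℂ) (x : Fin a → ℂ) (y : Fin b → ℂ)
    (α β : Z a b → ℕ) :
    tcr (Sum.elim (fun k => l * x k) fun k => m * y k : Z a b → ℂ) α β =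
      l ^ (xd α - xd β) * m ^ (yd α - yd β) * tcr (Sum.elim x y : Z a b → ℂ) α β := by
  by_cases h : ∀ i, β i ≤ α i
  · unfold tcr
    rw [Fintype.prod_sum_type, Fintype.prod_sum_type]
    simp only [Sum.elim_inl, Sum.elim_inr, mul_pow]
    have e1 : ∑ i, (α (Sum.inl i) - β (Sum.inl i)) = xd α - xd β := by
      unfold xd
      rw [Finset.sum_tsub_distrib _ fun i _ => h _]
    have e2 : ∑ i, (α (Sum.inr i) - β (Sum.inr i)) = yd α - yd β := by
      unfold yd
      rw [Finset.sum_tsub_distrib _ fun i _ => h _]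
    rw [← e1, ← e2, ← prod_pow_eq_pow_sum, ← prod_pow_eq_pow_sum]
    simp only [prod_mul_distrib]
    ring
  · push Not at h
    obtain ⟨i, hi⟩ := h
    have h0 : ∀ q : Z a b → ℂ, tcr q α β = 0 := by
      intro q
      unfold tcr
      apply prod_eq_zero (mem_univ i)
      rw [Nat.choose_eq_zero_of_lt hi]
      simp
    rw [h0, h0, mul_zero]

/-- The coefficients of the transformed polynomial. -/
private noncomputable def Para_T {a b d j e : ℕ} {o : Fin a} (A : Matrix (Fin a) (Fin a) ℂ)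
    (B : Matrix (Fin b) (Fin b) ℂ) (f : {α // α ∈ Bu a b d j o e} → ℂ) :
    {α // α ∈ Bu a b d j o e} → ℂ :=
  fun α => coeff (Para_sf α.1) (aeval (Para_g A B) (Para_P f))

/-- The degree in the variable `o` does not grow. -/
private lemma Para_deg_g {a b : ℕ} {o : Fin a} (A : Matrix (Fin a) (Fin a) ℂ)
    (B : Matrix (Fin b) (Fin b) ℂ) (hA : ∀ k, k ≠ o → A k o = 0) (i : Z a b) :
    degreeOf (Sum.inl o) (Para_g A B i) ≤ if i = Sum.inl o then 1 else 0 := by
  classical
  rcases i with i | i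
  · show degreeOf (Sum.inl o) (∑ k, C (A i k) * X (Sum.inl k) : MvPolynomial (Z a b) ℂ) ≤ _
    refine (degreeOf_sum_le _ _ _).trans (Finset.sup_le fun k _ => ?_)
    by_cases hk : k = o
    · subst hk
      by_cases hi : i = k
      · subst hi
        rw [if_pos rfl]
        refine (degreeOf_C_mul_le _ _ _).trans ?_
        rw [degreeOf_X, if_pos rfl]
      · rw [hA i hi, C_0, zero_mul, degreeOf_zero]
        exact Nat.zero_le _
    · refine (degreeOf_C_mul_le _ _ _).trans ?_
      rw [degreeOf_X, if_neg]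
      · exact Nat.zero_le _
      · intro h
        exact hk (Sum.inl.inj h).symm
  · show degreeOf (Sum.inl o) (∑ k, C (B i k) * X (Sum.inr k) : MvPolynomial (Z a b) ℂ) ≤ _
    refine (degreeOf_sum_le _ _ _).trans (Finset.sup_le fun k _ => ?_)
    refine (degreeOf_C_mul_le _ _ _).trans ?_
    rw [degreeOf_X, if_neg]
    · exact Nat.zero_le _
    · intro h
      exact Sum.inl_ne_inr h

private lemma Para_deg {a b : ℕ} {o : Fin a} (A : Matrix (Fin a) (Fin a) ℂ)
    (B : Matrix (Fin b) (Fin b) ℂ) (hA : ∀ k, k ≠ o → A k o = 0) (α : Z a b → ℕ) (c : ℂ) :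
    degreeOf (Sum.inl o) (aeval (Para_g A B) (monomial (Para_sf α) c) :
      MvPolynomial (Z a b) ℂ) ≤ α (Sum.inl o) := by
  classical
  rw [aeval_monomial, algebraMap_eq, Finsupp.prod_fintype _ _ (by intro i; simp)]
  refine (degreeOf_C_mul_le _ _ _).trans ?_
  refine (degreeOf_prod_le _ _ _).trans ?_
  have h1 : ∀ i ∈ (univ : Finset (Z a b)), degreeOf (Sum.inl o) (Para_g A B i ^ (Para_sf α i)) ≤
      if i = Sum.inl o then α i else 0 := by
    intro i _
    refine (degreeOf_pow_le _ _ _).trans ?_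
    have h2 := Nat.mul_le_mul_left (Para_sf α i) (Para_deg_g A B hA i)
    refine h2.trans ?_
    rw [Para_sf_coe]
    split_ifs <;> simp
  refine (sum_le_sum h1).trans ?_
  rw [sum_ite_eq' univ (Sum.inl o) α, if_pos (mem_univ _)]

private lemma Para_P_T {a b d j e : ℕ} {o : Fin a} (A : Matrix (Fin a) (Fin a) ℂ)
    (B : Matrix (Fin b) (Fin b) ℂ) (hA : ∀ k, k ≠ o → A k o = 0)
    (f : {α // α ∈ Bu a b d j o e} → ℂ) :
    Para_P (Para_T A B f) = aeval (Para_g A B) (Para_P f) := by
  classical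
  ext γ
  rw [← Para_sf_eta γ]
  by_cases hγ : ⇑γ ∈ Bu a b d j o e
  · exact Para_coeff_P (Para_T A B f) ⟨⇑γ, hγ⟩
  · rw [Para_coeff_P_zero _ _ hγ]
    symm
    unfold Para_P
    rw [map_sum, coeff_sum]
    refine sum_eq_zero fun α _ => ?_
    have h1 := Para_mem_Bu.1 α.2
    by_cases hx : (xd γ, yd γ) = (xd α.1, yd α.1)
    · have hγe : ¬ γ (Sum.inl o) ≤ e := by
        intro hle
        apply hγ
        rw [Prod.mk.injEq] at hx
        rw [Para_mem_Bu, hx.1, hx.2]
        exact ⟨h1.1, hle⟩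
      have h2 := Para_deg A B hA α.1 (f α)
      by_contra h3
      have h4 := monomial_le_degreeOf (Sum.inl o) (mem_support_iff.2 h3)
      rw [Para_sf_eta] at h4
      omega
    · refine (Para_mono_hom (Para_g_hom A B) _ _).coeff_eq_zero _ ?_
      rw [Para_weight, Para_sf_coe, Para_sf_coe]
      exact hx

private lemma Para_mem {a b d j e : ℕ} {o : Fin a} {κ : Type} (m : κ → Finset (ℕ × ℕ)) (p : κ → Z a b → ℂ)
    (f : {α // α ∈ Bu a b d j o e} → ℂ) (hf : f ∈ (ASys (Bu a b d j o e)).V m p)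
    (A : Matrix (Fin a) (Fin a) ℂ) (B : Matrix (Fin b) (Fin b) ℂ)
    (hA : ∀ k, k ≠ o → A k o = 0) :
    Para_T A B f ∈ (ASys (Bu a b d j o e)).V m fun i => Para_mv A.adjugate B.adjugate (p i) := by
  rw [Para_mem_AV] at hf ⊢
  intro i β hβ
  rw [← Para_shift_P, Para_P_T A B hA, Para_shift_comm]
  refine Para_pres (Para_g_hom A B) (xd β, yd β) ?_ _ rfl
  intro γ hγ
  rw [← Para_sf_eta γ, Para_shift_P]
  have h1 : Para_mv A B (Para_mv A.adjugate B.adjugate (p i)) =
      Sum.elim (fun k => A.det * p i (Sum.inl k)) fun k => B.det * p i (Sum.inr k) := by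
    have e1 : A.mulVec (A.adjugate.mulVec fun k => p i (Sum.inl k)) =
        fun k => A.det * p i (Sum.inl k) := by
      rw [Matrix.mulVec_mulVec, Matrix.mul_adjugate, Matrix.smul_mulVec, Matrix.one_mulVec]
      rfl
    have e2 : B.mulVec (B.adjugate.mulVec fun k => p i (Sum.inr k)) =
        fun k => B.det * p i (Sum.inr k) := by
      rw [Matrix.mulVec_mulVec, Matrix.mul_adjugate, Matrix.smul_mulVec, Matrix.one_mulVec]
      rfl
    unfold Para_mv
    simp only [Sum.elim_inl, Sum.elim_inr]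
    rw [e1, e2]
  rw [h1]
  have h2 : (Sum.elim (fun k => p i (Sum.inl k)) fun k => p i (Sum.inr k) : Z a b → ℂ) = p i := by
    funext x
    rcases x with x | x <;> rfl
  have h3 : ∀ α : {α // α ∈ Bu a b d j o e},
      tcr (Sum.elim (fun k => A.det * p i (Sum.inl k)) fun k => B.det * p i (Sum.inr k) :
        Z a b → ℂ) α.1 ⇑γ * f α =
      A.det ^ (d - j - xd γ) * B.det ^ (j - yd γ) * (tcr (p i) α.1 ⇑γ * f α) := by
    intro α
    have h4 := (Para_mem_Bu.1 α.2).1
    rw [Para_tcr_smul, h2, show xd α.1 = d - j by omega, show yd α.1 = j by omega]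
    ring
  simp_rw [h3]
  rw [← mul_sum, hf i ⇑γ (by rw [hγ]; exact hβ), mul_zero]

/-- The parameters of the pair `(A, B)`. -/
private def Para_t {a b : ℕ} (A : Matrix (Fin a) (Fin a) ℂ) (B : Matrix (Fin b) (Fin b) ℂ) :
    (Fin a × Fin a) ⊕ (Fin b × Fin b) → ℂ :=
  Sum.elim (fun x => A x.1 x.2) fun x => B x.1 x.2

/-- The generic substitution. -/
private noncomputable def Para_gF {a b : ℕ} : MvPolynomial (Z a b) ℂ →+*
    MvPolynomial (Z a b) (MvPolynomial ((Fin a × Fin a) ⊕ (Fin b × Fin b)) ℂ) :=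
  eval₂Hom (C.comp C) (Sum.elim (fun i => ∑ k, C (X (Sum.inl (i, k))) * X (Sum.inl k))
    fun i => ∑ k, C (X (Sum.inr (i, k))) * X (Sum.inr k))

private lemma Para_map_gF {a b : ℕ} (A : Matrix (Fin a) (Fin a) ℂ)
    (B : Matrix (Fin b) (Fin b) ℂ) (F : MvPolynomial (Z a b) ℂ) :
    MvPolynomial.map (eval (Para_t A B)) (Para_gF F) = aeval (Para_g A B) F := by
  have h : (MvPolynomial.map (eval (Para_t A B))).comp Para_gF =
      (aeval (Para_g A B) : MvPolynomial (Z a b) ℂ →ₐ[ℂ] MvPolynomial (Z a b) ℂ).toRingHom := by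
    apply ringHom_ext
    · intro c
      simp [Para_gF]
    · rintro (i | i)
      · simp [Para_gF, Para_g, Para_t]
      · simp [Para_gF, Para_g, Para_t]
  exact DFunLike.congr_fun h F

private lemma Para_functional {a b d j e : ℕ} {o : Fin a} (φ : ({α // α ∈ Bu a b d j o e} → ℂ) →ₗ[ℂ] ℂ)
    (f : {α // α ∈ Bu a b d j o e} → ℂ) :
    φ f = ∑ α, φ (Pi.single α 1) * f α := by
  classical
  rw [LinearMap.pi_apply_eq_sum_univ φ f]
  refine sum_congr rfl fun α _ => ?_
  rw [smul_eq_mul, mul_comm]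
  congr 2
  funext β
  by_cases h : α = β
  · subst h; simp
  · rw [if_neg h, Pi.single_eq_of_ne (Ne.symm h)]

private lemma Para_functional_poly {a b d j e : ℕ} {o : Fin a} (φ : ({α // α ∈ Bu a b d j o e} → ℂ) →ₗ[ℂ] ℂ)
    (f : {α // α ∈ Bu a b d j o e} → ℂ) :
    ∃ Q : MvPolynomial ((Fin a × Fin a) ⊕ (Fin b × Fin b)) ℂ,
      ∀ (A : Matrix (Fin a) (Fin a) ℂ) (B : Matrix (Fin b) (Fin b) ℂ),
      eval (Para_t A B) Q = φ (Para_T A B f) := by
  classical
  refine ⟨∑ α : {α // α ∈ Bu a b d j o e},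
    C (φ (Pi.single α 1)) * coeff (Para_sf α.1) (Para_gF (Para_P f)), fun A B => ?_⟩
  rw [Para_functional, map_sum]
  refine sum_congr rfl fun α _ => ?_
  rw [map_mul, eval_C]
  unfold Para_T
  rw [← Para_map_gF, coeff_map]

private lemma Para_eval_aeval {σ τ : Type*} (a : τ → ℂ) (g : σ → MvPolynomial τ ℂ)
    (G : MvPolynomial σ ℂ) : eval a (aeval g G) = eval (fun x => eval a (g x)) G := by
  induction G using MvPolynomial.induction_on with
  | C c => simp
  | add p q hp hq => rw [map_add, map_add, map_add, hp, hq]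
  | mul_X p i hp => rw [map_mul, map_mul, map_mul, hp, aeval_X, eval_X]

/-- The polynomial `G(p_{A,B})`. -/
private lemma Para_D {a b : ℕ} {κ : Type} (G : MvPolynomial (κ × Z a b) ℂ)
    (p₀ : κ → Z a b → ℂ) :
    ∃ D : MvPolynomial ((Fin a × Fin a) ⊕ (Fin b × Fin b)) ℂ,
      ∀ (A : Matrix (Fin a) (Fin a) ℂ) (B : Matrix (Fin b) (Fin b) ℂ),
      eval (Para_t A B) D =
        eval (fun x : κ × Z a b => Para_mv A.adjugate B.adjugate (p₀ x.1) x.2) G := by
  classical
  let NA : Matrix (Fin a) (Fin a) (MvPolynomial ((Fin a × Fin a) ⊕ (Fin b × Fin b)) ℂ) :=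
    Matrix.of fun i k => X (Sum.inl (i, k))
  let NB : Matrix (Fin b) (Fin b) (MvPolynomial ((Fin a × Fin a) ⊕ (Fin b × Fin b)) ℂ) :=
    Matrix.of fun i k => X (Sum.inr (i, k))
  have hNA : ∀ (A : Matrix (Fin a) (Fin a) ℂ) (B : Matrix (Fin b) (Fin b) ℂ),
      (eval (Para_t A B)).mapMatrix NA = A := by
    intro A B
    ext i k
    simp [NA, Para_t]
  have hNB : ∀ (A : Matrix (Fin a) (Fin a) ℂ) (B : Matrix (Fin b) (Fin b) ℂ),
      (eval (Para_t A B)).mapMatrix NB = B := by
    intro A B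
    ext i k
    simp [NB, Para_t]
  refine ⟨aeval (fun x : κ × Z a b => Sum.elim
    (fun i => ∑ k, NA.adjugate i k * C (p₀ x.1 (Sum.inl k)))
    (fun i => ∑ k, NB.adjugate i k * C (p₀ x.1 (Sum.inr k))) x.2) G, fun A B => ?_⟩
  rw [Para_eval_aeval]
  have h1 : ∀ i k, eval (Para_t A B) (NA.adjugate i k) = A.adjugate i k := by
    intro i k
    have h3 := RingHom.map_adjugate (eval (Para_t A B)) NA
    rw [hNA] at h3
    have h4 := congrFun (congrFun h3 i) k
    simpa using h4
  have h2 : ∀ i k, eval (Para_t A B) (NB.adjugate i k) = B.adjugate i k := by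
    intro i k
    have h3 := RingHom.map_adjugate (eval (Para_t A B)) NB
    rw [hNB] at h3
    have h4 := congrFun (congrFun h3 i) k
    simpa using h4
  have h3 : (fun x : κ × Z a b => eval (Para_t A B) (Sum.elim
      (fun i => ∑ k, NA.adjugate i k * C (p₀ x.1 (Sum.inl k)))
      (fun i => ∑ k, NB.adjugate i k * C (p₀ x.1 (Sum.inr k))) x.2)) =
      fun x : κ × Z a b => Para_mv A.adjugate B.adjugate (p₀ x.1) x.2 := by
    funext x
    obtain ⟨x, i | i⟩ := x
    · simp only [Sum.elim_inl, map_sum, map_mul, h1, eval_C]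
      rfl
    · simp only [Sum.elim_inr, map_sum, map_mul, h2, eval_C]
      rfl
  rw [h3]

/-- Step 1: `φ` vanishes on all transformed solutions. -/
private lemma Para_all {a b d j e : ℕ} {o : Fin a} {κ : Type} (m : κ → Finset (ℕ × ℕ))
    (φ : ({α // α ∈ Bu a b d j o e} → ℂ) →ₗ[ℂ] ℂ) (G : MvPolynomial (κ × Z a b) ℂ)
    (hG : ∀ p : κ → Z a b → ℂ, eval (fun x => p x.1 x.2) G ≠ 0 →
      (ASys (Bu a b d j o e)).V m p ≤ LinearMap.ker φ)
    (p₀ : κ → Z a b → ℂ) (hp₀ : eval (fun x => p₀ x.1 x.2) G ≠ 0)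
    (f : {α // α ∈ Bu a b d j o e} → ℂ) (hf : f ∈ (ASys (Bu a b d j o e)).V m p₀)
    (A : Matrix (Fin a) (Fin a) ℂ) (B : Matrix (Fin b) (Fin b) ℂ)
    (hA : ∀ k, k ≠ o → A k o = 0) :
    φ (Para_T A B f) = 0 := by
  classical
  obtain ⟨Q, hQ⟩ := Para_functional_poly φ f
  obtain ⟨D, hD⟩ := Para_D G p₀
  let π : (Fin a × Fin a) ⊕ (Fin b × Fin b) →
      MvPolynomial ((Fin a × Fin a) ⊕ (Fin b × Fin b)) ℂ :=
    Sum.elim (fun x => if x.2 = o ∧ x.1 ≠ o then 0 else X (Sum.inl x)) fun x => X (Sum.inr x)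
  have hπ : ∀ t : (Fin a × Fin a) ⊕ (Fin b × Fin b) → ℂ, (fun x => eval t (π x)) =
      Para_t (Matrix.of fun i k => if k = o ∧ i ≠ o then 0 else t (Sum.inl (i, k)))
        (Matrix.of fun i k => t (Sum.inr (i, k))) := by
    intro t
    funext x
    rcases x with ⟨i, k⟩ | x
    · show eval t (if k = o ∧ i ≠ o then 0 else X (Sum.inl (i, k))) =
        if k = o ∧ i ≠ o then 0 else t (Sum.inl (i, k))
      by_cases h : k = o ∧ i ≠ o
      · rw [if_pos h, if_pos h, map_zero]
      · rw [if_neg h, if_neg h, eval_X]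
    · show eval t (X (Sum.inr x)) = t (Sum.inr x)
      rw [eval_X]
  have hπA : ∀ (A : Matrix (Fin a) (Fin a) ℂ) (B : Matrix (Fin b) (Fin b) ℂ),
      (∀ k, k ≠ o → A k o = 0) → (fun x => eval (Para_t A B) (π x)) = Para_t A B := by
    intro A B hA
    rw [hπ]
    funext x
    rcases x with ⟨i, k⟩ | x
    · show (if k = o ∧ i ≠ o then 0 else A i k) = A i k
      by_cases h : k = o ∧ i ≠ o
      · rw [if_pos h, h.1, hA i h.2]
      · rw [if_neg h]
    · rfl
  have hQD : aeval π Q * aeval π D = 0 := by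
    apply MvPolynomial.funext
    intro t
    rw [map_mul, map_zero, Para_eval_aeval, Para_eval_aeval, hπ, hQ, hD]
    by_cases hGA : eval (fun x : κ × Z a b => Para_mv
        (Matrix.of fun i k => if k = o ∧ i ≠ o then 0 else t (Sum.inl (i, k)) :
          Matrix (Fin a) (Fin a) ℂ).adjugate
        (Matrix.of fun i k => t (Sum.inr (i, k)) : Matrix (Fin b) (Fin b) ℂ).adjugate
        (p₀ x.1) x.2) G = 0
    · rw [hGA, mul_zero]
    have h1 := hG (fun i => Para_mv
        (Matrix.of fun i k => if k = o ∧ i ≠ o then 0 else t (Sum.inl (i, k)) :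
          Matrix (Fin a) (Fin a) ℂ).adjugate
        (Matrix.of fun i k => t (Sum.inr (i, k)) : Matrix (Fin b) (Fin b) ℂ).adjugate
        (p₀ i)) hGA (Para_mem m p₀ f hf
          (Matrix.of fun i k => if k = o ∧ i ≠ o then 0 else t (Sum.inl (i, k)))
          (Matrix.of fun i k => t (Sum.inr (i, k))) (by
            intro k hk
            show (if o = o ∧ k ≠ o then (0 : ℂ) else _) = 0
            rw [if_pos ⟨rfl, hk⟩]))
    rw [LinearMap.mem_ker] at h1
    rw [h1, zero_mul]
  have hD0 : aeval π D ≠ 0 := by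
    intro h0
    have h1 := Para_eval_aeval (Para_t 1 1) π D
    rw [h0, map_zero, hπA 1 1 (fun k hk => Matrix.one_apply_ne hk), hD] at h1
    apply hp₀
    rw [h1]
    have h2 : (fun x : κ × Z a b => p₀ x.1 x.2) = fun x : κ × Z a b =>
        Para_mv (1 : Matrix (Fin a) (Fin a) ℂ).adjugate (1 : Matrix (Fin b) (Fin b) ℂ).adjugate
          (p₀ x.1) x.2 := by
      funext x
      rw [Matrix.adjugate_one, Matrix.adjugate_one]
      unfold Para_mv
      rw [Matrix.one_mulVec, Matrix.one_mulVec]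
      obtain ⟨x, i | i⟩ := x <;> rfl
    rw [h2]
  have hQ0 : aeval π Q = 0 := (mul_eq_zero.1 hQD).resolve_right hD0
  have h3 := Para_eval_aeval (Para_t A B) π Q
  rw [hQ0, map_zero, hπA A B hA, hQ] at h3
  exact h3.symm

/-- The product of the powers of the linear forms. -/
private noncomputable def Para_K {a b : ℕ} (d j : ℕ) (o : Fin a) (v : Z a b → ℂ) (i : ℕ) :
    MvPolynomial (Z a b) ℂ :=
  (∑ k, C (v (Sum.inl k)) * X (Sum.inl k)) ^ i *
  (∑ k ∈ univ.erase o, C (v (Sum.inl k)) * X (Sum.inl k)) ^ (d - j - i) *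
  (∑ k, C (v (Sum.inr k)) * X (Sum.inr k)) ^ j

/-- Step 2: special matrices. -/
private lemma Para_sub {a b d j e : ℕ} {o : Fin a} (f : {α // α ∈ Bu a b d j o e} → ℂ)
    (c v : Z a b → ℂ) :
    aeval (Para_g (Matrix.of fun i k => if k = o ∧ i ≠ o then 0
        else c (Sum.inl i) * v (Sum.inl k))
      (Matrix.of fun i k => c (Sum.inr i) * v (Sum.inr k))) (Para_P f) =
      ∑ α : {α // α ∈ Bu a b d j o e},
        C (f α * ∏ i, c i ^ α.1 i) * Para_K d j o v (α.1 (Sum.inl o)) := by
  classical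
  unfold Para_P
  rw [map_sum]
  refine sum_congr rfl fun α _ => ?_
  have h4 := (Para_mem_Bu.1 α.2).1
  have e0 := add_sum_erase univ (fun i : Fin a => α.1 (Sum.inl i)) (mem_univ o)
  have e1 : ∑ i ∈ univ.erase o, α.1 (Sum.inl i) = d - j - α.1 (Sum.inl o) := by
    have e3 : ∑ i, α.1 (Sum.inl i) = d - j := by
      have : xd α.1 = d - j := by omega
      exact this
    rw [e3] at e0
    omega
  have e2 : ∑ i, α.1 (Sum.inr i) = j := h4.2
  rw [aeval_monomial, algebraMap_eq, Finsupp.prod_fintype _ _ (by intro i; simp),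
    Fintype.prod_sum_type, Fintype.prod_sum_type, Para_sf_coe]
  have h5 : Para_g (Matrix.of fun i k => if k = o ∧ i ≠ o then 0
        else c (Sum.inl i) * v (Sum.inl k))
      (Matrix.of fun i k => c (Sum.inr i) * v (Sum.inr k)) (Sum.inl o) =
      C (c (Sum.inl o)) * ∑ k, C (v (Sum.inl k)) * X (Sum.inl k) := by
    simp only [Para_g, Sum.elim_inl, Matrix.of_apply, mul_sum]
    refine sum_congr rfl fun k _ => ?_
    rw [if_neg (by tauto), C_mul, mul_assoc]
  have h5' : ∀ i ∈ univ.erase o, Para_g (Matrix.of fun i k => if k = o ∧ i ≠ o then 0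
        else c (Sum.inl i) * v (Sum.inl k))
      (Matrix.of fun i k => c (Sum.inr i) * v (Sum.inr k)) (Sum.inl i) =
      C (c (Sum.inl i)) * ∑ k ∈ univ.erase o, C (v (Sum.inl k)) * X (Sum.inl k) := by
    intro i hi
    simp only [Para_g, Sum.elim_inl, Matrix.of_apply, mul_sum]
    rw [← add_sum_erase univ _ (mem_univ o), if_pos ⟨rfl, ne_of_mem_erase hi⟩, C_0, zero_mul,
      zero_add]
    refine sum_congr rfl fun k hk => ?_
    rw [if_neg (by intro h; exact ne_of_mem_erase hk h.1), C_mul, mul_assoc]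
  have h6 : ∀ i : Fin b, Para_g (Matrix.of fun i k => if k = o ∧ i ≠ o then 0
        else c (Sum.inl i) * v (Sum.inl k))
      (Matrix.of fun i k => c (Sum.inr i) * v (Sum.inr k)) (Sum.inr i) =
      C (c (Sum.inr i)) * ∑ k, C (v (Sum.inr k)) * X (Sum.inr k) := by
    intro i
    simp only [Para_g, Sum.elim_inr, Matrix.of_apply, mul_sum, C_mul, mul_assoc]
  rw [← mul_prod_erase univ _ (mem_univ o), ← mul_prod_erase univ (fun i : Fin a =>
    c (Sum.inl i) ^ α.1 (Sum.inl i)) (mem_univ o), h5]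
  have h7 : ∏ x ∈ univ.erase o, Para_g (Matrix.of fun i k => if k = o ∧ i ≠ o then 0
        else c (Sum.inl i) * v (Sum.inl k))
      (Matrix.of fun i k => c (Sum.inr i) * v (Sum.inr k)) (Sum.inl x) ^ α.1 (Sum.inl x) =
      (∏ x ∈ univ.erase o, C (c (Sum.inl x)) ^ α.1 (Sum.inl x)) *
        (∑ k ∈ univ.erase o, C (v (Sum.inl k)) * X (Sum.inl k)) ^ (d - j - α.1 (Sum.inl o)) := by
    rw [← e1, ← prod_pow_eq_pow_sum, ← prod_mul_distrib]
    refine prod_congr rfl fun i hi => ?_
    rw [h5' i hi, mul_pow]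
  rw [h7]
  simp_rw [h6, mul_pow]
  rw [prod_mul_distrib, prod_pow_eq_pow_sum, e2]
  unfold Para_K
  simp only [C_mul, map_prod, C_pow]
  ring

/-- The coefficients of the products. -/
private lemma Para_coeff_term {a b d j : ℕ} {o : Fin a} (v : Z a b → ℂ) (β : Z a b → ℕ)
    (hβ : xd β + yd β = d ∧ yd β = j) (k : ℕ) :
    coeff (Para_sf β) ((C (v (Sum.inl o)) * X (Sum.inl o)) ^ k *
      (∑ i ∈ univ.erase o, C (v (Sum.inl i)) * X (Sum.inl i)) ^ (d - j - k) *
      (∑ i, C (v (Sum.inr i)) * X (Sum.inr i)) ^ j : MvPolynomial (Z a b) ℂ) =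
    if k = β (Sum.inl o) then ((Nat.multinomial (univ.erase o) (fun i => β (Sum.inl i)) *
        Nat.multinomial univ (fun i => β (Sum.inr i)) : ℕ) : ℂ) * ∏ i, v i ^ β i else 0 := by
  classical
  rw [sum_pow_eq_sum_piAntidiag, sum_pow_eq_sum_piAntidiag,
    mul_sum _ _ ((C (v (Sum.inl o)) * X (Sum.inl o)) ^ k), sum_mul_sum, coeff_sum]
  have h1 : ∀ (κ : Fin a → ℕ) (l : Fin b → ℕ),
      (C (v (Sum.inl o)) * X (Sum.inl o)) ^ k *
      ((Nat.multinomial (univ.erase o) κ : MvPolynomial (Z a b) ℂ) *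
        ∏ i ∈ univ.erase o, (C (v (Sum.inl i)) * X (Sum.inl i)) ^ κ i) *
      ((Nat.multinomial univ l : MvPolynomial (Z a b) ℂ) *
        ∏ i, (C (v (Sum.inr i)) * X (Sum.inr i)) ^ l i) =
      monomial (Para_sf (Sum.elim (Function.update κ o k) l))
        (((Nat.multinomial (univ.erase o) κ * Nat.multinomial univ l : ℕ) : ℂ)
        * ((v (Sum.inl o) ^ k * ∏ i ∈ univ.erase o, v (Sum.inl i) ^ κ i) *
          ∏ i, v (Sum.inr i) ^ l i)) := by
    intro κ l
    rw [monomial_eq, Finsupp.prod_fintype _ _ (by intro i; simp), Fintype.prod_sum_type,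
      Para_sf_coe]
    simp only [Sum.elim_inl, Sum.elim_inr]
    have h2 : ∏ x : Fin a, (X (Sum.inl x) : MvPolynomial (Z a b) ℂ) ^ (Function.update κ o k x) =
        X (Sum.inl o) ^ k * ∏ x ∈ univ.erase o, X (Sum.inl x) ^ κ x := by
      rw [← mul_prod_erase univ _ (mem_univ o), Function.update_self]
      congr 1
      refine prod_congr rfl fun x hx => ?_
      rw [Function.update_of_ne (ne_of_mem_erase hx)]
    rw [h2]
    simp only [mul_pow, prod_mul_distrib, C_mul, map_prod, C_pow,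
      Nat.cast_mul, ← C_eq_coe_nat]
    ring
  have e0 := add_sum_erase univ (fun i : Fin a => β (Sum.inl i)) (mem_univ o)
  have e3 : ∑ i, β (Sum.inl i) = d - j := by
    have : xd β = d - j := by omega
    exact this
  have e2 : ∑ i, β (Sum.inr i) = j := hβ.2
  by_cases hk : k = β (Sum.inl o)
  · rw [if_pos hk]
    have e1 : ∑ i ∈ univ.erase o, β (Sum.inl i) = d - j - k := by
      rw [e3] at e0
      omega
    have h2 : ∀ κ ∈ piAntidiag (univ.erase o) (d - j - k),
        coeff (Para_sf β) (∑ l ∈ piAntidiag (univ : Finset (Fin b)) j,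
        (C (v (Sum.inl o)) * X (Sum.inl o)) ^ k *
        ((Nat.multinomial (univ.erase o) κ : MvPolynomial (Z a b) ℂ) *
          ∏ i ∈ univ.erase o, (C (v (Sum.inl i)) * X (Sum.inl i)) ^ κ i) *
        ((Nat.multinomial univ l : MvPolynomial (Z a b) ℂ) *
          ∏ i, (C (v (Sum.inr i)) * X (Sum.inr i)) ^ l i)) =
        if κ = Function.update (fun i => β (Sum.inl i)) o 0 then
          ((Nat.multinomial (univ.erase o) (fun i => β (Sum.inl i)) *
            Nat.multinomial univ (fun i => β (Sum.inr i)) : ℕ) : ℂ) * ∏ i, v i ^ β i else 0 := by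
      intro κ hκ
      rw [coeff_sum]
      have h3 : ∀ l ∈ piAntidiag (univ : Finset (Fin b)) j, coeff (Para_sf β)
        ((C (v (Sum.inl o)) * X (Sum.inl o)) ^ k *
        ((Nat.multinomial (univ.erase o) κ : MvPolynomial (Z a b) ℂ) *
          ∏ i ∈ univ.erase o, (C (v (Sum.inl i)) * X (Sum.inl i)) ^ κ i) *
        ((Nat.multinomial univ l : MvPolynomial (Z a b) ℂ) *
          ∏ i, (C (v (Sum.inr i)) * X (Sum.inr i)) ^ l i)) =
          if l = (fun i => β (Sum.inr i)) then
            (if κ = Function.update (fun i => β (Sum.inl i)) o 0 then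
            ((Nat.multinomial (univ.erase o) (fun i => β (Sum.inl i)) *
              Nat.multinomial univ (fun i => β (Sum.inr i)) : ℕ) : ℂ) * ∏ i, v i ^ β i else 0)
          else 0 := by
        intro l _
        rw [h1, coeff_monomial]
        by_cases hκ2 : κ = Function.update (fun i => β (Sum.inl i)) o 0
        · by_cases hl : l = (fun i => β (Sum.inr i))
          · have h5 : Para_sf (Sum.elim (Function.update κ o k) l) = Para_sf β := by
              rw [Para_sf_inj, hκ2, hl, Function.update_idem, hk]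
              funext x
              rcases x with x | x
              · simp only [Sum.elim_inl]
                by_cases hx : x = o
                · rw [hx, Function.update_self]
                · rw [Function.update_of_ne hx]
              · rfl
            have h6 : ∀ i ∈ univ.erase o, κ i = β (Sum.inl i) := by
              intro i hi
              rw [hκ2, Function.update_of_ne (ne_of_mem_erase hi)]
            rw [if_pos hκ2, if_pos hl, if_pos h5, Fintype.prod_sum_type, hl,
              Nat.multinomial_congr h6, ← mul_prod_erase univ (fun i : Fin a =>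
                v (Sum.inl i) ^ β (Sum.inl i)) (mem_univ o), ← hk,
              prod_congr rfl fun i hi => by rw [h6 i hi]]
          · rw [if_neg hl, if_neg]
            intro h
            apply hl
            rw [Para_sf_inj] at h
            funext x
            exact congrFun h (Sum.inr x)
        · rw [if_neg hκ2, ite_self, if_neg]
          intro h
          apply hκ2
          rw [Para_sf_inj] at h
          funext x
          by_cases hx : x = o
          · rw [hx, Function.update_self]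
            by_contra h7
            exact ne_of_mem_erase ((mem_piAntidiag.1 hκ).2 o h7) rfl
          · rw [Function.update_of_ne hx]
            have h8 := congrFun h (Sum.inl x)
            simp only [Sum.elim_inl] at h8
            rw [Function.update_of_ne hx] at h8
            exact h8
      rw [sum_congr rfl h3, sum_ite_eq', if_pos]
      rw [mem_piAntidiag]
      exact ⟨e2, fun i _ => mem_univ i⟩
    rw [sum_congr rfl h2, sum_ite_eq', if_pos]
    rw [mem_piAntidiag]
    constructor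
    · rw [← e1]
      refine sum_congr rfl fun i hi => ?_
      rw [Function.update_of_ne (ne_of_mem_erase hi)]
    · intro i hi
      rw [mem_erase]
      refine ⟨?_, mem_univ _⟩
      intro hio
      apply hi
      rw [hio, Function.update_self]
  · rw [if_neg hk]
    refine sum_eq_zero fun κ _ => ?_
    rw [coeff_sum]
    refine sum_eq_zero fun l _ => ?_
    rw [h1, coeff_monomial, if_neg]
    intro h
    apply hk
    rw [Para_sf_inj] at h
    have h8 := congrFun h (Sum.inl o)
    simp only [Sum.elim_inl] at h8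
    rw [Function.update_self] at h8
    exact h8

/-- The number. -/
private def Para_N {a b : ℕ} (o : Fin a) (e : ℕ) (β : Z a b → ℕ) : ℕ :=
  e.choose (β (Sum.inl o)) * (Nat.multinomial (univ.erase o) (fun i => β (Sum.inl i)) *
    Nat.multinomial univ (fun i => β (Sum.inr i)))

private lemma Para_coeff_K {a b d j e : ℕ} {o : Fin a} (he : e ≤ d - j) (v : Z a b → ℂ)
    (β : Z a b → ℕ) (hβ : β ∈ Bu a b d j o e) :
    coeff (Para_sf β) (Para_K d j o v e) = (Para_N o e β : ℂ) * ∏ i, v i ^ β i := by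
  classical
  have hβ' := Para_mem_Bu.1 hβ
  unfold Para_K
  rw [← add_sum_erase univ (fun k => (C (v (Sum.inl k)) * X (Sum.inl k) :
    MvPolynomial (Z a b) ℂ)) (mem_univ o), add_pow, sum_mul, sum_mul, coeff_sum]
  have h1 : ∀ k ∈ range (e + 1), coeff (Para_sf β)
      ((C (v (Sum.inl o)) * X (Sum.inl o)) ^ k *
        (∑ i ∈ univ.erase o, C (v (Sum.inl i)) * X (Sum.inl i)) ^ (e - k) *
        ((e.choose k : ℕ) : MvPolynomial (Z a b) ℂ) *
        (∑ i ∈ univ.erase o, C (v (Sum.inl i)) * X (Sum.inl i)) ^ (d - j - e) *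
        (∑ i, C (v (Sum.inr i)) * X (Sum.inr i)) ^ j : MvPolynomial (Z a b) ℂ) =
      if k = β (Sum.inl o) then (Para_N o e β : ℂ) * ∏ i, v i ^ β i else 0 := by
    intro k hk
    rw [mem_range] at hk
    have h2 : ((C (v (Sum.inl o)) * X (Sum.inl o)) ^ k *
        (∑ i ∈ univ.erase o, C (v (Sum.inl i)) * X (Sum.inl i)) ^ (e - k) *
        ((e.choose k : ℕ) : MvPolynomial (Z a b) ℂ) *
        (∑ i ∈ univ.erase o, C (v (Sum.inl i)) * X (Sum.inl i)) ^ (d - j - e) *
        (∑ i, C (v (Sum.inr i)) * X (Sum.inr i)) ^ j : MvPolynomial (Z a b) ℂ) =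
        C ((e.choose k : ℕ) : ℂ) * ((C (v (Sum.inl o)) * X (Sum.inl o)) ^ k *
          (∑ i ∈ univ.erase o, C (v (Sum.inl i)) * X (Sum.inl i)) ^ (d - j - k) *
          (∑ i, C (v (Sum.inr i)) * X (Sum.inr i)) ^ j) := by
      rw [show d - j - k = (e - k) + (d - j - e) by omega, pow_add, map_natCast]
      ring
    rw [h2, coeff_C_mul, Para_coeff_term v β hβ'.1 k]
    by_cases h3 : k = β (Sum.inl o)
    · rw [if_pos h3, if_pos h3, h3]
      unfold Para_N
      push_cast
      ring
    · rw [if_neg h3, if_neg h3, mul_zero]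
  rw [sum_congr rfl h1, sum_ite_eq', if_pos]
  rw [mem_range]
  omega

theorem top_zero {a b d j e : ℕ} (ha : 2 ≤ a) (hb : 1 ≤ b) (hj : j ≤ d) (o : Fin a) {κ : Type}
    [Fintype κ] (m : κ → Finset (ℕ × ℕ))
    (φ : ({α // α ∈ Bu a b d j o e} → ℂ) →ₗ[ℂ] ℂ) (hφ : φ ≠ 0)
    (G : MvPolynomial (κ × Z a b) ℂ)
    (hG : ∀ p : κ → Z a b → ℂ, eval (fun x => p x.1 x.2) G ≠ 0 →
      (ASys (Bu a b d j o e)).V m p ≤ LinearMap.ker φ)
    (p₀ : κ → Z a b → ℂ) (hp₀ : eval (fun x => p₀ x.1 x.2) G ≠ 0)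
    (f : {α // α ∈ Bu a b d j o e} → ℂ) (hf : f ∈ (ASys (Bu a b d j o e)).V m p₀)
    (α : {α // α ∈ Bu a b d j o e}) (hα : α.1 (Sum.inl o) = e) : f α = 0 := by
  classical
  have he : e ≤ d - j := by
    have h1 := (Para_mem_Bu.1 α.2).1
    have h2 : α.1 (Sum.inl o) ≤ xd α.1 :=
      single_le_sum (f := fun i => α.1 (Sum.inl i)) (fun i _ => Nat.zero_le _) (mem_univ o)
    omega
  -- the value of `φ` at the products
  let ψ : (Z a b → ℂ) → ℕ → ℂ := fun v i =>
    ∑ β : {α // α ∈ Bu a b d j o e}, φ (Pi.single β 1) * coeff (Para_sf β.1) (Para_K d j o v i)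
  by_contra hfα
  have h1 : ∀ v : Z a b → ℂ, ψ v e = 0 := by
    intro v
    have h2 : Para_P (fun γ : {α // α ∈ Bu a b d j o e} => f γ * ψ v (γ.1 (Sum.inl o))) = 0 := by
      apply MvPolynomial.funext
      intro c
      rw [map_zero]
      have h3 := Para_all m φ G hG p₀ hp₀ f hf
        (Matrix.of fun i k => if k = o ∧ i ≠ o then 0 else c (Sum.inl i) * v (Sum.inl k))
        (Matrix.of fun i k => c (Sum.inr i) * v (Sum.inr k)) (by
            intro k hk
            show (if o = o ∧ k ≠ o then (0 : ℂ) else _) = 0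
            rw [if_pos ⟨rfl, hk⟩])
      rw [Para_functional] at h3
      rw [← h3]
      unfold Para_T Para_P
      rw [map_sum]
      have h4 : ∀ β : {α // α ∈ Bu a b d j o e}, φ (Pi.single β 1) * coeff (Para_sf β.1)
          (aeval (Para_g (Matrix.of fun i k => if k = o ∧ i ≠ o then 0
              else c (Sum.inl i) * v (Sum.inl k))
            (Matrix.of fun i k => c (Sum.inr i) * v (Sum.inr k)))
            (∑ α : {α // α ∈ Bu a b d j o e}, monomial (Para_sf α.1) (f α))) =
          ∑ γ : {α // α ∈ Bu a b d j o e}, (f γ * ∏ i, c i ^ γ.1 i) * (φ (Pi.single β 1) *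
            coeff (Para_sf β.1) (Para_K d j o v (γ.1 (Sum.inl o)))) := by
        intro β
        have h5 := Para_sub f c v
        unfold Para_P at h5
        rw [h5, coeff_sum, mul_sum]
        refine sum_congr rfl fun γ _ => ?_
        rw [coeff_C_mul]
        ring
      simp_rw [h4]
      rw [sum_comm]
      refine sum_congr rfl fun γ _ => ?_
      rw [← mul_sum, eval_monomial, Finsupp.prod_fintype _ _ (by intro i; simp), Para_sf_coe]
      ring
    have h3 := Para_coeff_P
      (fun γ : {α // α ∈ Bu a b d j o e} => f γ * ψ v (γ.1 (Sum.inl o))) α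
    rw [h2, coeff_zero, hα] at h3
    exact (mul_eq_zero.1 h3.symm).resolve_left hfα
  have h4 : Para_P (fun β : {α // α ∈ Bu a b d j o e} => φ (Pi.single β 1) *
      (Para_N o e β.1 : ℂ)) = 0 := by
    apply MvPolynomial.funext
    intro v
    rw [map_zero, ← h1 v]
    unfold Para_P
    rw [map_sum]
    refine sum_congr rfl fun β _ => ?_
    rw [eval_monomial, Finsupp.prod_fintype _ _ (by intro i; simp), Para_sf_coe,
      Para_coeff_K he v β.1 β.2]
    ring
  apply hφ
  ext β
  have h5 := Para_coeff_P (fun β : {α // α ∈ Bu a b d j o e} => φ (Pi.single β 1) *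
      (Para_N o e β.1 : ℂ)) β
  rw [h4, coeff_zero] at h5
  have h6 : (Para_N o e β.1 : ℂ) ≠ 0 := by
    rw [Nat.cast_ne_zero]
    unfold Para_N
    have h8 := (Para_mem_Bu.1 β.2).2
    exact Nat.mul_ne_zero (Nat.choose_pos h8).ne'
      (Nat.mul_ne_zero (Nat.multinomial_pos _ _).ne' (Nat.multinomial_pos _ _).ne')
  have h7 : φ (Pi.single β 1) = 0 := (mul_eq_zero.1 h5.symm).resolve_right h6
  simpa using h7

end Pool.Agent.H51.TB
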