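import Pool.Agent.H51.TB.Sect
import Pool.Agent.H51.TB.LieD
import Pool.Agent.H51.TB.Para

/-!
# Module U4 (TB2): the span property for forms with a bounded exponent

If `d - j ≤ e` then `Bu a b d j o e = Bx a b d j` and `span_L` applies.  Let `e < d - j`, `φ ≠ 0`,
`V m p ≤ ker φ` for `G(p) ≠ 0`, and suppose `gd m ≠ 0`.  All sections `F` (`Sec (Bu a b d j o e) m F`)
satisfy `F α = 0` for all `α ∈ Bu a b d j o e` with `α_o ≥ k`, for `k = e, e - 1, …, 0`:
* `k = e`: otherwise choose `p` with `G(p) ≠ 0` and `F α (p) ≠ 0` and use `top_zero` for the value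
  of `F` at `p` (`section_mem`);
* from `k + 1` to `k`: let `F` be a section (make it `0` off `Bu a b d j o e`) and `α'` with `α'_o = k`.
  Since `xd α' = d - j > e ≥ k` there is `c ≠ o` with `α'_c ≥ 1`.  By `lie_sec` `Lie o c F` is a section,
  so `Lie o c F α = 0` for `α = α' - e_c + e_o` (`α_o = k + 1`); here `F α = 0`, so
  `(α_c + 1) F α' = 0`.
So every section vanishes, which contradicts `exists_section`.
-/

namespace Pool.Agent.H51.TB

open Finset MvPolynomial Pool.Agent.H18.Ex Pool.Agent.H21.NX Pool.Agent.H18.Ta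

private theorem USpan_rename {a b : ℕ} {κ : Type} (i : κ) (α β : Z a b → ℕ) :
    rename (fun v => (i, v)) (tcr (fun v => (X v : MvPolynomial (Z a b) ℂ)) α β) =
      tcr (fun v => (X (i, v) : MvPolynomial (κ × Z a b) ℂ)) α β := by
  unfold tcr
  rw [map_prod]
  refine prod_congr rfl fun v _ => ?_
  rw [map_mul, map_natCast, map_pow, rename_X]

private theorem USpan_iff {a b : ℕ} {κ : Type} (A : Finset (Z a b → ℕ)) (m : κ → Finset (ℕ × ℕ))
    (F : (Z a b → ℕ) → MvPolynomial (κ × Z a b) ℂ) :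
    Sec A m F ↔ ∀ i (r : (ASys A).R (m i)), ∑ x : {α // α ∈ A},
      rename (fun v => (i, v)) ((ASys A).co (m i) r x) * F x.1 = 0 := by
  have key : ∀ (i : κ) (β : Z a b → ℕ), ∑ α ∈ A, F α * tcr (fun v => X (i, v)) α β =
      ∑ x : {α // α ∈ A}, rename (fun v => (i, v))
        (tcr (fun v => (X v : MvPolynomial (Z a b) ℂ)) x.1 β) * F x.1 := by
    intro i β
    rw [← Finset.sum_coe_sort A (fun α => F α * tcr (fun v => X (i, v)) α β)]
    refine sum_congr rfl fun x _ => ?_
    rw [USpan_rename, mul_comm]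
  constructor
  · intro h i r
    have h1 := h i r.1 r.2
    rw [key] at h1
    exact h1
  · intro h i β hβ
    rw [key]
    exact h i ⟨β, hβ⟩

private theorem USpan_sh {a b : ℕ} (o c : Fin a) (hoc : c ≠ o) (α : Z a b → ℕ)
    (hα : 1 ≤ α (Sum.inl c)) : sh o c (sh c o α) = α := by
  funext v
  unfold sh
  have hne : (Sum.inl c : Z a b) ≠ Sum.inl o := fun h => hoc (Sum.inl_injective h)
  by_cases h1 : v = Sum.inl c
  · subst h1
    rw [Function.update_self, Function.update_of_ne hne, Function.update_self]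
    omega
  · rw [Function.update_of_ne h1]
    by_cases h2 : v = Sum.inl o
    · subst h2
      rw [Function.update_self, Function.update_self]
      omega
    · rw [Function.update_of_ne h2, Function.update_of_ne h2, Function.update_of_ne h1]

private theorem USpan_sh_apply {a b : ℕ} (o c : Fin a) (hoc : c ≠ o) (α : Z a b → ℕ) :
    sh c o α (Sum.inl o) = α (Sum.inl o) + 1 := by
  unfold sh
  have hne : (Sum.inl c : Z a b) ≠ Sum.inl o := fun h => hoc (Sum.inl_injective h)
  rw [Function.update_self]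

private theorem USpan_sh_xd {a b : ℕ} (o c : Fin a) (hoc : c ≠ o) (α : Z a b → ℕ)
    (hα : 1 ≤ α (Sum.inl c)) : xd (sh c o α) = xd α ∧ yd (sh c o α) = yd α := by
  classical
  have hne : (Sum.inl c : Z a b) ≠ Sum.inl o := fun h => hoc (Sum.inl_injective h)
  constructor
  · unfold xd
    have h1 : ∀ f : Fin a → ℕ, ∑ i, f i = f o + (f c + ∑ i ∈ (univ.erase o).erase c, f i) := by
      intro f
      rw [add_sum_erase (univ.erase o) f (mem_erase.2 ⟨hoc, mem_univ c⟩),
        add_sum_erase univ f (mem_univ o)]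
    rw [h1, h1 fun i => α (Sum.inl i)]
    have h2 : ∑ i ∈ (univ.erase o).erase c, sh c o α (Sum.inl i) =
        ∑ i ∈ (univ.erase o).erase c, α (Sum.inl i) := by
      refine sum_congr rfl fun i hi => ?_
      rw [mem_erase, mem_erase] at hi
      unfold sh
      rw [Function.update_of_ne (fun h => hi.2.1 (Sum.inl_injective h)),
        Function.update_of_ne (fun h => hi.1 (Sum.inl_injective h))]
    rw [h2, USpan_sh_apply o c hoc]
    have h3 : sh c o α (Sum.inl c) = α (Sum.inl c) - 1 := by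
      unfold sh
      rw [Function.update_of_ne hne, Function.update_self]
    rw [h3]
    omega
  · unfold yd
    refine sum_congr rfl fun i _ => ?_
    unfold sh
    rw [Function.update_of_ne Sum.inr_ne_inl, Function.update_of_ne Sum.inr_ne_inl]

private theorem USpan_mem {a b d j e : ℕ} {o : Fin a} {α : Z a b → ℕ} :
    α ∈ Bu a b d j o e ↔ α ∈ Bx a b d j ∧ α (Sum.inl o) ≤ e := by
  unfold Bu
  rw [mem_filter]

private theorem USpan_step {a b d j e : ℕ} (o : Fin a) {κ : Type} [Fintype κ]
    (m : κ → Finset (ℕ × ℕ)) (k : ℕ) (hk : k < e) (hde : e < d - j)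
    (ih : ∀ F : (Z a b → ℕ) → MvPolynomial (κ × Z a b) ℂ, Sec (Bu a b d j o e) m F →
      ∀ α ∈ Bu a b d j o e, k + 1 ≤ α (Sum.inl o) → F α = 0)
    (F : (Z a b → ℕ) → MvPolynomial (κ × Z a b) ℂ) (hF : Sec (Bu a b d j o e) m F)
    (α : Z a b → ℕ) (hα : α ∈ Bu a b d j o e) (hαk : k ≤ α (Sum.inl o)) : F α = 0 := by
  classical
  rcases Nat.lt_or_ge k (α (Sum.inl o)) with hlt | hge
  · exact ih F hF α hα hlt
  have hαo : α (Sum.inl o) = k := le_antisymm hge hαk
  have hα' := USpan_mem.1 hα
  have hBx := mem_Bx.1 hα'.1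
  obtain ⟨c, hoc, hc⟩ : ∃ c : Fin a, c ≠ o ∧ 1 ≤ α (Sum.inl c) := by
    by_contra hcon
    push Not at hcon
    have h1 : xd α = α (Sum.inl o) := by
      unfold xd
      refine sum_eq_single o (fun c _ hco => ?_) (fun h => absurd (mem_univ o) h)
      have := hcon c hco
      omega
    omega
  let F' : (Z a b → ℕ) → MvPolynomial (κ × Z a b) ℂ :=
    fun γ => if γ ∈ Bu a b d j o e then F γ else 0
  have hF' : Sec (Bu a b d j o e) m F' := by
    intro i β hβ
    refine Eq.trans (sum_congr rfl fun γ hγ => ?_) (hF i β hβ)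
    have : F' γ = F γ := if_pos hγ
    rw [this]
  have h0 : ∀ γ ∈ Bx a b d j, k < γ (Sum.inl o) → F' γ = 0 := by
    intro γ hγ hγk
    by_cases hmem : γ ∈ Bu a b d j o e
    · have : F' γ = F γ := if_pos hmem
      rw [this]
      exact ih F hF γ hmem hγk
    · exact if_neg hmem
  have hL := lie_sec o c hoc hk m F' hF' h0
  have hsx := USpan_sh_xd o c hoc α hc
  have hso := USpan_sh_apply o c hoc α
  have hshB : sh c o α ∈ Bx a b d j := by
    rw [mem_Bx, hsx.1, hsx.2]
    exact hBx
  have hshU : sh c o α ∈ Bu a b d j o e := USpan_mem.2 ⟨hshB, by omega⟩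
  have h1 := ih _ hL (sh c o α) hshU (by omega)
  unfold Lie at h1
  rw [h0 _ hshB (by omega), USpan_sh o c hoc α hc, if_pos (by omega)] at h1
  simp only [map_zero, mul_zero, sum_const_zero, zero_add] at h1
  have h2 : F' α = 0 := by
    rcases mul_eq_zero.1 h1 with h | h
    · exact absurd h (Nat.cast_ne_zero.2 (Nat.succ_ne_zero _))
    · exact h
  have h3 : F' α = F α := if_pos hα
  rw [← h3]
  exact h2

theorem span_U {a b d j : ℕ} (ha : 2 ≤ a) (hb : 1 ≤ b) (hj : j ≤ d) (o : Fin a) (e : ℕ) :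
    (ASys (Bu a b d j o e)).Span := by
  classical
  rcases Nat.lt_or_ge e (d - j) with hde | hde
  swap
  · have hB : Bu a b d j o e = Bx a b d j := by
      unfold Bu
      apply filter_true_of_mem
      intro α hα
      have h1 := mem_Bx.1 hα
      have h2 : α (Sum.inl o) ≤ xd α := by
        unfold xd
        exact single_le_sum (f := fun i => α (Sum.inl i)) (fun i _ => Nat.zero_le _) (mem_univ o)
      omega
    rw [hB, ASys_Bx]
    exact span_L (by omega) hb hj
  intro κ _ m φ hφ hgn
  by_contra hgd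
  obtain ⟨G, hG0, hG⟩ := hgn
  have htop : ∀ F : (Z a b → ℕ) → MvPolynomial (κ × Z a b) ℂ, Sec (Bu a b d j o e) m F →
      ∀ α ∈ Bu a b d j o e, e ≤ α (Sum.inl o) → F α = 0 := by
    intro F hF α hα hαe
    by_contra hne
    obtain ⟨t, ht⟩ : ∃ t, eval t (G * F α) ≠ 0 := by
      by_contra hcon
      push Not at hcon
      exact mul_ne_zero hG0 hne (MvPolynomial.funext fun t => by rw [hcon t, map_zero])
    rw [map_mul] at ht
    have hle := (USpan_mem.1 hα).2
    have h1 := section_mem (ASys (Bu a b d j o e)) m (fun x => F x.1)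
      ((USpan_iff _ m F).1 hF) (fun i v => t (i, v))
    have h2 := top_zero ha hb hj o m φ hφ G hG (fun i v => t (i, v))
      (left_ne_zero_of_mul ht) _ h1 ⟨α, hα⟩ (le_antisymm hle hαe)
    exact right_ne_zero_of_mul ht h2
  have hall : ∀ n k : ℕ, k + n = e → ∀ F : (Z a b → ℕ) → MvPolynomial (κ × Z a b) ℂ,
      Sec (Bu a b d j o e) m F → ∀ α ∈ Bu a b d j o e, k ≤ α (Sum.inl o) → F α = 0 := by
    intro n
    induction n with
    | zero =>
      intro k hk
      have hke : k = e := by omega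
      rw [hke]
      exact htop
    | succ n ih =>
      intro k hk F hF α hα hαk
      exact USpan_step o m k (by omega) hde (ih (k + 1) (by omega)) F hF α hα hαk
  obtain ⟨F, ⟨x, hx⟩, hF⟩ := exists_section (ASys (Bu a b d j o e)) m hgd
  let F' : (Z a b → ℕ) → MvPolynomial (κ × Z a b) ℂ :=
    fun γ => if h : γ ∈ Bu a b d j o e then F ⟨γ, h⟩ else 0
  have hF'x : ∀ y : {α // α ∈ Bu a b d j o e}, F' y.1 = F y := fun y => dif_pos y.2
  have hS : Sec (Bu a b d j o e) m F' := by
    rw [USpan_iff]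
    intro i r
    refine Eq.trans (sum_congr rfl fun y _ => ?_) (hF i r)
    rw [hF'x y]
  have h1 := hall e 0 (by omega) F' hS x.1 x.2 (Nat.zero_le _)
  rw [hF'x x] at h1
  exact hx h1

end Pool.Agent.H51.TB
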