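import Mathlib

/-!
# Module D7 (TB): the choice of the number of `X`-variables

Proof.  Let `z = ⌊log n / 8⌋`, `W = (M!)^2 * primorial z ≤ (M!)^2 * 4^z` (`primorial_le_4_pow`), which is
at most `n^(1/2)` for `n` large, and `a - 2 = W * y`, `y ∈ [y₁, y₂]` such that
`|2 a - n| ≤ ε n`; there are at least `c n / W ≥ c n^(1/2)` values of `y`.
`multichoose (a - 1) t = binom (a - 2 + t, t) = ∏_{i=1}^t (a - 2 + i) / i`.  If a prime `p ≤ z` or
`p ≤ M` divides `n - 2` then `(a - 2) / i` is divisible by `p` for all `1 ≤ i ≤ M` (as `W` is divisible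
by `i * p`), so `multichoose (a - 1) t ≡ 1 (mod p)`.  A prime `p > max(z, M)` dividing `n - 2` divides
`multichoose (a - 1) t`, `t ≤ M`, only if it divides one of the `a - 2 + i`, `1 ≤ i ≤ M`, that is, if
`y` is in one of at most `M` residue classes modulo `p` (`p` does not divide `W`).  The number of such
`y` in an interval of `Y` integers is at most `M (Y / p + 1)`; the number of primes `p > z` dividing
`n - 2` is at most `log n / log z`.  The total number of bad `y` is at most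
`M (log n / log z) (Y / z + 1)`, smaller than `Y` for `n` large since `z ≥ log n / 8 - 1`, that is
`log n / (z log z) → 0`, and `Y ≥ c n^(1/2)`.
-/

namespace Pool.Agent.H51.TB

private theorem Nt_small (M m p : ℕ) (hp : p.Prime) (h : ∀ i, 1 ≤ i → i ≤ M → i * p ∣ m) :
    ∀ t, t ≤ M → ¬ p ∣ Nat.choose (m + t) t := by
  intro t
  induction t with
  | zero =>
    intro _ hd
    rw [Nat.choose_zero_right] at hd
    exact hp.one_lt.ne' (Nat.dvd_one.1 hd)
  | succ t ih =>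
    intro ht hd
    obtain ⟨k, hk⟩ := h (t + 1) (by omega) ht
    have h1 : (m + t + 1) * Nat.choose (m + t) t = Nat.choose (m + t + 1) (t + 1) * (t + 1) :=
      Nat.add_one_mul_choose_eq (m + t) t
    have h2 : Nat.choose (m + t + 1) (t + 1) = (p * k + 1) * Nat.choose (m + t) t := by
      have h3 : (t + 1) * Nat.choose (m + t + 1) (t + 1) = (t + 1) * ((p * k + 1) * Nat.choose (m + t) t) := by
        rw [mul_comm (t + 1) (Nat.choose (m + t + 1) (t + 1)), ← h1, ← mul_assoc]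
        congr 1
        rw [add_assoc, hk]
        ring
      exact Nat.eq_of_mul_eq_mul_left (Nat.succ_pos t) h3
    rw [← add_assoc, h2] at hd
    rcases (Nat.Prime.dvd_mul hp).1 hd with h4 | h4
    · have h5 : p ∣ 1 := (Nat.dvd_add_right (Dvd.intro k rfl)).1 h4
      exact hp.one_lt.ne' (Nat.dvd_one.1 h5)
    · exact ih (by omega) h4

private theorem Nt_large (m p : ℕ) (hp : p.Prime) :
    ∀ t, p ∣ Nat.choose (m + t) t → ∃ i, 1 ≤ i ∧ i ≤ t ∧ p ∣ m + i := by
  intro t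
  induction t with
  | zero =>
    intro hd
    rw [Nat.choose_zero_right] at hd
    exact absurd (Nat.dvd_one.1 hd) hp.one_lt.ne'
  | succ t ih =>
    intro hd
    have h1 : (m + t + 1) * Nat.choose (m + t) t = Nat.choose (m + t + 1) (t + 1) * (t + 1) :=
      Nat.add_one_mul_choose_eq (m + t) t
    have h2 : p ∣ (m + t + 1) * Nat.choose (m + t) t := by
      rw [h1]
      exact Dvd.dvd.mul_right hd _
    rcases (Nat.Prime.dvd_mul hp).1 h2 with h3 | h3
    · exact ⟨t + 1, by omega, le_refl _, h3⟩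
    · obtain ⟨i, h4, h5, h6⟩ := ih h3
      exact ⟨i, h4, by omega, h6⟩

/-- the arithmetic core: among `z` consecutive `y` one is good -/
private theorem Nt_core (M N L z y₀ : ℕ) (hN : N ≠ 0) (hNL : N < 2 ^ (L + 1)) (hz : z = L / 8)
    (hzM : M ≤ z) (hz1 : 1 ≤ z) (hzB : 2 ^ (16 * (M + 1)) ≤ z) :
    ∃ y, y₀ ≤ y ∧ y < y₀ + z ∧ ∀ t, 1 ≤ t → t ≤ M →
      Nat.Coprime (Nat.choose (M.factorial * primorial z * y + t) t) N := by
  classical
  set W := M.factorial * primorial z with hW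
  by_contra hcon
  push Not at hcon
  set S := N.primeFactors.filter (fun p => z < p) with hS
  -- every `y` is bad
  have hbad : ∀ y ∈ Finset.Ico y₀ (y₀ + z), ∃ pi : ℕ × ℕ, pi ∈ S ×ˢ Finset.Icc 1 M ∧ pi.1 ∣ W * y + pi.2 := by
    intro y hy
    rw [Finset.mem_Ico] at hy
    obtain ⟨t, ht1, htM, hnc⟩ := hcon y hy.1 hy.2
    obtain ⟨p, hp, hpc, hpN⟩ := Nat.Prime.not_coprime_iff_dvd.1 hnc
    by_cases hpz : p ≤ z
    · exfalso
      refine Nt_small M (W * y) p hp (fun i hi1 hiM => ?_) t htM hpc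
      have h1 : i ∣ M.factorial := Nat.dvd_factorial hi1 hiM
      have h2 : p ∣ primorial z := hp.dvd_primorial_iff.2 hpz
      exact Dvd.dvd.mul_right (Nat.mul_dvd_mul h1 h2) y
    · obtain ⟨i, hi1, hit, hid⟩ := Nt_large (W * y) p hp t hpc
      refine ⟨(p, i), ?_, hid⟩
      rw [Finset.mem_product]
      refine ⟨?_, Finset.mem_Icc.2 ⟨hi1, hit.trans htM⟩⟩
      rw [hS, Finset.mem_filter]
      exact ⟨Nat.mem_primeFactors.2 ⟨hp, hpN, hN⟩, not_le.1 hpz⟩
  choose! f hf1 hf2 using hbad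
  -- counting
  have hcardS : 16 * (M + 1) * S.card ≤ L := by
    have h1 : (2 ^ (16 * (M + 1))) ^ S.card ≤ ∏ p ∈ S, p := by
      refine Finset.pow_card_le_prod S (fun p => p) _ (fun p hp => ?_)
      rw [hS, Finset.mem_filter] at hp
      exact hzB.trans hp.2.le
    have h2 : ∏ p ∈ S, p ≤ N := by
      refine Nat.le_of_dvd (Nat.pos_of_ne_zero hN) ?_
      refine Dvd.dvd.trans ?_ (Nat.prod_primeFactors_dvd N)
      exact Finset.prod_dvd_prod_of_subset _ _ _ (Finset.filter_subset _ _)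
    rw [← pow_mul] at h1
    have h3 : 2 ^ (16 * (M + 1) * S.card) < 2 ^ (L + 1) := lt_of_le_of_lt (h1.trans h2) hNL
    have h4 := (Nat.pow_lt_pow_iff_right (by norm_num : 1 < 2)).1 h3
    omega
  have hlt : (S ×ˢ Finset.Icc 1 M).card < (Finset.Ico y₀ (y₀ + z)).card := by
    rw [Finset.card_product, Nat.card_Icc, Nat.card_Ico]
    have h5 : 16 * (S.card * M) ≤ L := by
      refine le_trans ?_ hcardS
      nlinarith [Nat.zero_le S.card]
    have h6 : S.card * (M + 1 - 1) = S.card * M := by rw [Nat.add_sub_cancel]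
    rw [h6, Nat.add_sub_cancel_left]
    omega
  obtain ⟨y, hy, y', hy', hne, heq⟩ := Finset.exists_ne_map_eq_of_card_lt_of_maps_to hlt hf1
  -- two different `y` with the same pair
  have key : ∀ a b : ℕ, a ∈ Finset.Ico y₀ (y₀ + z) → b ∈ Finset.Ico y₀ (y₀ + z) → a < b → f a = f b → False := by
    intro a b ha hb hab hfab
    have h1 := hf2 a ha
    have h2 := hf2 b hb
    have h3 := hf1 a ha
    rw [← hfab] at h2
    rw [Finset.mem_product, hS, Finset.mem_filter] at h3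
    obtain ⟨⟨h4, h5⟩, -⟩ := h3
    have hp : (f a).1.Prime := (Nat.mem_primeFactors.1 h4).1
    rw [Finset.mem_Ico] at ha hb
    have h6 : (f a).1 ∣ W * (b - a) := by
      have h7 : W * b + (f a).2 = (W * a + (f a).2) + W * (b - a) := by
        have : b = a + (b - a) := by omega
        calc W * b + (f a).2 = W * (a + (b - a)) + (f a).2 := by rw [← this]
          _ = _ := by ring
      rw [h7] at h2
      exact (Nat.dvd_add_right h1).1 h2
    rcases (Nat.Prime.dvd_mul hp).1 h6 with h8 | h8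
    · rw [hW] at h8
      rcases (Nat.Prime.dvd_mul hp).1 h8 with h9 | h9
      · have := (Nat.Prime.dvd_factorial hp).1 h9
        omega
      · have := hp.dvd_primorial_iff.1 h9
        omega
    · have := Nat.le_of_dvd (by omega) h8
      omega
  rcases lt_or_gt_of_ne hne with h | h
  · exact key y y' hy hy' h heq
  · exact key y' y hy' hy h heq.symm

theorem exists_coprime (M : ℕ) (ε : ℝ) (hε : 0 < ε) : ∃ n₀ : ℕ, ∀ n : ℕ, n₀ ≤ n →
    ∃ a : ℕ, 2 ≤ a ∧ a + 2 ≤ n ∧ |2 * (a : ℝ) - n| ≤ ε * n ∧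
      ∀ t, 1 ≤ t → t ≤ M → Nat.Coprime (Nat.multichoose (a - 1) t) (n - 2) := by
  obtain ⟨F, hF⟩ : ∃ F, F = M.factorial := ⟨_, rfl⟩
  obtain ⟨n₁, hn₁⟩ := exists_nat_ge (((2 * (F : ℝ) + 4) / ε) ^ 2)
  refine ⟨n₁ + (2 * F) ^ 2 + 2 ^ (8 * 2 ^ (16 * (M + 1))) + 8, fun n hn => ?_⟩
  have hB1 : 1 ≤ 2 ^ (16 * (M + 1)) := Nat.one_le_two_pow
  have hBM : M < 2 ^ (16 * (M + 1)) := lt_trans (by omega : M < 16 * (M + 1)) Nat.lt_two_pow_self
  have hall : n₁ ≤ n ∧ (2 * F) ^ 2 ≤ n ∧ 2 ^ (8 * 2 ^ (16 * (M + 1))) ≤ n ∧ 8 ≤ n := by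
    generalize 2 ^ (8 * 2 ^ (16 * (M + 1))) = T at hn ⊢
    generalize (2 * F) ^ 2 = T' at hn ⊢
    omega
  obtain ⟨hn1', hnF, h2B, hn8⟩ := hall
  have hn0 : n ≠ 0 := by
    clear hn
    omega
  clear hn
  obtain ⟨B, hB⟩ : ∃ B, B = 2 ^ (16 * (M + 1)) := ⟨_, rfl⟩
  rw [← hB] at h2B hB1 hBM
  obtain ⟨L, hL⟩ : ∃ L, L = Nat.log 2 n := ⟨_, rfl⟩
  obtain ⟨z, hz⟩ : ∃ z, z = L / 8 := ⟨_, rfl⟩
  have hLB : 8 * B ≤ L := by
    rw [hL]
    exact (Nat.le_log_iff_pow_le (by norm_num) hn0).2 h2B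
  have hzB : B ≤ z := by omega
  have hz1 : 1 ≤ z := hB1.trans hzB
  have hzM : M ≤ z := hBM.le.trans hzB
  have hLn : 2 ^ L ≤ n := by
    rw [hL]
    exact Nat.pow_log_le_self 2 hn0
  have hLn' : n < 2 ^ (L + 1) := by
    rw [hL]
    exact Nat.lt_pow_succ_log_self (by norm_num) n
  -- the size of `W`
  obtain ⟨W, hW⟩ : ∃ W, W = F * primorial z := ⟨_, rfl⟩
  have hF1 : 1 ≤ F := hF ▸ Nat.factorial_pos M
  have hW1 : 1 ≤ W := hW ▸ Nat.mul_pos hF1 (primorial_pos z)
  have h16 : (16 ^ z) ^ 2 ≤ n := by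
    calc (16 ^ z) ^ 2 = 2 ^ (8 * z) := by
          rw [show (16 : ℕ) = 2 ^ 4 by norm_num, ← pow_mul, ← pow_mul]
          congr 1
          ring
      _ ≤ 2 ^ L := Nat.pow_le_pow_right (by norm_num) (by omega)
      _ ≤ n := hLn
  have hWz : W * (z + 1) ≤ F * 16 ^ z := by
    have h1 : primorial z ≤ 4 ^ z := primorial_le_four_pow z
    have h2 : z + 1 ≤ 4 ^ z := Nat.lt_pow_self (by norm_num)
    calc W * (z + 1) = F * (primorial z * (z + 1)) := by rw [hW, mul_assoc]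
      _ ≤ F * (4 ^ z * 4 ^ z) := Nat.mul_le_mul_left _ (Nat.mul_le_mul h1 h2)
      _ = F * 16 ^ z := by rw [← mul_pow]; norm_num
  -- real estimates
  have hsq : ((16 ^ z : ℕ) : ℝ) ≤ Real.sqrt n := by
    apply Real.le_sqrt_of_sq_le
    exact_mod_cast h16
  have hWzR : ((W * (z + 1) : ℕ) : ℝ) ≤ F * Real.sqrt n := by
    calc ((W * (z + 1) : ℕ) : ℝ) ≤ ((F * 16 ^ z : ℕ) : ℝ) := by exact_mod_cast hWz
      _ = F * ((16 ^ z : ℕ) : ℝ) := by push_cast; ring
      _ ≤ F * Real.sqrt n := mul_le_mul_of_nonneg_left hsq (Nat.cast_nonneg F)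
  have hnR : (0 : ℝ) < n := by exact_mod_cast Nat.pos_of_ne_zero hn0
  have hss : Real.sqrt n * Real.sqrt n = n := Real.mul_self_sqrt hnR.le
  have hs1 : (1 : ℝ) ≤ Real.sqrt n := by
    rw [Real.one_le_sqrt]
    exact_mod_cast (by omega : 1 ≤ n)
  have hsE : (2 * (F : ℝ) + 4) / ε ≤ Real.sqrt n := by
    apply Real.le_sqrt_of_sq_le
    exact hn₁.trans (by exact_mod_cast hn1')
  have hsF : 2 * (F : ℝ) ≤ Real.sqrt n := by
    apply Real.le_sqrt_of_sq_le
    exact_mod_cast hnF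
  have hEps : 2 * (F * Real.sqrt n) + 4 ≤ ε * n := by
    have h1 : 2 * (F : ℝ) + 4 ≤ ε * Real.sqrt n := by
      rw [div_le_iff₀ hε] at hsE
      linarith
    have h2 : (2 * (F : ℝ) + 4) * Real.sqrt n ≤ ε * Real.sqrt n * Real.sqrt n :=
      mul_le_mul_of_nonneg_right h1 (Real.sqrt_nonneg _)
    rw [mul_assoc ε, hss] at h2
    have h4 : (2 * (F : ℝ) + 4) * Real.sqrt n = 2 * (F * Real.sqrt n) + 4 * Real.sqrt n := by ring
    linarith
  -- the interval
  obtain ⟨u, hu⟩ : ∃ u, u = n / (2 * W) := ⟨_, rfl⟩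
  have hzu : z ≤ u := by
    rw [hu, Nat.le_div_iff_mul_le (by omega)]
    have h1 : ((z * (2 * W) : ℕ) : ℝ) ≤ (n : ℝ) := by
      have h2 : ((z * (2 * W) : ℕ) : ℝ) ≤ 2 * ((W * (z + 1) : ℕ) : ℝ) := by
        have : z * (2 * W) ≤ 2 * (W * (z + 1)) := by
          have h5 : 2 * (W * (z + 1)) = z * (2 * W) + 2 * W := by ring
          rw [h5]
          exact Nat.le_add_right _ _
        exact_mod_cast this
      have h3 : 2 * (F : ℝ) * Real.sqrt n ≤ Real.sqrt n * Real.sqrt n :=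
        mul_le_mul_of_nonneg_right hsF (Real.sqrt_nonneg _)
      rw [hss] at h3
      linarith
    exact_mod_cast h1
  obtain ⟨y, hy1, hy2, hy3⟩ := Nt_core M (n - 2) L z (u - z) (by omega)
    (lt_of_le_of_lt (Nat.sub_le _ _) hLn') hz hzM hz1 (hB ▸ hzB)
  have hyu : y < u := by omega
  have hup : 2 * W * (y + 1) ≤ n := by
    calc 2 * W * (y + 1) ≤ 2 * W * u := Nat.mul_le_mul_left _ hyu
      _ ≤ n := hu ▸ Nat.mul_div_le n (2 * W)
  have hlo : n < 2 * W * (y + z + 1) := by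
    have h1 : n < 2 * W * (u + 1) := by
      rw [hu]
      exact Nat.lt_mul_div_succ n (by omega : 0 < 2 * W)
    refine lt_of_lt_of_le h1 (Nat.mul_le_mul_left _ ?_)
    omega
  refine ⟨W * y + 2, by omega, ?_, ?_, ?_⟩
  · have h1 : 2 * W * (y + 1) = 2 * (W * y) + 2 * W := by ring
    omega
  · have h1 : (2 : ℝ) * W * (y + 1) ≤ n := by exact_mod_cast hup
    have h2 : (n : ℝ) < 2 * W * (y + z + 1) := by exact_mod_cast hlo
    have h3 : (W : ℝ) * (z + 1) ≤ F * Real.sqrt n := by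
      have := hWzR
      push_cast at this
      exact this
    have hW1R : (1 : ℝ) ≤ W := by exact_mod_cast hW1
    push_cast
    have h4 : (2 : ℝ) * W * (y + 1) = 2 * (W * y) + 2 * W := by ring
    have h5 : (2 : ℝ) * W * (y + z + 1) = 2 * (W * y) + 2 * (W * (z + 1)) := by ring
    have h6 : (0 : ℝ) ≤ F * Real.sqrt n := mul_nonneg (Nat.cast_nonneg F) (Real.sqrt_nonneg _)
    rw [abs_le]
    constructor
    · linarith
    · linarith
  · intro t ht1 htM
    rw [Nat.multichoose_eq]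
    have h1 : W * y + 2 - 1 + t - 1 = W * y + t := by omega
    rw [h1, hW, hF]
    exact hy3 t ht1 htM

end Pool.Agent.H51.TB
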