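import Pool.Agent.H51.TB.Defs

/-!
# Module D6 (TB): the proportions

Let `Ψ j = (∑_{i ≤ j} binom (m - 1, i)) / 2^(m - 1)` (`= 1` for `j ≥ m - 1`), `D = d + 1 - m ≥ m`.
`Gl d m s j = Ψ (j - D) + (if s ≤ j then Ψ j - Ψ (j - D) else 0)` (`Ψ (j - D) = 0` if `j < D`).  So with
`C j = ∑_{s ≤ j} θ s` the equations say `Ψ (j - D) + (Ψ j - Ψ (j - D)) C j = Φ j`, that is,
`C j = Φ j / Ψ j` for `j < D`, `1 - C j = (1 - Φ j) / (1 - Ψ (j - D))` for `j ≥ D` (there `Ψ j = 1`);
for `m - 1 ≤ j < D` both formulas agree (`Ψ j = 1`).  At `j = d` the equation is `1 = 1` if `C d = 1`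
(`Ψ d = 1`, `Φ d = 1`).
Put `C j` as above for `j < d`, `C d = 1`, `θ s = C s - C (s - 1)`, `C (-1) = 0`.  `C` is strictly
increasing: for `j < D`, `Φ j / Ψ j` is (up to a constant) a quotient of the partial sums of
`binom (d, i)` and of `binom (m - 1, i)`, and the quotient `binom (d, i) / binom (m - 1, i)` increases
strictly in `i ≤ m - 1` (`m - 1 < d`), while for `j ≥ m - 1` the denominator is constant; for `j ≥ D`
use the symmetry `1 - Φ j = Φ (d - 1 - j)`, `1 - Ψ (j - D) = Ψ (d - 1 - j)`, so
`1 - C j = Φ (d - 1 - j) / Ψ (d - 1 - j)`.  The overlap `m - 1 ≤ D - 1` of the two ranges makes `C`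
strictly increasing on `[0, d]`.
-/

namespace Pool.Agent.H51.TB

open Finset

/-- the partial sums of the binomial coefficients -/
private def Theta_A (d j : ℕ) : ℕ := ∑ i ∈ range (j + 1), d.choose i

private theorem Theta_Phi (d j : ℕ) : Phi d j = (Theta_A d j : ℝ) / 2 ^ d := by
  unfold Phi Theta_A; push_cast; rfl

private theorem Theta_A_pos (d j : ℕ) : 0 < Theta_A d j := by
  unfold Theta_A
  refine Finset.sum_pos' (fun _ _ => Nat.zero_le _) ⟨0, by simp, by simp⟩

private theorem Theta_Phi_pos (d j : ℕ) : 0 < Phi d j := by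
  rw [Theta_Phi]
  have := Theta_A_pos d j
  positivity

private theorem Theta_A_top {d j : ℕ} (h : d ≤ j) : Theta_A d j = 2 ^ d := by
  unfold Theta_A
  rw [← Nat.sum_range_choose d]
  refine (Finset.sum_subset (Finset.range_subset_range.2 (by omega)) fun i _ hi => ?_).symm
  exact Nat.choose_eq_zero_of_lt (by simpa using hi)

private theorem Theta_Phi_top {d j : ℕ} (h : d ≤ j) : Phi d j = 1 := by
  rw [Theta_Phi, Theta_A_top h]; push_cast; field_simp

private theorem Theta_A_symm {d j : ℕ} (h : j < d) : Theta_A d j + Theta_A d (d - 1 - j) = 2 ^ d := by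
  unfold Theta_A
  rw [← Nat.sum_range_choose d, ← Finset.sum_range_add_sum_Ico _ (show j + 1 ≤ d + 1 by omega)]
  congr 1
  rw [Finset.sum_Ico_eq_sum_range, show d + 1 - (j + 1) = d - 1 - j + 1 by omega,
    ← Finset.sum_range_reflect]
  refine Finset.sum_congr rfl fun k hk => ?_
  rw [mem_range] at hk
  exact Nat.choose_symm_of_eq_add (by omega)

private theorem Theta_Phi_symm {d j : ℕ} (h : j < d) : Phi d j + Phi d (d - 1 - j) = 1 := by
  rw [Theta_Phi, Theta_Phi, ← add_div]
  have := Theta_A_symm h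
  rw [div_eq_one_iff_eq (by positivity)]
  exact_mod_cast this

private theorem Theta_cross {d M i k : ℕ} (hMd : M ≤ d) (hik : i ≤ k) :
    d.choose i * M.choose k ≤ d.choose k * M.choose i := by
  rcases lt_or_ge M k with h | h
  · rw [Nat.choose_eq_zero_of_lt h]; simp
  · have h1 : M.choose k * k.choose i = M.choose i * (M - i).choose (k - i) := Nat.choose_mul hik
    have h2 : d.choose k * k.choose i = d.choose i * (d - i).choose (k - i) := Nat.choose_mul hik
    have h3 : (M - i).choose (k - i) ≤ (d - i).choose (k - i) := Nat.choose_le_choose _ (by omega)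
    have h4 : 0 < k.choose i := Nat.choose_pos hik
    refine Nat.le_of_mul_le_mul_right (c := k.choose i) ?_ h4
    calc d.choose i * M.choose k * k.choose i = d.choose i * (M.choose k * k.choose i) := by ring
      _ = d.choose i * M.choose i * (M - i).choose (k - i) := by rw [h1]; ring
      _ ≤ d.choose i * M.choose i * (d - i).choose (k - i) := Nat.mul_le_mul_left _ h3
      _ = d.choose k * M.choose i * k.choose i := by
        rw [show d.choose k * M.choose i * k.choose i = M.choose i * (d.choose k * k.choose i) by ring, h2]; ring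

private theorem Theta_choose_lt {d M k : ℕ} (hMd : M < d) (hk : 1 ≤ k) (hkd : k ≤ d) :
    M.choose k < d.choose k := by
  rcases lt_or_ge M k with h | h
  · rw [Nat.choose_eq_zero_of_lt h]; exact Nat.choose_pos hkd
  · obtain ⟨k', rfl⟩ : ∃ k', k = k' + 1 := ⟨k - 1, by omega⟩
    have h1 : (M + 1).choose (k' + 1) = M.choose k' + M.choose (k' + 1) := Nat.choose_succ_succ _ _
    have h2 : 0 < M.choose k' := Nat.choose_pos (by omega)
    have h3 : (M + 1).choose (k' + 1) ≤ d.choose (k' + 1) := Nat.choose_le_choose _ (by omega)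
    omega

private noncomputable def Theta_Q (d M j : ℕ) : ℝ := Phi d j / Phi M j

private theorem Theta_Q_pos (d M j : ℕ) : 0 < Theta_Q d M j :=
  div_pos (Theta_Phi_pos d j) (Theta_Phi_pos M j)

private theorem Theta_Q_lt {d M j : ℕ} (hMd : M < d) (hj : j + 1 ≤ d) :
    Theta_Q d M j < Theta_Q d M (j + 1) := by
  unfold Theta_Q
  rw [div_lt_div_iff₀ (Theta_Phi_pos _ _) (Theta_Phi_pos _ _), Theta_Phi, Theta_Phi, Theta_Phi, Theta_Phi]
  have hA : Theta_A d (j + 1) = Theta_A d j + d.choose (j + 1) := by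
    unfold Theta_A; rw [Finset.sum_range_succ _ (j + 1)]
  have hB : Theta_A M (j + 1) = Theta_A M j + M.choose (j + 1) := by
    unfold Theta_A; rw [Finset.sum_range_succ _ (j + 1)]
  have key : Theta_A d j * M.choose (j + 1) < d.choose (j + 1) * Theta_A M j := by
    unfold Theta_A
    rw [Finset.sum_mul, Finset.mul_sum]
    refine Finset.sum_lt_sum (fun i hi => Theta_cross hMd.le ?_) ⟨0, by simp, ?_⟩
    · rw [mem_range] at hi; omega
    · simpa using Theta_choose_lt hMd (by omega) hj
  have h1 : Theta_A d j * Theta_A M (j + 1) < Theta_A d (j + 1) * Theta_A M j := by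
    rw [hA, hB]; nlinarith
  have h2 : ((Theta_A d j : ℝ) * Theta_A M (j + 1)) < Theta_A d (j + 1) * Theta_A M j := by exact_mod_cast h1
  have e1 : (Theta_A d j : ℝ) / 2 ^ d * (Theta_A M (j + 1) / 2 ^ M) =
      (Theta_A d j * Theta_A M (j + 1)) / (2 ^ d * 2 ^ M) := by ring
  have e2 : (Theta_A d (j + 1) : ℝ) / 2 ^ d * (Theta_A M j / 2 ^ M) =
      (Theta_A d (j + 1) * Theta_A M j) / (2 ^ d * 2 ^ M) := by ring
  rw [e1, e2]
  exact div_lt_div_of_pos_right h2 (by positivity)

private theorem Theta_Gl_le {d m s j : ℕ} (hm : 1 ≤ m) (h : s ≤ j) : Gl d m s j = Phi (m - 1) j := by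
  unfold Gl Phi
  congr 1
  have e1 : ∀ i, (if i ≤ j ∧ (s ≤ j ∨ i + (d + 1) ≤ j + m) then ((m - 1).choose i : ℝ) else 0) =
      if i ≤ j then ((m - 1).choose i : ℝ) else 0 := fun i => by simp [h]
  simp only [e1]
  rw [← Finset.sum_filter]
  refine Finset.sum_subset (fun i hi => ?_) fun i hi hi' => ?_
  · simp only [mem_filter, mem_range] at hi ⊢; omega
  · simp only [mem_filter, mem_range, not_and] at hi hi'
    have : m - 1 < i := by
      by_contra hc
      exact hi' (by omega) (by omega)
    exact_mod_cast Nat.choose_eq_zero_of_lt this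

private theorem Theta_Gl_gt {d m s j : ℕ} (hm : 1 ≤ m) (hmd : m ≤ d) (h : j < s) :
    Gl d m s j = if d + 1 - m ≤ j then Phi (m - 1) (j - (d + 1 - m)) else 0 := by
  unfold Gl
  have e1 : ∀ i, (if i ≤ j ∧ (s ≤ j ∨ i + (d + 1) ≤ j + m) then ((m - 1).choose i : ℝ) else 0) =
      if i + (d + 1 - m) ≤ j then ((m - 1).choose i : ℝ) else 0 := fun i => by
    by_cases hc : i + (d + 1 - m) ≤ j
    · rw [if_pos hc, if_pos ⟨by omega, Or.inr (by omega)⟩]
    · rw [if_neg hc, if_neg]
      rintro ⟨h1, h2⟩
      rcases h2 with h2 | h2 <;> omega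
  simp only [e1]
  split_ifs with hD
  · unfold Phi
    congr 1
    rw [← Finset.sum_filter]
    refine Finset.sum_subset (fun i hi => ?_) fun i hi hi' => ?_
    · simp only [mem_filter, mem_range] at hi ⊢; omega
    · simp only [mem_filter, mem_range, not_and] at hi hi'
      have : m - 1 < i := by
        by_contra hc
        exact hi' (by omega) (by omega)
      exact_mod_cast Nat.choose_eq_zero_of_lt this
  · rw [Finset.sum_eq_zero, zero_div]
    intro i _
    rw [if_neg (by omega)]

theorem theta (d m : ℕ) (hm : 1 ≤ m) (h2 : 2 * m ≤ d + 1) : ∃ θ : ℕ → ℝ, (∀ s ≤ d, 0 < θ s) ∧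
    ∑ s ∈ range (d + 1), θ s = 1 ∧
    ∀ j ≤ d, ∑ s ∈ range (d + 1), θ s * Gl d m s j = Phi d j := by
  classical
  obtain ⟨M, rfl⟩ : ∃ M, m = M + 1 := ⟨m - 1, by omega⟩
  obtain ⟨D, hD⟩ : ∃ D, D = d - M := ⟨_, rfl⟩
  have hMd : M < d := by omega
  have hDM : M + 1 ≤ D := by omega
  set T : ℕ → ℝ := fun n => if n = 0 then 0 else if n ≤ D then Theta_Q d M (n - 1) else
    if n ≤ d then 1 - Theta_Q d M (d - n) else 1 with hT
  have hT0 : T 0 = 0 := by simp [hT]
  have hT1 : ∀ n, 1 ≤ n → n ≤ D → T n = Theta_Q d M (n - 1) := fun n h1 h2 => by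
    simp only [hT]; rw [if_neg (by omega), if_pos h2]
  have hTd : T (d + 1) = 1 := by
    simp only [hT]; rw [if_neg (by omega), if_neg (by omega), if_neg (by omega)]
  have hT2 : ∀ n, D ≤ n → n ≤ d → T n = 1 - Theta_Q d M (d - n) := fun n h1 h2 => by
    rcases Nat.lt_or_ge D n with h | h
    · simp only [hT]; rw [if_neg (by omega), if_neg (by omega), if_pos h2]
    · have hn : n = D := by omega
      subst hn
      rw [hT1 _ (by omega) le_rfl]
      unfold Theta_Q
      rw [Theta_Phi_top (show M ≤ n - 1 by omega), Theta_Phi_top (show M ≤ d - n by omega)]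
      have := Theta_Phi_symm (d := d) (j := n - 1) (by omega)
      rw [show d - 1 - (n - 1) = d - n by omega] at this
      rw [div_one, div_one]; linarith
  have hmono : ∀ n ≤ d, T n < T (n + 1) := by
    intro n hn
    rcases Nat.eq_zero_or_pos n with h0 | h0
    · subst h0
      rw [hT0, hT1 _ (by omega) (by omega)]
      exact Theta_Q_pos _ _ _
    · rcases Nat.lt_or_ge n D with h1 | h1
      · rw [hT1 n (by omega) h1.le, hT1 (n + 1) (by omega) (by omega)]
        have := Theta_Q_lt (j := n - 1) hMd (by omega)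
        rwa [show n - 1 + 1 = n + 1 - 1 by omega] at this
      · rcases Nat.lt_or_ge n d with h2 | h2
        · rw [hT2 n h1 h2.le, hT2 (n + 1) (by omega) (by omega)]
          have := Theta_Q_lt (j := d - (n + 1)) hMd (by omega)
          rw [show d - (n + 1) + 1 = d - n by omega] at this
          linarith
        · have hnd : n = d := by omega
          subst hnd
          rw [hTd, hT2 n h1 le_rfl]
          have := Theta_Q_pos n M (n - n)
          linarith
  have hsum : ∀ n, ∑ s ∈ range n, (T (s + 1) - T s) = T n := fun n => by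
    rw [Finset.sum_range_sub, hT0, sub_zero]
  refine ⟨fun s => T (s + 1) - T s, fun s hs => sub_pos.2 (hmono s hs), by rw [hsum, hTd], fun j hj => ?_⟩
  rw [← Finset.sum_range_add_sum_Ico _ (show j + 1 ≤ d + 1 by omega)]
  have e1 : ∑ s ∈ range (j + 1), (T (s + 1) - T s) * Gl d (M + 1) s j = T (j + 1) * Phi M j := by
    rw [← hsum (j + 1), Finset.sum_mul]
    refine Finset.sum_congr rfl fun s hs => ?_
    rw [mem_range] at hs
    rw [Theta_Gl_le (by omega) (by omega), show M + 1 - 1 = M by omega]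
  have e2 : ∑ s ∈ Ico (j + 1) (d + 1), (T (s + 1) - T s) * Gl d (M + 1) s j =
      (1 - T (j + 1)) * (if D ≤ j then Phi M (j - D) else 0) := by
    have e3 : ∑ s ∈ Ico (j + 1) (d + 1), (T (s + 1) - T s) = 1 - T (j + 1) := by
      have := Finset.sum_range_add_sum_Ico (fun s => T (s + 1) - T s) (show j + 1 ≤ d + 1 by omega)
      rw [hsum, hsum, hTd] at this
      linarith
    rw [← e3, Finset.sum_mul]
    refine Finset.sum_congr rfl fun s hs => ?_
    rw [mem_Ico] at hs
    rw [Theta_Gl_gt (by omega) (by omega) (by omega), show d + 1 - (M + 1) = D by omega,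
      show M + 1 - 1 = M by omega]
  rw [e1, e2]
  rcases Nat.lt_or_ge j D with h1 | h1
  · rw [if_neg (by omega), mul_zero, add_zero, hT1 (j + 1) (by omega) (by omega), show j + 1 - 1 = j by omega]
    unfold Theta_Q
    exact div_mul_cancel₀ _ (Theta_Phi_pos _ _).ne'
  · rw [if_pos h1, Theta_Phi_top (show M ≤ j by omega), mul_one]
    rcases Nat.lt_or_ge j d with h2 | h2
    · rw [hT2 (j + 1) (by omega) (by omega), show d - (j + 1) = d - 1 - j by omega]
      have f1 := Theta_Phi_symm (d := d) (j := j) h2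
      have f2 := Theta_Phi_symm (d := M) (j := j - D) (by omega)
      rw [show M - 1 - (j - D) = d - 1 - j by omega] at f2
      have f3 : Theta_Q d M (d - 1 - j) * Phi M (d - 1 - j) = Phi d (d - 1 - j) := by
        unfold Theta_Q
        exact div_mul_cancel₀ _ (Theta_Phi_pos _ _).ne'
      have f4 : Phi M (j - D) = 1 - Phi M (d - 1 - j) := by linarith
      rw [f4]
      linear_combination -f3 - f1
    · have hjd : j = d := by omega
      subst hjd
      rw [hTd, Theta_Phi_top le_rfl]; ring

end Pool.Agent.H51.TB
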