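import Pool.Agent.H51.TB.Solve
import Pool.Agent.H51.TB.Mov

/-!
# Module D10 (TB): exact adjustment of the number of conditions

`z` from `solve` for `v s ρ = Mv a b d μ s ρ`, `q = a + b - 2`, `B = ell (a + b) μ` (`Mv_one`, `Mv_two`,
`Mv_zero`, `Mv_ge`, `Mv_le`).  `z s ρ` points (of multiplicity `μ`) are moved from the cell `(s, ρ)`
to the cell `(s, ρ + 1)`, i.e.
`c₁ (s, ρ) = c₀ (s, ρ) - z s ρ + z s (ρ - 1)` (where `z s ρ` counts only for `ρ < μ`, `s < d`,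
`s + ρ + 1 ≤ d`); the number is at least `E - 4 E' ≥ E / 2` if `solve` is used with `E' ≤ E / 8`, and the
total number does not change.  `Pre_move` gives the last statement.
-/

namespace Pool.Agent.H51.TB

open Finset Pool.Agent.H18.Ex Pool.Agent.H21.NX Pool.Agent.H18.Ta

/-- The change of the number of points of the cell `x`. -/
private def Adj_w (d μ : ℕ) (z : ℕ → ℕ → ℤ) (x : ℕ × ℕ) : ℤ :=
  (if 1 ≤ x.2 ∧ x.2 ≤ μ then z x.1 (x.2 - 1) else 0) -
    (if x.2 < μ ∧ x.1 + x.2 + 1 ≤ d then z x.1 x.2 else 0)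

private theorem Adj_sum (d μ : ℕ) (z : ℕ → ℕ → ℤ) (f : ℕ × ℕ → ℤ) :
    ∑ x ∈ KK d, Adj_w d μ z x * f x = ∑ s ∈ range d, ∑ ρ ∈ range μ,
      if s + ρ + 1 ≤ d then z s ρ * (f (s, ρ + 1) - f (s, ρ)) else 0 := by
  have h0 : ∑ s ∈ range d, ∑ ρ ∈ range μ,
      (if s + ρ + 1 ≤ d then z s ρ * (f (s, ρ + 1) - f (s, ρ)) else 0) =
      ∑ p ∈ (range d ×ˢ range μ).filter (fun p : ℕ × ℕ => p.1 + p.2 + 1 ≤ d),
        z p.1 p.2 * (f (p.1, p.2 + 1) - f (p.1, p.2)) := by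
    rw [sum_filter, sum_product]
  have h1 : ∑ x ∈ KK d, (if 1 ≤ x.2 ∧ x.2 ≤ μ then z x.1 (x.2 - 1) else 0) * f x =
      ∑ p ∈ (range d ×ˢ range μ).filter (fun p : ℕ × ℕ => p.1 + p.2 + 1 ≤ d),
        z p.1 p.2 * f (p.1, p.2 + 1) := by
    rw [sum_congr rfl (g := fun x : ℕ × ℕ => if 1 ≤ x.2 ∧ x.2 ≤ μ then z x.1 (x.2 - 1) * f x else 0)
      (fun x _ => by rw [ite_mul, zero_mul]), ← sum_filter]
    refine sum_nbij' (fun x => (x.1, x.2 - 1)) (fun p => (p.1, p.2 + 1)) ?_ ?_ ?_ ?_ ?_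
    · intro x hx
      rw [mem_filter, mem_KK] at hx
      rw [mem_filter, mem_product, mem_range, mem_range]
      simp only
      omega
    · intro p hp
      rw [mem_filter, mem_product, mem_range, mem_range] at hp
      rw [mem_filter, mem_KK]
      simp only
      omega
    · intro x hx
      rw [mem_filter, mem_KK] at hx
      ext
      · rfl
      · simp only
        omega
    · intro p _
      simp
    · intro x hx
      rw [mem_filter, mem_KK] at hx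
      simp only
      have h : x.2 - 1 + 1 = x.2 := by omega
      rw [h]
  have h2 : ∑ x ∈ KK d, (if x.2 < μ ∧ x.1 + x.2 + 1 ≤ d then z x.1 x.2 else 0) * f x =
      ∑ p ∈ (range d ×ˢ range μ).filter (fun p : ℕ × ℕ => p.1 + p.2 + 1 ≤ d),
        z p.1 p.2 * f (p.1, p.2) := by
    rw [sum_congr rfl (g := fun x : ℕ × ℕ => if x.2 < μ ∧ x.1 + x.2 + 1 ≤ d then z x.1 x.2 * f x
      else 0) (fun x _ => by rw [ite_mul, zero_mul]), ← sum_filter]
    refine sum_congr ?_ fun x _ => rfl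
    ext x
    rw [mem_filter, mem_KK, mem_filter, mem_product, mem_range, mem_range]
    omega
  have h3 : ∑ p ∈ (range d ×ˢ range μ).filter (fun p : ℕ × ℕ => p.1 + p.2 + 1 ≤ d),
        z p.1 p.2 * (f (p.1, p.2 + 1) - f (p.1, p.2)) =
      ∑ p ∈ (range d ×ˢ range μ).filter (fun p : ℕ × ℕ => p.1 + p.2 + 1 ≤ d),
        z p.1 p.2 * f (p.1, p.2 + 1) -
      ∑ p ∈ (range d ×ˢ range μ).filter (fun p : ℕ × ℕ => p.1 + p.2 + 1 ≤ d),
        z p.1 p.2 * f (p.1, p.2) := by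
    rw [← sum_sub_distrib]
    exact sum_congr rfl fun x _ => by rw [mul_sub]
  rw [h0, h3, ← h1, ← h2, ← sum_sub_distrib]
  refine sum_congr rfl fun x _ => ?_
  unfold Adj_w
  ring

private theorem Adj_abs (d μ : ℕ) (z : ℕ → ℕ → ℤ) (F : ℤ) (hz : ∀ s ρ, |z s ρ| ≤ F) (x : ℕ × ℕ) :
    |Adj_w d μ z x| ≤ 2 * F := by
  have hF : 0 ≤ F := le_trans (abs_nonneg _) (hz 0 0)
  have h1 : |(if 1 ≤ x.2 ∧ x.2 ≤ μ then z x.1 (x.2 - 1) else 0 : ℤ)| ≤ F := by
    split_ifs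
    · exact hz _ _
    · simpa using hF
  have h2 : |(if x.2 < μ ∧ x.1 + x.2 + 1 ≤ d then z x.1 x.2 else 0 : ℤ)| ≤ F := by
    split_ifs
    · exact hz _ _
    · simpa using hF
  unfold Adj_w
  calc _ ≤ _ := abs_sub _ _
    _ ≤ 2 * F := by linarith

theorem adjust (d μ : ℕ) (hμ : 1 ≤ μ) (h2 : 2 * μ ≤ d) : ∃ K : ℕ, 1 ≤ K ∧
    ∀ a b : ℕ, 2 ≤ a → 2 ≤ b →
    (∀ t, 1 ≤ t → t < μ → Nat.Coprime (Nat.multichoose (a - 1) t) (a + b - 2)) →
    ∀ (c₀ : ℕ × ℕ → ℕ) (E : ℕ) (P : ℕ → ℤ), (∀ x ∈ KK d, x.2 ≤ μ → E ≤ c₀ x) →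
    K * ((a + b) * ell (a + b) μ) ≤ E →
    (∀ s < d, (K : ℤ) * |P s| ≤ (E : ℤ) * (Mv a b d μ s 0 : ℤ)) →
    ∃ c₁ : ℕ × ℕ → ℕ, ∑ x ∈ KK d, c₁ x = ∑ x ∈ KK d, c₀ x ∧
      (∀ x ∈ KK d, x.2 ≤ μ → E ≤ 2 * c₁ x) ∧
      ∀ j < d, ∑ x ∈ KK d, (c₁ x : ℤ) * (Pre a b d μ x j : ℤ) =
        ∑ x ∈ KK d, (c₀ x : ℤ) * (Pre a b d μ x j : ℤ) - P j := by
  obtain ⟨K, hK1, hK⟩ := solve d μ hμ h2
  refine ⟨16 * K, by omega, ?_⟩
  intro a b ha hb hcop c₀ E P hE hKE hP
  have hell : 1 ≤ ell (a + b) μ := by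
    unfold ell
    exact Nat.choose_pos (by omega)
  have hE64 : 64 ≤ E := by
    have h1 : 4 * 1 ≤ (a + b) * ell (a + b) μ := Nat.mul_le_mul (by omega) hell
    have h3 : 16 * 1 * (4 * 1) ≤ 16 * K * ((a + b) * ell (a + b) μ) :=
      Nat.mul_le_mul (Nat.mul_le_mul le_rfl hK1) h1
    omega
  have hE16 : E ≤ 16 * (E / 8) := by omega
  have hE8 : 8 * (E / 8) ≤ E := by omega
  set E' : ℕ := E / 8 with hE'
  have hab : ((a + b - 2 : ℕ) : ℤ) = (a : ℤ) + b - 2 := by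
    rw [Nat.cast_sub (by omega)]
    push_cast
    ring
  obtain ⟨z, hz, hzP⟩ := hK (fun s ρ => (Mv a b d μ s ρ : ℤ)) ((a + b - 2 : ℕ) : ℤ)
    (ell (a + b) μ : ℤ) (E' : ℤ) P (by rw [hab]; omega) (by exact_mod_cast hell)
    (fun s hs => by
      rw [Mv_one hμ hs]
      rfl)
    (fun hm s h1 hs => by
      rw [Mv_two (by omega) (by omega) hm h1 hs])
    (fun t ht1 ht2 => by
      rw [Mv_zero (by omega) (by omega) (by omega)]
      exact Nat.isCoprime_iff_coprime.mpr (hcop t ht1 ht2))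
    (fun s hs => by
      obtain ⟨g, _, hg⟩ := Mv_ge (a := a) (b := b) hμ (by omega) hs
      have hg1 : 1 ≤ Eg a b g := by
        unfold Eg
        refine Nat.mul_pos ?_ ?_
        · rw [Nat.multichoose_eq]
          exact Nat.choose_pos (by omega)
        · rw [Nat.multichoose_eq]
          exact Nat.choose_pos (by omega)
      exact_mod_cast le_trans hg1 hg)
    (fun s _ ρ _ => by
      rw [Nat.abs_cast]
      exact_mod_cast Mv_le (by omega) (by omega))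
    (by
      have h1 : K * ((a + b - 2) * ell (a + b) μ) ≤ E' := by
        have h3 : 16 * (K * ((a + b - 2) * ell (a + b) μ)) ≤
            16 * K * ((a + b) * ell (a + b) μ) := by
          rw [Nat.mul_assoc]
          exact Nat.mul_le_mul le_rfl (Nat.mul_le_mul le_rfl
            (Nat.mul_le_mul (Nat.sub_le _ _) le_rfl))
        omega
      exact_mod_cast h1)
    (fun s hs => by
      have h1 := hP s hs
      push_cast at h1
      have h3 : (1 : ℤ) ≤ K := by exact_mod_cast hK1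
      have h4 : (16 : ℤ) * |P s| ≤ 16 * K * |P s| := by
        nlinarith [abs_nonneg (P s)]
      have h5 : (E : ℤ) * (Mv a b d μ s 0 : ℤ) ≤ 16 * E' * (Mv a b d μ s 0 : ℤ) := by
        refine mul_le_mul_of_nonneg_right ?_ (Nat.cast_nonneg _)
        exact_mod_cast hE16
      linarith)
  have hw : ∀ x ∈ KK d, x.2 ≤ μ → (E : ℤ) ≤ 2 * ((c₀ x : ℤ) + Adj_w d μ z x) := by
    intro x hx hx2
    have h1 := hE x hx hx2
    have h3 := Adj_abs d μ z (2 * (E' : ℤ)) hz x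
    have h4 := (abs_le.mp h3).1
    omega
  have hpos : ∀ x ∈ KK d, 0 ≤ (c₀ x : ℤ) + Adj_w d μ z x := by
    intro x hx
    by_cases hx2 : x.2 ≤ μ
    · have := hw x hx hx2
      omega
    · unfold Adj_w
      rw [if_neg (by omega), if_neg (by omega)]
      simp
  refine ⟨fun x => ((c₀ x : ℤ) + Adj_w d μ z x).toNat, ?_, ?_, ?_⟩
  · have h1 : ∑ x ∈ KK d, Adj_w d μ z x = 0 := by
      have h3 := Adj_sum d μ z (fun _ => 1)
      simp only [mul_one, sub_self, mul_zero, ite_self, sum_const_zero] at h3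
      exact h3
    have h3 : ((∑ x ∈ KK d, ((c₀ x : ℤ) + Adj_w d μ z x).toNat : ℕ) : ℤ) =
        ((∑ x ∈ KK d, c₀ x : ℕ) : ℤ) := by
      rw [Nat.cast_sum, Nat.cast_sum, sum_congr rfl fun x hx => Int.toNat_of_nonneg (hpos x hx),
        sum_add_distrib, h1, add_zero]
    exact_mod_cast h3
  · intro x hx hx2
    have h1 := hw x hx hx2
    simp only
    omega
  · intro j hj
    rw [sum_congr rfl (g := fun x => (c₀ x : ℤ) * (Pre a b d μ x j : ℤ) +
      Adj_w d μ z x * (Pre a b d μ x j : ℤ)) (fun x hx => by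
        simp only
        rw [Int.toNat_of_nonneg (hpos x hx)]
        ring), sum_add_distrib, Adj_sum, hzP j hj, sub_eq_add_neg, ← sum_neg_distrib]
    congr 1
    refine sum_congr rfl fun s _ => ?_
    rw [← sum_neg_distrib]
    refine sum_congr rfl fun ρ _ => ?_
    by_cases hs : s + ρ + 1 ≤ d
    · rw [if_pos hs]
      have h1 := Pre_move (a := a) (b := b) (m := μ) hs j (by omega)
      by_cases h3 : s ≤ j ∧ j ≤ s + ρ
      · rw [if_pos h3] at h1
        rw [if_pos ⟨h3.1, h3.2, hs⟩]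
        have h4 : (Pre a b d μ (s, ρ + 1) j : ℤ) + (Mv a b d μ s ρ : ℤ) =
            (Pre a b d μ (s, ρ) j : ℤ) := by exact_mod_cast h1
        rw [← h4]
        ring
      · rw [if_neg h3, add_zero] at h1
        rw [if_neg (fun h => h3 ⟨h.1, h.2.1⟩), h1]
        ring
    · rw [if_neg hs, if_neg (fun h => hs h.2.2), neg_zero]

end Pool.Agent.H51.TB
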