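import Pool.Agent.H51.TB.Asy
import Pool.Agent.H51.TB.Grow
import Pool.Agent.H51.TB.Cell

/-!
# Module D12 (TB): lower bounds for the masses

`Eg`: `asy` with `δ = 1 / 2^(d+1)` for the finitely many `g` with `|g| ≤ d`
(`binom (p+q, q) / 2^(p+q) ≥ 1 / 2^d`), so `κ = 1 / 2^(d+1)`.

`mass`: for a level `j` and `1 ≤ t ≤ μ` take the cell `x` of `cell` (`cls d μ x j = t`, `x.2 ≤ μ`).  The sum
is at least `c x * wt a b d μ x j ≥ c x * Eg a b g`, `g ∈ Lam d μ x j`, `|g| + 1 = t` (`cls_attained`),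
`≥ c x * κ₀ * ell (n - 1) t`, `n = a + b`, and `c x ≥ κ * ell (n - 1) (d + 1) / ell (n - 1) μ`.  For `t < μ` use
`grow_three` (with a large constant), for `t = μ` use `grow_big`.
-/

namespace Pool.Agent.H51.TB

open Finset Pool.Agent.H18.Ex Pool.Agent.H21.NX Pool.Agent.H18.Ta

theorem Eg_ge (d : ℕ) : ∃ κ : ℝ, 0 < κ ∧ ∃ ε : ℝ, 0 < ε ∧ ∃ n₀ : ℕ, ∀ a b : ℕ, 1 ≤ a → 1 ≤ b →
    n₀ ≤ a + b → |(a : ℝ) - b| ≤ ε * (a + b : ℕ) → ∀ g : ℕ × ℕ, g.1 + g.2 ≤ d →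
    κ * (ell (a + b - 1) (g.1 + g.2 + 1) : ℝ) ≤ (Eg a b g : ℝ) := by
  have hδ : (0 : ℝ) < 1 / 2 ^ (d + 1) := by positivity
  choose ε hε n0 h using fun p q : ℕ => asy p q (1 / 2 ^ (d + 1)) hδ
  obtain ⟨S, hS⟩ : ∃ S : Finset (ℕ × ℕ), S = range (d + 1) ×ˢ range (d + 1) := ⟨_, rfl⟩
  have hne : S.Nonempty := by
    rw [hS]
    exact ⟨(0, 0), by simp⟩
  refine ⟨1 / 2 ^ (d + 1), hδ, S.inf' hne fun x => ε x.1 x.2, ?_, S.sup fun x => n0 x.1 x.2, ?_⟩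
  · rw [Finset.lt_inf'_iff]
    exact fun x _ => hε x.1 x.2
  · intro a b ha hb hn hab g hg
    have hgS : g ∈ S := by
      rw [hS, mem_product, mem_range, mem_range]
      omega
    have h1 : n0 g.1 g.2 ≤ a + b := (Finset.le_sup (f := fun x : ℕ × ℕ => n0 x.1 x.2) hgS).trans hn
    have h2 : |(a : ℝ) - b| ≤ ε g.1 g.2 * (a + b : ℕ) := by
      refine hab.trans (mul_le_mul_of_nonneg_right ?_ (Nat.cast_nonneg _))
      exact Finset.inf'_le (fun x : ℕ × ℕ => ε x.1 x.2) hgS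
    have h3 := h g.1 g.2 a b ha hb h1 h2
    have h4 := (abs_le.1 h3).1
    have h5 : (1 : ℝ) / 2 ^ d ≤ ((g.1 + g.2).choose g.2 : ℝ) / 2 ^ (g.1 + g.2) := by
      have h6 : (1 : ℝ) ≤ ((g.1 + g.2).choose g.2 : ℝ) := by
        exact_mod_cast Nat.choose_pos (Nat.le_add_left g.2 g.1)
      have h7 : (2 : ℝ) ^ (g.1 + g.2) ≤ 2 ^ d := pow_le_pow_right₀ (by norm_num) hg
      have h8 : (0 : ℝ) < 2 ^ (g.1 + g.2) := by positivity
      calc (1 : ℝ) / 2 ^ d ≤ 1 / 2 ^ (g.1 + g.2) := one_div_le_one_div_of_le h8 h7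
        _ ≤ ((g.1 + g.2).choose g.2 : ℝ) / 2 ^ (g.1 + g.2) := div_le_div_of_nonneg_right h6 h8.le
    have h6 : (1 : ℝ) / 2 ^ d = 2 * (1 / 2 ^ (d + 1)) := by
      rw [pow_succ]
      field_simp
    have h7 : (0 : ℝ) ≤ (ell (a + b - 1) (g.1 + g.2 + 1) : ℝ) := Nat.cast_nonneg _
    have h8 := mul_le_mul_of_nonneg_right h5 h7
    have h9 : (Eg a b g : ℝ) = ((Nat.multichoose (a - 1) g.1 * Nat.multichoose (b - 1) g.2 : ℕ) : ℝ) := rfl
    rw [h9]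
    rw [h6] at h8
    linarith

theorem mass (d : ℕ) (κ : ℝ) (hκ : 0 < κ) : ∃ ε : ℝ, 0 < ε ∧ ∃ n₀ : ℕ, ∀ a b : ℕ, 1 ≤ a → 1 ≤ b →
    n₀ ≤ a + b → |(a : ℝ) - b| ≤ ε * (a + b : ℕ) → ∀ M μ : ℕ, 1 ≤ μ → μ ≤ M → μ + M ≤ d →
    ∀ c : ℕ × ℕ → ℕ,
    (∀ x ∈ KK d, x.2 ≤ μ →
      κ * (ell (a + b - 1) (d + 1) : ℝ) ≤ (c x : ℝ) * (ell (a + b - 1) μ : ℝ)) →
    (∀ j ≤ d, ∀ t, 1 ≤ t → t < μ → ell (a + b) (t + 1) * ell (a + b) M ≤
      ∑ x ∈ KK d, if cls d μ x j = t then c x * wt a b d μ x j else 0) ∧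
    (∀ j ≤ d, ell (a + b) (d + 1 - M) * ell (a + b) M ≤
      ∑ x ∈ KK d, if cls d μ x j = μ then c x * wt a b d μ x j else 0) := by
  obtain ⟨κ₀, hκ₀, ε, hε, n1, hE⟩ := Eg_ge d
  obtain ⟨n2, h2⟩ := grow_three d (1 / (κ * κ₀))
  obtain ⟨n3, h3⟩ := grow_big d (1 / (κ * κ₀))
  refine ⟨ε, hε, max n1 (max n2 n3), ?_⟩
  intro a b ha hb hn hab M μ hμ hμM hMd c hc
  have hn1 : n1 ≤ a + b := (le_max_left _ _).trans hn
  have hn2 : n2 ≤ a + b := ((le_max_left _ _).trans (le_max_right _ _)).trans hn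
  have hn3 : n3 ≤ a + b := ((le_max_right _ _).trans (le_max_right _ _)).trans hn
  have hKK : 0 < κ * κ₀ := mul_pos hκ hκ₀
  have hkey : ∀ j ≤ d, ∀ t, 1 ≤ t → t ≤ μ → ∃ s : ℕ,
      s ≤ (∑ x ∈ KK d, if cls d μ x j = t then c x * wt a b d μ x j else 0) ∧
      κ * κ₀ * ((ell (a + b - 1) t : ℝ) * ell (a + b - 1) (d + 1)) ≤ (s : ℝ) * (ell (a + b - 1) μ : ℝ) := by
    intro j hj t ht htμ
    obtain ⟨x, hx, hxμ, hxt⟩ := cell (d := d) (μ := μ) (j := j) (t := t) (by omega) hj ht htμ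
    obtain ⟨g, hg, hgt⟩ := cls_attained (d := d) (m := μ) (j := j) x (by omega)
    refine ⟨c x * wt a b d μ x j, ?_, ?_⟩
    · have h4 := Finset.single_le_sum (f := fun x => if cls d μ x j = t then c x * wt a b d μ x j else 0)
        (fun y _ => Nat.zero_le _) hx
      rw [if_pos hxt] at h4
      exact h4
    · have h4 : Eg a b g ≤ wt a b d μ x j :=
        Finset.single_le_sum (f := fun g => Eg a b g) (fun y _ => Nat.zero_le _) hg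
      have h5 := hE a b ha hb hn1 hab g (by omega)
      rw [hgt, hxt] at h5
      have h6 := hc x hx hxμ
      have h7 : (Eg a b g : ℝ) ≤ (wt a b d μ x j : ℝ) := by exact_mod_cast h4
      have h8 : κ₀ * (ell (a + b - 1) t : ℝ) ≤ (wt a b d μ x j : ℝ) := h5.trans h7
      have h9 : 0 ≤ κ₀ * (ell (a + b - 1) t : ℝ) := by positivity
      have h10 : (0 : ℝ) ≤ (c x : ℝ) * (ell (a + b - 1) μ : ℝ) := by positivity
      push_cast
      calc κ * κ₀ * ((ell (a + b - 1) t : ℝ) * ell (a + b - 1) (d + 1))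
          = (κ * (ell (a + b - 1) (d + 1) : ℝ)) * (κ₀ * (ell (a + b - 1) t : ℝ)) := by ring
        _ ≤ ((c x : ℝ) * (ell (a + b - 1) μ : ℝ)) * (κ₀ * (ell (a + b - 1) t : ℝ)) :=
            mul_le_mul_of_nonneg_right h6 h9
        _ ≤ ((c x : ℝ) * (ell (a + b - 1) μ : ℝ)) * (wt a b d μ x j : ℝ) :=
            mul_le_mul_of_nonneg_left h8 h10
        _ = (c x : ℝ) * (wt a b d μ x j : ℝ) * (ell (a + b - 1) μ : ℝ) := by ring
  have hμpos : (0 : ℝ) < (ell (a + b - 1) μ : ℝ) := by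
    have h4 : 0 < ell (a + b - 1) μ := by
      unfold ell
      exact Nat.choose_pos (by omega)
    exact_mod_cast h4
  constructor
  · intro j hj t ht htμ
    obtain ⟨s, hs1, hs2⟩ := hkey j hj t ht htμ.le
    refine le_trans ?_ hs1
    have h4 := h2 (a + b) hn2 t M μ ht (by omega) hμ (by omega) (by omega)
    rw [one_div, inv_mul_le_iff₀ hKK] at h4
    have h5 := h4.trans hs2
    have h6 : (ell (a + b) (t + 1) : ℝ) * ell (a + b) M ≤ s := le_of_mul_le_mul_right h5 hμpos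
    exact_mod_cast h6
  · intro j hj
    obtain ⟨s, hs1, hs2⟩ := hkey j hj μ hμ le_rfl
    refine le_trans ?_ hs1
    have h4 := h3 (a + b) hn3 M (by omega) (by omega)
    rw [one_div, inv_mul_le_iff₀ hKK] at h4
    have h5 : κ * κ₀ * (ell (a + b - 1) (d + 1) : ℝ) ≤ s := by
      have h6 : κ * κ₀ * (ell (a + b - 1) (d + 1) : ℝ) * (ell (a + b - 1) μ : ℝ) ≤ s * (ell (a + b - 1) μ : ℝ) := by
        calc κ * κ₀ * (ell (a + b - 1) (d + 1) : ℝ) * (ell (a + b - 1) μ : ℝ)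
            = κ * κ₀ * ((ell (a + b - 1) μ : ℝ) * ell (a + b - 1) (d + 1)) := by ring
          _ ≤ _ := hs2
      exact le_of_mul_le_mul_right h6 hμpos
    have h6 := h4.trans h5
    exact_mod_cast h6

end Pool.Agent.H51.TB
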