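import Pool.Agent.H21.NX.MaxGM
import Pool.Agent.H21.NX.Single
import Pool.Agent.H21.HD.Main

/-!
# Module E5 (TB): one large point and simple points

`simple_add`: adding a simple point lowers `gdim` by one unless it is `0` (`le_gdim_elim` with
`ell r 1 = 1`, `gdim_elim_le`, `gdim_simple`).  Then induction on the number of simple points, starting
from `gdim_single`.  From `gdim` to general points: `gen_gdim` (`Gen r (Fin k)` is
`ForGeneralPoints r k`), see the end of `Pool/Agent/H21/NX/Window.lean` (`window_fin`).

`cone`: let `m i₀` be the largest multiplicity, `m i₀ ≥ d`.  If `m i₀ ≥ d + 1` there is no other point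
(`1 ≤ m j ≤ 0`), `V = 0` (`MainX.big_mult`) and `ell r (m i₀) ≥ ell r (d + 1) = binom (d + r, r)`.  If
`m i₀ = d` all other points are simple.
-/

namespace Pool.Agent.H51.TB

open Finset MvPolynomial Pool.Agent.H18.Fat Pool.Agent.H18.Ex Pool.Agent.H21.NX

theorem simple_add (r d : ℕ) (hr : 1 ≤ r) {κ : Type} [Fintype κ] (m : κ → ℕ) :
    gdim r d (Sum.elim m fun _ : Unit => 1) = gdim r d m - 1 := by
  have h1 := gdim_elim_le r d m (fun _ : Unit => 1)
  have h2 := le_gdim_elim r d hr m (fun _ : Unit => 1)
  have h3 : ∑ _j : Unit, ell r 1 = 1 := by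
    rw [Fintype.sum_unique]
    unfold ell
    rw [Nat.add_sub_cancel_left, Nat.choose_self]
  rw [h3] at h2
  have h4 := gdim_simple r d m 1 le_rfl
  by_cases h5 : gdim r d (Sum.elim m fun _ : Unit => 1) = gdim r d m
  · have h6 := h4 h5
    omega
  · omega

private theorem Cone_many (r d : ℕ) (hr : 1 ≤ r) {κ : Type} [Fintype κ] (m : κ → ℕ) (n : ℕ) :
    gdim r d (Sum.elim m fun _ : Fin n => 1) = gdim r d m - n := by
  induction n with
  | zero =>
    rw [Nat.sub_zero]
    have h := gdim_comp_equiv r d (Equiv.sumEmpty κ (Fin 0)) m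
    rw [← h]
    congr 1
    funext x
    rcases x with i | j
    · rfl
    · exact j.elim0
  | succ n ih =>
    have h1 := simple_add r d hr (Sum.elim m fun _ : Fin n => 1)
    rw [ih] at h1
    let e : κ ⊕ Fin (n + 1) ≃ (κ ⊕ Fin n) ⊕ Unit :=
      ((Equiv.refl κ).sumCongr ((finSuccEquiv n).trans (Equiv.optionEquivSumPUnit.{0, 0} _))).trans
        (Equiv.sumAssoc _ _ _).symm
    have h2 := gdim_comp_equiv r d e (Sum.elim (Sum.elim m fun _ : Fin n => 1) fun _ : Unit => 1)
    have h3 : (fun i => Sum.elim (Sum.elim m fun _ : Fin n => 1) (fun _ : Unit => 1) (e i)) =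
        Sum.elim m fun _ : Fin (n + 1) => 1 := by
      funext x
      rcases x with i | j
      · rfl
      · refine Fin.cases ?_ (fun j => ?_) j
        · simp [e]
        · simp [e]
    rw [h3, h1] at h2
    rw [h2]
    omega

theorem cone (r d k : ℕ) (hr : 1 ≤ r) (m : Fin k → ℕ) (hm : ∀ i, 1 ≤ m i)
    (hp : ∀ i j, i ≠ j → m i + m j ≤ d + 1) (i₀ : Fin k) (h0 : d ≤ m i₀) :
    ForGeneralPoints r k fun p => ImposesMaximalConditions r d p m := by
  classical
  rcases Nat.lt_or_ge d (m i₀) with hlt | hge
  · -- a multiplicity larger than the degree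
    have h1 : (d + r).choose r ≤ ∑ i, (m i + r - 1).choose r := by
      refine le_trans ?_ (Finset.single_le_sum (f := fun i => (m i + r - 1).choose r)
        (fun i _ => Nat.zero_le _) (Finset.mem_univ i₀))
      exact Nat.choose_le_choose r (by omega)
    refine ⟨1, one_ne_zero, fun p _ => ?_⟩
    change ImposesMaximalConditions r d p m
    unfold ImposesMaximalConditions
    rw [Pool.Agent.H21.HD.MainX.big_mult p m i₀ hlt]
    have h2 : (((d + r).choose r : ℕ) : ℤ) ≤ ∑ i, (((m i + r - 1).choose r : ℕ) : ℤ) := by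
      exact_mod_cast h1
    rw [max_eq_left (by linarith)]
    simp
  · have hd : m i₀ = d := le_antisymm hge h0
    have hs : ∀ j, j ≠ i₀ → m j = 1 := by
      intro j hj
      have h1 := hm j
      have h2 := hp i₀ j (Ne.symm hj)
      omega
    obtain ⟨n, hn⟩ : ∃ n, Fintype.card {j : Fin k // ¬ j = i₀} = n := ⟨_, rfl⟩
    let e2 : {j : Fin k // ¬ j = i₀} ≃ Fin n := Fintype.equivFinOfCardEq hn
    let e1 : {j : Fin k // j = i₀} ≃ Unit := Equiv.ofUnique _ _
    let e : Unit ⊕ Fin n ≃ Fin k := (Equiv.sumCongr e1.symm e2.symm).trans (Equiv.sumCompl fun j => j = i₀)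
    have he : (fun i => m (e i)) = Sum.elim (fun _ : Unit => d) fun _ : Fin n => 1 := by
      funext x
      rcases x with u | j
      · have h1 : e (Sum.inl u) = i₀ := by
          change ((e1.symm u : {j : Fin k // j = i₀}) : Fin k) = i₀
          exact (e1.symm u).2
        change m (e (Sum.inl u)) = d
        rw [h1, hd]
      · have h1 : e (Sum.inr j) ≠ i₀ := by
          change ((e2.symm j : {j : Fin k // ¬ j = i₀}) : Fin k) ≠ i₀
          exact (e2.symm j).2
        exact hs _ h1
    have h3 : gdim r d m = gdim r d (fun _ : Unit => d) - n := by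
      rw [← gdim_comp_equiv r d e m, he]
      exact Cone_many r d hr _ n
    have h4 := gdim_single r d hr d (Nat.le_succ d)
    have h5 : ∑ i, ell r (m i) = ell r d + n := by
      rw [← Equiv.sum_comp e (fun i => ell r (m i)), Fintype.sum_sum_type]
      have h6 : ∀ u : Unit, ell r (m (e (Sum.inl u))) = ell r d := by
        intro u
        have := congrFun he (Sum.inl u)
        change m (e (Sum.inl u)) = d at this
        rw [this]
      have h7 : ∀ j : Fin n, ell r (m (e (Sum.inr j))) = 1 := by
        intro j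
        have := congrFun he (Sum.inr j)
        change m (e (Sum.inr j)) = 1 at this
        rw [this]
        unfold ell
        rw [Nat.add_sub_cancel_left, Nat.choose_self]
      rw [Finset.sum_congr rfl fun u _ => h6 u, Finset.sum_congr rfl fun j _ => h7 j]
      simp
    have hg : Gen r (Fin k) fun p => ImposesMaximalConditions r d p m := by
      refine (gen_gdim r d m).mono fun p hp => ?_
      unfold ImposesMaximalConditions
      rw [hp, h3]
      have e3 : ∑ i, (((m i + r - 1).choose r : ℕ) : ℤ) = ((∑ i, ell r (m i) : ℕ) : ℤ) := by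
        push_cast
        rfl
      rw [e3, h5]
      omega
    exact hg

end Pool.Agent.H51.TB
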