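import Pool.Agent.H51.TB.Sys
import Pool.Agent.H21.NX.Defs
import Pool.Agent.H18.Ta.Rk

/-!
# Project TB: definitions

The variables are `Z a b = Fin a ⊕ Fin b` (`X`-variables and `Y`-variables).  The level `j` consists
of the exponents of degree `d` and of degree `j` in the `Y`-variables.  A *type* on a level is a
finite set `Λ` of bidegrees `g = (gx, gy)`: all (Hasse) derivatives of these bidegrees vanish at the
point.  A *cell* is a pair `c = (u, ρ)` with `u + ρ ≤ d`; it orders the levels `0, …, d` by the ranks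
`rk (d + 1) u ρ` (`Pool/Agent/H18/Ta/Defs.lean`): `u+1, …, u+ρ, u, u+ρ+1, …, d, u-1, …, 0`.
-/

namespace Pool.Agent.H51.TB

open Finset MvPolynomial Pool.Agent.H18.Ex Pool.Agent.H21.NX Pool.Agent.H18.Ta

/-- The variables. -/
abbrev Z (a b : ℕ) : Type := Fin a ⊕ Fin b

/-- The degree in the `X`-variables. -/
def xd {a b : ℕ} (α : Z a b → ℕ) : ℕ := ∑ i, α (Sum.inl i)

/-- The degree in the `Y`-variables. -/
def yd {a b : ℕ} (α : Z a b → ℕ) : ℕ := ∑ i, α (Sum.inr i)

/-- The exponents of the level `j`. -/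
def Bx (a b d j : ℕ) : Finset (Z a b → ℕ) := (Sx (Z a b) d).filter fun α => yd α = j

theorem mem_Bx {a b d j : ℕ} {α : Z a b → ℕ} : α ∈ Bx a b d j ↔ xd α + yd α = d ∧ yd α = j := by
  unfold Bx xd yd
  rw [mem_filter, mem_Sx, Fintype.sum_sum_type]

theorem finite_idx (a b : ℕ) (Λ : Finset (ℕ × ℕ)) :
    Finite {β : Z a b → ℕ // (xd β, yd β) ∈ Λ} := by
  obtain ⟨N, hN⟩ : ∃ N : ℕ, ∀ g ∈ Λ, g.1 + g.2 ≤ N :=
    ⟨Λ.sup fun g => g.1 + g.2, fun g hg => Finset.le_sup (f := fun g : ℕ × ℕ => g.1 + g.2) hg⟩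
  have h : {f : Z a b → ℕ | ∀ i, f i ∈ Set.Iic N}.Finite :=
    Set.Finite.pi' fun _ => Set.finite_Iic N
  refine Set.Finite.to_subtype (Set.Finite.subset h ?_)
  intro β hβ i
  have h1 : xd β + yd β ≤ N := hN (xd β, yd β) hβ
  have h2 : ∑ i, β i = xd β + yd β := by
    unfold xd yd
    exact Fintype.sum_sum_type β
  have h3 : β i ≤ ∑ i, β i := single_le_sum (fun j _ => Nat.zero_le (β j)) (mem_univ i)
  show β i ≤ N
  omega

/-- The system of the level `j`. -/
noncomputable def LSys (a b d j : ℕ) : Sys {α // α ∈ Bx a b d j} (Z a b) (Finset (ℕ × ℕ)) where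
  R := fun Λ => {β : Z a b → ℕ // (xd β, yd β) ∈ Λ}
  fin := finite_idx a b
  co := fun _ β α => tcr (fun i => (X i : MvPolynomial (Z a b) ℂ)) α.1 β.1

/-- The number of levels of the window `[gy, d - gx]` of smaller rank. -/
def wr (d : ℕ) (c g : ℕ × ℕ) (j : ℕ) : ℕ :=
  ((range (d + 1)).filter fun i => g.2 ≤ i ∧ i + g.1 ≤ d ∧
    rk (d + 1) c.1 c.2 i < rk (d + 1) c.1 c.2 j).card

/-- The type of a point of multiplicity `m` in the cell `c` on the level `j`. -/
def Lam (d m : ℕ) (c : ℕ × ℕ) (j : ℕ) : Finset (ℕ × ℕ) :=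
  (range m ×ˢ range m).filter fun g => g.2 ≤ j ∧ j + g.1 ≤ d ∧ g.1 + g.2 + wr d c g j < m

/-- The number of new derivatives of bidegree `g`. -/
def Eg (a b : ℕ) (g : ℕ × ℕ) : ℕ := Nat.multichoose (a - 1) g.1 * Nat.multichoose (b - 1) g.2

/-- The number of conditions on the level `j`. -/
def wt (a b d m : ℕ) (c : ℕ × ℕ) (j : ℕ) : ℕ := ∑ g ∈ Lam d m c j, Eg a b g

/-- The size class on the level `j`. -/
def cls (d m : ℕ) (c : ℕ × ℕ) (j : ℕ) : ℕ := (Lam d m c j).sup fun g => g.1 + g.2 + 1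

/-- The dimension of the level `j`. -/
def bet (a b d j : ℕ) : ℕ := Nat.multichoose a (d - j) * Nat.multichoose b j

/-- The number of conditions moved from the level `s` to the level `s + ρ + 1` when a point of
multiplicity `m` is moved from the cell `(s, ρ)` to the cell `(s, ρ + 1)`. -/
def Mv (a b d m s ρ : ℕ) : ℕ :=
  ∑ g ∈ (range m ×ˢ range m).filter fun g : ℕ × ℕ =>
    g.1 + g.2 + ρ + 1 = m ∧ g.2 ≤ s ∧ g.1 + s + ρ + 1 ≤ d, Eg a b g

/-- The number of conditions on the levels `0, …, j`. -/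
def Pre (a b d m : ℕ) (c : ℕ × ℕ) (j : ℕ) : ℕ := ∑ i ∈ range (j + 1), wt a b d m c i

/-- The cells. -/
def KK (d : ℕ) : Finset (ℕ × ℕ) := (range (d + 1) ×ˢ range (d + 1)).filter fun c => c.1 + c.2 ≤ d

theorem mem_KK {d : ℕ} {c : ℕ × ℕ} : c ∈ KK d ↔ c.1 + c.2 ≤ d := by
  unfold KK
  rw [mem_filter, mem_product, mem_range, mem_range]
  omega

/-- The level at which the largest part of the conditions of a point in the cell `c` is placed. -/
def st (c : ℕ × ℕ) : ℕ := if c.2 = 0 then c.1 else c.1 + 1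

/-- The distribution function of the binomial distribution. -/
noncomputable def Phi (d j : ℕ) : ℝ := (∑ i ∈ range (j + 1), (d.choose i : ℝ)) / 2 ^ d

/-- The distribution function of the leading part of the conditions of a point of multiplicity `m`
in a cell with `st c = s`. -/
noncomputable def Gl (d m s j : ℕ) : ℝ :=
  (∑ i ∈ range m, if i ≤ j ∧ (s ≤ j ∨ i + (d + 1) ≤ j + m) then ((m - 1).choose i : ℝ) else 0) /
    2 ^ (m - 1)

end Pool.Agent.H51.TB
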