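import Pool.Agent.H51.TB.Defs

/-!
# Module C1 (TB): the Euler relations
-/

namespace Pool.Agent.H51.TB

open Finset Pool.Agent.H18.Ex Pool.Agent.H21.NX Pool.Agent.H18.Ta

private theorem Eul_num {R : Type*} [CommRing R] (A B : ℕ) (x : R) :
    ((B + 1 : ℕ) : R) * x * (((A.choose (B + 1) : ℕ) : R) * x ^ (A - (B + 1))) =
      ((A : R) - (B : R)) * (((A.choose B : ℕ) : R) * x ^ (A - B)) := by
  rcases lt_trichotomy B A with h | h | h
  · have h1 : A - B = (A - (B + 1)) + 1 := by omega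
    have h2 := Nat.choose_succ_right_eq A B
    have h3 : ((A.choose (B + 1) : ℕ) : R) * ((B + 1 : ℕ) : R) = ((A.choose B : ℕ) : R) * ((A : R) - (B : R)) := by
      rw [← Nat.cast_sub h.le, ← Nat.cast_mul, ← Nat.cast_mul, h2]
    rw [h1, pow_succ]
    calc ((B + 1 : ℕ) : R) * x * (((A.choose (B + 1) : ℕ) : R) * x ^ (A - (B + 1))) =
        (((A.choose (B + 1) : ℕ) : R) * ((B + 1 : ℕ) : R)) * (x ^ (A - (B + 1)) * x) := by ring
      _ = _ := by
        rw [h3]
        ring
  · subst h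
    rw [Nat.choose_succ_self, Nat.cast_zero, zero_mul, mul_zero, sub_self, zero_mul]
  · rw [Nat.choose_eq_zero_of_lt h, Nat.choose_eq_zero_of_lt (h.trans (Nat.lt_succ_self B)), Nat.cast_zero]
    ring

private theorem Eul_one {ι : Type} [Fintype ι] [DecidableEq ι] {R : Type*} [CommRing R] (q : ι → R)
    (α β : ι → ℕ) (l : ι) :
    ((β l + 1 : ℕ) : R) * q l * tcr q α (β + Pi.single l 1) = ((α l : R) - (β l : R)) * tcr q α β := by
  rw [tcr_eq q α (β + Pi.single l 1) l, tcr_eq q α β l]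
  have h1 : (β + Pi.single l 1 : ι → ℕ) l = β l + 1 := by simp
  have h2 : ∏ i ∈ univ.erase l, (((α i).choose ((β + Pi.single l 1 : ι → ℕ) i) : ℕ) : R) *
      q i ^ (α i - (β + Pi.single l 1 : ι → ℕ) i) =
      ∏ i ∈ univ.erase l, (((α i).choose (β i) : ℕ) : R) * q i ^ (α i - β i) := by
    refine rest_congr (fun _ _ => rfl) (fun _ _ => rfl) (fun i hi => ?_)
    rw [Pi.add_apply, Pi.single_eq_of_ne hi, Nat.add_zero]
  rw [h2, h1]
  have h3 := Eul_num (α l) (β l) (q l)
  linear_combination (∏ i ∈ univ.erase l, (((α i).choose (β i) : ℕ) : R) * q i ^ (α i - β i)) * h3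

private theorem Eul_xd {a b : ℕ} (β : Z a b → ℕ) (i : Fin b) :
    xd (β + Pi.single (Sum.inr i) 1) = xd β := by
  unfold xd
  refine Finset.sum_congr rfl (fun k _ => ?_)
  rw [Pi.add_apply, Pi.single_eq_of_ne (by simp), Nat.add_zero]

private theorem Eul_yd {a b : ℕ} (β : Z a b → ℕ) (i : Fin b) :
    yd (β + Pi.single (Sum.inr i) 1) = yd β + 1 := by
  unfold yd
  have h : ∀ k : Fin b, (β + Pi.single (Sum.inr i) 1 : Z a b → ℕ) (Sum.inr k) =
      β (Sum.inr k) + (Pi.single i 1 : Fin b → ℕ) k := by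
    intro k
    rw [Pi.add_apply]
    congr 1
    by_cases hk : k = i
    · subst hk
      simp
    · rw [Pi.single_eq_of_ne hk, Pi.single_eq_of_ne (by
        intro h1
        exact hk (Sum.inr_injective h1))]
  rw [Finset.sum_congr rfl (fun k _ => h k), Finset.sum_add_distrib]
  congr 1
  simp

private theorem Eul_zero {ι : Type} [Fintype ι] {R : Type*} [CommRing R] (q : ι → R)
    {α β : ι → ℕ} {l : ι} (h : α l < β l) : tcr q α β = 0 := by
  unfold tcr
  refine Finset.prod_eq_zero (mem_univ l) ?_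
  rw [Nat.choose_eq_zero_of_lt h, Nat.cast_zero, zero_mul]

/-- The Euler relation in the `Y`-variables.  For each `i`,
`(β_i + 1) * binom(α_i, β_i + 1) * q_i^(α_i - β_i - 1) * q_i = (α_i - β_i) * binom(α_i, β_i) *
q_i^(α_i - β_i)` if `β_i < α_i`; if `β_i = α_i` both sides vanish; if `α_i < β_i` then
`tcr q α β = 0` and `tcr q α (β + e_i) = 0`.  (If `β ≤ α` fails at another coordinate both
sides vanish as well.) -/
theorem euler {R : Type*} [CommRing R] {a b : ℕ} (q : Z a b → R) (α β : Z a b → ℕ) :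
    ∑ i : Fin b, ((β (Sum.inr i) + 1 : ℕ) : R) * q (Sum.inr i) *
      tcr q α (β + Pi.single (Sum.inr i) 1) = ((yd α : ℕ) - (yd β : ℕ) : R) * tcr q α β := by
  have h1 : ∀ i : Fin b, ((β (Sum.inr i) + 1 : ℕ) : R) * q (Sum.inr i) *
      tcr q α (β + Pi.single (Sum.inr i) 1) =
      ((α (Sum.inr i) : R) - (β (Sum.inr i) : R)) * tcr q α β := fun i => Eul_one q α β (Sum.inr i)
  rw [Finset.sum_congr rfl (fun i _ => h1 i), ← Finset.sum_mul, Finset.sum_sub_distrib]
  unfold yd
  push_cast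
  rfl

/-- Let `T j β = ∑_{α on the level j} g α * tcr q α β` and suppose
`∑_{j ≤ d} w j * T j β = 0` for all `β` with `|β| < m`.  Then
`∑_{j ≤ d} (∏_{u ∈ S} (j - u)) * (w j * T j β) = 0` if `|β| + |S| < m`.

Induction on `S`: by `euler`,
`(j - u) * T j β = ∑_i (β_i + 1) q_i T j (β + e_i) + (yd β - u) * T j β`. -/
theorem weighted {R : Type*} [CommRing R] {a b d m : ℕ} (q : Z a b → R) (g : (Z a b → ℕ) → R)
    (w : ℕ → R)
    (h : ∀ β : Z a b → ℕ, xd β + yd β < m →
      ∑ j ∈ range (d + 1), w j * ∑ α ∈ Bx a b d j, g α * tcr q α β = 0)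
    (S : Finset ℕ) (β : Z a b → ℕ) (hβ : xd β + yd β + S.card < m) :
    ∑ j ∈ range (d + 1), (∏ u ∈ S, ((j : R) - (u : R))) *
      (w j * ∑ α ∈ Bx a b d j, g α * tcr q α β) = 0 := by
  induction S using Finset.induction_on generalizing β with
  | empty =>
    simp only [Finset.prod_empty, one_mul]
    refine h β ?_
    rw [Finset.card_empty] at hβ
    omega
  | insert u S hu ih =>
    rw [Finset.card_insert_of_notMem hu] at hβ
    have h1 : ∀ j ∈ range (d + 1), (∏ u' ∈ insert u S, ((j : R) - (u' : R))) *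
        (w j * ∑ α ∈ Bx a b d j, g α * tcr q α β) =
        (∑ i : Fin b, (((β (Sum.inr i) + 1 : ℕ) : R) * q (Sum.inr i)) *
          ((∏ u' ∈ S, ((j : R) - (u' : R))) *
            (w j * ∑ α ∈ Bx a b d j, g α * tcr q α (β + Pi.single (Sum.inr i) 1)))) +
        ((yd β : R) - (u : R)) * ((∏ u' ∈ S, ((j : R) - (u' : R))) *
            (w j * ∑ α ∈ Bx a b d j, g α * tcr q α β)) := by
      intro j _
      rw [Finset.prod_insert hu]
      have h2 : ((j : R) - (u : R)) * ∑ α ∈ Bx a b d j, g α * tcr q α β =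
          (∑ i : Fin b, (((β (Sum.inr i) + 1 : ℕ) : R) * q (Sum.inr i)) *
            ∑ α ∈ Bx a b d j, g α * tcr q α (β + Pi.single (Sum.inr i) 1)) +
          ((yd β : R) - (u : R)) * ∑ α ∈ Bx a b d j, g α * tcr q α β := by
        have h3 : ∑ i : Fin b, (((β (Sum.inr i) + 1 : ℕ) : R) * q (Sum.inr i)) *
            ∑ α ∈ Bx a b d j, g α * tcr q α (β + Pi.single (Sum.inr i) 1) =
            ∑ α ∈ Bx a b d j, g α * (((j : R) - (yd β : R)) * tcr q α β) := by
          rw [Finset.sum_congr rfl (fun i _ => Finset.mul_sum _ _ _), Finset.sum_comm]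
          refine Finset.sum_congr rfl (fun α hα => ?_)
          have h4 := euler q α β
          rw [(mem_Bx.1 hα).2] at h4
          rw [← h4, Finset.mul_sum]
          refine Finset.sum_congr rfl (fun i _ => ?_)
          ring
        rw [h3, Finset.mul_sum, Finset.mul_sum, ← Finset.sum_add_distrib]
        refine Finset.sum_congr rfl (fun α _ => ?_)
        ring
      have h5 : ((j : R) - (u : R)) * (∏ u' ∈ S, ((j : R) - (u' : R))) *
          (w j * ∑ α ∈ Bx a b d j, g α * tcr q α β) =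
          (∏ u' ∈ S, ((j : R) - (u' : R))) * w j *
            (((j : R) - (u : R)) * ∑ α ∈ Bx a b d j, g α * tcr q α β) := by ring
      rw [h5, h2, mul_add, Finset.mul_sum]
      congr 1
      · refine Finset.sum_congr rfl (fun i _ => ?_)
        ring
      · ring
    rw [Finset.sum_congr rfl h1, Finset.sum_add_distrib, Finset.sum_comm, ← Finset.mul_sum,
      ih β (by omega), mul_zero, add_zero]
    refine Finset.sum_eq_zero (fun i _ => ?_)
    rw [← Finset.mul_sum, ih (β + Pi.single (Sum.inr i) 1) (by rw [Eul_xd, Eul_yd]; omega), mul_zero]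

/-- On the level `j` the derivatives of bidegree `g` vanish unless `gy ≤ j` and `gx ≤ d - j`. -/
theorem tcr_zero {R : Type*} [CommRing R] {a b d j : ℕ} (q : Z a b → R) (α β : Z a b → ℕ)
    (hα : α ∈ Bx a b d j) (h : ¬ (yd β ≤ j ∧ j + xd β ≤ d)) : tcr q α β = 0 := by
  obtain ⟨h1, h2⟩ := mem_Bx.1 hα
  have h3 : (∃ i : Fin b, α (Sum.inr i) < β (Sum.inr i)) ∨ ∃ i : Fin a, α (Sum.inl i) < β (Sum.inl i) := by
    by_contra hcon
    push Not at hcon
    obtain ⟨h4, h5⟩ := hcon
    have h6 : yd β ≤ yd α := Finset.sum_le_sum (fun i _ => h4 i)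
    have h7 : xd β ≤ xd α := Finset.sum_le_sum (fun i _ => h5 i)
    exact h ⟨by omega, by omega⟩
  rcases h3 with ⟨i, hi⟩ | ⟨i, hi⟩
  · exact Eul_zero q hi
  · exact Eul_zero q hi

/-- Scaling of the `Y`-coordinates. -/
theorem tcr_scale {R : Type*} [CommRing R] {a b : ℕ} (x : Fin a → R) (y : Fin b → R) (s : R)
    (α β : Z a b → ℕ) :
    s ^ yd β * tcr (Sum.elim x fun i => s * y i) α β = s ^ yd α * tcr (Sum.elim x y) α β := by
  unfold tcr
  rw [Fintype.prod_sum_type, Fintype.prod_sum_type]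
  simp only [Sum.elim_inl, Sum.elim_inr]
  have h1 : s ^ yd β * ∏ i : Fin b, (((α (Sum.inr i)).choose (β (Sum.inr i)) : ℕ) : R) *
      (s * y i) ^ (α (Sum.inr i) - β (Sum.inr i)) =
      s ^ yd α * ∏ i : Fin b, (((α (Sum.inr i)).choose (β (Sum.inr i)) : ℕ) : R) *
      y i ^ (α (Sum.inr i) - β (Sum.inr i)) := by
    unfold yd
    rw [← Finset.prod_pow_eq_pow_sum, ← Finset.prod_pow_eq_pow_sum, ← Finset.prod_mul_distrib,
      ← Finset.prod_mul_distrib]
    refine Finset.prod_congr rfl (fun i _ => ?_)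
    by_cases hi : β (Sum.inr i) ≤ α (Sum.inr i)
    · obtain ⟨k, hk⟩ := Nat.exists_eq_add_of_le hi
      rw [hk, Nat.add_sub_cancel_left, mul_pow, pow_add]
      ring
    · rw [Nat.choose_eq_zero_of_lt (not_le.1 hi), Nat.cast_zero]
      ring
  calc _ = (∏ i : Fin a, (((α (Sum.inl i)).choose (β (Sum.inl i)) : ℕ) : R) *
        x i ^ (α (Sum.inl i) - β (Sum.inl i))) *
        (s ^ yd β * ∏ i : Fin b, (((α (Sum.inr i)).choose (β (Sum.inr i)) : ℕ) : R) *
      (s * y i) ^ (α (Sum.inr i) - β (Sum.inr i))) := by ring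
    _ = _ := by
      rw [h1]
      ring

end Pool.Agent.H51.TB
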