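import Pool.Agent.H51.TB.Win

/-!
# Module A6 (TB): families of points

`S.gf m A` is the general dimension for the points of the finite set `A` of a family `m`.
-/

namespace Pool.Agent.H51.TB

open Finset MvPolynomial

variable {E ν T : Type} [Fintype E] (S : Sys E ν T) {κ : Type}

/-- The general dimension for the points of `A`. -/
noncomputable def Sys.gf (m : κ → T) (A : Finset κ) : ℕ := S.gd fun i : {x // x ∈ A} => m i.1

theorem gf_univ [Fintype κ] (m : κ → T) : S.gf m univ = S.gd m :=
  gd_comp_equiv S (Equiv.subtypeUnivEquiv fun x : κ => mem_univ x) m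

theorem gf_empty (m : κ → T) : S.gf m ∅ = Fintype.card E := by
  have : IsEmpty {x : κ // x ∈ (∅ : Finset κ)} := ⟨fun x => Finset.notMem_empty _ x.2⟩
  exact gd_empty S _

theorem gf_singleton (m : κ → T) (i : κ) : S.gf m {i} + S.size (m i) = Fintype.card E := by
  have h : S.gf m {i} = S.gd fun _ : Unit => m i := by
    let e : Unit ≃ {x : κ // x ∈ ({i} : Finset κ)} :=
      { toFun := fun _ => ⟨i, mem_singleton_self i⟩
        invFun := fun _ => ()
        left_inv := fun _ => rfl
        right_inv := fun x => Subtype.ext (mem_singleton.1 x.2).symm }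
    exact (gd_comp_equiv S e fun x => m x.1).symm
  rw [h]
  exact gd_unit S (m i)

theorem gf_insert [DecidableEq κ] (m : κ → T) (A : Finset κ) (i : κ) (hi : i ∉ A) :
    S.gf m (insert i A) = S.gd (ad (fun i : {x // x ∈ A} => m i.1) (m i)) := by
  let g : {x // x ∈ A} ⊕ Unit → {x // x ∈ insert i A} :=
    Sum.elim (fun x => ⟨x.1, mem_insert_of_mem x.2⟩) fun _ => ⟨i, mem_insert_self i A⟩
  have hg : Function.Bijective g := by
    constructor
    · rintro (x | x) (y | y) h
      · have h1 : x.1 = y.1 := congrArg (fun z : {x // x ∈ insert i A} => z.1) h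
        exact congrArg Sum.inl (Subtype.ext h1)
      · have h1 : x.1 = i := congrArg (fun z : {x // x ∈ insert i A} => z.1) h
        exact absurd (h1 ▸ x.2) hi
      · have h1 : i = y.1 := congrArg (fun z : {x // x ∈ insert i A} => z.1) h
        exact absurd (h1 ▸ y.2) hi
      · rfl
    · rintro ⟨x, hx⟩
      rcases mem_insert.1 hx with h | h
      · exact ⟨Sum.inr (), Subtype.ext h.symm⟩
      · exact ⟨Sum.inl ⟨x, h⟩, rfl⟩
  have h1 := gd_comp_equiv S (Equiv.ofBijective g hg) fun x => m x.1
  have h2 : (fun j => m ((Equiv.ofBijective g hg) j).1) =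
      ad (fun i : {x // x ∈ A} => m i.1) (m i) := by
    funext j
    rcases j with x | x
    · rfl
    · rfl
  rw [h2] at h1
  exact h1.symm

/-- A phase: the points of `B` are added one after the other (induction on `B`, `window`).  If the
dimension is larger than `W` then the next point imposes `size` conditions; the dimension never
increases. -/
theorem gf_phase (hS : S.Span) [DecidableEq κ] (m : κ → T) (b : T) (hb : ∀ i, S.Dom b (m i))
    (W : ℕ) (A B : Finset κ) (hAB : Disjoint A B)
    (hW : ∀ i ∈ B, (S.size (m i) - 1) * S.size b ≤ W) :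
    S.gf m (A ∪ B) ≤ max (S.gf m A - ∑ i ∈ B, S.size (m i)) W := by
  induction B using Finset.induction_on with
  | empty =>
    rw [union_empty, sum_empty]
    exact le_max_left _ _
  | insert i B hi ih =>
    have hAB' : Disjoint A B := hAB.mono_right (subset_insert i B)
    have ih' := ih hAB' fun j hj => hW j (mem_insert_of_mem hj)
    have hiA : i ∉ A := fun h => (Finset.disjoint_left.1 hAB) h (mem_insert_self i B)
    have hiU : i ∉ A ∪ B := by
      rw [mem_union]
      rintro (h | h)
      · exact hiA h
      · exact hi h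
    have e : A ∪ insert i B = insert i (A ∪ B) := union_insert i A B
    rw [e, gf_insert S m (A ∪ B) i hiU, sum_insert hi]
    have hW' := hW i (mem_insert_self i B)
    rcases lt_or_ge W (S.gf m (A ∪ B)) with h | h
    · have h1 : S.gf m (A ∪ B) = S.gd (ad (fun i : {x // x ∈ A ∪ B} => m i.1) (m i)) +
          S.size (m i) :=
        window S hS (fun i : {x // x ∈ A ∪ B} => m i.1) (m i) b (fun j => hb j.1)
          (lt_of_le_of_lt hW' h)
      have h2 : S.gf m (A ∪ B) ≤ S.gf m A - ∑ i ∈ B, S.size (m i) := by
        rcases le_max_iff.1 ih' with h3 | h3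
        · exact h3
        · omega
      refine le_trans ?_ (le_max_left _ _)
      omega
    · refine le_trans ?_ (le_max_right _ _)
      have h1 : S.gd (ad (fun i : {x // x ∈ A ∪ B} => m i.1) (m i)) ≤ S.gf m (A ∪ B) :=
        gd_elim_le S (fun i : {x // x ∈ A ∪ B} => m i.1) fun _ : Unit => m i
      exact h1.trans h

end Pool.Agent.H51.TB
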