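import Pool.Agent.H51.TB.Sys

/-!
# Module A1 (TB): general positions

Everything is as in `Pool/Agent/H21/NX/GenA.lean` (with `Fin (r + 1)` replaced by `ν`), and
`SwapX.gen_fix` of `Pool/Agent/H21/NX/Swap.lean` for the last statement.
-/

namespace Pool.Agent.H51.TB

open Finset MvPolynomial

variable {κ κ' ν : Type}

private theorem GnX.eval_aeval {σ τ : Type*} (a : τ → ℂ) (g : σ → MvPolynomial τ ℂ)
    (G : MvPolynomial σ ℂ) : eval a (aeval g G) = eval (fun x => eval a (g x)) G := by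
  induction G using MvPolynomial.induction_on with
  | C c => simp
  | add p q hp hq => rw [map_add, map_add, map_add, hp, hq]
  | mul_X p i hp => rw [map_mul, map_mul, map_mul, hp, aeval_X, eval_X]

private theorem GnX.exists_eval_ne_zero {τ : Type*} {G : MvPolynomial τ ℂ} (hG : G ≠ 0) :
    ∃ a, eval a G ≠ 0 := by
  by_contra hcon
  push Not at hcon
  exact hG (MvPolynomial.funext fun a => by rw [hcon a, map_zero])

theorem Gn.mono {P Q : (κ → ν → ℂ) → Prop} (h : Gn κ ν P) (hPQ : ∀ p, P p → Q p) : Gn κ ν Q := by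
  obtain ⟨G, hG, h⟩ := h
  exact ⟨G, hG, fun p hp => hPQ p (h p hp)⟩

theorem Gn.and {P Q : (κ → ν → ℂ) → Prop} (h : Gn κ ν P) (h' : Gn κ ν Q) :
    Gn κ ν fun p => P p ∧ Q p := by
  obtain ⟨G, hG, h⟩ := h
  obtain ⟨G', hG', h'⟩ := h'
  refine ⟨G * G', mul_ne_zero hG hG', fun p hp => ?_⟩
  rw [map_mul] at hp
  exact ⟨h p (left_ne_zero_of_mul hp), h' p (right_ne_zero_of_mul hp)⟩

/-- A nonzero polynomial over `ℂ` has a non-root (`MvPolynomial.funext`). -/
theorem Gn.exists {P : (κ → ν → ℂ) → Prop} (h : Gn κ ν P) : ∃ p, P p := by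
  obtain ⟨G, hG, h⟩ := h
  obtain ⟨a, ha⟩ := GnX.exists_eval_ne_zero hG
  exact ⟨fun i j => a (i, j), h (fun i j => a (i, j)) ha⟩

theorem Gn.all {α : Type} (s : Finset α) {P : α → (κ → ν → ℂ) → Prop}
    (h : ∀ a ∈ s, Gn κ ν (P a)) : Gn κ ν fun p => ∀ a ∈ s, P a p := by
  classical
  induction s using Finset.induction_on with
  | empty => exact ⟨1, one_ne_zero, fun p _ a ha => absurd ha (Finset.notMem_empty a)⟩
  | insert a s has ih =>
    have h1 := h a (Finset.mem_insert_self a s)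
    have h2 := ih fun b hb => h b (Finset.mem_insert_of_mem hb)
    refine (h1.and h2).mono fun p hp b hb => ?_
    rcases Finset.mem_insert.mp hb with rfl | hb
    · exact hp.1
    · exact hp.2 b hb

/-- Use `MvPolynomial.rename` with the injective map `(i, j) ↦ (φ i, j)`. -/
theorem Gn.comap (φ : κ' → κ) (hφ : Function.Injective φ) {P : (κ' → ν → ℂ) → Prop}
    (h : Gn κ' ν P) : Gn κ ν fun p => P fun i => p (φ i) := by
  obtain ⟨G, hG, h⟩ := h
  have hinj : Function.Injective (fun x : κ' × ν => (φ x.1, x.2)) := by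
    intro x y hxy
    have h1 := congrArg Prod.fst hxy
    have h2 := congrArg Prod.snd hxy
    exact Prod.ext (hφ h1) h2
  refine ⟨rename (fun x : κ' × ν => (φ x.1, x.2)) G, ?_, fun p hp => ?_⟩
  · intro h0
    apply hG
    apply rename_injective _ hinj
    rw [h0, map_zero]
  · apply h
    rw [eval_rename] at hp
    exact hp

/-- Fixing some of the points at (general) positions. -/
theorem Gn.fix {P : (κ ⊕ κ' → ν → ℂ) → Prop} (h : Gn (κ ⊕ κ') ν P) :
    ∃ p₀ : κ → ν → ℂ, Gn κ' ν fun q => P (Sum.elim p₀ q) := by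
  obtain ⟨G, hG0, hG⟩ := h
  obtain ⟨a, ha⟩ := GnX.exists_eval_ne_zero hG0
  let p₀ : κ → ν → ℂ := fun i j => a (Sum.inl i, j)
  let G' : MvPolynomial (κ' × ν) ℂ := aeval (fun x : (κ ⊕ κ') × ν =>
    Sum.elim (fun i => (C (p₀ i x.2) : MvPolynomial (κ' × ν) ℂ)) (fun k => X (k, x.2)) x.1) G
  have hG' : ∀ y : κ' → ν → ℂ, eval (fun x => y x.1 x.2) G' =
      eval (fun x : (κ ⊕ κ') × ν => Sum.elim p₀ y x.1 x.2) G := by
    intro y
    simp only [G']
    rw [GnX.eval_aeval]
    refine congrArg (fun f : (κ ⊕ κ') × ν → ℂ => eval f G) (funext fun x => ?_)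
    obtain ⟨i | u, j⟩ := x
    · simp
    · simp
  refine ⟨p₀, G', ?_, fun y hy => ?_⟩
  · intro h0
    have h1 := hG' fun k j => a (Sum.inr k, j)
    rw [h0, map_zero] at h1
    apply ha
    have h2 : a = fun x : (κ ⊕ κ') × ν => Sum.elim p₀ (fun k j => a (Sum.inr k, j)) x.1 x.2 := by
      funext x
      obtain ⟨i | k, j⟩ := x <;> rfl
    rw [h2]
    exact h1.symm
  · exact hG _ (by rw [← hG']; exact hy)

end Pool.Agent.H51.TB
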