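import Pool.Agent.H51.TB.Gd

/-!
# Module A3 (TB): the general dimension, adding points

As in `Pool/Agent/H21/NX/GenB.lean` (`le_gdim_elim`, `gdim_submod`, `gdim_simple`).
-/

namespace Pool.Agent.H51.TB

open Finset MvPolynomial

variable {E ν T : Type} [Fintype E] (S : Sys E ν T) {κ : Type}

private theorem GsX.comp_elim {α β γ : Type} (p : β → γ) (f : α → β) (b : β) :
    (fun i => p (Sum.elim f (fun _ : Unit => b) i)) =
      Sum.elim (fun i => p (f i)) fun _ : Unit => p b := by
  funext i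
  rcases i with i | i <;> rfl

private theorem GsX.elim_inj {α β : Type} (f : α → β) (b : β) (hf : Function.Injective f)
    (hb : ∀ a, f a ≠ b) : Function.Injective (Sum.elim f fun _ : Unit => b) := by
  rintro (x | x) (y | y) h
  · exact congrArg Sum.inl (hf h)
  · exact absurd h (hb x)
  · exact absurd h.symm (hb y)
  · rfl

/-- One more point imposes at most `size t` conditions: at general positions
`finrank (V m ⊓ V t) ≥ finrank V m + finrank V t - card E`. -/
theorem gd_le_ad [Fintype κ] (m : κ → T) (t : T) : S.gd m ≤ S.gd (ad m t) + S.size t := by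
  obtain ⟨P, hP1, hP2⟩ := ((gn_gd S (ad m t)).and ((gn_gd S fun _ : Unit => t).comap
    (fun _ : Unit => (Sum.inr () : κ ⊕ Unit)) (fun _ _ _ => rfl))).exists
  have e : P = Sum.elim (fun i => P (Sum.inl i)) fun _ : Unit => P (Sum.inr ()) := by
    funext x
    rcases x with i | i <;> rfl
  have h1 := finrank_V_sup S m (fun _ : Unit => t) (fun i => P (Sum.inl i))
    (fun _ : Unit => P (Sum.inr ()))
  rw [← e] at h1
  change _ + Module.finrank ℂ (S.V (ad m t) P) = _ at h1
  rw [hP1, hP2] at h1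
  have h2 := Submodule.finrank_le (S.V m (fun i => P (Sum.inl i)) ⊔
    S.V (fun _ : Unit => t) fun _ : Unit => P (Sum.inr ()))
  rw [Module.finrank_fintype_fun_eq_card] at h2
  have h3 := gd_le S m fun i => P (Sum.inl i)
  have h4 := gd_unit S t
  omega

theorem gd_ad_le [Fintype κ] (m : κ → T) (t : T) : S.gd (ad m t) ≤ S.gd m := by
  exact gd_elim_le S m fun _ : Unit => t

/-- Submodularity: at general positions `V(m, t)` and `V(m, u)` are subspaces of `V(m)` with
intersection `V(m, t, u)`. -/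
theorem gd_submod [Fintype κ] (m : κ → T) (t u : T) :
    S.gd (ad m t) + S.gd (ad m u) ≤ S.gd m + S.gd (ad (ad m t) u) := by
  have hinj : Function.Injective (fun i : κ => (Sum.inl (Sum.inl i) : (κ ⊕ Unit) ⊕ Unit)) :=
    fun a b h => Sum.inl_injective (Sum.inl_injective h)
  obtain ⟨P, hP1, hP2⟩ := ((gn_gd S (ad (ad m t) u)).and
    ((gn_gd S m).comap (fun i : κ => (Sum.inl (Sum.inl i) : (κ ⊕ Unit) ⊕ Unit)) hinj)).exists
  let P₁ : κ ⊕ Unit → ν → ℂ := fun i => P (Sum.inl i)
  let P₂ : κ ⊕ Unit → ν → ℂ :=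
    Sum.elim (fun i => P (Sum.inl (Sum.inl i))) fun j => P (Sum.inr j)
  let P₀ : κ → ν → ℂ := fun i => P (Sum.inl (Sum.inl i))
  have h1 := Submodule.finrank_sup_add_finrank_inf_eq (S.V (ad m t) P₁) (S.V (ad m u) P₂)
  have h2 : S.V (ad m t) P₁ ⊔ S.V (ad m u) P₂ ≤ S.V m P₀ := by
    refine sup_le (fun w hw => ?_) (fun w hw => ?_)
    · rw [S.mem_V] at hw ⊢
      exact fun i => hw (Sum.inl i)
    · rw [S.mem_V] at hw ⊢
      exact fun i => hw (Sum.inl i)
  have h3 : S.V (ad m t) P₁ ⊓ S.V (ad m u) P₂ = S.V (ad (ad m t) u) P := by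
    ext w
    rw [Submodule.mem_inf, S.mem_V, S.mem_V, S.mem_V]
    constructor
    · rintro ⟨hF1, hF2⟩ (i | j)
      · exact hF1 i
      · exact hF2 (Sum.inr j)
    · intro hF
      refine ⟨fun i => hF (Sum.inl i), ?_⟩
      rintro (i | j)
      · exact hF (Sum.inl (Sum.inl i))
      · exact hF (Sum.inr j)
  have h4 := Submodule.finrank_mono h2
  have h5 := gd_le S (ad m t) P₁
  have h6 := gd_le S (ad m u) P₂
  rw [h3, hP1] at h1
  have hP2' : Module.finrank ℂ (S.V m P₀) = S.gd m := hP2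
  omega

/-- If a further point (of positive size) imposes no condition then the dimension is `0`: for
general positions `V m p ≤ V t q`; fix a general `q` (`Gn.fix`), then `V t q ≠ ⊤`, so there is a
functional `φ ≠ 0` with `V t q ≤ ker φ`; apply `hS`. -/
theorem gd_simple (hS : S.Span) [Fintype κ] (m : κ → T) (t : T) (ht : 1 ≤ S.size t)
    (h : S.gd (ad m t) = S.gd m) : S.gd m = 0 := by
  have c1 : Gn (Unit ⊕ κ) ν fun p => Module.finrank ℂ (S.V (ad m t)
      (Sum.elim (fun a => p (Sum.inr a)) fun _ : Unit => p (Sum.inl ()))) = S.gd (ad m t) := by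
    have h1 := (gn_gd S (ad m t)).comap
      (Sum.elim (Sum.inr : κ → Unit ⊕ κ) fun _ : Unit => Sum.inl ())
      (GsX.elim_inj _ _ Sum.inr_injective fun a ha => by cases ha)
    refine h1.mono fun p hp => ?_
    rwa [GsX.comp_elim] at hp
  have c2 : Gn (Unit ⊕ κ) ν fun p =>
      Module.finrank ℂ (S.V m (fun a => p (Sum.inr a))) = S.gd m :=
    (gn_gd S m).comap (Sum.inr : κ → Unit ⊕ κ) Sum.inr_injective
  have c3 : Gn (Unit ⊕ κ) ν fun p =>
      Module.finrank ℂ (S.V (fun _ : Unit => t) (fun u : Unit => p (Sum.inl u))) =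
        S.gd fun _ : Unit => t :=
    (gn_gd S fun _ : Unit => t).comap (Sum.inl : Unit → Unit ⊕ κ) Sum.inl_injective
  obtain ⟨p₀, hfix⟩ := ((c1.and c2).and c3).fix
  have hX : S.V (fun _ : Unit => t) p₀ < ⊤ := by
    rw [lt_top_iff_ne_top]
    intro htop
    obtain ⟨y, hy⟩ := hfix.exists
    have h1 := hy.2
    change Module.finrank ℂ (S.V (fun _ : Unit => t) p₀) = _ at h1
    rw [htop, finrank_top, Module.finrank_fintype_fun_eq_card] at h1
    have h2 := gd_unit S t
    omega
  obtain ⟨φ, hφ0, hφ⟩ := Submodule.exists_le_ker_of_lt_top _ hX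
  refine hS κ m φ hφ0 (hfix.mono fun y hy => ?_)
  obtain ⟨⟨h1, h2⟩, -⟩ := hy
  change Module.finrank ℂ (S.V (Sum.elim m fun _ : Unit => t) (Sum.elim y p₀)) = _ at h1
  change Module.finrank ℂ (S.V m y) = _ at h2
  rw [V_elim, h, ← h2] at h1
  exact (inf_eq_left.mp (Submodule.eq_of_le_of_finrank_eq inf_le_left h1)).trans hφ

end Pool.Agent.H51.TB
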