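import Pool.Agent.H51.TB.Fam

/-!
# Module A7 (TB): the level lemma

The points are added in the following order: first `i₀`, then those of class larger than `μ`, then
class `μ`, then class `μ - 1`, …, class `1`, class `0`; one phase (`gf_phase`) for each group.
Let `R t` be the dimension after the classes `≥ t` (and `i₀`) have been added.  Then for
`t ≤ μ`: `R t ≤ max (card E - (mass of i₀ and of the classes ≥ t)) (W t)`, by descending induction,
since `R t ≤ max (R (t+1) - mass_t) (W t)` and `W (t+1) ≤ mass_t` for `1 ≤ t < μ`, `Wb ≤ mass_μ`; for `t = 1`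
and `t = 0` use `W 1 = 0`, `W 0 = 0`.  At the end `card E - total mass = 0`.
-/

namespace Pool.Agent.H51.TB

open Finset MvPolynomial

variable {E ν T : Type} [Fintype E] (S : Sys E ν T) {κ : Type}

theorem level (hS : S.Span) [Fintype κ] [DecidableEq κ] (m : κ → T) (b : T)
    (hb : ∀ i, S.Dom b (m i)) (i₀ : κ) (cls : κ → ℕ) (μ : ℕ) (hμ : 1 ≤ μ) (W : ℕ → ℕ) (Wb : ℕ)
    (hW0 : W 0 = 0) (hW1 : W 1 = 0)
    (h1 : ∀ i, i ≠ i₀ → cls i ≤ μ → (S.size (m i) - 1) * S.size b ≤ W (cls i))
    (h2 : ∀ i, i ≠ i₀ → μ < cls i → (S.size (m i) - 1) * S.size b ≤ Wb)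
    (h3 : ∀ t, 1 ≤ t → t < μ →
      W (t + 1) ≤ ∑ i ∈ univ.filter (fun i => i ≠ i₀ ∧ cls i = t), S.size (m i))
    (h4 : Wb ≤ ∑ i ∈ univ.filter (fun i => i ≠ i₀ ∧ cls i = μ), S.size (m i))
    (h5 : Fintype.card E ≤ ∑ i, S.size (m i)) : S.gd m = 0 := by
  -- the groups
  let A : ℕ → Finset κ := fun t => univ.filter (fun i => i = i₀ ∨ t ≤ cls i)
  let B : ℕ → Finset κ := fun t => univ.filter (fun i => i ≠ i₀ ∧ cls i = t)
  have hmemA : ∀ t i, i ∈ A t ↔ (i = i₀ ∨ t ≤ cls i) := fun t i => by simp [A]
  have hmemB : ∀ t i, i ∈ B t ↔ (i ≠ i₀ ∧ cls i = t) := fun t i => by simp [B]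
  have hunion : ∀ t, A t = A (t + 1) ∪ B t := by
    intro t
    ext i
    rw [mem_union, hmemA, hmemA, hmemB]
    constructor
    · rintro (h | h)
      · exact Or.inl (Or.inl h)
      · by_cases hi : i = i₀
        · exact Or.inl (Or.inl hi)
        · rcases Nat.lt_or_ge t (cls i) with h' | h'
          · exact Or.inl (Or.inr h')
          · exact Or.inr ⟨hi, le_antisymm h' h⟩
    · rintro ((h | h) | ⟨_, h⟩)
      · exact Or.inl h
      · exact Or.inr (by omega)
      · exact Or.inr h.ge
  have hdisj : ∀ t, Disjoint (A (t + 1)) (B t) := by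
    intro t
    rw [Finset.disjoint_left]
    intro i hi hi'
    rw [hmemA] at hi
    rw [hmemB] at hi'
    rcases hi with h | h
    · exact hi'.1 h
    · omega
  have hmass : ∀ t, ∑ i ∈ A t, S.size (m i) = ∑ i ∈ A (t + 1), S.size (m i) + ∑ i ∈ B t, S.size (m i) := by
    intro t
    rw [hunion t, sum_union (hdisj t)]
  -- a phase
  have hphase : ∀ t, t ≤ μ → S.gf m (A t) ≤ max (S.gf m (A (t + 1)) - ∑ i ∈ B t, S.size (m i)) (W t) := by
    intro t ht
    rw [hunion t]
    refine gf_phase S hS m b hb (W t) (A (t + 1)) (B t) (hdisj t) ?_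
    intro i hi
    obtain ⟨hi1, hi2⟩ := (hmemB t i).1 hi
    have := h1 i hi1 (by omega)
    rwa [hi2] at this
  -- the large classes
  have hbig : S.gf m (A (μ + 1)) ≤ max (Fintype.card E - ∑ i ∈ A (μ + 1), S.size (m i)) Wb := by
    let C : Finset κ := univ.filter (fun i => i ≠ i₀ ∧ μ < cls i)
    have hmemC : ∀ i, i ∈ C ↔ (i ≠ i₀ ∧ μ < cls i) := fun i => by simp [C]
    have hU : A (μ + 1) = {i₀} ∪ C := by
      ext i
      rw [mem_union, hmemA, hmemC, mem_singleton]
      constructor
      · rintro (h | h)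
        · exact Or.inl h
        · by_cases hi : i = i₀
          · exact Or.inl hi
          · exact Or.inr ⟨hi, h⟩
      · rintro (h | ⟨_, h⟩)
        · exact Or.inl h
        · exact Or.inr h
    have hd : Disjoint ({i₀} : Finset κ) C := by
      rw [Finset.disjoint_singleton_left, hmemC]
      exact fun h => h.1 rfl
    have hp := gf_phase S hS m b hb Wb {i₀} C hd (fun i hi => h2 i ((hmemC i).1 hi).1 ((hmemC i).1 hi).2)
    rw [← hU] at hp
    have hs := gf_singleton S m i₀
    have hm : ∑ i ∈ A (μ + 1), S.size (m i) = S.size (m i₀) + ∑ i ∈ C, S.size (m i) := by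
      rw [hU, sum_union hd, sum_singleton]
    rw [hm]
    have h6 : S.gf m {i₀} - ∑ i ∈ C, S.size (m i) = Fintype.card E - (S.size (m i₀) + ∑ i ∈ C, S.size (m i)) := by
      omega
    rwa [h6] at hp
  -- the descending induction
  have hind : ∀ k, k < μ → S.gf m (A (μ - k)) ≤ max (Fintype.card E - ∑ i ∈ A (μ - k), S.size (m i)) (W (μ - k)) := by
    intro k
    induction k with
    | zero =>
      intro _
      rw [Nat.sub_zero]
      have h7 := hphase μ le_rfl
      have h8 := hmass μ
      have h4' : Wb ≤ ∑ i ∈ B μ, S.size (m i) := h4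
      rcases le_max_iff.1 hbig with h | h
      · rcases le_max_iff.1 h7 with h' | h'
        · exact le_max_of_le_left (by omega)
        · exact le_max_of_le_right h'
      · rcases le_max_iff.1 h7 with h' | h'
        · exact le_max_of_le_left (by omega)
        · exact le_max_of_le_right h'
    | succ k ih =>
      intro hk
      have ih' := ih (by omega)
      have hst : μ - k = (μ - (k + 1)) + 1 := by omega
      have ht1 : 1 ≤ μ - (k + 1) := by omega
      rw [hst] at ih'
      generalize μ - (k + 1) = t at *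
      have h7 := hphase t (by omega)
      have h8 := hmass t
      have h9 : W (t + 1) ≤ ∑ i ∈ B t, S.size (m i) := h3 t ht1 (by omega)
      rcases le_max_iff.1 ih' with h | h
      · rcases le_max_iff.1 h7 with h' | h'
        · exact le_max_of_le_left (by omega)
        · exact le_max_of_le_right h'
      · rcases le_max_iff.1 h7 with h' | h'
        · exact le_max_of_le_left (by omega)
        · exact le_max_of_le_right h'
  have hone := hind (μ - 1) (by omega)
  have hsub : μ - (μ - 1) = 1 := by omega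
  rw [hsub, hW1, Nat.max_zero] at hone
  have h7 := hphase 0 (Nat.zero_le _)
  rw [hW0, Nat.max_zero] at h7
  have h8 := hmass 0
  have hA0 : A 0 = univ := by
    ext i
    simp [A]
  rw [hA0] at h7 h8
  rw [gf_univ] at h7
  simp only [Nat.zero_add] at h7 h8
  omega

end Pool.Agent.H51.TB
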