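import Pool.Agent.H51.TB.Core
import Pool.Agent.H51.TB.Cone
import Pool.Agent.H21.NX.Final

/-!
# Module E6 (TB): the theorem on pair sums

`pairs`: `k = 0`: `window_fin`.  Let `m i₀ = M` be the largest multiplicity.  If `M ≥ d` use `cone`.
Otherwise let `S` be the multiset of the `m i`, `i ≠ i₀`, together with
`binom (d + r, r) - ∑ ell r (m i)` simple points.  Then `1 ≤ x ≤ M`, `x + M ≤ d + 1` for `x ∈ S`,
`ell r M + tot r S ≥ binom (d + r, r) = ell r (d + 1)`, and the part of `tot r S` with `x + M = d + 1` is at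
most the sum in `hH` (simple points do not contribute as `M ≤ d - 1`).  So the part with `x + M ≤ d` is at
least `η N - ell r M ≥ (η / 2) N` (`grow_one`), and for one of the at most `d` values `μ`, `1 ≤ μ`,
`μ + M ≤ d`, `S.count μ * ell r μ ≥ η / (2 (d + 1)) * N`.  Apply `core` (with `η / (2 (d + 1))`) and
`max_of_GM`.

`pairs_le`: the sum in `hH` is over `i` with `m i + M = d + 1`, which can only be `i₀` (if `2 M = d + 1`),
so it is at most `ell r M ≤ N / 2`.
-/

namespace Pool.Agent.H51.TB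

open Finset Pool.Agent.H18.Fat Pool.Agent.H18.Ex Pool.Agent.H21.NX

private theorem Pair_ell (r d : ℕ) : ell (r - 1) (d + 1) ≤ ell r (d + 1) := by
  rcases Nat.eq_zero_or_pos r with rfl | hr
  · exact le_rfl
  · obtain ⟨s, rfl⟩ : ∃ s, r = s + 1 := ⟨r - 1, by omega⟩
    rw [Nat.add_sub_cancel, ell_succ]
    exact Nat.le_add_left _ _

private theorem Pair_tot (n D : ℕ) (S : Multiset ℕ) (hS : ∀ m ∈ S, m ≤ D) :
    tot n S = ∑ μ ∈ Finset.range (D + 1), S.count μ * ell n μ := by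
  unfold tot
  have h2 := Finset.sum_multiset_map_count S (ell n)
  rw [h2]
  rw [Finset.sum_subset (s₂ := Finset.range (D + 1))]
  · exact Finset.sum_congr rfl fun x _ => by rw [smul_eq_mul]
  · intro x hx
    rw [Finset.mem_range, Nat.lt_succ_iff]
    exact hS x (Multiset.mem_toFinset.1 hx)
  · intro x _ hx
    rw [Multiset.count_eq_zero_of_notMem (fun h => hx (Multiset.mem_toFinset.2 h)), zero_smul]

/-- the points other than `i₀` and simple points -/
private def Pair_S (r d : ℕ) {k : ℕ} (m : Fin k → ℕ) (i₀ : Fin k) : Multiset ℕ :=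
  ((univ : Finset (Fin k)).erase i₀).val.map m +
    Multiset.replicate ((d + r).choose r - ∑ i, ell r (m i)) 1

private theorem Pair_aug (r d : ℕ) {k : ℕ} (m : Fin k → ℕ) (i₀ : Fin k) :
    m i₀ ::ₘ Pair_S r d m i₀ = aug r d m := by
  unfold Pair_S aug
  rw [← Multiset.cons_add, ← Multiset.map_cons]
  congr 2
  rw [Finset.erase_val]
  exact Multiset.cons_erase (Finset.mem_univ i₀)

private theorem Pair_mem {r d k : ℕ} {m : Fin k → ℕ} {i₀ : Fin k} {x : ℕ} (hx : x ∈ Pair_S r d m i₀) :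
    (∃ j, j ≠ i₀ ∧ m j = x) ∨ x = 1 := by
  rcases Multiset.mem_add.1 hx with hx | hx
  · obtain ⟨j, hj, rfl⟩ := Multiset.mem_map.1 hx
    exact Or.inl ⟨j, Finset.ne_of_mem_erase (Finset.mem_def.2 hj), rfl⟩
  · exact Or.inr (Multiset.eq_of_mem_replicate hx)

private theorem Pair_hi (r d : ℕ) {k : ℕ} (m : Fin k → ℕ) (i₀ : Fin k) (M : ℕ) (hMd : M < d)
    (hm : ∀ j, j ≠ i₀ → m j + M ≤ d + 1) :
    tot r ((Pair_S r d m i₀).filter fun x => ¬ (x + M ≤ d)) ≤
      ∑ i ∈ univ.filter (fun i => m i + M = d + 1), ell r (m i) := by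
  unfold Pair_S
  rw [Multiset.filter_add, tot_add]
  have h1 : (Multiset.replicate ((d + r).choose r - ∑ i, ell r (m i)) 1).filter (fun x => ¬ (x + M ≤ d)) = 0 := by
    rw [Multiset.filter_eq_nil]
    intro x hx
    rw [Multiset.eq_of_mem_replicate hx]
    omega
  rw [h1, tot_zero, add_zero, Multiset.filter_map]
  unfold tot
  rw [Multiset.map_map, ← Finset.filter_val]
  change ∑ i ∈ (univ.erase i₀).filter (fun x => ¬ (m x + M ≤ d)), ell r (m i) ≤ _
  apply Finset.sum_le_sum_of_subset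
  intro j hj
  rw [Finset.mem_filter, Finset.mem_erase] at hj
  rw [Finset.mem_filter]
  refine ⟨Finset.mem_univ _, ?_⟩
  have := hm j hj.1.1
  have h2 := hj.2
  omega

theorem pairs (d : ℕ) (η : ℝ) (hη : 0 < η) : ∃ r₀ : ℕ, ∀ r : ℕ, r₀ ≤ r → ∀ (k : ℕ)
    (m : Fin k → ℕ), (∀ i, 1 ≤ m i) → (∀ i j, i ≠ j → m i + m j ≤ d + 1) →
    ∀ M : ℕ, (∀ i, m i ≤ M) → (∃ i, m i = M) →
    (M < d → ((∑ i ∈ univ.filter (fun i => m i + M = d + 1), ell r (m i) : ℕ) : ℝ) ≤
      (1 - η) * ((d + r).choose r : ℝ)) →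
    ForGeneralPoints r k fun p => ImposesMaximalConditions r d p m := by
  have hd1 : (0 : ℝ) < (d : ℝ) + 1 := by positivity
  obtain ⟨r₁, hcore⟩ := core d (η / (2 * (d + 1))) (by positivity)
  obtain ⟨n₀, hgrow⟩ := grow_one d (2 / η)
  refine ⟨max (max r₁ n₀) 1, ?_⟩
  intro r hr k m hm hp M hM hex hH
  have hr1 : r₁ ≤ r := le_trans (le_max_left _ _) (le_trans (le_max_left _ _) hr)
  have hr2 : n₀ ≤ r := le_trans (le_max_right _ _) (le_trans (le_max_left _ _) hr)
  have hr3 : 1 ≤ r := le_trans (le_max_right _ _) hr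
  obtain ⟨i₀, hi₀⟩ := hex
  rcases le_or_gt d M with hdM | hMd
  · exact cone r d k hr3 m hm hp i₀ (by rw [hi₀]; exact hdM)
  have hH' := hH hMd
  set N : ℕ := ell r (d + 1) with hN
  have hNc : (d + r).choose r = N := (ell_eq_choose r d).symm
  rw [hNc] at hH'
  have hN1 : 1 ≤ N := ell_pos r (by omega)
  have hN0 : (0 : ℝ) < N := by exact_mod_cast hN1
  have hM1 : 1 ≤ M := by rw [← hi₀]; exact hm i₀
  have hpM : ∀ j, j ≠ i₀ → m j + M ≤ d + 1 := by
    intro j hj
    rw [← hi₀]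
    exact hp j i₀ hj
  set S := Pair_S r d m i₀ with hS
  have hSmem : ∀ x ∈ S, 1 ≤ x ∧ x ≤ M ∧ x + M ≤ d + 1 := by
    intro x hx
    rcases Pair_mem hx with ⟨j, hj, rfl⟩ | rfl
    · exact ⟨hm j, hM j, hpM j hj⟩
    · exact ⟨le_rfl, hM1, by omega⟩
  have haug : M ::ₘ S = aug r d m := by
    rw [hS, ← hi₀]
    exact Pair_aug r d m i₀
  have htot : N ≤ ell r M + tot r S := by
    rw [← tot_cons, haug]
    exact le_tot_aug r d m
  have hellM : (ell r M : ℝ) ≤ η / 2 * N := by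
    have h1 := hgrow r hr2 M hMd.le
    have h2 : ((ell (r - 1) (d + 1) : ℕ) : ℝ) ≤ N := by exact_mod_cast Pair_ell r d
    have h3 : 2 / η * (ell r M : ℝ) ≤ N := h1.trans h2
    have h4 : η / 2 * (2 / η * (ell r M : ℝ)) ≤ η / 2 * N := mul_le_mul_of_nonneg_left h3 (by positivity)
    have h5 : η / 2 * (2 / η * (ell r M : ℝ)) = ell r M := by
      field_simp
    rwa [h5] at h4
  set S' := S.filter fun x => x + M ≤ d with hS'
  have hsplit : tot r S = tot r S' + tot r (S.filter fun x => ¬ (x + M ≤ d)) := by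
    rw [← tot_add, Multiset.filter_add_not]
  have hhi := Pair_hi r d m i₀ M hMd hpM
  rw [← hS] at hhi
  have hlow : η / 2 * N ≤ (tot r S' : ℝ) := by
    have h1 : (N : ℝ) ≤ ell r M + tot r S := by exact_mod_cast htot
    have h2 : (tot r S : ℝ) = tot r S' + tot r (S.filter fun x => ¬ (x + M ≤ d)) := by exact_mod_cast hsplit
    have h3 : (tot r (S.filter fun x => ¬ (x + M ≤ d)) : ℝ) ≤
        ((∑ i ∈ univ.filter (fun i => m i + M = d + 1), ell r (m i) : ℕ) : ℝ) := by exact_mod_cast hhi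
    nlinarith
  obtain ⟨μ, hμ1, hμ2, hμ3⟩ : ∃ μ : ℕ, 1 ≤ μ ∧ μ + M ≤ d ∧
      η / (2 * (d + 1)) * (N : ℝ) ≤ ((S.count μ * ell r μ : ℕ) : ℝ) := by
    by_contra hcon
    push Not at hcon
    have hS'm : ∀ x ∈ S', x ≤ d - M := by
      intro x hx
      have := (Multiset.mem_filter.1 hx).2
      omega
    have h1 := Pair_tot r (d - M) S' hS'm
    have h2 : (tot r S' : ℝ) = ∑ μ ∈ Finset.range (d - M + 1), ((S'.count μ * ell r μ : ℕ) : ℝ) := by
      rw [h1]
      push_cast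
      rfl
    have h3 : ∑ μ ∈ Finset.range (d - M + 1), ((S'.count μ * ell r μ : ℕ) : ℝ) ≤
        ∑ μ ∈ Finset.range (d - M + 1), η / (2 * (d + 1)) * (N : ℝ) := by
      apply Finset.sum_le_sum
      intro μ hμ
      rw [Finset.mem_range] at hμ
      rcases Nat.eq_zero_or_pos μ with h0 | h0
      · rw [h0, ell_zero hr3, mul_zero, Nat.cast_zero]
        positivity
      · have h4 : S'.count μ = S.count μ := Multiset.count_filter_of_pos (p := fun x => x + M ≤ d) (by omega)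
        rw [h4]
        exact (hcon μ h0 (by omega)).le
    rw [Finset.sum_const, Finset.card_range, nsmul_eq_mul] at h3
    have h5 : ((d - M + 1 : ℕ) : ℝ) ≤ (d : ℝ) := by
      have : d - M + 1 ≤ d := by omega
      exact_mod_cast this
    have h6 : ((d - M + 1 : ℕ) : ℝ) * (η / (2 * (d + 1)) * (N : ℝ)) ≤ d * (η / (2 * (d + 1)) * (N : ℝ)) :=
      mul_le_mul_of_nonneg_right h5 (by positivity)
    have h7 : (d : ℝ) * (η / (2 * (d + 1)) * (N : ℝ)) < η / 2 * N := by
      have h8 : (d : ℝ) * (η / (2 * (d + 1)) * (N : ℝ)) = η / 2 * N * (d / (d + 1)) := by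
        field_simp
      rw [h8]
      have h9 : (d : ℝ) / (d + 1) < 1 := by
        rw [div_lt_one hd1]
        linarith
      have h10 : 0 < η / 2 * (N : ℝ) := by positivity
      nlinarith
    linarith
  have hμM : μ ≤ M := by
    have h1 : 0 < S.count μ := by
      rcases Nat.eq_zero_or_pos (S.count μ) with h0 | h0
      · rw [h0, zero_mul, Nat.cast_zero] at hμ3
        have : 0 < η / (2 * ((d : ℝ) + 1)) * (N : ℝ) := by positivity
        linarith
      · exact h0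
    exact (hSmem μ (Multiset.count_pos.1 h1)).2.1
  refine max_of_GM r k d hr3 m ?_
  rw [← aug_map, ← haug]
  exact hcore r hr1 M μ M S hμ1 hμM hμ2 le_rfl hSmem htot hμ3

theorem pairs_le (d : ℕ) : ∃ r₀ : ℕ, ∀ r : ℕ, r₀ ≤ r → ∀ (k : ℕ) (m : Fin k → ℕ),
    (∀ i, 1 ≤ m i) → (∀ i j, i ≠ j → m i + m j ≤ d) →
    ForGeneralPoints r k fun p => ImposesMaximalConditions r d p m := by
  obtain ⟨r₁, hpairs⟩ := pairs d (1 / 2) (by norm_num)
  obtain ⟨n₀, hgrow⟩ := grow_one d 2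
  refine ⟨max (max r₁ n₀) 1, ?_⟩
  intro r hr k m hm hp
  have hr1 : r₁ ≤ r := le_trans (le_max_left _ _) (le_trans (le_max_left _ _) hr)
  have hr2 : n₀ ≤ r := le_trans (le_max_right _ _) (le_trans (le_max_left _ _) hr)
  have hr3 : 1 ≤ r := le_trans (le_max_right _ _) hr
  rcases Nat.eq_zero_or_pos k with rfl | hk
  · exact window_fin r d hr3 0 m (fun i => i.elim0) (fun i => i.elim0)
  have : Nonempty (Fin k) := ⟨⟨0, hk⟩⟩
  obtain ⟨i₀, hi₀⟩ := Finite.exists_max m
  refine hpairs r hr1 k m hm (fun i j hij => (hp i j hij).trans (Nat.le_succ d)) (m i₀) hi₀ ⟨i₀, rfl⟩ ?_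
  intro hMd
  have h1 : univ.filter (fun i => m i + m i₀ = d + 1) ⊆ {i₀} := by
    intro j hj
    rw [Finset.mem_filter] at hj
    rw [Finset.mem_singleton]
    by_contra hne
    have := hp j i₀ hne
    have h2 := hj.2
    omega
  have h2 : ∑ i ∈ univ.filter (fun i => m i + m i₀ = d + 1), ell r (m i) ≤ ell r (m i₀) := by
    refine (Finset.sum_le_sum_of_subset h1).trans ?_
    rw [Finset.sum_singleton]
  have h3 := hgrow r hr2 (m i₀) hMd.le
  have h4 : ((ell (r - 1) (d + 1) : ℕ) : ℝ) ≤ ((ell r (d + 1) : ℕ) : ℝ) := by exact_mod_cast Pair_ell r d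
  have h5 : ((∑ i ∈ univ.filter (fun i => m i + m i₀ = d + 1), ell r (m i) : ℕ) : ℝ) ≤ (ell r (m i₀) : ℝ) := by
    exact_mod_cast h2
  rw [← ell_eq_choose]
  linarith

end Pool.Agent.H51.TB
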