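import Pool.Agent.H51.TB.Gd

/-!
# Module U1 (TB2): sections

If the general dimension is not `0`, there are nonzero solutions with polynomial coefficients.

Proof.  Let `K` be the fraction field of `R = MvPolynomial (κ × ν) ℂ` and `Mx` the matrix over `R` of all
conditions (rows `Σ i, S.R (m i)`, finite; columns `E`).  If `Mx` has a nonzero kernel vector over `K`, clear
denominators.  Otherwise its rank over `K` is `card E`, so some square submatrix with all columns has a
nonzero determinant, a polynomial; at a position where it does not vanish `V m p = ⊥`, so `gd m = 0`.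
(Compare the proof of `exists_poly_solution` in `Pool/Agent/H18/Ex/OnePar.lean`.  Alternatively: let
`r < card E` be the largest rank at a position, take an `r`-minor which is a nonzero polynomial, add one
column and use Cramer's rule; all `(r+1)`-minors vanish identically.)
-/

namespace Pool.Agent.H51.TB

open Finset MvPolynomial

variable {E ν T : Type} [Fintype E] (S : Sys E ν T) {κ : Type}

private theorem Sect_solution {α ρ σ : Type} [Fintype ρ] [Fintype α]
    (Mx : ρ → α → MvPolynomial σ ℂ)
    (h : ∀ t : σ → ℂ, ∃ f : α → ℂ, (∀ r, ∑ a, f a * eval t (Mx r a) = 0) ∧ ∃ a, f a ≠ 0) :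
    ∃ F : α → MvPolynomial σ ℂ, (∀ r, ∑ a, Mx r a * F a = 0) ∧ ∃ a, F a ≠ 0 := by
  classical
  let K := FractionRing (MvPolynomial σ ℂ)
  let φ : MvPolynomial σ ℂ →+* K := algebraMap (MvPolynomial σ ℂ) K
  have hφ : Function.Injective φ := IsFractionRing.injective (MvPolynomial σ ℂ) K
  let Mk : Matrix ρ α K := fun r a => φ (Mx r a)
  by_cases hker : LinearMap.ker Mk.mulVecLin = ⊥
  · exfalso
    obtain ⟨g, hg⟩ := LinearMap.exists_leftInverse_of_injective Mk.mulVecLin hker
    let B : Matrix α ρ K := LinearMap.toMatrix' g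
    have hB : B * Mk = 1 := by
      have h1 : LinearMap.toMatrix' (g ∘ₗ Mk.mulVecLin) = 1 := by
        rw [hg, LinearMap.toMatrix'_id]
      rw [LinearMap.toMatrix'_comp] at h1
      rw [← h1]
      congr 1
      rw [← Matrix.toLin'_apply', LinearMap.toMatrix'_toLin']
    obtain ⟨δ, hδ⟩ := IsLocalization.exist_integer_multiples_of_finite
      (nonZeroDivisors (MvPolynomial σ ℂ)) (fun x : α × ρ => B x.1 x.2)
    choose B' hB' using hδ
    have hδ0 : (δ : MvPolynomial σ ℂ) ≠ 0 := nonZeroDivisors.coe_ne_zero δ
    have key : ∀ a a' : α, ∑ r, B' (a, r) * Mx r a' = if a = a' then (δ : MvPolynomial σ ℂ) else 0 := by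
      intro a a'
      apply hφ
      rw [map_sum]
      have h1 : ∀ r, φ (B' (a, r) * Mx r a') = φ δ * (B a r * Mk r a') := by
        intro r
        rw [map_mul]
        have h2 := hB' (a, r)
        rw [Algebra.smul_def] at h2
        rw [show φ (B' (a, r)) = φ δ * B a r from h2]
        show φ δ * B a r * φ (Mx r a') = φ δ * (B a r * φ (Mx r a'))
        ring
      rw [sum_congr rfl fun r _ => h1 r, ← mul_sum]
      have h3 : ∑ r, B a r * Mk r a' = (B * Mk) a a' := rfl
      rw [h3, hB, Matrix.one_apply]
      split_ifs with hh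
      · rw [mul_one]
      · rw [mul_zero, map_zero]
    obtain ⟨t, ht⟩ : ∃ t : σ → ℂ, eval t (δ : MvPolynomial σ ℂ) ≠ 0 := by
      by_contra hcon
      push Not at hcon
      apply hδ0
      exact MvPolynomial.funext fun t => by rw [hcon t, map_zero]
    obtain ⟨f, hf, a, hfa⟩ := h t
    apply hfa
    have h4 : eval t (δ : MvPolynomial σ ℂ) * f a = 0 := by
      have h5 : ∑ a' : α, (∑ r, eval t (B' (a, r)) * eval t (Mx r a')) * f a' = 0 := by
        simp only [sum_mul]
        rw [sum_comm]
        refine sum_eq_zero fun r _ => ?_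
        have h6 := hf r
        have h7 : ∑ a' : α, eval t (B' (a, r)) * eval t (Mx r a') * f a' =
            eval t (B' (a, r)) * ∑ a' : α, f a' * eval t (Mx r a') := by
          rw [mul_sum]
          exact sum_congr rfl fun a' _ => by ring
        rw [h7, h6, mul_zero]
      have h8 : ∀ a' : α, (∑ r, eval t (B' (a, r)) * eval t (Mx r a')) =
          if a = a' then eval t (δ : MvPolynomial σ ℂ) else 0 := by
        intro a'
        have h9 := congrArg (eval t) (key a a')
        rw [map_sum] at h9
        simp only [map_mul] at h9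
        rw [h9]
        split_ifs
        · rfl
        · exact map_zero _
      rw [sum_congr rfl fun a' _ => by rw [h8 a']] at h5
      rw [Finset.sum_eq_single a] at h5
      · rw [if_pos rfl] at h5
        exact h5
      · intro b _ hb
        rw [if_neg (fun h => hb h.symm), zero_mul]
      · intro hh
        exact absurd (mem_univ _) hh
    rcases mul_eq_zero.1 h4 with h5 | h5
    · exact absurd h5 ht
    · exact h5
  · obtain ⟨v, hv, hv0⟩ := (Submodule.ne_bot_iff _).1 hker
    rw [LinearMap.mem_ker, Matrix.mulVecLin_apply] at hv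
    obtain ⟨a₀, ha₀⟩ : ∃ a, v a ≠ 0 := by
      by_contra hcon
      push Not at hcon
      exact hv0 (funext hcon)
    obtain ⟨δ, hδ⟩ := IsLocalization.exist_integer_multiples_of_finite
      (nonZeroDivisors (MvPolynomial σ ℂ)) v
    choose F hF' using hδ
    have hδ0 : (δ : MvPolynomial σ ℂ) ≠ 0 := nonZeroDivisors.coe_ne_zero δ
    have hFa : ∀ a : α, φ (F a) = φ δ * v a := by
      intro a
      have h2 := hF' a
      rw [Algebra.smul_def] at h2
      exact h2
    refine ⟨F, ?_, a₀, ?_⟩
    · intro r
      apply hφ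
      rw [map_zero, map_sum]
      have h1 : ∑ a : α, φ (Mx r a * F a) = φ δ * ∑ a : α, Mk r a * v a := by
        rw [mul_sum]
        refine sum_congr rfl fun a _ => ?_
        rw [map_mul, hFa a]
        show φ (Mx r a) * (φ δ * v a) = φ δ * (φ (Mx r a) * v a)
        ring
      rw [h1]
      have h2 : ∑ a : α, Mk r a * v a = Mk.mulVec v r := rfl
      rw [h2, hv]
      show φ δ * 0 = 0
      rw [mul_zero]
    · intro hz
      have h1 := hFa a₀
      rw [hz, map_zero] at h1
      rcases mul_eq_zero.1 h1.symm with h2 | h2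
      · apply hδ0
        apply hφ
        rw [h2, map_zero]
      · exact ha₀ h2

theorem exists_section [Fintype κ] (m : κ → T) (h : S.gd m ≠ 0) :
    ∃ F : E → MvPolynomial (κ × ν) ℂ, (∃ e, F e ≠ 0) ∧
      ∀ i (r : S.R (m i)), ∑ e, rename (fun v => (i, v)) (S.co (m i) r e) * F e = 0 := by
  classical
  have hfin : ∀ i, Finite (S.R (m i)) := fun i => S.fin (m i)
  let _ : Fintype (Σ i, S.R (m i)) := Fintype.ofFinite _
  obtain ⟨F, hF, hne⟩ := Sect_solution (ρ := Σ i, S.R (m i)) (σ := κ × ν)
    (fun x e => rename (fun v => (x.1, v)) (S.co (m x.1) x.2 e)) (by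
      intro t
      have h1 : Module.finrank ℂ (S.V m fun i v => t (i, v)) ≠ 0 := by
        intro h0
        apply h
        unfold Sys.gd
        exact Nat.sInf_eq_zero.2 (Or.inl ⟨_, h0⟩)
      have h2 : S.V m (fun i v => t (i, v)) ≠ ⊥ := by
        intro hb
        rw [hb] at h1
        exact h1 (finrank_bot ℂ (E → ℂ))
      obtain ⟨f, hf, hf0⟩ := (Submodule.ne_bot_iff _).1 h2
      refine ⟨f, fun r => ?_, ?_⟩
      · have h3 := hf r.1 r.2
        rw [← h3]
        refine sum_congr rfl fun e _ => ?_
        rw [eval_rename, mul_comm]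
        rfl
      · by_contra hcon
        push Not at hcon
        exact hf0 (funext hcon))
  exact ⟨F, hne, fun i r => hF ⟨i, r⟩⟩

/-- The values of a section are solutions. -/
theorem section_mem (m : κ → T) (F : E → MvPolynomial (κ × ν) ℂ)
    (hF : ∀ i (r : S.R (m i)), ∑ e, rename (fun v => (i, v)) (S.co (m i) r e) * F e = 0)
    (p : κ → ν → ℂ) : (fun e => eval (fun x : κ × ν => p x.1 x.2) (F e)) ∈ S.V m p := by
  rw [S.mem_V]
  intro i r
  have h1 := congrArg (eval (fun x : κ × ν => p x.1 x.2)) (hF i r)
  rw [map_sum, map_zero] at h1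
  rw [← h1]
  refine sum_congr rfl fun e _ => ?_
  rw [map_mul, eval_rename]
  rfl

end Pool.Agent.H51.TB
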