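import Mathlib

/-!
# Module D9 (TB): the Diophantine system

The unknowns are integers `z s ρ` (`ρ < μ`, `s + ρ + 1 ≤ d`).  `z s ρ` contributes
`z s ρ * v s ρ` to the positions `j` with `s ≤ j ≤ s + ρ` (`j < d`).

Step 1.  `z₁ s 0 = P s / v s 0` (integer division), so that the remaining `P' s = P s - z₁ s 0 * v s 0`
is in `[0, v s 0) ⊂ [0, B)`, `|z₁ s 0| ≤ E + 1` (indeed `≤ E` if `E ≥ 1`).

Step 2 (`μ ≥ 2`; for `μ = 1` step 1 is the solution since `v s 0 = 1`).  For a vector `Q` (on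
`[0, d)`) let `Q^i = ∑_{j ≡ i mod μ} Q j`, `0 ≤ i < μ`.  Choose `x t ∈ [0, q)`, `t = 1, …, μ - 1`, with
`x t * v 0 (μ - 1 - t) ≡ P'^(μ - 1 - t) - P'^(μ - t) (mod q)` (`hcop`), and subtract
`x t * v 0 (μ - 1 - t)` on the positions `[0, μ - 1 - t]`.  Then all `Q^i` are congruent mod `q`:
the vector subtracted for `t` changes `Q^i - Q^(i+1)` only for `i = μ - 1 - t`.
Step 3.  Subtract unit windows `[s, s + μ - 1]` (`z s (μ - 1)`, `v = 1`) from the right
(`s = d - μ, …, 0`) such that the entries `j ≥ μ - 1` become zero; this does not change the differences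
`Q^i - Q^(i')`.  The remaining entries `r i`, `i < μ - 1`, are `Q^i - Q^(μ-1)`, hence divisible by `q`.
Step 4.  `q * 1_{i} = q * 1_{[i, i + μ - 1]} - q * 1_{[i + 1, i + μ - 1]}`: use `z i (μ - 1)` and
`z (i + 1) (μ - 2)` (`v = q`, `1 ≤ i + 1`, `i + 1 + μ ≤ d`).
All coefficients are bounded by a constant (depending on `d`) times `q * B`.
(If `(s, ρ)` is used in several steps the values are added.)
-/

namespace Pool.Agent.H51.TB

open Finset

/-- `f` is represented on `[0, d)` with coefficients bounded by `C` -/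
private def Solve_Rep (d μ : ℕ) (v : ℕ → ℕ → ℤ) (C : ℤ) (f : ℕ → ℤ) : Prop :=
  ∃ z : ℕ → ℕ → ℤ, (∀ s ρ, |z s ρ| ≤ C) ∧
    ∀ j < d, f j = ∑ s ∈ range d, ∑ ρ ∈ range μ,
      if s ≤ j ∧ j ≤ s + ρ ∧ s + ρ + 1 ≤ d then z s ρ * v s ρ else 0

private theorem Solve_mono {d μ : ℕ} {v : ℕ → ℕ → ℤ} {C C' : ℤ} {f : ℕ → ℤ}
    (h : Solve_Rep d μ v C f) (hC : C ≤ C') : Solve_Rep d μ v C' f := by
  obtain ⟨z, h1, h2⟩ := h
  exact ⟨z, fun s ρ => (h1 s ρ).trans hC, h2⟩

private theorem Solve_congr {d μ : ℕ} {v : ℕ → ℕ → ℤ} {C : ℤ} {f g : ℕ → ℤ}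
    (h : Solve_Rep d μ v C f) (hfg : ∀ j < d, g j = f j) : Solve_Rep d μ v C g := by
  obtain ⟨z, h1, h2⟩ := h
  exact ⟨z, h1, fun j hj => (hfg j hj).trans (h2 j hj)⟩

private theorem Solve_zero (d μ : ℕ) (v : ℕ → ℕ → ℤ) : Solve_Rep d μ v 0 (fun _ => 0) := by
  refine ⟨fun _ _ => 0, fun s ρ => by simp, fun j _ => ?_⟩
  simp

private theorem Solve_add {d μ : ℕ} {v : ℕ → ℕ → ℤ} {C C' : ℤ} {f g : ℕ → ℤ}
    (h : Solve_Rep d μ v C f) (h' : Solve_Rep d μ v C' g) :
    Solve_Rep d μ v (C + C') (fun j => f j + g j) := by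
  obtain ⟨z, h1, h2⟩ := h
  obtain ⟨z', h1', h2'⟩ := h'
  refine ⟨fun s ρ => z s ρ + z' s ρ, fun s ρ => ?_, fun j hj => ?_⟩
  · exact (abs_add_le _ _).trans (add_le_add (h1 s ρ) (h1' s ρ))
  · simp only
    rw [h2 j hj, h2' j hj, ← Finset.sum_add_distrib]
    refine Finset.sum_congr rfl fun s _ => ?_
    rw [← Finset.sum_add_distrib]
    refine Finset.sum_congr rfl fun ρ _ => ?_
    split_ifs
    · ring
    · ring

private theorem Solve_sum {d μ : ℕ} {v : ℕ → ℕ → ℤ} (S : Finset ℕ) (C : ℕ → ℤ)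
    (f : ℕ → ℕ → ℤ) (h : ∀ i ∈ S, Solve_Rep d μ v (C i) (f i)) :
    Solve_Rep d μ v (∑ i ∈ S, C i) (fun j => ∑ i ∈ S, f i j) := by
  classical
  induction S using Finset.induction_on with
  | empty => simpa using Solve_zero d μ v
  | insert a S ha ih =>
    have h1 := h a (Finset.mem_insert_self a S)
    have h2 := ih fun i hi => h i (Finset.mem_insert_of_mem hi)
    have h3 := Solve_add h1 h2
    rw [Finset.sum_insert ha]
    refine Solve_congr h3 fun j _ => ?_
    rw [Finset.sum_insert ha]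

private theorem Solve_basic {d μ : ℕ} (v : ℕ → ℕ → ℤ) {s0 ρ0 : ℕ} (hρ : ρ0 < μ)
    (hs : s0 + ρ0 + 1 ≤ d) (x : ℤ) :
    Solve_Rep d μ v |x| (fun j => if s0 ≤ j ∧ j ≤ s0 + ρ0 then x * v s0 ρ0 else 0) := by
  refine ⟨fun s ρ => if s = s0 ∧ ρ = ρ0 then x else 0, fun s ρ => ?_, fun j _ => ?_⟩
  · simp only
    split_ifs
    · exact le_rfl
    · rw [abs_zero]
      exact abs_nonneg x
  · rw [Finset.sum_eq_single s0, Finset.sum_eq_single ρ0]
    · simp only [if_true, and_self]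
      by_cases h : s0 ≤ j ∧ j ≤ s0 + ρ0
      · rw [if_pos h, if_pos ⟨h.1, h.2, hs⟩]
      · rw [if_neg h, if_neg fun h' => h ⟨h'.1, h'.2.1⟩]
    · intro ρ _ hne
      beta_reduce
      rw [if_neg (fun h' : s0 = s0 ∧ ρ = ρ0 => hne h'.2), zero_mul, ite_self]
    · intro h
      exact absurd (Finset.mem_range.2 hρ) h
    · intro s _ hne
      refine Finset.sum_eq_zero fun ρ _ => ?_
      beta_reduce
      rw [if_neg (fun h' : s = s0 ∧ ρ = ρ0 => hne h'.1), zero_mul, ite_self]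
    · intro h
      exact absurd (Finset.mem_range.2 (by omega)) h

/-- unit windows -/
private theorem Solve_win {d μ : ℕ} (hμ : 1 ≤ μ) {v : ℕ → ℕ → ℤ}
    (hv : ∀ s, s + μ ≤ d → v s (μ - 1) = 1) {s0 : ℕ} (hs : s0 + μ ≤ d) (x : ℤ) :
    Solve_Rep d μ v |x| (fun j => if s0 ≤ j ∧ j < s0 + μ then x else 0) := by
  refine Solve_congr (Solve_basic v (show μ - 1 < μ by omega) (show s0 + (μ - 1) + 1 ≤ d by omega) x)
    fun j _ => ?_
  rw [hv s0 hs, mul_one]
  by_cases h : s0 ≤ j ∧ j < s0 + μ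
  · rw [if_pos h, if_pos ⟨h.1, by omega⟩]
  · rw [if_neg h, if_neg fun h' => h ⟨h'.1, by omega⟩]

private theorem Solve_shift {d μ : ℕ} (hμ : 1 ≤ μ) {v : ℕ → ℕ → ℤ}
    (hv : ∀ s, s + μ ≤ d → v s (μ - 1) = 1) {j0 : ℕ} (h1 : μ ≤ j0) (h2 : j0 < d) (x : ℤ) :
    Solve_Rep d μ v (2 * |x|) (fun j => (if j = j0 then x else 0) -
      (if j = j0 - μ then x else 0)) := by
  have h3 := Solve_add (Solve_win hμ hv (show j0 - μ + 1 + μ ≤ d by omega) x)
    (Solve_win hμ hv (show j0 - μ + μ ≤ d by omega) (-x))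
  rw [abs_neg, ← two_mul] at h3
  refine Solve_congr h3 fun j _ => ?_
  by_cases e1 : j = j0
  · rw [if_pos e1, if_neg (by omega), if_pos (by omega), if_neg (by omega)]
    ring
  · by_cases e2 : j = j0 - μ
    · rw [if_neg e1, if_pos e2, if_neg (by omega), if_pos (by omega)]
      ring
    · rw [if_neg e1, if_neg e2]
      by_cases e3 : j0 - μ + 1 ≤ j ∧ j < j0 - μ + 1 + μ
      · rw [if_pos e3, if_pos (by omega)]
        ring
      · rw [if_neg e3, if_neg (by omega)]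
        ring

private theorem Solve_mod {d μ : ℕ} (hμ : 1 ≤ μ) {v : ℕ → ℕ → ℤ}
    (hv : ∀ s, s + μ ≤ d → v s (μ - 1) = 1) (x : ℤ) (j0 : ℕ) (h2 : j0 < d) :
    Solve_Rep d μ v (2 * j0 * |x|) (fun j => (if j = j0 then x else 0) -
      (if j = j0 % μ then x else 0)) := by
  induction j0 using Nat.strong_induction_on with
  | _ j0 ih =>
    rcases Nat.lt_or_ge j0 μ with h | h
    · refine Solve_mono (Solve_congr (Solve_zero d μ v) fun j _ => ?_) (by positivity)
      rw [Nat.mod_eq_of_lt h, sub_self]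
    · have h3 := Solve_add (Solve_shift hμ hv h h2 x) (ih (j0 - μ) (by omega) (by omega))
      refine Solve_mono (Solve_congr h3 fun j _ => ?_) ?_
      · rw [Nat.mod_eq_sub_mod h]
        ring
      · have e1 : ((j0 - μ : ℕ) : ℤ) + 1 ≤ (j0 : ℤ) := by omega
        have e2 : (((j0 - μ : ℕ) : ℤ) + 1) * |x| ≤ (j0 : ℤ) * |x| :=
          mul_le_mul_of_nonneg_right e1 (abs_nonneg x)
        linarith

/-- the class sums -/
private def Solve_cls (d μ : ℕ) (f : ℕ → ℤ) (i : ℕ) : ℤ :=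
  ∑ j0 ∈ range d, if i = j0 % μ then f j0 else 0

private theorem Solve_fold {d μ : ℕ} (hμ : 1 ≤ μ) {v : ℕ → ℕ → ℤ}
    (hv : ∀ s, s + μ ≤ d → v s (μ - 1) = 1) {f : ℕ → ℤ} {M : ℤ} (hf : ∀ j < d, |f j| ≤ M) :
    Solve_Rep d μ v (2 * d ^ 2 * M) (fun j => f j - Solve_cls d μ f j) := by
  have h1 := Solve_sum (range d) (fun j0 => 2 * j0 * |f j0|)
    (fun j0 j => (if j = j0 then f j0 else 0) - (if j = j0 % μ then f j0 else 0))
    (fun j0 hj0 => Solve_mod hμ hv (f j0) j0 (Finset.mem_range.1 hj0))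
  refine Solve_mono (Solve_congr h1 fun j hj => ?_) ?_
  · rw [Finset.sum_sub_distrib, Finset.sum_ite_eq (range d) j f, if_pos (Finset.mem_range.2 hj)]
    rfl
  · calc ∑ j0 ∈ range d, 2 * (j0 : ℤ) * |f j0| ≤ ∑ _j0 ∈ range d, 2 * (d : ℤ) * M := by
          refine Finset.sum_le_sum fun j0 hj0 => ?_
          have e1 := Finset.mem_range.1 hj0
          have e2 : (j0 : ℤ) ≤ d := by exact_mod_cast e1.le
          exact mul_le_mul (by linarith) (hf j0 e1) (abs_nonneg _) (by positivity)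
      _ = 2 * d ^ 2 * M := by
          rw [Finset.sum_const, Finset.card_range, nsmul_eq_mul]
          ring

private theorem Solve_cls_le {d μ : ℕ} {f : ℕ → ℤ} {M : ℤ} (hM : 0 ≤ M)
    (hf : ∀ j < d, |f j| ≤ M) (i : ℕ) : |Solve_cls d μ f i| ≤ d * M := by
  unfold Solve_cls
  refine (Finset.abs_sum_le_sum_abs _ _).trans ?_
  calc ∑ j0 ∈ range d, |if i = j0 % μ then f j0 else 0| ≤ ∑ _j0 ∈ range d, M := by
        refine Finset.sum_le_sum fun j0 hj0 => ?_
        split_ifs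
        · exact hf j0 (Finset.mem_range.1 hj0)
        · rw [abs_zero]
          exact hM
    _ = d * M := by rw [Finset.sum_const, Finset.card_range, nsmul_eq_mul]

private theorem Solve_cls_sub (d μ : ℕ) (f g : ℕ → ℤ) (i : ℕ) :
    Solve_cls d μ (fun j => f j - g j) i = Solve_cls d μ f i - Solve_cls d μ g i := by
  unfold Solve_cls
  rw [← Finset.sum_sub_distrib]
  refine Finset.sum_congr rfl fun j _ => ?_
  split_ifs
  · rfl
  · ring

private theorem Solve_cls_sum (d μ : ℕ) (S : Finset ℕ) (f : ℕ → ℕ → ℤ) (i : ℕ) :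
    Solve_cls d μ (fun j => ∑ t ∈ S, f t j) i = ∑ t ∈ S, Solve_cls d μ (f t) i := by
  unfold Solve_cls
  rw [Finset.sum_comm]
  refine Finset.sum_congr rfl fun j _ => ?_
  split_ifs
  · rfl
  · rw [Finset.sum_const_zero]

private theorem Solve_cls_ind {d μ i' k : ℕ} (h1 : i' < μ) (h2 : k < μ) (h3 : μ ≤ d) (x : ℤ) :
    Solve_cls d μ (fun j => if 0 ≤ j ∧ j ≤ 0 + i' then x else 0) k =
      if k ≤ i' then x else 0 := by
  unfold Solve_cls
  by_cases h : k ≤ i'
  · rw [if_pos h, Finset.sum_eq_single k]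
    · rw [Nat.mod_eq_of_lt h2, if_pos rfl]
      beta_reduce
      rw [if_pos ⟨Nat.zero_le _, by omega⟩]
    · intro j _ hj
      by_cases h4 : j ≤ i'
      · rw [Nat.mod_eq_of_lt (by omega), if_neg (Ne.symm hj)]
      · beta_reduce
        rw [if_neg (fun h' : 0 ≤ j ∧ j ≤ 0 + i' => h4 (by omega)), ite_self]
    · intro h'
      exact absurd (Finset.mem_range.2 (by omega)) h'
  · rw [if_neg h]
    refine Finset.sum_eq_zero fun j _ => ?_
    by_cases h4 : j ≤ i'
    · rw [Nat.mod_eq_of_lt (by omega), if_neg (by omega)]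
    · beta_reduce
      rw [if_neg (fun h' : 0 ≤ j ∧ j ≤ 0 + i' => h4 (by omega)), ite_self]

/-- the points of the first period -/
private theorem Solve_point {d μ : ℕ} (hμ : 1 ≤ μ) (h2 : 2 * μ ≤ d) {v : ℕ → ℕ → ℤ} {q : ℤ}
    (hq : 1 ≤ q) (hv : ∀ s, s + μ ≤ d → v s (μ - 1) = 1)
    (hvq : 2 ≤ μ → ∀ s, 1 ≤ s → s + μ ≤ d → v s (μ - 2) = q) {i : ℕ} (hi : i < μ - 1) {x : ℤ}
    (hx : q ∣ x) : Solve_Rep d μ v (2 * |x|) (fun j => if j = i then x else 0) := by
  obtain ⟨c, rfl⟩ := hx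
  have h3 := Solve_add (Solve_win hμ hv (show i + μ ≤ d by omega) (q * c))
    (Solve_basic v (show μ - 2 < μ by omega) (show i + 1 + (μ - 2) + 1 ≤ d by omega) (-c))
  rw [hvq (by omega) (i + 1) (by omega) (by omega), abs_neg] at h3
  refine Solve_mono (Solve_congr h3 fun j _ => ?_) ?_
  · by_cases e1 : j = i
    · rw [if_pos e1, if_pos (by omega), if_neg (by omega)]
      ring
    · rw [if_neg e1]
      by_cases e2 : i ≤ j ∧ j < i + μ
      · rw [if_pos e2, if_pos (by omega)]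
        ring
      · rw [if_neg e2, if_neg (by omega)]
        ring
  · have e1 : |c| ≤ |q * c| := by
      rw [abs_mul, abs_of_nonneg (by linarith : (0 : ℤ) ≤ q)]
      nlinarith [abs_nonneg c]
    linarith

private theorem Solve_last {d μ : ℕ} (hμ : 1 ≤ μ) (h2 : 2 * μ ≤ d) {v : ℕ → ℕ → ℤ} {q : ℤ}
    (hq : 1 ≤ q) (hv : ∀ s, s + μ ≤ d → v s (μ - 1) = 1)
    (hvq : 2 ≤ μ → ∀ s, 1 ≤ s → s + μ ≤ d → v s (μ - 2) = q) {f : ℕ → ℤ} {M : ℤ} (hM : 0 ≤ M)
    (hf : ∀ j < d, |f j| ≤ M)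
    (hdvd : ∀ i < μ - 1, q ∣ Solve_cls d μ f i - Solve_cls d μ f (μ - 1)) :
    Solve_Rep d μ v (d * M + d * (2 * (2 * (d * M)))) (Solve_cls d μ f) := by
  have h1 := Solve_win hμ hv (show 0 + μ ≤ d by omega) (Solve_cls d μ f (μ - 1))
  have h3 := Solve_sum (range (μ - 1))
    (fun i => 2 * |Solve_cls d μ f i - Solve_cls d μ f (μ - 1)|)
    (fun i j => if j = i then Solve_cls d μ f i - Solve_cls d μ f (μ - 1) else 0)
    (fun i hi => Solve_point hμ h2 hq hv hvq (Finset.mem_range.1 hi) (hdvd i (Finset.mem_range.1 hi)))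
  refine Solve_mono (Solve_congr (Solve_add h1 h3) fun j _ => ?_) ?_
  · rw [Finset.sum_ite_eq (range (μ - 1)) j
      (fun i => Solve_cls d μ f i - Solve_cls d μ f (μ - 1))]
    by_cases e1 : j < μ - 1
    · rw [if_pos (Finset.mem_range.2 e1), if_pos (by omega)]
      ring
    · rw [if_neg (fun h => e1 (Finset.mem_range.1 h)), add_zero]
      by_cases e2 : j = μ - 1
      · rw [if_pos (by omega), e2]
      · rw [if_neg (by omega)]
        unfold Solve_cls
        refine Finset.sum_eq_zero fun j0 _ => ?_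
        have := Nat.mod_lt j0 (show 0 < μ by omega)
        rw [if_neg (by omega)]
  · have e1 := Solve_cls_le (μ := μ) hM hf (μ - 1)
    have e2 : ∑ i ∈ range (μ - 1), 2 * |Solve_cls d μ f i - Solve_cls d μ f (μ - 1)| ≤
        d * (2 * (2 * (d * M))) := by
      calc ∑ i ∈ range (μ - 1), 2 * |Solve_cls d μ f i - Solve_cls d μ f (μ - 1)|
          ≤ ∑ _i ∈ range (μ - 1), 2 * (2 * (d * M)) := by
            refine Finset.sum_le_sum fun i _ => ?_
            have e3 := Solve_cls_le (μ := μ) hM hf i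
            have e4 := abs_sub (Solve_cls d μ f i) (Solve_cls d μ f (μ - 1))
            linarith
        _ = ((μ - 1 : ℕ) : ℤ) * (2 * (2 * (d * M))) := by
            rw [Finset.sum_const, Finset.card_range, nsmul_eq_mul]
        _ ≤ d * (2 * (2 * (d * M))) := by
            have e5 : ((μ - 1 : ℕ) : ℤ) ≤ d := by omega
            exact mul_le_mul_of_nonneg_right e5 (by positivity)
    exact add_le_add e1 e2

private theorem Solve_cop {a q : ℤ} (hq : 1 ≤ q) (h : IsCoprime a q) (b : ℤ) :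
    ∃ y : ℤ, 0 ≤ y ∧ y < q ∧ q ∣ b - y * a := by
  obtain ⟨u, w, huw⟩ := h
  refine ⟨(u * b) % q, Int.emod_nonneg _ (by omega), Int.emod_lt_of_pos _ (by omega), ?_⟩
  refine ⟨b * w + (u * b / q) * a, ?_⟩
  have e1 := Int.emod_add_mul_ediv (u * b) q
  linear_combination (-b) * huw + (-a) * e1

theorem solve (d μ : ℕ) (hμ : 1 ≤ μ) (h2 : 2 * μ ≤ d) : ∃ K : ℕ, 1 ≤ K ∧
    ∀ (v : ℕ → ℕ → ℤ) (q B E : ℤ) (P : ℕ → ℤ), 1 ≤ q → 1 ≤ B →
    (∀ s, s + μ ≤ d → v s (μ - 1) = 1) →
    (2 ≤ μ → ∀ s, 1 ≤ s → s + μ ≤ d → v s (μ - 2) = q) →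
    (∀ t, 1 ≤ t → t < μ → IsCoprime (v 0 (μ - 1 - t)) q) →
    (∀ s < d, 1 ≤ v s 0) → (∀ s < d, ∀ ρ < μ, |v s ρ| ≤ B) →
    K * (q * B) ≤ E → (∀ s < d, |P s| ≤ E * v s 0) →
    ∃ z : ℕ → ℕ → ℤ, (∀ s ρ, |z s ρ| ≤ 2 * E) ∧
      ∀ j < d, P j = ∑ s ∈ range d, ∑ ρ ∈ range μ,
        if s ≤ j ∧ j ≤ s + ρ ∧ s + ρ + 1 ≤ d then z s ρ * v s ρ else 0 := by
  refine ⟨1 + d + d ^ 2 + 6 * d ^ 3, by omega, ?_⟩
  intro v q B E P hq hB hv hvq hcop hv0 hvB hK hP
  show Solve_Rep d μ v (2 * E) P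
  have hqB : 1 ≤ q * B := by nlinarith
  have hqB2 : B ≤ q * B := by nlinarith
  have hqB3 : q ≤ q * B := by nlinarith
  have hd1 : (1 : ℤ) ≤ d := by omega
  have hμd : (μ : ℤ) ≤ d := by omega
  have hE0 : 0 ≤ E := le_trans (by positivity) hK
  -- step 1
  obtain ⟨P', hP'⟩ : ∃ P' : ℕ → ℤ, P' = fun s => P s % v s 0 := ⟨_, rfl⟩
  have hP'B : ∀ j < d, |P' j| ≤ B := by
    intro j hj
    have h1 := hv0 j hj
    have h3 := (le_abs_self _).trans (hvB j hj 0 (by omega))
    have h4 := Int.emod_nonneg (P j) (show v j 0 ≠ 0 by omega)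
    have h5 := Int.emod_lt_of_pos (P j) (show 0 < v j 0 by omega)
    rw [hP']
    simp only
    rw [abs_of_nonneg h4]
    omega
  have hR1 : Solve_Rep d μ v E (fun j => P j - P' j) := by
    refine ⟨fun s ρ => if s < d ∧ ρ = 0 then P s / v s 0 else 0, fun s ρ => ?_, fun j hj => ?_⟩
    · simp only
      split_ifs with h
      · have h1 := hv0 s h.1
        have h3 := abs_le.1 (hP s h.1)
        rw [abs_le]
        constructor
        · rw [Int.le_ediv_iff_mul_le (by omega)]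
          linarith [h3.1]
        · refine Int.ediv_le_of_le_mul (by omega) h3.2
      · rw [abs_zero]
        exact hE0
    · rw [Finset.sum_eq_single j, Finset.sum_eq_single 0]
      · rw [if_pos ⟨le_rfl, le_rfl, hj⟩, hP']
        beta_reduce
        rw [if_pos ⟨hj, rfl⟩]
        have := Int.emod_add_mul_ediv (P j) (v j 0)
        linear_combination (-1 : ℤ) * this
      · intro ρ _ hρ
        beta_reduce
        rw [if_neg (fun h' : j < d ∧ ρ = 0 => hρ h'.2), zero_mul, ite_self]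
      · intro h
        exact absurd (Finset.mem_range.2 (by omega)) h
      · intro s _ hs
        refine Finset.sum_eq_zero fun ρ _ => ?_
        by_cases h0 : ρ = 0
        · rw [h0, if_neg (by omega)]
        · beta_reduce
          rw [if_neg (fun h' : s < d ∧ ρ = 0 => h0 h'.2), zero_mul, ite_self]
      · intro h
        exact absurd (Finset.mem_range.2 hj) h
  -- step 2
  have hy : ∀ i : ℕ, ∃ y : ℤ, 0 ≤ y ∧ y < q ∧ (i < μ - 1 →
      q ∣ (Solve_cls d μ P' i - Solve_cls d μ P' (i + 1)) - y * v 0 i) := by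
    intro i
    by_cases hi : i < μ - 1
    · have h1 := hcop (μ - 1 - i) (by omega) (by omega)
      have e1 : μ - 1 - (μ - 1 - i) = i := by omega
      rw [e1] at h1
      obtain ⟨y, hy1, hy2, hy3⟩ := Solve_cop hq h1 (Solve_cls d μ P' i - Solve_cls d μ P' (i + 1))
      exact ⟨y, hy1, hy2, fun _ => hy3⟩
    · exact ⟨0, le_rfl, by omega, fun h => absurd h hi⟩
  choose y hy0 hyq hyd using hy
  have hR2 := Solve_sum (range (μ - 1)) (fun i => |y i|)
    (fun i j => if 0 ≤ j ∧ j ≤ 0 + i then y i * v 0 i else 0)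
    (fun i hi => by
      have hi' := Finset.mem_range.1 hi
      exact Solve_basic v (show i < μ by omega) (show 0 + i + 1 ≤ d by omega) (y i))
  obtain ⟨Q, hQ⟩ : ∃ Q : ℕ → ℤ, Q = fun j => P' j -
    ∑ i ∈ range (μ - 1), if 0 ≤ j ∧ j ≤ 0 + i then y i * v 0 i else 0 := ⟨_, rfl⟩
  obtain ⟨M, hM⟩ : ∃ M : ℤ, M = d * (q * B) := ⟨_, rfl⟩
  have hM0 : 0 ≤ M := by rw [hM]; positivity
  have hQM : ∀ j < d, |Q j| ≤ M := by
    intro j hj
    rw [hQ]
    simp only
    refine (abs_sub _ _).trans ?_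
    have h1 : |∑ i ∈ range (μ - 1), if 0 ≤ j ∧ j ≤ 0 + i then y i * v 0 i else 0| ≤
        ((μ - 1 : ℕ) : ℤ) * (q * B) := by
      refine (Finset.abs_sum_le_sum_abs _ _).trans ?_
      calc ∑ i ∈ range (μ - 1), |if 0 ≤ j ∧ j ≤ 0 + i then y i * v 0 i else 0|
          ≤ ∑ _i ∈ range (μ - 1), q * B := by
            refine Finset.sum_le_sum fun i hi => ?_
            have hi' := Finset.mem_range.1 hi
            split_ifs
            · rw [abs_mul]
              refine mul_le_mul ?_ (hvB 0 (by omega) i (by omega)) (abs_nonneg _) (by omega)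
              rw [abs_of_nonneg (hy0 i)]
              exact (hyq i).le
            · rw [abs_zero]
              omega
        _ = ((μ - 1 : ℕ) : ℤ) * (q * B) := by
            rw [Finset.sum_const, Finset.card_range, nsmul_eq_mul]
    have h3 := hP'B j hj
    have h4 : (((μ - 1 : ℕ) : ℤ) + 1) * (q * B) ≤ d * (q * B) :=
      mul_le_mul_of_nonneg_right (by omega) (by omega)
    rw [hM]
    linarith
  -- the class sums of `Q`
  have hcls : ∀ k < μ, Solve_cls d μ Q k = Solve_cls d μ P' k -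
      ∑ i ∈ range (μ - 1), if k ≤ i then y i * v 0 i else 0 := by
    intro k hk
    rw [hQ, Solve_cls_sub, Solve_cls_sum]
    congr 1
    refine Finset.sum_congr rfl fun i hi => ?_
    have hi' := Finset.mem_range.1 hi
    exact Solve_cls_ind (by omega) hk (by omega) _
  have hstep : ∀ k < μ - 1, q ∣ Solve_cls d μ Q k - Solve_cls d μ Q (k + 1) := by
    intro k hk
    have h1 : (∑ i ∈ range (μ - 1), if k ≤ i then y i * v 0 i else 0) -
        (∑ i ∈ range (μ - 1), if k + 1 ≤ i then y i * v 0 i else 0) = y k * v 0 k := by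
      rw [← Finset.sum_sub_distrib, Finset.sum_eq_single k]
      · rw [if_pos le_rfl, if_neg (by omega), sub_zero]
      · intro i _ hi
        by_cases h3 : k ≤ i
        · rw [if_pos h3, if_pos (by omega), sub_self]
        · rw [if_neg h3, if_neg (by omega), sub_self]
      · intro h
        exact absurd (Finset.mem_range.2 hk) h
    rw [hcls k (by omega), hcls (k + 1) (by omega)]
    have h3 := hyd k hk
    rw [← h1] at h3
    have e : Solve_cls d μ P' k - (∑ i ∈ range (μ - 1), if k ≤ i then y i * v 0 i else 0) -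
        (Solve_cls d μ P' (k + 1) -
          ∑ i ∈ range (μ - 1), if k + 1 ≤ i then y i * v 0 i else 0) =
        Solve_cls d μ P' k - Solve_cls d μ P' (k + 1) -
          ((∑ i ∈ range (μ - 1), if k ≤ i then y i * v 0 i else 0) -
            ∑ i ∈ range (μ - 1), if k + 1 ≤ i then y i * v 0 i else 0) := by ring
    rw [e]
    exact h3
  have hdvd' : ∀ t ≤ μ - 1, q ∣ Solve_cls d μ Q (μ - 1 - t) - Solve_cls d μ Q (μ - 1) := by
    intro t
    induction t with
    | zero =>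
      intro _
      rw [Nat.sub_zero, sub_self]
      exact dvd_zero q
    | succ t ih =>
      intro ht
      have h1 := ih (by omega)
      have h3 := hstep (μ - 1 - (t + 1)) (by omega)
      have e1 : μ - 1 - (t + 1) + 1 = μ - 1 - t := by omega
      rw [e1] at h3
      have h4 := dvd_add h3 h1
      rwa [sub_add_sub_cancel] at h4
  have hdvd : ∀ i < μ - 1, q ∣ Solve_cls d μ Q i - Solve_cls d μ Q (μ - 1) := by
    intro i hi
    have h1 := hdvd' (μ - 1 - i) (by omega)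
    have e1 : μ - 1 - (μ - 1 - i) = i := by omega
    rwa [e1] at h1
  have hR3 := Solve_fold hμ hv hQM
  have hR4 := Solve_last hμ h2 hq hv hvq hM0 hQM hdvd
  have hR := Solve_add (Solve_add hR1 hR2) (Solve_add hR3 hR4)
  refine Solve_mono (Solve_congr hR fun j _ => ?_) ?_
  · rw [hQ]
    ring
  · have h1 : ∑ i ∈ range (μ - 1), |y i| ≤ d * (q * B) := by
      calc ∑ i ∈ range (μ - 1), |y i| ≤ ∑ _i ∈ range (μ - 1), q * B := by
            refine Finset.sum_le_sum fun i _ => ?_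
            rw [abs_of_nonneg (hy0 i)]
            exact (hyq i).le.trans hqB3
        _ = ((μ - 1 : ℕ) : ℤ) * (q * B) := by
            rw [Finset.sum_const, Finset.card_range, nsmul_eq_mul]
        _ ≤ d * (q * B) := mul_le_mul_of_nonneg_right (by omega) (by omega)
    have h3 : (d : ℤ) * (q * B) + (2 * d ^ 2 * M + (d * M + d * (2 * (2 * (d * M))))) =
        ((d : ℤ) + d ^ 2 + 6 * d ^ 3) * (q * B) := by
      rw [hM]
      ring
    have h4 : ((d : ℤ) + d ^ 2 + 6 * d ^ 3) * (q * B) ≤ E := by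
      refine le_trans ?_ hK
      push_cast
      refine mul_le_mul_of_nonneg_right ?_ (by omega)
      linarith
    linarith

end Pool.Agent.H51.TB
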