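import Pool.Agent.H51.TB.Init

/-!
# Module D13 (TB): the initial distribution of all points

For each `m` with `A m ≠ 0` (then `1 ≤ m`, `2 m ≤ m + M ≤ d + 1`) use `init` (with `E` for `m = μ`, with
`E = 0` for the others); for `A m = 0` put `c₀ m = 0`.  `e` is the minimum of the finitely many `e` of
`init`, `ε` and `n₀` for the finitely many `m ≤ d` as well.  Let `n = a + b`, `N = ell (n - 1) (d + 1)` and
`L` the total length, `N ≤ L ≤ N + ell (n - 1) d ≤ 2 N`.  The sum over `m`, `x` of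
`c₀ m x * Pre m x j` differs from `Phi d j * (L - ell (n - 1) m₀)` by at most
`δ' * L + (d + 1)^3 * ell (n - 1) d`; `Pre a b d m₀ (0, 0) j ≤ ell (n - 1) m₀ ≤ ell (n - 1) d`
(`sum_wt`); `0 ≤ Phi d j ≤ 1`, `|L - N| ≤ ell (n - 1) d`; and `lead_bet`.  The length of a point is small by
`grow_one` (`ell (n - 1) d ≤ ell n d`).
-/

namespace Pool.Agent.H51.TB

open Finset Pool.Agent.H18.Ex Pool.Agent.H21.NX Pool.Agent.H18.Ta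

private theorem Start_min (d : ℕ) (f : ℕ → ℝ) (hf : ∀ m, 0 < f m) : ∃ e : ℝ, 0 < e ∧ ∀ m ≤ d, e ≤ f m := by
  obtain ⟨m, _, hm⟩ := Finset.exists_min_image (range (d + 1)) f ⟨0, mem_range.2 (by omega)⟩
  exact ⟨f m, hf m, fun k hk => hm k (mem_range.2 (by omega))⟩

private theorem Start_max (d : ℕ) (f : ℕ → ℕ) : ∃ e : ℕ, ∀ m ≤ d, f m ≤ e :=
  ⟨∑ m ∈ range (d + 1), f m, fun m hm =>
    single_le_sum (f := f) (fun _ _ => Nat.zero_le _) (mem_range.2 (by omega))⟩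

private theorem Start_unif (d : ℕ) : ∃ e : ℝ, 0 < e ∧ ∀ δ : ℝ, 0 < δ →
    ∃ ε : ℝ, 0 < ε ∧ ∃ n₀ : ℕ, ∀ a b : ℕ, 1 ≤ a → 1 ≤ b → n₀ ≤ a + b →
    |(a : ℝ) - b| ≤ ε * (a + b : ℕ) → ∀ m ≤ d, 1 ≤ m → 2 * m ≤ d + 1 → ∀ A E : ℕ, (E : ℝ) ≤ e * A →
    ∃ c₀ : ℕ × ℕ → ℕ, ∑ x ∈ KK d, c₀ x = A ∧ (∀ x ∈ KK d, x.2 ≤ m → E ≤ c₀ x) ∧
      ∀ j ≤ d, |((∑ x ∈ KK d, c₀ x * Pre a b d m x j : ℕ) : ℝ) -
        Phi d j * ((A * ell (a + b - 1) m : ℕ) : ℝ)| ≤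
        (δ * A + (d + 1) ^ 2) * (ell (a + b - 1) m : ℝ) := by
  have h1 : ∀ m : ℕ, ∃ e : ℝ, 0 < e ∧ (1 ≤ m → 2 * m ≤ d + 1 → ∀ δ : ℝ, 0 < δ →
    ∃ ε : ℝ, 0 < ε ∧ ∃ n₀ : ℕ, ∀ a b : ℕ, 1 ≤ a → 1 ≤ b → n₀ ≤ a + b →
    |(a : ℝ) - b| ≤ ε * (a + b : ℕ) → ∀ A E : ℕ, (E : ℝ) ≤ e * A →
    ∃ c₀ : ℕ × ℕ → ℕ, ∑ x ∈ KK d, c₀ x = A ∧ (∀ x ∈ KK d, x.2 ≤ m → E ≤ c₀ x) ∧
      ∀ j ≤ d, |((∑ x ∈ KK d, c₀ x * Pre a b d m x j : ℕ) : ℝ) -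
        Phi d j * ((A * ell (a + b - 1) m : ℕ) : ℝ)| ≤
        (δ * A + (d + 1) ^ 2) * (ell (a + b - 1) m : ℝ)) := by
    intro m
    by_cases hm : 1 ≤ m ∧ 2 * m ≤ d + 1
    · obtain ⟨e, he, H⟩ := init d m hm.1 hm.2
      exact ⟨e, he, fun _ _ => H⟩
    · exact ⟨1, one_pos, fun ha hb => absurd ⟨ha, hb⟩ hm⟩
  choose f hf hF using h1
  obtain ⟨e, he, hef⟩ := Start_min d f hf
  refine ⟨e, he, fun δ hδ => ?_⟩
  have h2 : ∀ m : ℕ, ∃ ε : ℝ, 0 < ε ∧ ∃ n₀ : ℕ, (1 ≤ m → 2 * m ≤ d + 1 → ∀ a b : ℕ, 1 ≤ a → 1 ≤ b →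
    n₀ ≤ a + b → |(a : ℝ) - b| ≤ ε * (a + b : ℕ) → ∀ A E : ℕ, (E : ℝ) ≤ f m * A →
    ∃ c₀ : ℕ × ℕ → ℕ, ∑ x ∈ KK d, c₀ x = A ∧ (∀ x ∈ KK d, x.2 ≤ m → E ≤ c₀ x) ∧
      ∀ j ≤ d, |((∑ x ∈ KK d, c₀ x * Pre a b d m x j : ℕ) : ℝ) -
        Phi d j * ((A * ell (a + b - 1) m : ℕ) : ℝ)| ≤
        (δ * A + (d + 1) ^ 2) * (ell (a + b - 1) m : ℝ)) := by
    intro m
    by_cases hm : 1 ≤ m ∧ 2 * m ≤ d + 1
    · obtain ⟨ε, hε, n₀, H⟩ := hF m hm.1 hm.2 δ hδ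
      exact ⟨ε, hε, n₀, fun _ _ => H⟩
    · exact ⟨1, one_pos, 0, fun ha hb => absurd ⟨ha, hb⟩ hm⟩
  choose g hg k hk using h2
  obtain ⟨ε, hε, hεg⟩ := Start_min d g hg
  obtain ⟨n₀, hn₀⟩ := Start_max d k
  refine ⟨ε, hε, n₀, fun a b ha hb hn hab m hm h1m h2m A E hE => ?_⟩
  refine hk m h1m h2m a b ha hb ((hn₀ m hm).trans hn) (hab.trans ?_) A E (hE.trans ?_)
  · exact mul_le_mul_of_nonneg_right (hεg m hm) (Nat.cast_nonneg _)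
  · exact mul_le_mul_of_nonneg_right (hef m hm) (Nat.cast_nonneg _)

private theorem Start_Phi (d j : ℕ) (hj : j ≤ d) : 0 ≤ Phi d j ∧ Phi d j ≤ 1 := by
  unfold Phi
  constructor
  · positivity
  · rw [div_le_one (by positivity)]
    have h1 : ∑ i ∈ range (j + 1), (d.choose i : ℝ) ≤ ∑ i ∈ range (d + 1), (d.choose i : ℝ) :=
      sum_le_sum_of_subset_of_nonneg (range_subset_range.2 (by omega)) fun i _ _ => Nat.cast_nonneg _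
    refine h1.trans (le_of_eq ?_)
    have h2 := Nat.sum_range_choose d
    exact_mod_cast h2

private theorem Start_ell_le {n d : ℕ} (hn : 1 ≤ n) (hd : 1 ≤ d) : ell (n - 1) d ≤ ell n d := by
  obtain ⟨n', rfl⟩ : ∃ n', n = n' + 1 := ⟨n - 1, by omega⟩
  obtain ⟨d', rfl⟩ : ∃ d', d = d' + 1 := ⟨d - 1, by omega⟩
  rw [Nat.add_sub_cancel, ell_succ]
  exact Nat.le_add_left _ _

private theorem Start_Pre {a b d m j : ℕ} (ha : 1 ≤ a) (hb : 1 ≤ b) (hm : m ≤ d) (hj : j ≤ d) :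
    Pre a b d m (0, 0) j ≤ ell (a + b - 1) d := by
  have h1 := sum_wt (m := m) ha hb (by omega : m ≤ d + 1) (c := (0, 0)) (Nat.zero_le d)
  unfold Pre
  calc ∑ i ∈ range (j + 1), wt a b d m (0, 0) i ≤ ∑ i ∈ range (d + 1), wt a b d m (0, 0) i :=
        sum_le_sum_of_subset (range_subset_range.2 (by omega))
    _ = ell (a + b - 1) m := h1
    _ ≤ ell (a + b - 1) d := ell_mono _ hm

theorem start (d : ℕ) : ∃ e : ℝ, 0 < e ∧ ∀ δ : ℝ, 0 < δ →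
    ∃ ε : ℝ, 0 < ε ∧ ∃ n₀ : ℕ, ∀ a b : ℕ, 1 ≤ a → 1 ≤ b → n₀ ≤ a + b →
    |(a : ℝ) - b| ≤ ε * (a + b : ℕ) → ∀ (M μ m₀ : ℕ) (A : ℕ → ℕ), 1 ≤ μ → μ ≤ M → μ + M ≤ d →
    m₀ ≤ d → (∀ m, A m ≠ 0 → 1 ≤ m ∧ m ≤ M ∧ m + M ≤ d + 1) →
    ell (a + b - 1) (d + 1) ≤
      ell (a + b - 1) m₀ + ∑ m ∈ range (d + 1), A m * ell (a + b - 1) m →
    ell (a + b - 1) m₀ + ∑ m ∈ range (d + 1), A m * ell (a + b - 1) m ≤
      ell (a + b - 1) (d + 1) + ell (a + b - 1) d →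
    ∀ E : ℕ, (E : ℝ) ≤ e * A μ →
    ∃ c₀ : ℕ → ℕ × ℕ → ℕ, (∀ m ∈ range (d + 1), ∑ x ∈ KK d, c₀ m x = A m) ∧
      (∀ x ∈ KK d, x.2 ≤ μ → E ≤ c₀ μ x) ∧
      ∀ j ≤ d, |((Pre a b d m₀ (0, 0) j +
        ∑ m ∈ range (d + 1), ∑ x ∈ KK d, c₀ m x * Pre a b d m x j : ℕ) : ℝ) -
        ((∑ i ∈ range (j + 1), bet a b d i : ℕ) : ℝ)| ≤ δ * (ell (a + b - 1) (d + 1) : ℝ) := by
  obtain ⟨e, he, H⟩ := Start_unif d
  refine ⟨e, he, fun δ hδ => ?_⟩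
  obtain ⟨δ', hδ'd⟩ : ∃ δ' : ℝ, δ' = min (δ / 4) 1 := ⟨_, rfl⟩
  have hδ' : 0 < δ' := by
    rw [hδ'd]
    exact lt_min (by linarith) one_pos
  have hδ1 : δ' ≤ δ / 4 := hδ'd ▸ min_le_left _ _
  have hδ2 : δ' ≤ 1 := hδ'd ▸ min_le_right _ _
  obtain ⟨ε1, hε1, n1, H1⟩ := H δ' hδ'
  obtain ⟨ε2, hε2, n2, H2⟩ := lead_bet d δ' hδ'
  obtain ⟨n3, H3⟩ := grow_one d (2 * (3 + (d + 1) ^ 3) / δ)
  refine ⟨min ε1 ε2, lt_min hε1 hε2, max n1 (max n2 n3), ?_⟩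
  intro a b ha hb hn hab M μ m₀ A hμ hμM hμd hm₀ hA hlo hhi E hE
  have hn1 : n1 ≤ a + b := (le_max_left _ _).trans hn
  have hn2 : n2 ≤ a + b := ((le_max_left _ _).trans (le_max_right _ _)).trans hn
  have hn3 : n3 ≤ a + b := ((le_max_right _ _).trans (le_max_right _ _)).trans hn
  have hab1 : |(a : ℝ) - b| ≤ ε1 * (a + b : ℕ) :=
    hab.trans (mul_le_mul_of_nonneg_right (min_le_left _ _) (Nat.cast_nonneg _))
  have hab2 : |(a : ℝ) - b| ≤ ε2 * (a + b : ℕ) :=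
    hab.trans (mul_le_mul_of_nonneg_right (min_le_right _ _) (Nat.cast_nonneg _))
  have hc : ∀ m, ∃ c : ℕ × ℕ → ℕ, m ≤ d → (∑ x ∈ KK d, c x = A m ∧
      (∀ x ∈ KK d, x.2 ≤ μ → m = μ → E ≤ c x) ∧
      ∀ j ≤ d, |((∑ x ∈ KK d, c x * Pre a b d m x j : ℕ) : ℝ) -
        Phi d j * ((A m * ell (a + b - 1) m : ℕ) : ℝ)| ≤
        (δ' * A m + (d + 1) ^ 2) * (ell (a + b - 1) m : ℝ)) := by
    intro m
    by_cases hAm : A m = 0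
    · refine ⟨fun _ => 0, fun _ => ⟨by simp [hAm], ?_, ?_⟩⟩
      · intro x _ _ hmμ
        rw [← hmμ, hAm, Nat.cast_zero, mul_zero] at hE
        have : (E : ℝ) = 0 := le_antisymm hE (Nat.cast_nonneg _)
        have : E = 0 := by exact_mod_cast this
        exact this.le
      · intro j _
        rw [hAm]
        simp only [zero_mul, sum_const_zero, Nat.cast_zero, mul_zero, sub_zero, abs_zero, zero_add]
        positivity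
    · obtain ⟨h1, h2, h3⟩ := hA m hAm
      have hmd : m ≤ d := by omega
      have hEm : (((if m = μ then E else 0 : ℕ)) : ℝ) ≤ e * A m := by
        split_ifs with h
        · rw [h]
          exact hE
        · rw [Nat.cast_zero]
          positivity
      obtain ⟨c, hc1, hc2, hc3⟩ := H1 a b ha hb hn1 hab1 m hmd h1 (by omega) (A m)
        (if m = μ then E else 0) hEm
      refine ⟨c, fun _ => ⟨hc1, ?_, hc3⟩⟩
      intro x hx hxμ hmμ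
      have h4 := hc2 x hx (by omega)
      rwa [if_pos hmμ] at h4
  choose c hc using hc
  refine ⟨c, fun m hm => (hc m (by rw [mem_range] at hm; omega)).1,
    fun x hx hxμ => (hc μ (by omega)).2.1 x hx hxμ rfl, ?_⟩
  intro j hj
  obtain ⟨hΦ0, hΦ1⟩ := Start_Phi d j hj
  obtain ⟨l, hl⟩ : ∃ l : ℝ, l = (ell (a + b - 1) d : ℝ) := ⟨_, rfl⟩
  obtain ⟨N, hN⟩ : ∃ N : ℝ, N = (ell (a + b - 1) (d + 1) : ℝ) := ⟨_, rfl⟩
  obtain ⟨T, hT⟩ : ∃ T : ℕ, T = ∑ m ∈ range (d + 1), A m * ell (a + b - 1) m := ⟨_, rfl⟩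
  obtain ⟨S, hS⟩ : ∃ S : ℕ, S = ∑ m ∈ range (d + 1), ∑ x ∈ KK d, c m x * Pre a b d m x j := ⟨_, rfl⟩
  obtain ⟨B, hB⟩ : ∃ B : ℕ, B = ∑ i ∈ range (j + 1), bet a b d i := ⟨_, rfl⟩
  have hl0 : 0 ≤ l := hl ▸ Nat.cast_nonneg _
  have hT0 : (0 : ℝ) ≤ (T : ℝ) := Nat.cast_nonneg _
  have hB2 : |(B : ℝ) - Phi d j * N| ≤ δ' * N := by
    rw [hB, hN]
    exact H2 a b ha hb hn2 hab2 j hj
  have hlN : (3 + ((d : ℝ) + 1) ^ 3) * l ≤ δ / 2 * N := by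
    have h1 := H3 (a + b) hn3 d le_rfl
    have h2 : ell (a + b - 1) d ≤ ell (a + b) d := Start_ell_le (by omega) (by omega)
    have h3 : l ≤ (ell (a + b) d : ℝ) := by
      rw [hl]
      exact_mod_cast h2
    have h4 : 2 * (3 + ((d : ℝ) + 1) ^ 3) / δ * l ≤ N := by
      rw [hN]
      refine le_trans ?_ h1
      exact mul_le_mul_of_nonneg_left h3 (by positivity)
    have h5 := mul_le_mul_of_nonneg_left h4 (by positivity : (0 : ℝ) ≤ δ / 2)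
    refine le_trans (le_of_eq ?_) h5
    field_simp
  have hlm : ∀ m ≤ d, (ell (a + b - 1) m : ℝ) ≤ l := by
    intro m hm
    rw [hl]
    exact_mod_cast ell_mono _ hm
  have hP : ((Pre a b d m₀ (0, 0) j : ℕ) : ℝ) ≤ l := by
    rw [hl]
    exact_mod_cast Start_Pre ha hb (by omega) hj
  have hP0 : (0 : ℝ) ≤ ((Pre a b d m₀ (0, 0) j : ℕ) : ℝ) := Nat.cast_nonneg _
  have hT1 : N - l ≤ (T : ℝ) := by
    have h1 := hlm m₀ (by omega)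
    have h2 : N ≤ (ell (a + b - 1) m₀ : ℝ) + (T : ℝ) := by
      rw [hN, hT]
      exact_mod_cast hlo
    linarith
  have hT2 : (T : ℝ) ≤ N + l := by
    have h1 : (0 : ℝ) ≤ (ell (a + b - 1) m₀ : ℝ) := Nat.cast_nonneg _
    have h2 : (ell (a + b - 1) m₀ : ℝ) + (T : ℝ) ≤ N + l := by
      rw [hN, hT, hl]
      exact_mod_cast hhi
    linarith
  have hSer : |(S : ℝ) - Phi d j * T| ≤ δ' * T + ((d : ℝ) + 1) ^ 3 * l := by
    have h1 : (S : ℝ) - Phi d j * T = ∑ m ∈ range (d + 1),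
        (((∑ x ∈ KK d, c m x * Pre a b d m x j : ℕ) : ℝ) -
          Phi d j * ((A m * ell (a + b - 1) m : ℕ) : ℝ)) := by
      rw [sum_sub_distrib, ← mul_sum, hS, hT, Nat.cast_sum, Nat.cast_sum]
    rw [h1]
    refine (abs_sum_le_sum_abs _ _).trans ?_
    have h2 : ∀ m ∈ range (d + 1), |((∑ x ∈ KK d, c m x * Pre a b d m x j : ℕ) : ℝ) -
          Phi d j * ((A m * ell (a + b - 1) m : ℕ) : ℝ)| ≤
        δ' * ((A m * ell (a + b - 1) m : ℕ) : ℝ) + ((d : ℝ) + 1) ^ 2 * l := by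
      intro m hm
      rw [mem_range] at hm
      have h3 := (hc m (by omega)).2.2 j hj
      refine h3.trans ?_
      have h4 := mul_le_mul_of_nonneg_left (hlm m (by omega)) (by positivity : (0 : ℝ) ≤ ((d : ℝ) + 1) ^ 2)
      rw [add_mul, Nat.cast_mul]
      linarith
    refine (sum_le_sum h2).trans (le_of_eq ?_)
    rw [sum_add_distrib, ← mul_sum, ← Nat.cast_sum, ← hT, sum_const, card_range, nsmul_eq_mul]
    push_cast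
    ring
  have hΦT : |Phi d j * T - Phi d j * N| ≤ l := by
    rw [← mul_sub, abs_mul, abs_of_nonneg hΦ0]
    have h1 : |(T : ℝ) - N| ≤ l := abs_le.2 ⟨by linarith, by linarith⟩
    calc Phi d j * |(T : ℝ) - N| ≤ 1 * l := mul_le_mul hΦ1 h1 (abs_nonneg _) zero_le_one
      _ = l := one_mul l
  rw [← hS, ← hB, ← hN]
  have hfin : (((Pre a b d m₀ (0, 0) j + S : ℕ)) : ℝ) - (B : ℝ) =
      ((Pre a b d m₀ (0, 0) j : ℕ) : ℝ) + ((S : ℝ) - Phi d j * T) +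
        (Phi d j * T - Phi d j * N) - ((B : ℝ) - Phi d j * N) := by
    push_cast
    ring
  rw [hfin]
  have e1 : δ' * (T : ℝ) ≤ δ' * (N + l) := mul_le_mul_of_nonneg_left hT2 hδ'.le
  have e2 : δ' * l ≤ 1 * l := mul_le_mul_of_nonneg_right hδ2 hl0
  have hN0 : 0 ≤ N := hN ▸ Nat.cast_nonneg _
  have e3 : δ' * N ≤ δ / 4 * N := mul_le_mul_of_nonneg_right hδ1 hN0
  have a1 := abs_le.1 hSer
  have a2 := abs_le.1 hΦT
  have a3 := abs_le.1 hB2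
  rw [abs_le]
  constructor
  · linarith [a1.1, a2.1, a3.2]
  · linarith [a1.2, a2.2, a3.1]

end Pool.Agent.H51.TB
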