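import Pool.Agent.H51.TB.Gs

/-!
# Module A4 (TB): the swap lemma

As `swap_step` in `Pool/Agent/H21/NX/Swap.lean`: `gdim r d` is replaced by `S.gd`, the homogeneous
forms of degree `d` by all of `E → ℂ` (dimension `Fintype.card E`), `M` by the dominating type `b`
(`hb` is used where the original uses `m a ≤ M`), `gl_lemma` by the hypothesis `hS : S.Span`
(a proper subspace is contained in the kernel of a functional `φ ≠ 0`), `gen_fix` by `Gn.fix`.
-/

namespace Pool.Agent.H51.TB

open Finset MvPolynomial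

/-- The index of the point used at `a`: `y a` if `a ∈ A`, else `x a`. -/
private def SwX.zt {κ : Type} [DecidableEq κ] (A : Finset κ) (a : κ) : κ ⊕ (κ ⊕ Unit) :=
  if a ∈ A then Sum.inr (Sum.inl a) else Sum.inl a

private theorem SwX.zt_inj {κ : Type} [DecidableEq κ] (A : Finset κ) :
    Function.Injective (SwX.zt A) := by
  intro a b h
  unfold SwX.zt at h
  split_ifs at h with h1 h2 h2
  · exact Sum.inl_injective (Sum.inr_injective h)
  · exact Sum.inl_injective h

private theorem SwX.zt_ne_ell {κ : Type} [DecidableEq κ] (A : Finset κ) (a : κ) :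
    SwX.zt A a ≠ Sum.inr (Sum.inr ()) := by
  unfold SwX.zt
  split_ifs
  · intro h
    cases h
  · intro h
    cases h

private theorem SwX.zt_ne_y {κ : Type} [DecidableEq κ] (A : Finset κ) (a b : κ) (hb : b ∉ A) :
    SwX.zt A a ≠ Sum.inr (Sum.inl b) := by
  unfold SwX.zt
  split_ifs with h1
  · intro h
    have := Sum.inl_injective (Sum.inr_injective h)
    exact hb (this ▸ h1)
  · intro h
    cases h

private theorem SwX.elim_inj {α β : Type} (f : α → β) (b : β) (hf : Function.Injective f)
    (hb : ∀ a, f a ≠ b) : Function.Injective (Sum.elim f fun _ : Unit => b) := by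
  rintro (x | x) (y | y) h
  · exact congrArg Sum.inl (hf h)
  · exact absurd h (hb x)
  · exact absurd h.symm (hb y)
  · rfl

private theorem SwX.comp_elim {α β γ : Type} (p : β → γ) (f : α → β) (b : β) :
    (fun i => p (Sum.elim f (fun _ : Unit => b) i)) =
      Sum.elim (fun i => p (f i)) fun _ : Unit => p b := by
  funext i
  rcases i with i | i <;> rfl

private theorem SwX.dom {E ν T : Type} [Fintype E] (S : Sys E ν T) {b t : T} (h : S.Dom b t)
    (q : ν → ℂ) (f : E → ℂ)
    (hf : ∀ r : S.R b, ∑ e, eval q (S.co b r e) * f e = 0) (r : S.R t) :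
    ∑ e, eval q (S.co t r e) * f e = 0 := by
  have h1 : f ∈ S.V (fun _ : Unit => b) fun _ => q := fun _ r => hf r
  exact h q h1 () r

/-- Pulling back a general statement along points where the other coordinates are fixed. -/
private theorem SwX.gen_fix {ν κ : Type} (G : MvPolynomial ((κ ⊕ (κ ⊕ Unit)) × ν) ℂ)
    (p₀ : κ ⊕ (κ ⊕ Unit) → ν → ℂ) (h0 : eval (fun x => p₀ x.1 x.2) G ≠ 0)
    (P : (κ → ν → ℂ) → Prop)
    (hP : ∀ y : κ → ν → ℂ,
      eval (fun x : (κ ⊕ (κ ⊕ Unit)) × ν =>
        (Sum.elim (fun a => p₀ (Sum.inl a))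
          (Sum.elim y fun _ : Unit => p₀ (Sum.inr (Sum.inr ())))) x.1 x.2) G ≠ 0 → P y) :
    Gn κ ν P := by
  let s : (κ ⊕ (κ ⊕ Unit)) × ν → MvPolynomial (κ × ν) ℂ := fun x =>
    Sum.elim (fun a => C (p₀ (Sum.inl a) x.2))
      (Sum.elim (fun a => X (a, x.2)) fun _ : Unit => C (p₀ (Sum.inr (Sum.inr ())) x.2)) x.1
  have hea : ∀ (y : κ × ν → ℂ) (F : MvPolynomial ((κ ⊕ (κ ⊕ Unit)) × ν) ℂ),
      eval y (aeval s F) = eval (fun x => eval y (s x)) F := by
    intro y F
    induction F using MvPolynomial.induction_on with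
    | C c => simp
    | add p q hp hq => rw [map_add, map_add, map_add, hp, hq]
    | mul_X p i hp => rw [map_mul, map_mul, map_mul, hp, aeval_X, eval_X]
  have hs : ∀ y : κ → ν → ℂ, eval (fun x => y x.1 x.2) (aeval s G) =
      eval (fun x : (κ ⊕ (κ ⊕ Unit)) × ν =>
        (Sum.elim (fun a => p₀ (Sum.inl a))
          (Sum.elim y fun _ : Unit => p₀ (Sum.inr (Sum.inr ())))) x.1 x.2) G := by
    intro y
    rw [hea]
    refine congrArg (fun f : (κ ⊕ (κ ⊕ Unit)) × ν → ℂ => eval f G) (funext fun x => ?_)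
    obtain ⟨x, j⟩ := x
    rcases x with a | a | a <;> simp [s]
  refine ⟨aeval s G, ?_, ?_⟩
  · intro h
    have h1 := hs fun a => p₀ (Sum.inr (Sum.inl a))
    rw [h, map_zero] at h1
    apply h0
    rw [h1]
    refine congrArg (fun f : (κ ⊕ (κ ⊕ Unit)) × ν → ℂ => eval f G) (funext fun x => ?_)
    obtain ⟨x, j⟩ := x
    rcases x with a | a | a <;> rfl
  · intro y hy
    rw [hs] at hy
    exact hP y hy

variable {E ν T : Type} [Fintype E] (S : Sys E ν T) {κ : Type}

theorem swap (hS : S.Span) [Fintype κ] [DecidableEq κ] (m : κ → T) (t b : T)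
    (hb : ∀ i, S.Dom b (m i))
    (hc : S.gd m + S.gd (ad (ad m b) t) = S.gd (ad m t) + S.gd (ad m b)) :
    S.gd m = 0 ∨ S.gd m = S.gd (ad m t) + S.size t := by
  -- the point `ℓ`
  let ℓ : κ ⊕ (κ ⊕ Unit) := Sum.inr (Sum.inr ())
  let yy : κ → κ ⊕ (κ ⊕ Unit) := fun a => Sum.inr (Sum.inl a)
  -- the general conditions
  have c1 : ∀ A ∈ (univ : Finset (Finset κ)), Gn (κ ⊕ (κ ⊕ Unit)) ν fun p =>
      Module.finrank ℂ (S.V m (fun a => p (SwX.zt A a))) = S.gd m := fun A _ =>
    Gn.comap (SwX.zt A) (SwX.zt_inj A) (gn_gd S m)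
  have c2 : Gn (κ ⊕ (κ ⊕ Unit)) ν fun p =>
      Module.finrank ℂ (S.V (fun _ : Unit => t) (fun _ : Unit => p ℓ)) =
        S.gd fun _ : Unit => t :=
    Gn.comap (fun _ : Unit => ℓ) (fun _ _ _ => rfl) (gn_gd S fun _ : Unit => t)
  have c3 : ∀ A ∈ (univ : Finset (Finset κ)), Gn (κ ⊕ (κ ⊕ Unit)) ν fun p =>
      Module.finrank ℂ (S.V (Sum.elim m fun _ : Unit => t)
        (Sum.elim (fun a => p (SwX.zt A a)) fun _ : Unit => p ℓ)) = S.gd (ad m t) := by
    intro A _
    have h := Gn.comap (Sum.elim (SwX.zt A) fun _ : Unit => ℓ)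
      (SwX.elim_inj _ _ (SwX.zt_inj A) (SwX.zt_ne_ell A)) (gn_gd S (ad m t))
    refine h.mono fun p hp => ?_
    rwa [SwX.comp_elim] at hp
  have c4 : ∀ A ∈ (univ : Finset (Finset κ)), Gn (κ ⊕ (κ ⊕ Unit)) ν fun p =>
      ∀ a ∈ (univ : Finset κ), a ∉ A → Module.finrank ℂ (S.V (Sum.elim m fun _ : Unit => b)
        (Sum.elim (fun a => p (SwX.zt A a)) fun _ : Unit => p (yy a))) = S.gd (ad m b) := by
    intro A _
    refine Gn.all _ fun a _ => ?_
    by_cases ha : a ∈ A
    · refine (c2).mono fun p _ h => absurd ha h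
    · have h := Gn.comap (Sum.elim (SwX.zt A) fun _ : Unit => yy a)
        (SwX.elim_inj _ _ (SwX.zt_inj A) fun b => SwX.zt_ne_y A b a ha)
        (gn_gd S (ad m b))
      refine h.mono fun p hp _ => ?_
      rwa [SwX.comp_elim] at hp
  have c5 : ∀ A ∈ (univ : Finset (Finset κ)), Gn (κ ⊕ (κ ⊕ Unit)) ν fun p =>
      ∀ a ∈ (univ : Finset κ), a ∉ A → Module.finrank ℂ (S.V
        (Sum.elim (Sum.elim m fun _ : Unit => b) fun _ : Unit => t)
        (Sum.elim (Sum.elim (fun a => p (SwX.zt A a)) fun _ : Unit => p (yy a))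
          fun _ : Unit => p ℓ)) = S.gd (ad (ad m b) t) := by
    intro A _
    refine Gn.all _ fun a _ => ?_
    by_cases ha : a ∈ A
    · refine (c2).mono fun p _ h => absurd ha h
    · have h := Gn.comap (Sum.elim (Sum.elim (SwX.zt A) fun _ : Unit => yy a) fun _ : Unit => ℓ)
        (SwX.elim_inj _ _ (SwX.elim_inj _ _ (SwX.zt_inj A) fun b => SwX.zt_ne_y A b a ha) (by
          rintro (b | b)
          · exact SwX.zt_ne_ell A b
          · intro h
            exact absurd (Sum.inr_injective h) Sum.inl_ne_inr))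
        (gn_gd S (ad (ad m b) t))
      refine h.mono fun p hp _ => ?_
      rwa [SwX.comp_elim, SwX.comp_elim] at hp
  have hall := ((Gn.all _ c1).and c2).and (((Gn.all _ c3).and (Gn.all _ c4)).and
    (Gn.all _ c5))
  -- the key inclusion for general points
  have hkey : Gn (κ ⊕ (κ ⊕ Unit)) ν fun p =>
      Module.finrank ℂ (S.V m (fun a => p (Sum.inl a)) ⊔
        S.V (fun _ : Unit => t) (fun _ : Unit => p ℓ) : Submodule ℂ (E → ℂ)) +
          S.gd (ad m t) = S.gd m + S.gd (fun _ : Unit => t) ∧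
      S.V m (fun a => p (yy a)) ≤ S.V m (fun a => p (Sum.inl a)) ⊔
        S.V (fun _ : Unit => t) (fun _ : Unit => p ℓ) := by
    refine hall.mono ?_
    rintro p ⟨⟨h1, h2⟩, ⟨h3, h4⟩, h5⟩
    let XT : Finset κ → Submodule ℂ (E → ℂ) := fun A =>
      S.V m (fun a => p (SwX.zt A a)) ⊔ S.V (fun _ : Unit => t) (fun _ : Unit => p ℓ)
    have hX : ∀ A, Module.finrank ℂ (XT A) + S.gd (ad m t) =
        S.gd m + S.gd (fun _ : Unit => t) := by
      intro A
      have h := finrank_V_sup S m (fun _ : Unit => t) (fun a => p (SwX.zt A a))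
        (fun _ : Unit => p ℓ)
      rw [h1 A (mem_univ _), h2, h3 A (mem_univ _)] at h
      exact h
    have hstep : ∀ (A : Finset κ) (a : κ), a ∉ A → XT A = XT (insert a A) := by
      intro A a ha
      let U : Submodule ℂ (E → ℂ) :=
        S.V (Sum.elim m fun _ : Unit => b)
          (Sum.elim (fun a => p (SwX.zt A a)) fun _ : Unit => p (yy a)) ⊔
          S.V (fun _ : Unit => t) (fun _ : Unit => p ℓ)
      have hW : Module.finrank ℂ U + S.gd (ad (ad m b) t) =
          S.gd (ad m b) + S.gd (fun _ : Unit => t) := by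
        have h := finrank_V_sup S (Sum.elim m fun _ : Unit => b) (fun _ : Unit => t)
          (Sum.elim (fun a => p (SwX.zt A a)) fun _ : Unit => p (yy a)) (fun _ : Unit => p ℓ)
        rw [h4 A (mem_univ _) a (mem_univ _) ha, h2, h5 A (mem_univ _) a (mem_univ _) ha] at h
        exact h
      have hW1 : U ≤ XT A := by
        refine sup_le_sup_right ?_ _
        rw [V_elim]
        exact inf_le_left
      have hW2 : U ≤ XT (insert a A) := by
        refine sup_le_sup_right ?_ _
        intro w hw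
        rw [S.mem_V] at hw ⊢
        intro c
        by_cases hc : c = a
        · subst hc
          have h6 := hw (Sum.inr ())
          have h7 : SwX.zt (insert c A) c = yy c := by
            unfold SwX.zt
            rw [if_pos (mem_insert_self c A)]
          rw [h7]
          exact SwX.dom S (hb c) _ w h6
        · have h6 := hw (Sum.inl c)
          have h7 : SwX.zt (insert a A) c = SwX.zt A c := by
            unfold SwX.zt
            by_cases hbT : c ∈ A
            · rw [if_pos hbT, if_pos (mem_insert_of_mem hbT)]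
            · rw [if_neg hbT, if_neg]
              intro h
              rcases mem_insert.1 h with h | h
              · exact hc h
              · exact hbT h
          rw [h7]
          exact h6
      have e1 : U = XT A := by
        refine Submodule.eq_of_le_of_finrank_eq hW1 ?_
        have := hX A
        omega
      have e2 : U = XT (insert a A) := by
        refine Submodule.eq_of_le_of_finrank_eq hW2 ?_
        have := hX (insert a A)
        omega
      rw [← e1, e2]
    have hind : ∀ A : Finset κ, XT A = XT ∅ := by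
      intro A
      induction A using Finset.induction_on with
      | empty => rfl
      | insert a A ha ih => rw [← hstep A a ha, ih]
    have z0 : (fun a => p (SwX.zt (∅ : Finset κ) a)) = fun a => p (Sum.inl a) := by
      funext a
      unfold SwX.zt
      rw [if_neg (Finset.notMem_empty a)]
    have z1 : (fun a => p (SwX.zt (univ : Finset κ) a)) = fun a => p (yy a) := by
      funext a
      unfold SwX.zt
      rw [if_pos (mem_univ a)]
    constructor
    · have e : XT ∅ = S.V m (fun a => p (Sum.inl a)) ⊔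
          S.V (fun _ : Unit => t) (fun _ : Unit => p ℓ) := by
        simp only [XT]
        rw [z0]
      have h := hX ∅
      rw [e] at h
      exact h
    · have h := hind univ
      simp only [XT] at h
      rw [z0, z1] at h
      rw [← h]
      exact le_sup_left
  obtain ⟨G, hG0, hG⟩ := hkey
  obtain ⟨v, hv⟩ : ∃ a, eval a G ≠ 0 := by
    by_contra hcon
    push Not at hcon
    exact hG0 (MvPolynomial.funext fun a => by rw [hcon a, map_zero])
  let p₀ : κ ⊕ (κ ⊕ Unit) → ν → ℂ := fun i j => v (i, j)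
  have hp₀ : eval (fun x => p₀ x.1 x.2) G ≠ 0 := hv
  let X : Submodule ℂ (E → ℂ) :=
    S.V m (fun a => p₀ (Sum.inl a)) ⊔ S.V (fun _ : Unit => t) (fun _ : Unit => p₀ ℓ)
  by_cases hX : X = ⊤
  · right
    have h1 := (hG p₀ hp₀).1
    change Module.finrank ℂ X + _ = _ at h1
    rw [hX, finrank_top, Module.finrank_fintype_fun_eq_card] at h1
    have h2 := gd_unit S t
    omega
  · left
    obtain ⟨φ, hφ0, hφ⟩ := Submodule.exists_le_ker_of_lt_top X (lt_top_iff_ne_top.mpr hX)
    refine hS κ m φ hφ0 ?_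
    refine SwX.gen_fix G p₀ hp₀ _ fun y hy => ?_
    exact ((hG (Sum.elim (fun a => p₀ (Sum.inl a))
      (Sum.elim y fun _ : Unit => p₀ (Sum.inr (Sum.inr ())))) hy).2).trans hφ

end Pool.Agent.H51.TB
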