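import Pool.Agent.H18.FatToric

/-!
# Project TB: linear systems with polynomially varying conditions

A system `S : Sys E ν T` describes subspaces of `E → ℂ`: for every type `t : T` and every position
`q : ν → ℂ` there are finitely many linear conditions, indexed by `S.R t`, whose coefficients are
polynomials in the position.
-/

namespace Pool.Agent.H51.TB

open Finset MvPolynomial

/-- Linear conditions on `E → ℂ` whose coefficients are polynomials in the position. -/
structure Sys (E ν T : Type) where
  /-- the indices of the conditions of a type -/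
  R : T → Type
  /-- there are finitely many conditions -/
  fin : ∀ t, Finite (R t)
  /-- the coefficients -/
  co : ∀ t, R t → E → MvPolynomial ν ℂ

/-- A statement about points which holds off the zero set of a nonzero polynomial. -/
def Gn (κ ν : Type) (P : (κ → ν → ℂ) → Prop) : Prop :=
  ∃ G : MvPolynomial (κ × ν) ℂ, G ≠ 0 ∧ ∀ p : κ → ν → ℂ, eval (fun x => p x.1 x.2) G ≠ 0 → P p

section

variable {E ν T : Type} [Fintype E] (S : Sys E ν T)

/-- The solutions for the types `m i` at the positions `p i`. -/
def Sys.V {κ : Type} (m : κ → T) (p : κ → ν → ℂ) : Submodule ℂ (E → ℂ) where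
  carrier := {f | ∀ i (r : S.R (m i)), ∑ e, eval (p i) (S.co (m i) r e) * f e = 0}
  zero_mem' := fun i r => by simp
  add_mem' := by
    intro f g hf hg i r
    have h1 := hf i r
    have h2 := hg i r
    simp only [Pi.add_apply, mul_add, sum_add_distrib]
    rw [h1, h2, add_zero]
  smul_mem' := by
    intro c f hf i r
    have h1 := hf i r
    have h2 : ∑ e, eval (p i) (S.co (m i) r e) * (c • f) e =
        c * ∑ e, eval (p i) (S.co (m i) r e) * f e := by
      rw [mul_sum]
      refine sum_congr rfl fun e _ => ?_
      rw [Pi.smul_apply, smul_eq_mul]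
      ring
    rw [h2, h1, mul_zero]

theorem Sys.mem_V {κ : Type} (m : κ → T) (p : κ → ν → ℂ) (f : E → ℂ) :
    f ∈ S.V m p ↔ ∀ i (r : S.R (m i)), ∑ e, eval (p i) (S.co (m i) r e) * f e = 0 := Iff.rfl

/-- The dimension of the space of solutions at general positions (the smallest one). -/
noncomputable def Sys.gd {κ : Type} (m : κ → T) : ℕ :=
  sInf (Set.range fun p : κ → ν → ℂ => Module.finrank ℂ (S.V m p))

/-- The number of independent conditions of one general point of type `t`. -/
noncomputable def Sys.size (t : T) : ℕ := Fintype.card E - S.gd fun _ : Unit => t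

/-- The spaces of solutions at general positions are not contained in a fixed proper subspace,
unless they vanish. -/
def Sys.Span : Prop :=
  ∀ (κ : Type) [Fintype κ] (m : κ → T) (φ : (E → ℂ) →ₗ[ℂ] ℂ), φ ≠ 0 →
    Gn κ ν (fun p => S.V m p ≤ LinearMap.ker φ) → S.gd m = 0

/-- The type `b` dominates the type `t`. -/
def Sys.Dom (b t : T) : Prop :=
  ∀ q : ν → ℂ, S.V (fun _ : Unit => b) (fun _ => q) ≤ S.V (fun _ : Unit => t) fun _ => q

/-- One more point of type `t`. -/
def ad {κ : Type} (m : κ → T) (t : T) : κ ⊕ Unit → T := Sum.elim m fun _ => t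

end

end Pool.Agent.H51.TB
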