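import Pool.Agent.H51.TB.Sw

/-!
# Module A5 (TB): the window lemma

Proof (as in `Pool/Agent/H21/NX/Chain.lean`).  Let `A_j = m + j b` (`j` further points of type `b`;
e.g. `Sum.elim m fun _ : Fin j => b`), `g_j = gd A_j`, `G_j = gd (A_j, t)`, `c_j = g_j - G_j`.
`g_{j+1} ≥ g_j - size b` (`gd_le_ad`), so `g_j ≥ gd m - j * size b > 0` for `j ≤ size t - 1`.
Suppose `c_0 ≠ size t`, so `c_0 < size t` (`gd_le_ad`) and `size t ≥ 1`.  By `gd_submod`
`c_{j+1} ≤ c_j`, and if equality holds and `g_j ≠ 0` then `c_j = size t` by `swap` (all types of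
`A_j` are dominated by `b`), impossible since `c_j ≤ c_0 < size t`.  Hence `c_{j+1} < c_j` for
`j < size t - 1`, so `c_{size t - 1} = 0`, and `gd_simple` gives `g_{size t - 1} = 0`, a contradiction.
(The order in which points are added does not matter: `gd_comp_equiv`.)
-/

namespace Pool.Agent.H51.TB

open Finset MvPolynomial

/-- An equivalence of index types. -/
private noncomputable def WinX.eqv (κ : Type) (j : ℕ) : (κ ⊕ Fin j) ⊕ Unit ≃ κ ⊕ Fin (j + 1) :=
  (Equiv.sumAssoc κ (Fin j) Unit).trans
    (Equiv.sumCongr (Equiv.refl κ) (Fintype.equivOfCardEq (by simp)))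

private theorem WinX.g_succ {E ν T : Type} [Fintype E] (S : Sys E ν T) {κ : Type} (m : κ → T)
    (b : T) (j : ℕ) :
    S.gd (ad (Sum.elim m fun _ : Fin j => b) b) = S.gd (Sum.elim m fun _ : Fin (j + 1) => b) := by
  rw [← gd_comp_equiv S (WinX.eqv κ j)]
  congr 1
  funext i
  rcases i with (i | i) | i <;> rfl

private theorem WinX.G_succ {E ν T : Type} [Fintype E] (S : Sys E ν T) {κ : Type} (m : κ → T)
    (t b : T) (j : ℕ) :
    S.gd (ad (ad (Sum.elim m fun _ : Fin j => b) b) t) =
      S.gd (ad (Sum.elim m fun _ : Fin (j + 1) => b) t) := by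
  rw [← gd_comp_equiv S (Equiv.sumCongr (WinX.eqv κ j) (Equiv.refl Unit))]
  congr 1
  funext i
  rcases i with ((i | i) | i) | i <;> rfl

private theorem WinX.g_zero {E ν T : Type} [Fintype E] (S : Sys E ν T) {κ : Type} (m : κ → T)
    (b : T) : S.gd (Sum.elim m fun _ : Fin 0 => b) = S.gd m := by
  rw [← gd_comp_equiv S (Equiv.sumEmpty κ (Fin 0))]
  congr 1
  funext i
  rcases i with i | i
  · rfl
  · exact i.elim0

private theorem WinX.G_zero {E ν T : Type} [Fintype E] (S : Sys E ν T) {κ : Type} (m : κ → T)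
    (t b : T) : S.gd (ad (Sum.elim m fun _ : Fin 0 => b) t) = S.gd (ad m t) := by
  rw [← gd_comp_equiv S (Equiv.sumCongr (Equiv.sumEmpty κ (Fin 0)) (Equiv.refl Unit))]
  congr 1
  funext i
  rcases i with (i | i) | i
  · rfl
  · exact i.elim0
  · rfl

variable {E ν T : Type} [Fintype E] (S : Sys E ν T) {κ : Type}

theorem window (hS : S.Span) [Fintype κ] (m : κ → T) (t b : T) (hb : ∀ i, S.Dom b (m i))
    (h : (S.size t - 1) * S.size b < S.gd m) : S.gd m = S.gd (ad m t) + S.size t := by
  classical
  set g : ℕ → ℕ := fun j => S.gd (Sum.elim m fun _ : Fin j => b) with hg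
  set G : ℕ → ℕ := fun j => S.gd (ad (Sum.elim m fun _ : Fin j => b) t) with hG
  have h1 : ∀ j, G j ≤ g j := fun j => gd_ad_le S _ t
  have h2 : ∀ j, g j ≤ G j + S.size t := fun j => gd_le_ad S (Sum.elim m fun _ : Fin j => b) t
  have h3 : ∀ j, g j ≤ g (j + 1) + S.size b := fun j => by
    have := gd_le_ad S (Sum.elim m fun _ : Fin j => b) b
    rw [WinX.g_succ] at this
    exact this
  have h4 : ∀ j, G j + g (j + 1) ≤ g j + G (j + 1) := fun j => by
    have := gd_submod S (Sum.elim m fun _ : Fin j => b) b t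
    rw [WinX.g_succ, WinX.G_succ] at this
    change g (j + 1) + G j ≤ g j + G (j + 1) at this
    omega
  have h5 : ∀ j, g j ≠ 0 → G j + g (j + 1) = g j + G (j + 1) → g j = G j + S.size t := by
    intro j hj he
    have hmj : ∀ a, S.Dom b ((Sum.elim m fun _ : Fin j => b) a) := by
      rintro (a | a)
      · exact hb a
      · exact fun q => le_rfl
    rcases swap S hS (Sum.elim m fun _ : Fin j => b) t b hmj (by
      rw [WinX.g_succ, WinX.G_succ]
      change g j + G (j + 1) = G j + g (j + 1)
      exact he.symm) with h | h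
    · exact absurd h hj
    · exact h
  have hg0 : g 0 = S.gd m := WinX.g_zero S m b
  have hG0 : G 0 = S.gd (ad m t) := WinX.G_zero S m t b
  have hlow : ∀ j, g 0 ≤ g j + j * S.size b := by
    intro j
    induction j with
    | zero => simp
    | succ j ih =>
      have := h3 j
      have e : (j + 1) * S.size b = j * S.size b + S.size b := by ring
      omega
  have hne : ∀ j, j ≤ S.size t - 1 → g j ≠ 0 := by
    intro j hj h0
    have i1 := hlow j
    have i2 : j * S.size b ≤ (S.size t - 1) * S.size b := Nat.mul_le_mul_right _ hj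
    omega
  rw [← hg0, ← hG0]
  by_contra hcon
  have a1 := h1 0
  have a2 := h2 0
  have hpos : 1 ≤ S.size t := by omega
  have key : ∀ j, j ≤ S.size t - 1 → g j - G j + j ≤ S.size t - 1 := by
    intro j
    induction j with
    | zero => intro _; omega
    | succ j ih =>
      intro hj
      have i1 := ih (by omega)
      have i2 := h4 j
      have i3 := h1 j
      have i4 := h1 (j + 1)
      have i5 : g j ≠ 0 := hne j (by omega)
      have i6 : G j + g (j + 1) ≠ g j + G (j + 1) := fun he => by
        have := h5 j i5 he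
        omega
      omega
  have k1 := key _ le_rfl
  have k2 := h1 (S.size t - 1)
  have k3 : G (S.size t - 1) = g (S.size t - 1) := by omega
  exact hne _ le_rfl (gd_simple S hS _ t hpos k3)

end Pool.Agent.H51.TB
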